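import Pool.Agent.N976.EN.Def
import Pool.Agent.N976.SC.T4d
import Pool.Agent.N976.SC.T1

/-! (X1) The table of the interactions of packets at arbitrary well separated scales. -/

open Set Filter Topology MeasureTheory
open scoped ContDiff

set_option autoImplicit false

namespace Pool.Agent.N976.EN

open Pool.Agent.N976.SC

namespace X1

open Pool.Agent.N976.SC.T4

lemma PP0 (s : ℝ) (φ ψ : E3 → E3) : PP s 0 φ ψ = φ := by
  ext1 y
  simp [PP]

lemma pk_mul (a b : ℝ) (v : E3 → E3) : pk (a * b) v 1 = pk a (pk b v 1) 1 := by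
  ext1 y
  simp only [pk]
  rw [smul_smul, smul_smul, mul_pow, mul_pow, mul_comm (b ^ (2 * 1)) (a ^ (2 * 1))]

lemma pk_div {a b : ℝ} (ha : 0 < a) (v : E3 → E3) : pk b v 1 = pk a (pk (b / a) v 1) 1 := by
  rw [← pk_mul, mul_div_cancel₀ _ ha.ne']

section pair

variable {φ ψ : E3 → E3} {ρ ρ' a b : ℝ}

/-- two well separated scales -/
structure Sep (ρ' a b : ℝ) : Prop where
  a0 : 0 < a
  s1 : 1 < b / a
  hρ : 1 ≤ ρ' * (b / a) ^ 2

lemma n1 (h : Pk φ ψ ρ ρ') (hs : Sep ρ' a b) : ip (pk a φ 1) (pk b φ 1) = 0 := by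
  rw [pk_div hs.a0 φ (b := b), ip_pk hs.a0]
  have := t5 h hs.s1 hs.hρ 0 1 le_rfl
  rwa [PP0] at this

lemma l1 (h : Pk φ ψ ρ ρ') (hs : Sep ρ' a b) : ip (LL (pk a φ 1)) (pk b φ 1) = 0 := by
  rw [pk_div hs.a0 φ (b := b), ip_LL_pk hs.a0 _ (Sφ h).diff]
  have := t2a h hs.s1 hs.hρ 0 1 le_rfl
  rwa [PP0] at this

lemma l2 (h : Pk φ ψ ρ ρ') (hs : Sep ρ' a b) : ip (LL (pk b φ 1)) (pk a φ 1) = 0 := by
  rw [pk_div hs.a0 φ (b := b), ip_LL_pk hs.a0 _ (Sφ1 h hs.s1 1).diff]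
  have := t2b h hs.s1 hs.hρ 0 1 le_rfl
  rwa [PP0] at this

lemma l3 (h : Pk φ ψ ρ ρ') (ha : 0 < a) :
    ip (LL (pk a φ 1)) (pk a φ 1) = ip (fun y => Am (φ y)) φ := by
  rw [ip_LL_pk ha _ (Sφ h).diff, LL_self (Sφ h)]

lemma d1 (h : Pk φ ψ ρ ρ') (hs : Sep ρ' a b) : ip (lap (pk a φ 1)) (pk b φ 1) = 0 := by
  rw [pk_div hs.a0 φ (b := b), ip_lap_pk hs.a0 _ (Sφ h).sm]
  have := t4 h hs.s1 hs.hρ 0 1 le_rfl
  rw [PP0] at this
  rw [this, mul_zero]

lemma d2 (h : Pk φ ψ ρ ρ') (hs : Sep ρ' a b) (hb : 0 < b) :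
    ip (lap (pk b φ 1)) (pk a φ 1) = 0 := by
  rw [ip_lap ((Sφ h).pk hb 1) ((Sφ h).pk hs.a0 1), ip_comm, d1 h hs]

lemma d3 (h : Pk φ ψ ρ ρ') (ha : 0 < a) :
    ip (lap (pk a φ 1)) (pk a φ 1) = -(a ^ 4 * dir φ) := by
  rw [ip_lap_pk ha _ (Sφ h).sm, ip_lap_self (Sφ h), mul_one]
  ring

lemma a1 (h : Pk φ ψ ρ ρ') (hs : Sep ρ' a b) :
    ip (adv (pk b φ 1) (pk b φ 1)) (pk a φ 1) = a ^ 5 * -ip (fun y => Am (φ y)) φ := by
  rw [pk_div hs.a0 φ (b := b), ip_adv_pk hs.a0 _ (Sφ1 h hs.s1 1).diff]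
  have := t1a h hs.s1 hs.hρ 0 1 le_rfl
  rw [PP0] at this
  rw [this, mul_one]

lemma a2 (h : Pk φ ψ ρ ρ') (hs : Sep ρ' a b) :
    ip (adv (pk a φ 1) (pk a φ 1)) (pk b φ 1) = 0 := by
  rw [pk_div hs.a0 φ (b := b), ip_adv_pk hs.a0 _ (Sφ h).diff]
  have := t1bc h hs.s1 hs.hρ 0 1 le_rfl
  rw [PP0] at this
  rw [this]
  simp

lemma a3 (h : Pk φ ψ ρ ρ') (ha : 0 < a) :
    ip (adv (pk a φ 1) (pk a φ 1)) (pk a φ 1) = 0 := by
  rw [ip_adv_pk ha _ (Sφ h).diff]
  have h1 := ip_adv_anti (h.smφ.of_le (by simp)) (h.smφ.of_le (by simp))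
      (h.smφ.of_le (by simp)) h.divφ (Or.inl (Sφ h).cs)
  have h2 : ip (adv φ φ) φ = 0 := by linarith
  rw [h2, mul_zero]

lemma pp (h : Pk φ ψ ρ ρ') (hs : Sep ρ' a b) (y : E3) :
    adv (pk a φ 1) (pk b φ 1) y + adv (pk b φ 1) (pk a φ 1) y = a ^ 5 • LL (pk b φ 1) y := by
  have h1 := p1 h hs.s1 hs.hρ 0 1 le_rfl (a ^ (2 * 1) • y)
  rw [PP0] at h1
  rw [pk_div hs.a0 φ (b := b), adv_pk (Sφ1 h hs.s1 1).diff, adv_pk (Sφ h).diff,
    LL_pk (Sφ1 h hs.s1 1).diff]
  simp only [dl]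
  rw [← smul_add, h1]
  simp only [zero_mul, zero_smul, ite_self, add_zero]
  rw [smul_smul, ← pow_add]

end pair

/-- the constraint fields -/
noncomputable def R (q : ℕ → ℝ) (β lam : ℝ) (P : E3 → E3) : Fin 3 × ℕ → E3 → E3
  | (0, 0) => adv (pk (q 0) P 1) (pk (q 0) P 1)
  | (0, n + 1) => fun y => (adv (pk (q (n + 1)) P 1) (pk (q (n + 1)) P 1) y -
      adv (pk (q n) P 1) (pk (q n) P 1) y) - (β * q n ^ 5) • pk (q n) P 1 y
  | (1, n) => fun y => LL (pk (q n) P 1) y + β • pk (q n) P 1 y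
  | (2, n) => fun y => lap (pk (q n) P 1) y + (lam * q n ^ 4) • pk (q n) P 1 y

lemma pk_out1 {P : E3 → E3} (hP : ∀ y, 1 / 2 ≤ ‖y‖ → P y = 0) {q : ℝ} (hq : 1 < q) {y : E3}
    (hy : 1 ≤ q ^ 2 * ‖y‖) : pk q P 1 y = 0 ∧ fderiv ℝ (pk q P 1) y = 0 ∧ lap (pk q P 1) y = 0 := by
  have h1 : 1 / 2 < q ^ (2 * 1) * ‖y‖ := by
    rw [mul_one]
    linarith
  exact ⟨pk_out hP hq 1 y h1.le, fderiv_pk_out hP hq 1 y h1,
    lap_zero_of (open_gt (q ^ (2 * 1)) (1 / 2))
      (fun z hz => pk_out hP hq 1 z (le_of_lt hz)) h1⟩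

/-- the integrals of the packet -/
lemma consts {φ ψ : E3 → E3} {ρ ρ' : ℝ} (h : Pk φ ψ ρ ρ') : 0 < ip φ φ ∧ 0 < dir φ := by
  have hP := Sφ h
  have hb := h.bpos
  constructor
  · have hne : ∃ y, φ y ≠ 0 := by
      by_contra hcon
      push Not at hcon
      have : ip (fun y => Am (φ y)) φ = 0 := by
        unfold ip
        simp [hcon]
      linarith
    obtain ⟨y, hy⟩ := hne
    unfold ip
    refine int_pos_of (hP.sm.continuous.inner hP.sm.continuous) ?_ (fun y => ?_) (y := y) ?_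
    · refine hP.cs.mono ?_
      intro y hy
      simp only [Function.mem_support] at hy ⊢
      intro h0
      exact hy (by rw [h0, inner_zero_right])
    · rw [real_inner_self_eq_norm_sq]
      positivity
    · rw [real_inner_self_eq_norm_sq]
      have := norm_pos_iff.2 hy
      positivity
  · unfold dir
    have hci : ∀ i : Fin 3, Continuous (fun y => fderiv ℝ φ y (bv i)) := fun i =>
      (hP.dd (bv i)).sm.continuous
    refine int_pos_of (y := 0) ?_ ?_ (fun y => by positivity) ?_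
    · exact continuous_finsetSum _ fun i _ => ((hci i).norm.pow 2)
    · refine (hP.cs.fderiv (𝕜 := ℝ)).mono ?_
      intro y hy
      simp only [Function.mem_support] at hy ⊢
      intro h0
      exact hy (by simp [h0])
    · have h3 : fderiv ℝ φ 0 = AL := by
        refine (φ_lin h ?_).2
        rw [norm_zero]
        have := h.ρ0
        have := h.ρ1
        linarith
      rw [h3]
      have h4 : ‖AL (bv 0)‖ ^ 2 = 1 := by
        rw [AL_apply, ← real_inner_self_eq_norm_sq, inner_E3]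
        simp [Am, bv]
      have h5 : 0 < ∑ i : Fin 3, ‖AL (bv i)‖ ^ 2 := by
        rw [Fin.sum_univ_three, h4]
        positivity
      exact h5.ne'

section table

variable {φ ψ : E3 → E3} {ρ ρ' : ℝ} {q : ℕ → ℝ}

lemma growth {C : ℝ} (hC : 1 ≤ C) (hq1 : ∀ n, C ≤ q n) (hq2 : ∀ n, C * q n ≤ q (n + 1)) (m j : ℕ) :
    C * q m ≤ q (m + j + 1) := by
  induction j with
  | zero => exact hq2 m
  | succ j ih =>
    have h1 := hq2 (m + j + 1)
    have h2 := hq1 (m + j + 1)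
    have h3 : q (m + j + 1) ≤ C * q (m + j + 1) := by nlinarith
    calc C * q m ≤ q (m + j + 1) := ih
      _ ≤ C * q (m + j + 1) := h3
      _ ≤ q (m + (j + 1) + 1) := h1

lemma sep (h : Pk φ ψ ρ ρ') (hq1 : ∀ n, 2 + 1 / ρ' ≤ q n)
    (hq2 : ∀ n, (2 + 1 / ρ') * q n ≤ q (n + 1)) (m n : ℕ) (hmn : m < n) :
    Sep ρ' (q m) (q n) := by
  have hρ' := h.ρ0
  have h1 : 0 < 1 / ρ' := by positivity
  have h0 : 0 < q m := by
    have := hq1 m
    linarith
  have h2 : 2 + 1 / ρ' ≤ q n / q m := by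
    rw [le_div_iff₀ h0]
    obtain ⟨j, rfl⟩ := Nat.exists_eq_add_of_lt hmn
    exact growth (by linarith) hq1 hq2 m j
  refine ⟨h0, by linarith, ?_⟩
  have h3 : 1 / ρ' ≤ (q n / q m) ^ 2 := by nlinarith
  have h4 := mul_le_mul_of_nonneg_left h3 hρ'.le
  rwa [mul_one_div_cancel hρ'.ne'] at h4

end table

end X1

open X1 T4 in
theorem t_TX : S_TX := by
  obtain ⟨φ, ψ, ρ, ρ', h⟩ := SC.T1.t_PK
  have hP : Sm φ := Sφ h
  have hPo := h.outφ
  obtain ⟨hN0, hμ0⟩ := consts h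
  obtain ⟨b, hb⟩ : ∃ b, b = -ip (fun y => Am (φ y)) φ := ⟨_, rfl⟩
  have hb0 : 0 < b := by rw [hb]; exact h.bpos
  obtain ⟨N, hN⟩ : ∃ N, N = ip φ φ := ⟨_, rfl⟩
  obtain ⟨μ, hμ⟩ : ∃ μ, μ = dir φ := ⟨_, rfl⟩
  rw [← hN] at hN0
  rw [← hμ] at hμ0
  obtain ⟨β, hβ⟩ : ∃ β, β = b / N := ⟨_, rfl⟩
  obtain ⟨lam, hlam⟩ : ∃ lam, lam = μ / N := ⟨_, rfl⟩
  have hβN : β * N = b := by rw [hβ]; field_simp
  have hlN : lam * N = μ := by rw [hlam]; field_simp
  refine ⟨2 + 1 / ρ', β, lam, φ, fun q hq1 hq2 => ⟨R q β lam φ, ?_⟩⟩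
  have hρ' := h.ρ0
  have hρi : 0 < 1 / ρ' := by positivity
  have hq : ∀ n, 1 < q n := fun n => by
    have := hq1 n
    linarith
  have hq0 : ∀ n, 0 < q n := fun n => by
    have := hq n
    linarith
  have hsep := sep h hq1 hq2
  have hPn : ∀ n, Sm (pk (q n) φ 1) := fun n => hP.pk (hq0 n) 1
  -- the integrals
  have G1 : ∀ m n, ip (pk (q m) φ 1) (pk (q n) φ 1) = if m = n then N else 0 := by
    intro m n
    split_ifs with hmn
    · subst hmn
      rw [ip_pk (hq0 m), hN]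
    · rcases Nat.lt_or_gt_of_ne hmn with hlt | hlt
      · exact n1 h (hsep m n hlt)
      · rw [ip_comm]
        exact n1 h (hsep n m hlt)
  have G2 : ∀ m n, ip (pk (q m) φ 1) (LL (pk (q n) φ 1)) = if m = n then -b else 0 := by
    intro m n
    rw [ip_comm]
    split_ifs with hmn
    · subst hmn
      rw [l3 h (hq0 m), hb, neg_neg]
    · rcases Nat.lt_or_gt_of_ne hmn with hlt | hlt
      · exact l2 h (hsep m n hlt)
      · exact l1 h (hsep n m hlt)
  have G4 : ∀ m n, ip (pk (q m) φ 1) (lap (pk (q n) φ 1)) =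
      if m = n then -(q n ^ 4 * μ) else 0 := by
    intro m n
    rw [ip_comm]
    split_ifs with hmn
    · subst hmn
      rw [d3 h (hq0 m), hμ]
    · rcases Nat.lt_or_gt_of_ne hmn with hlt | hlt
      · exact d2 h (hsep m n hlt) (hq0 n)
      · exact d1 h (hsep n m hlt)
  have G5 : ∀ m n, ip (pk (q m) φ 1) (adv (pk (q n) φ 1) (pk (q n) φ 1)) =
      if m < n then q m ^ 5 * b else 0 := by
    intro m n
    rw [ip_comm]
    rcases lt_trichotomy m n with hlt | heq | hlt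
    · rw [if_pos hlt, a1 h (hsep m n hlt), hb]
    · subst heq
      rw [if_neg (by omega), a3 h (hq0 m)]
    · rw [if_neg (by omega), a2 h (hsep n m hlt)]
  have hadv : ∀ n, Sm (adv (pk (q n) φ 1) (pk (q n) φ 1)) := fun n => (hPn n).adv (hPn n).sm
  constructor
  · rw [hβ]
    positivity
  · rw [hlam]
    positivity
  · exact h.smφ
  · exact h.outφ
  · exact h.divφ
  · rintro ⟨i, n⟩
    fin_cases i
    · cases n with
      | zero => exact (hadv 0).sm
      | succ n => exact (((hadv (n + 1)).sub (hadv n)).sub ((hPn n).smul _)).sm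
    · exact ((hPn n).LL.add ((hPn n).smul _)).sm
    · exact ((hPn n).lap.add ((hPn n).smul _)).sm
  · intro i y hy
    obtain ⟨o1, o2, o3⟩ := pk_out1 hPo (hq 0) hy
    fin_cases i
    · simp only [R, adv]
      rw [o1, map_zero]
    · simp only [R, LL]
      rw [o1, o2, Am_zero]
      simp
    · simp only [R]
      rw [o1, o3]
      simp
  · intro i n y hy
    obtain ⟨o1, o2, o3⟩ := pk_out1 hPo (hq n) hy
    have hle : q n ≤ q (n + 1) := by
      have h1 := hq2 n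
      have h2 := hq0 n
      nlinarith
    have hy' : 1 ≤ q (n + 1) ^ 2 * ‖y‖ := by
      have h1 : q n ^ 2 ≤ q (n + 1) ^ 2 := pow_le_pow_left₀ (hq0 n).le hle 2
      nlinarith [norm_nonneg y]
    obtain ⟨o1', o2', o3'⟩ := pk_out1 hPo (hq (n + 1)) hy'
    fin_cases i
    · simp only [R, adv]
      rw [o1, o1', map_zero, map_zero]
      simp
    · simp only [R, LL]
      rw [o1', o2', Am_zero]
      simp
    · simp only [R]
      rw [o1', o3']
      simp
  · exact ⟨N, hN0, G1⟩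
  · rintro m ⟨i, n⟩
    have hc := (hPn m).sm.continuous
    change ip (pk (q m) φ 1) _ = 0
    fin_cases i
    · cases n with
      | zero =>
        change ip (pk (q m) φ 1) (adv (pk (q 0) φ 1) (pk (q 0) φ 1)) = 0
        rw [G5, if_neg (by omega)]
      | succ n =>
        change ip (pk (q m) φ 1) (fun y => (adv (pk (q (n + 1)) φ 1) (pk (q (n + 1)) φ 1) y -
          adv (pk (q n) φ 1) (pk (q n) φ 1) y) - (β * q n ^ 5) • pk (q n) φ 1 y) = 0
        rw [ip_sub hc ((hadv (n + 1)).sub (hadv n)) ((hPn n).smul _),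
          ip_sub hc (hadv (n + 1)) (hadv n), ip_smul, G5, G5, G1]
        rcases lt_trichotomy m n with hlt | heq | hlt
        · rw [if_pos (by omega), if_pos hlt, if_neg (by omega)]
          ring
        · subst heq
          rw [if_pos (by omega), if_neg (by omega), if_pos rfl, ← hβN]
          ring
        · rw [if_neg (by omega), if_neg (by omega), if_neg (by omega)]
          ring
    · change ip (pk (q m) φ 1) (fun y => LL (pk (q n) φ 1) y + β • pk (q n) φ 1 y) = 0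
      rw [ip_add hc (hPn n).LL ((hPn n).smul _), ip_smul, G2, G1]
      split_ifs
      · linarith
      · ring
    · change ip (pk (q m) φ 1) (fun y => lap (pk (q n) φ 1) y +
        (lam * q n ^ 4) • pk (q n) φ 1 y) = 0
      rw [ip_add hc (hPn n).lap ((hPn n).smul _), ip_smul, G4, G1]
      split_ifs
      · rw [← hlN]
        ring
      · ring
  · intro n y
    change adv (pk (q n) φ 1) (pk (q n) φ 1) y = _
    induction n with
    | zero => simp [R]
    | succ n ih =>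
      rw [Finset.sum_range_succ (fun k => R q β lam φ (0, k) y) (n + 1),
        Finset.sum_range_succ (fun j => q j ^ 5 • pq φ (q j) y) n]
      have e1 : R q β lam φ (0, n + 1) y = (adv (pk (q (n + 1)) φ 1) (pk (q (n + 1)) φ 1) y -
          adv (pk (q n) φ 1) (pk (q n) φ 1) y) - (β * q n ^ 5) • pk (q n) φ 1 y := rfl
      have e2 : pq φ (q n) y = pk (q n) φ 1 y := rfl
      rw [e1, e2, ih]
      module
  · intro m n y hmn
    change adv (pk (q m) φ 1) (pk (q n) φ 1) y + adv (pk (q n) φ 1) (pk (q m) φ 1) y =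
      q m ^ 5 • ((LL (pk (q n) φ 1) y + β • pk (q n) φ 1 y) - β • pk (q n) φ 1 y)
    rw [pp h (hsep m n hmn), add_sub_cancel_right]
  · intro n y
    change lap (pk (q n) φ 1) y = (lap (pk (q n) φ 1) y + (lam * q n ^ 4) • pk (q n) φ 1 y) -
      (lam * q n ^ 4) • pk (q n) φ 1 y
    rw [add_sub_cancel_right]

end Pool.Agent.N976.EN
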