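import Pool.Agent.N976.EN.Def2
import Pool.Agent.N976.SC.T4a

/-!
# (M0) smoothness in time of the cascade, (M1) regularity of sums of packets (helper222)
-/

open Set Filter Topology MeasureTheory
open scoped ContDiff

set_option autoImplicit false

namespace Pool.Agent.N976.EN.M01

open Pool.Agent.N976.SC Pool.Agent.N976.EN

lemma cas_fin {ε : ℝ} {q : ℕ → ℝ} {T : ℝ} {σ : ℕ → ℝ} {x g : ℕ → ℝ → ℝ}
    (h : Cas ε q T σ x g) : ∀ T' < T, ∃ M, ∀ n ≥ M, ∀ t ∈ Icc 0 T', x n t = 0 := by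
  intro T' hT'
  have h1 : ∀ᶠ n in atTop, T' < σ n := h.σl.eventually (lt_mem_nhds hT')
  obtain ⟨n, hn⟩ := h1.exists
  refine ⟨n + 1, fun m hm t ht => ?_⟩
  obtain ⟨k, rfl⟩ : ∃ k, m = k + 1 := ⟨m - 1, by omega⟩
  exact h.act k t ⟨ht.1, ht.2.trans (hn.le.trans (h.σm.monotone (by omega)))⟩

lemma cas_sm {ε : ℝ} {q : ℕ → ℝ} {T : ℝ} {σ : ℕ → ℝ} {x g : ℕ → ℝ → ℝ}
    (h : Cas ε q T σ x g) (k : ℕ) : ∀ n, ContDiffOn ℝ k (x n) (Ico 0 T) := by
  induction k with
  | zero =>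
    intro n
    rw [Nat.cast_zero, contDiffOn_zero]
    exact fun t ht => (h.ode n t ht).continuousWithinAt
  | succ k ih =>
    intro n
    have hd : ∀ t ∈ Ico 0 T, derivWithin (x n) (Ico 0 T) t =
        vx q (fun m => x m t) n + g n t :=
      fun t ht => (h.ode n t ht).derivWithin (uniqueDiffOn_Ico 0 T t ht)
    rw [Nat.cast_succ, contDiffOn_succ_iff_derivWithin (uniqueDiffOn_Ico 0 T)]
    refine ⟨fun t ht => (h.ode n t ht).differentiableWithinAt, by simp, ?_⟩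
    refine ContDiffOn.congr ?_ hd
    refine contDiffOn_of_locally_contDiffOn fun t ht => ?_
    obtain ⟨T', hT1, hT2⟩ := exists_between ht.2
    obtain ⟨M, hM⟩ := cas_fin h T' hT2
    refine ⟨Iio T', isOpen_Iio, hT1, ?_⟩
    have hs : Ico 0 T ∩ Iio T' ⊆ Ico 0 T := inter_subset_left
    have e : ∀ t ∈ Ico 0 T ∩ Iio T', vx q (fun m => x m t) n + g n t =
        (-(q n ^ 4 * x n t) + x n t * ∑ i ∈ Finset.range n, q i ^ 5 * x i t
          - q n ^ 5 * ∑ m ∈ Finset.range M, x (n + 1 + m) t ^ 2) + g n t := by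
      intro t ht
      unfold vx
      rw [tsum_eq_sum (s := Finset.range M)]
      intro m hm
      rw [Finset.mem_range, not_lt] at hm
      have h0 : x (n + 1 + m) t = 0 := hM (n + 1 + m) (by omega) t ⟨ht.1.1, le_of_lt ht.2⟩
      simp only [h0]
      norm_num
    refine ContDiffOn.congr ?_ e
    have hx : ∀ m, ContDiffOn ℝ k (x m) (Ico 0 T ∩ Iio T') := fun m => (ih m).mono hs
    have hg : ContDiffOn ℝ k (g n) (Ico 0 T ∩ Iio T') :=
      ((h.gsm n).of_le (by exact_mod_cast le_top)).contDiffOn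
    refine ContDiffOn.add (ContDiffOn.sub (ContDiffOn.add ?_ ?_) ?_) hg
    · exact (contDiffOn_const.mul (hx n)).neg
    · exact (hx n).mul (ContDiffOn.sum fun i _ => contDiffOn_const.mul (hx i))
    · exact contDiffOn_const.mul (ContDiffOn.sum fun m _ => (hx _).pow 2)

theorem t_M0 : S_M0 := by
  intro ε q T σ x g h
  exact ⟨cas_fin h, fun n => contDiffOn_infty.2 fun k => cas_sm h k n⟩

/-! ### sums of packets -/

lemma pq_cd {P : E3 → E3} (hP : ContDiff ℝ ∞ P) (q : ℝ) : ContDiff ℝ ∞ (pq P q) := by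
  unfold pq pk
  exact T4.cd_sm (T4.cd_dl hP _) _

lemma pq_out {P : E3 → E3} (hP : ∀ y, 1 / 2 ≤ ‖y‖ → P y = 0) {q : ℝ} (hq : 1 ≤ q) (y : E3)
    (hy : 1 / 2 ≤ ‖y‖) : pq P q y = 0 := by
  unfold pq pk
  rw [hP, smul_zero]
  rw [norm_smul, Real.norm_of_nonneg (by positivity)]
  have h1 : (1 : ℝ) ≤ q ^ (2 * 1) := one_le_pow₀ hq
  calc (1 : ℝ) / 2 = 1 * (1 / 2) := (one_mul _).symm
    _ ≤ q ^ (2 * 1) * ‖y‖ := mul_le_mul h1 hy (by norm_num) (by positivity)

lemma divg_sum {ι : Type} (s : Finset ι) (v : ι → E3 → E3) (a : ι → ℝ)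
    (hv : ∀ i, ContDiff ℝ ∞ (v i)) (hd : ∀ i y, divg (v i) y = 0) (y : E3) :
    divg (fun y => ∑ i ∈ s, a i • v i y) y = 0 := by
  have hdf : ∀ i ∈ s, DifferentiableAt ℝ (fun y => a i • v i y) y := fun i _ =>
    (((hv i).differentiable (by simp)) y).const_smul (a i)
  unfold divg
  have e : fderiv ℝ (fun y => ∑ i ∈ s, a i • v i y) y = ∑ i ∈ s, a i • fderiv ℝ (v i) y := by
    rw [fderiv_fun_sum hdf]
    refine Finset.sum_congr rfl fun i _ => ?_
    exact fderiv_fun_const_smul (((hv i).differentiable (by simp)) y) (a i)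
  rw [e]
  have e2 : ∀ j : Fin 3, ((∑ i ∈ s, a i • fderiv ℝ (v i) y) (bv j)) j =
      ∑ i ∈ s, a i * ((fderiv ℝ (v i) y (bv j)) j) := by
    intro j
    rw [sum_apply, WithLp.ofLp_sum, Finset.sum_apply]
    refine Finset.sum_congr rfl fun i _ => ?_
    simp
  simp only [e2]
  rw [Finset.sum_comm]
  refine Finset.sum_eq_zero fun i _ => ?_
  rw [← Finset.mul_sum]
  have := hd i y
  unfold divg at this
  rw [this, mul_zero]

lemma su_fin (P : E3 → E3) (q : ℕ → ℝ) (a : ℕ → ℝ) (M : ℕ) (h : ∀ n ≥ M, a n = 0) (y : E3) :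
    su P q a y = ∑ n ∈ Finset.range M, a n • pq P (q n) y := by
  unfold su
  refine tsum_eq_sum fun n hn => ?_
  rw [Finset.mem_range, not_lt] at hn
  rw [h n hn, zero_smul]

theorem t_M1 : S_M1 := by
  intro P q T X hT hP hout hdiv hq hA
  have loc : ∀ t ∈ Ico 0 T, ∃ T' M, t < T' ∧ T' < T ∧ ∀ n ≥ M, ∀ τ ∈ Icc 0 T', X n τ = 0 := by
    intro t ht
    obtain ⟨T', hT1, hT2⟩ := exists_between ht.2
    obtain ⟨M, hM⟩ := hA.fin T' hT2
    exact ⟨T', M, hT1, hT2, hM⟩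
  refine ⟨?_, ?_, ?_⟩
  · refine contDiffOn_of_locally_contDiffOn fun z hz => ?_
    obtain ⟨T', M, hT1, hT2, hM⟩ := loc z.1 hz.1
    refine ⟨Iio T' ×ˢ univ, isOpen_Iio.prod isOpen_univ, ⟨hT1, mem_univ _⟩, ?_⟩
    have e : ∀ w ∈ Ico 0 T ×ˢ univ ∩ Iio T' ×ˢ (univ : Set E3),
        (fun z : ℝ × E3 => su P q (fun n => X n z.1) z.2) w =
        (fun z : ℝ × E3 => ∑ n ∈ Finset.range M, X n z.1 • pq P (q n) z.2) w := by
      intro w hw
      exact su_fin P q _ M (fun n hn => hM n hn w.1 ⟨hw.1.1.1, le_of_lt hw.2.1⟩) w.2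
    refine ContDiffOn.congr ?_ e
    refine ContDiffOn.sum fun n _ => ContDiffOn.fun_smul ?_ ?_
    · refine (hA.sm n).comp contDiff_fst.contDiffOn ?_
      intro w hw
      exact hw.1.1
    · exact ((pq_cd hP (q n)).comp contDiff_snd).contDiffOn
  · intro t ht
    obtain ⟨T', M, hT1, hT2, hM⟩ := loc t ht
    have e : su P q (fun n => X n t) = fun y => ∑ n ∈ Finset.range M, X n t • pq P (q n) y := by
      funext y
      exact su_fin P q _ M (fun n hn => hM n hn t ⟨ht.1, hT1.le⟩) y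
    rw [e]
    refine ⟨?_, ?_, ?_⟩
    · exact ContDiff.sum fun n _ => T4.cd_sm (pq_cd hP (q n)) (X n t)
    · intro y hy
      refine Finset.sum_eq_zero fun n _ => ?_
      rw [pq_out hout (hq n) y hy, smul_zero]
    · intro y
      refine divg_sum _ _ _ (fun n => pq_cd hP (q n)) (fun n y => ?_) y
      exact T4.divg_pk (hP.differentiable (by simp)) hdiv 1 y
  · intro t ht y
    obtain ⟨T', M, hT1, hT2, hM⟩ := loc t ht
    have hnear : ∀ᶠ τ in 𝓝[Ico 0 T] t, τ ∈ Icc 0 T' := by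
      filter_upwards [self_mem_nhdsWithin, mem_nhdsWithin_of_mem_nhds (Iio_mem_nhds hT1)]
        with τ h1 h2
      exact ⟨h1.1, le_of_lt h2⟩
    have hu := uniqueDiffOn_Ico 0 T t ht
    have hX : ∀ n, HasDerivWithinAt (X n) (derivWithin (X n) (Ico 0 T) t) (Ico 0 T) t := fun n =>
      (((hA.sm n).differentiableOn (by simp)) t ht).hasDerivWithinAt
    have h0 : ∀ n ≥ M, derivWithin (X n) (Ico 0 T) t = 0 := by
      intro n hn
      have e : X n =ᶠ[𝓝[Ico 0 T] t] fun _ => (0 : ℝ) := by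
        filter_upwards [hnear] with τ hτ
        exact hM n hn τ hτ
      rw [e.derivWithin_eq (hM n hn t ⟨ht.1, hT1.le⟩)]
      simp
    rw [su_fin P q _ M h0 y]
    unfold dt
    have e : (fun τ => su P q (fun n => X n τ) y) =ᶠ[𝓝[Ico 0 T] t]
        fun τ => ∑ n ∈ Finset.range M, X n τ • pq P (q n) y := by
      filter_upwards [hnear] with τ hτ
      exact su_fin P q _ M (fun n hn => hM n hn τ hτ) y
    rw [e.derivWithin_eq (su_fin P q _ M (fun n hn => hM n hn t ⟨ht.1, hT1.le⟩) y)]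
    refine HasDerivWithinAt.derivWithin ?_ hu
    exact HasDerivWithinAt.fun_sum fun n _ => (hX n).smul_const _

end Pool.Agent.N976.EN.M01

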