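import Pool.Agent.N976.EN.Def

/-!
# (X2) The cascade
-/

open Set Filter Topology MeasureTheory
open scoped ContDiff

set_option autoImplicit false

namespace Pool.Agent.N976.EN

open Pool.Agent.N976.SC

namespace X2

/-! ### The scales -/

lemma qs_pos {Q : ℝ} (hQ : 1 ≤ Q) (n : ℕ) : 0 < qs Q n := by
  unfold qs
  exact Real.rpow_pos_of_pos (by linarith) _

lemma one_le_qs {Q : ℝ} (hQ : 1 ≤ Q) (n : ℕ) : 1 ≤ qs Q n := by
  unfold qs
  exact Real.one_le_rpow hQ (by positivity)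

lemma qs_succ {Q : ℝ} (hQ : 1 ≤ Q) (n : ℕ) : qs Q (n + 1) ^ 5 = qs Q n ^ 6 := by
  unfold qs
  rw [← Real.rpow_mul_natCast (by linarith), ← Real.rpow_mul_natCast (by linarith)]
  congr 1
  push_cast
  rw [pow_succ]
  ring

lemma qs_log {Q : ℝ} (hQ : 1 ≤ Q) (n : ℕ) : Real.log (qs Q n) = (6 / 5 : ℝ) ^ n * Real.log Q := by
  unfold qs
  rw [Real.log_rpow (by linarith)]

lemma le_qs {Q : ℝ} (hQ : 1 ≤ Q) (n : ℕ) : Q ≤ qs Q n := by
  unfold qs
  have h1 : (1 : ℝ) ≤ (6 / 5 : ℝ) ^ n := one_le_pow₀ (by norm_num)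
  calc Q = Q ^ (1 : ℝ) := (Real.rpow_one Q).symm
    _ ≤ Q ^ ((6 / 5 : ℝ) ^ n) := Real.rpow_le_rpow_of_exponent_le hQ h1

lemma qs_mono {Q : ℝ} (hQ : 1 ≤ Q) {m n : ℕ} (h : m ≤ n) : qs Q m ≤ qs Q n := by
  unfold qs
  exact Real.rpow_le_rpow_of_exponent_le hQ (pow_le_pow_right₀ (by norm_num) h)

/-- the size of the seed -/
noncomputable def et (q : ℕ → ℝ) (n : ℕ) : ℝ := (q (n + 1) ^ (n + 10))⁻¹

/-- the length of a stage in the natural unit -/
noncomputable def lg (q : ℕ → ℝ) (n : ℕ) : ℝ := 20 + 10 * Real.log (1 / et q n)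

lemma lg_eq {Q : ℝ} (hQ : 1 ≤ Q) (n : ℕ) :
    lg (qs Q) n = 20 + 12 * (n + 10) * Real.log (qs Q n) := by
  unfold lg et
  rw [one_div, inv_inv, Real.log_pow, qs_log hQ, qs_log hQ, pow_succ]
  push_cast
  ring

lemma small {δ : ℝ} (hδ : 0 < δ) : ∃ Q₀ : ℝ, 1 ≤ Q₀ ∧ ∀ Q ≥ Q₀, ∀ n : ℕ,
    lg (qs Q) n * 2 ^ n ≤ δ * qs Q n ^ (1 / 5 : ℝ) := by
  obtain ⟨P₀, hP₀⟩ : ∃ P₀, P₀ = max 100 (300000 / δ) := ⟨_, rfl⟩
  have hP1 : 100 ≤ P₀ := by rw [hP₀]; exact le_max_left _ _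
  have hP2 : 300000 / δ ≤ P₀ := by rw [hP₀]; exact le_max_right _ _
  refine ⟨Real.exp P₀, Real.one_le_exp (by linarith), fun Q hQ n => ?_⟩
  have hQ1 : 1 ≤ Q := (Real.one_le_exp (by linarith)).trans hQ
  have hQ0 : 0 < Q := by linarith
  obtain ⟨P, hP⟩ : ∃ P, P = Real.log Q := ⟨_, rfl⟩
  have hPP : P₀ ≤ P := by rw [hP]; exact (Real.le_log_iff_exp_le hQ0).2 hQ
  obtain ⟨u, hu⟩ : ∃ u, u = Real.log (qs Q n) := ⟨_, rfl⟩
  have hu1 : u = (6 / 5 : ℝ) ^ n * P := by rw [hu, qs_log hQ1, hP]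
  have hb : 1 + (n : ℝ) * (1 / 5) ≤ (6 / 5 : ℝ) ^ n := by
    have := one_add_mul_le_pow (a := (1 / 5 : ℝ)) (by norm_num) n
    calc 1 + (n : ℝ) * (1 / 5) ≤ (1 + 1 / 5 : ℝ) ^ n := this
      _ = (6 / 5 : ℝ) ^ n := by norm_num
  have hn0 : (0 : ℝ) ≤ n := Nat.cast_nonneg n
  have hu2 : (1 + (n : ℝ) * (1 / 5)) * P ≤ u := by
    rw [hu1]
    exact mul_le_mul_of_nonneg_right hb (by linarith)
  have hPu : P ≤ u := by nlinarith
  have hn : (n : ℝ) ≤ u / 20 := by nlinarith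
  have hu100 : 100 ≤ u := by linarith
  have h2n : (2 : ℝ) ^ n ≤ Real.exp (u / 20) := by
    calc (2 : ℝ) ^ n ≤ Real.exp 1 ^ n := by
          apply pow_le_pow_left₀ (by norm_num)
          linarith [Real.exp_one_gt_d9]
      _ = Real.exp n := by rw [← Real.exp_nat_mul, mul_one]
      _ ≤ Real.exp (u / 20) := Real.exp_le_exp.2 hn
  have hw : qs Q n ^ (1 / 5 : ℝ) = Real.exp (u / 20) * Real.exp (3 * u / 20) := by
    rw [Real.rpow_def_of_pos (qs_pos hQ1 n), ← hu, ← Real.exp_add]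
    congr 1
    ring
  have he : (3 * u / 20) ^ 3 / 6 ≤ Real.exp (3 * u / 20) := by
    have := Real.pow_div_factorial_le_exp (3 * u / 20) (by linarith) 3
    norm_num [Nat.factorial] at this ⊢
    exact this
  have hlg : lg (qs Q) n ≤ 20 + 120 * u + u ^ 2 := by
    rw [lg_eq hQ1, ← hu]
    nlinarith
  have hδu : 300000 ≤ δ * u := by
    have h1 : 300000 / δ ≤ u := hP2.trans (hPP.trans hPu)
    rw [div_le_iff₀ hδ] at h1
    linarith [mul_comm u δ]
  have hkey : 20 + 120 * u + u ^ 2 ≤ δ * Real.exp (3 * u / 20) := by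
    calc 20 + 120 * u + u ^ 2 ≤ 141 * u ^ 2 := by nlinarith
      _ ≤ (δ * u) * u ^ 2 * (27 / 48000) := by nlinarith [sq_nonneg u]
      _ = δ * ((3 * u / 20) ^ 3 / 6) := by ring
      _ ≤ δ * Real.exp (3 * u / 20) := mul_le_mul_of_nonneg_left he hδ.le
  have hlg0 : 0 ≤ 20 + 120 * u + u ^ 2 := by positivity
  calc lg (qs Q) n * 2 ^ n ≤ (20 + 120 * u + u ^ 2) * 2 ^ n :=
        mul_le_mul_of_nonneg_right hlg (by positivity)
    _ ≤ (20 + 120 * u + u ^ 2) * Real.exp (u / 20) := mul_le_mul_of_nonneg_left h2n hlg0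
    _ ≤ (δ * Real.exp (3 * u / 20)) * Real.exp (u / 20) :=
        mul_le_mul_of_nonneg_right hkey (Real.exp_pos _).le
    _ = δ * qs Q n ^ (1 / 5 : ℝ) := by rw [hw]; ring

/-! ### The seed -/

lemma bump : ∃ χ : ℝ → ℝ, ContDiff ℝ ∞ χ ∧ (∀ t, 0 ≤ χ t) ∧ (∀ t, χ t ≠ 0 → 0 < t ∧ t < 1) ∧
    ∫ t, χ t = 1 ∧ ∀ j : ℕ, ∃ C, ∀ t, |iteratedDeriv j χ t| ≤ C := by
  let f : ContDiffBump (1 / 2 : ℝ) := ⟨1 / 8, 1 / 4, by norm_num, by norm_num⟩
  refine ⟨f.normed volume, ?_, fun t => f.nonneg_normed t, fun t ht => ?_, f.integral_normed,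
    fun j => ?_⟩
  · exact f.contDiff_normed
  · have h1 : t ∈ Function.support (f.normed volume) := ht
    rw [f.support_normed_eq, Metric.mem_ball, Real.dist_eq, abs_lt] at h1
    have h2 : f.rOut = 1 / 4 := rfl
    rw [h2] at h1
    constructor <;> linarith [h1.1, h1.2]
  · have hc : ContDiff ℝ ∞ (f.normed volume) := f.contDiff_normed
    have h1 : HasCompactSupport (iteratedFDeriv ℝ j (f.normed volume)) :=
      f.hasCompactSupport_normed.iteratedFDeriv j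
    have h2 : Continuous (iteratedFDeriv ℝ j (f.normed volume)) :=
      hc.continuous_iteratedFDeriv (by exact_mod_cast le_top)
    obtain ⟨C, hC⟩ := h2.bounded_above_of_compact_support h1
    refine ⟨C, fun t => ?_⟩
    have h3 := hC t
    rw [norm_iteratedFDeriv_eq_norm_iteratedDeriv, Real.norm_eq_abs] at h3
    exact h3

/-- the seed -/
noncomputable def sd (χ : ℝ → ℝ) (η L τ : ℝ) (t : ℝ) : ℝ := η * L * χ (L * (t - τ))

lemma sd_int {χ : ℝ → ℝ} (hχ : ∫ t, χ t = 1) {η L : ℝ} (hL : 0 < L) (τ : ℝ) :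
    ∫ t, sd χ η L τ t = η := by
  unfold sd
  rw [integral_const_mul, integral_sub_right_eq_self (fun t => χ (L * t)) τ,
    Measure.integral_comp_mul_left, hχ, abs_of_pos (by positivity), smul_eq_mul]
  field_simp

lemma sd_smooth {χ : ℝ → ℝ} (hχ : ContDiff ℝ ∞ χ) (η L τ : ℝ) : ContDiff ℝ ∞ (sd χ η L τ) := by
  unfold sd
  exact contDiff_const.mul (hχ.comp (contDiff_const.mul (contDiff_id.sub contDiff_const)))

lemma sd_deriv {χ : ℝ → ℝ} (hχ : ContDiff ℝ ∞ χ) (η L τ : ℝ) (j : ℕ) (t : ℝ) :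
    iteratedDeriv j (sd χ η L τ) t = η * L * (L ^ j * iteratedDeriv j χ (L * (t - τ))) := by
  have h0 : ContDiff ℝ j χ := hχ.of_le (by exact_mod_cast le_top)
  have h1 : sd χ η L τ = fun t => (η * L) * (fun s => (fun r => χ (L * r)) (s - τ)) t := rfl
  have h2 := congrFun (iteratedDeriv_comp_sub_const j (fun r => χ (L * r)) τ) t
  rw [iteratedDeriv_comp_const_mul h0] at h2
  rw [h1, iteratedDeriv_const_mul_field]
  exact congrArg _ h2

/-! ### Gluing -/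

lemma glue {σ : ℕ → ℝ} (hσ : StrictMono σ) (Y : ℕ → ℕ → ℝ → ℝ)
    (hY : ∀ n m, Y n m (σ (n + 1)) = Y (n + 1) m (σ (n + 1))) :
    ∃ x : ℕ → ℝ → ℝ, ∀ n, ∀ t ∈ Icc (σ n) (σ (n + 1)), ∀ m, x m t = Y n m t := by
  classical
  let N : ℝ → ℕ := fun t => if h : ∃ n, t < σ (n + 1) then Nat.find h else 0
  have hN : ∀ n, ∀ t, σ n ≤ t → t < σ (n + 1) → N t = n := by
    intro n t h1 h2
    have hex : ∃ n, t < σ (n + 1) := ⟨n, h2⟩
    show (if h : ∃ n, t < σ (n + 1) then Nat.find h else 0) = n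
    rw [dif_pos hex, Nat.find_eq_iff]
    refine ⟨h2, fun k hk h3 => ?_⟩
    have h4 : σ (k + 1) ≤ σ n := hσ.monotone hk
    linarith
  refine ⟨fun m t => Y (N t) m t, fun n t ht m => ?_⟩
  show Y (N t) m t = Y n m t
  rcases ht.2.lt_or_eq with h | h
  · rw [hN n t ht.1 h]
  · subst h
    rw [hN (n + 1) _ le_rfl (hσ (Nat.lt_succ_self _)), hY]

lemma exists_stage {σ : ℕ → ℝ} {T : ℝ} (h0 : σ 0 = 0) (hT : Tendsto σ atTop (𝓝 T)) {t : ℝ}
    (ht : t ∈ Ico 0 T) : ∃ n, σ n ≤ t ∧ t < σ (n + 1) := by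
  classical
  have h1 : ∃ n, t < σ n := (hT.eventually (lt_mem_nhds ht.2)).exists
  have h2 := Nat.find_spec h1
  have h3 : Nat.find h1 ≠ 0 := by
    intro h
    rw [h, h0] at h2
    linarith [ht.1]
  obtain ⟨n, hn⟩ := Nat.exists_eq_succ_of_ne_zero h3
  refine ⟨n, ?_, ?_⟩
  · have := Nat.find_min h1 (show n < Nat.find h1 by omega)
    linarith
  · rw [hn] at h2
    exact h2

lemma glue_deriv {σ : ℕ → ℝ} {T : ℝ} (hσ : StrictMono σ) (h0 : σ 0 = 0)
    (hT : Tendsto σ atTop (𝓝 T)) {x F : ℝ → ℝ}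
    (h : ∀ n, ∀ t ∈ Icc (σ n) (σ (n + 1)), HasDerivWithinAt x (F t) (Icc (σ n) (σ (n + 1))) t) :
    ∀ t ∈ Ico 0 T, HasDerivWithinAt x (F t) (Ico 0 T) t := by
  intro t ht
  obtain ⟨n, h1, h2⟩ := exists_stage h0 hT ht
  rcases h1.lt_or_eq with h3 | h3
  · exact ((h n t ⟨h1, h2.le⟩).hasDerivAt (Icc_mem_nhds h3 h2)).hasDerivWithinAt
  · cases n with
    | zero =>
      have h4 := h 0 t ⟨h1, h2.le⟩
      rw [h0] at h4 h3
      refine h4.mono_of_mem_nhdsWithin ?_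
      rw [← h3]
      rw [mem_nhdsWithin_iff_exists_mem_nhds_inter]
      refine ⟨Iio (σ (0 + 1)), Iio_mem_nhds (by rw [h3]; exact h2), fun z hz => ⟨hz.2.1, hz.1.le⟩⟩
    | succ n =>
      have h4 := h n t ⟨by rw [← h3]; exact (hσ (Nat.lt_succ_self n)).le, h3.symm.le⟩
      have h5 := h (n + 1) t ⟨h1, h2.le⟩
      have h6 := h4.union h5
      rw [Icc_union_Icc_eq_Icc (hσ (Nat.lt_succ_self _)).le (hσ (Nat.lt_succ_self _)).le] at h6
      refine (h6.hasDerivAt (Icc_mem_nhds ?_ h2)).hasDerivWithinAt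
      rw [← h3]
      exact hσ (Nat.lt_succ_self n)

/-! ### One stage -/

/-- the properties of the scales -/
structure Sc (δ : ℝ) (q : ℕ → ℝ) : Prop where
  two : ∀ n, 2 ≤ q n
  s5 : ∀ n, q (n + 1) ^ 5 = q n ^ 6
  mono : Monotone q
  sm : ∀ n, lg q n * 2 ^ n ≤ δ * q n ^ (1 / 5 : ℝ)
  rt : ∀ n, q (n + 1) ^ (1 / 5 : ℝ) ≤ q n
  rt0 : ∀ n, q n ^ (1 / 5 : ℝ) ≤ q n

lemma exists_sc {δ : ℝ} (hδ : 0 < δ) (Q₁ : ℝ) : ∃ Q₀ : ℝ, ∀ Q ≥ Q₀, Sc δ (qs Q) ∧
    ∀ n, Q₁ ≤ qs Q n := by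
  obtain ⟨Q₀, h1, h2⟩ := small hδ
  refine ⟨max (max 2 Q₁) Q₀, fun Q hQ => ?_⟩
  have hQ2 : 2 ≤ Q := (le_max_left _ _).trans ((le_max_left _ _).trans hQ)
  have hQ1 : Q₁ ≤ Q := (le_max_right _ _).trans ((le_max_left _ _).trans hQ)
  have hQ0 : Q₀ ≤ Q := (le_max_right _ _).trans hQ
  have hQ : 1 ≤ Q := by linarith
  refine ⟨⟨fun n => hQ2.trans (le_qs hQ n), qs_succ hQ, fun m n h => qs_mono hQ h, h2 Q hQ0, ?_, ?_⟩,
    fun n => hQ1.trans (le_qs hQ n)⟩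
  · intro n
    unfold qs
    rw [← Real.rpow_mul (by linarith)]
    apply Real.rpow_le_rpow_of_exponent_le hQ
    rw [pow_succ]
    have : (0 : ℝ) < (6 / 5 : ℝ) ^ n := by positivity
    linarith
  · intro n
    unfold qs
    rw [← Real.rpow_mul (by linarith)]
    apply Real.rpow_le_rpow_of_exponent_le hQ
    have : (0 : ℝ) < (6 / 5 : ℝ) ^ n := by positivity
    linarith

section

variable {δ : ℝ} {q : ℕ → ℝ}

lemma Sc.pos (h : Sc δ q) (n : ℕ) : 0 < q n := by linarith [h.two n]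

lemma Sc.et_pos (h : Sc δ q) (n : ℕ) : 0 < et q n := by
  unfold et
  have := h.pos (n + 1)
  positivity

lemma Sc.lg_ge (h : Sc δ q) (n : ℕ) : 20 ≤ lg q n := by
  unfold lg et
  rw [one_div, inv_inv]
  have h1 : 1 ≤ q (n + 1) ^ (n + 10) := one_le_pow₀ (by linarith [h.two (n + 1)])
  have := Real.log_nonneg h1
  linarith

/-- `20 · 2^n ≤ δ q n` -/
lemma Sc.q_ge (h : Sc δ q) (hδ : 0 < δ) (n : ℕ) : 20 * 2 ^ n ≤ δ * q n := by
  have h1 := h.sm n
  have h2 : (20 : ℝ) * 2 ^ n ≤ lg q n * 2 ^ n :=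
    mul_le_mul_of_nonneg_right (h.lg_ge n) (by positivity)
  have h3 : δ * q n ^ (1 / 5 : ℝ) ≤ δ * q n := mul_le_mul_of_nonneg_left (h.rt0 n) hδ.le
  linarith

lemma Sc.inv_le (h : Sc δ q) (hδ : 0 < δ) (n : ℕ) : 1 / q n ≤ δ / 20 / 2 ^ n := by
  have h1 := h.q_ge hδ n
  have h2 := h.pos n
  rw [div_div, div_le_div_iff₀ h2 (by positivity)]
  linarith

lemma Sc.et_le (h : Sc δ q) (hδ : 0 < δ) (n : ℕ) : et q n ≤ δ / 20 / 2 ^ n := by
  refine le_trans ?_ (h.inv_le hδ n)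
  unfold et
  rw [one_div]
  apply inv_anti₀ (h.pos n)
  calc q n ≤ q (n + 1) := h.mono (Nat.le_succ n)
    _ = q (n + 1) ^ 1 := (pow_one _).symm
    _ ≤ q (n + 1) ^ (n + 10) := pow_le_pow_right₀ (by linarith [h.two (n + 1)]) (by omega)

lemma Sc.lg_le (h : Sc δ q) (n : ℕ) : lg q n * q n ^ (-(1 / 5 : ℝ)) ≤ δ / 2 ^ n := by
  have h1 := h.sm n
  have h2 : 0 < q n ^ (1 / 5 : ℝ) := Real.rpow_pos_of_pos (h.pos n) _
  rw [Real.rpow_neg (h.pos n).le, ← div_eq_mul_inv, div_le_div_iff₀ h2 (by positivity)]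
  exact h1

/-- the invariant -/
structure Inv (δ : ℝ) (n : ℕ) (a : ℕ → ℝ) : Prop where
  pos : 0 < a n
  low : 1 - 22 * δ * (1 - (1 / 2) ^ n) ≤ a n ^ 2
  upp : √(∑ m ∈ Finset.range (n + 1), a m ^ 2) ≤ 1 + 2 * δ * (1 - (1 / 2) ^ n)
  zero : ∀ m, n < m → a m = 0

/-- one stage -/
structure Rel (δ : ℝ) (q : ℕ → ℝ) (χ : ℝ → ℝ) (n : ℕ) (τ : ℝ) (a : ℕ → ℝ) (τ' : ℝ) (a' : ℕ → ℝ)
    (y : ℕ → ℝ → ℝ) : Prop where
  ini : ∀ m, y m τ = a m
  fin : ∀ m, y m τ' = a' m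
  zero : ∀ m ≥ n + 2, ∀ t, y m t = 0
  ode : ∀ m < n + 2, ∀ t ∈ Ici τ, HasDerivWithinAt (y m) (vN q (n + 2) (fun j => y j t) m +
    if m = n + 1 then sd χ (et q n) (q n ^ 5) τ t else 0) (Ici τ) t
  τ1 : τ + 1 / q n ^ 5 < τ'
  τ2 : τ' - τ ≤ lg q n / q n ^ 5
  van : y n τ' = 0
  upp : ∀ t ∈ Icc τ τ', √(∑ m ∈ Finset.range (n + 2), y m t ^ 2) ≤ 1 + 2 * δ
  low : ∀ t ∈ Icc τ τ', 1 - 22 * δ ≤ y n t ^ 2 + y (n + 1) t ^ 2

lemma inv_zero {δ : ℝ} : Inv δ 0 (fun m => if m = 0 then 1 else 0) := by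
  refine ⟨by simp, by simp, by simp, fun m hm => ?_⟩
  rw [if_neg (by omega)]

lemma sd_out {χ : ℝ → ℝ} (hs : ∀ t, χ t ≠ 0 → 0 < t ∧ t < 1) {η L τ t : ℝ} (hL : 0 < L)
    (ht : t ≤ τ ∨ τ + 1 / L ≤ t) : sd χ η L τ t = 0 := by
  unfold sd
  have h1 : χ (L * (t - τ)) = 0 := by
    by_contra hne
    obtain ⟨h2, h3⟩ := hs _ hne
    rcases ht with h4 | h4
    · nlinarith
    · have h5 : 1 / L ≤ t - τ := by linarith
      rw [div_le_iff₀ hL] at h5
      linarith [mul_comm L (t - τ)]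
  rw [h1, mul_zero]

lemma step (hG : S_GX) {Q₁ : ℝ}
    (hS : ∀ (q : ℕ → ℝ) (n : ℕ) (τ η : ℝ) (x : ℕ → ℝ → ℝ) (g : ℝ → ℝ),
  (∀ i, Q₁ ≤ q i) → (∀ i, q (i + 1) ^ 5 = q i ^ 6) → 0 < η → η ≤ 1 / 10 →
  (20 + 10 * Real.log (1 / η)) * q n ^ (-(1 / 5 : ℝ)) ≤ 1 / 100 →
  Continuous g → (∀ t, 0 ≤ g t) → (∀ t, t ≤ τ ∨ τ + 1 / q n ^ 5 ≤ t → g t = 0) →
  (∫ t, g t) = η → (∀ m ≥ n + 2, ∀ t, x m t = 0) →
  (∀ m < n + 2, ∀ t ∈ Ici τ, HasDerivWithinAt (x m)
    (vN q (n + 2) (fun j => x j t) m + if m = n + 1 then g t else 0) (Ici τ) t) →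
  x (n + 1) τ = 0 → 9 / 10 ≤ x n τ → ∑ m ∈ Finset.range (n + 1), x m τ ^ 2 ≤ 11 / 10 →
  ∃ τ' > τ, τ + 1 / q n ^ 5 < τ' ∧ τ' - τ ≤ (20 + 10 * Real.log (1 / η)) / q n ^ 5 ∧
    x n τ' = 0 ∧ (∀ t ∈ Icc τ τ', 0 ≤ x n t) ∧ 0 < x (n + 1) τ' ∧
    (∀ t ∈ Icc τ τ', ∑ m ∈ Finset.range (n + 2), x m t ^ 2 ≤
      (√(∑ m ∈ Finset.range (n + 1), x m τ ^ 2) + η) ^ 2) ∧
    ∀ t ∈ Icc τ τ', (1 - 10 * (20 + 10 * Real.log (1 / η)) * q n ^ (-(1 / 5 : ℝ))) * x n τ ^ 2 ≤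
      x n t ^ 2 + x (n + 1) t ^ 2)
    {χ : ℝ → ℝ} (hχ : ContDiff ℝ ∞ χ) (hχ0 : ∀ t, 0 ≤ χ t) (hχs : ∀ t, χ t ≠ 0 → 0 < t ∧ t < 1)
    (hχ1 : ∫ t, χ t = 1) (hδ : 0 < δ) (hδ1 : δ ≤ 1 / 200) (hq : Sc δ q) (hq1 : ∀ i, Q₁ ≤ q i)
    (n : ℕ) (τ : ℝ) (a : ℕ → ℝ) (ha : Inv δ n a) :
    ∃ (τ' : ℝ) (a' : ℕ → ℝ) (y : ℕ → ℝ → ℝ), Inv δ (n + 1) a' ∧ Rel δ q χ n τ a τ' a' y := by
  have hL : 0 < q n ^ 5 := pow_pos (hq.pos n) 5
  have hη0 := hq.et_pos n
  have hη1 := hq.et_le hδ n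
  have h2n : (1 : ℝ) ≤ 2 ^ n := one_le_pow₀ (by norm_num)
  have h2n' : δ / 2 ^ n ≤ δ := div_le_self hδ.le h2n
  have hη2 : et q n ≤ δ / 2 ^ n := by
    refine hη1.trans ?_
    apply div_le_div_of_nonneg_right _ (by positivity)
    linarith
  have hηδ : et q n ≤ δ := hη2.trans h2n'
  have hlg := hq.lg_le n
  obtain ⟨g, hg⟩ : ∃ g, g = sd χ (et q n) (q n ^ 5) τ := ⟨_, rfl⟩
  have hgc : Continuous g := by rw [hg]; exact (sd_smooth hχ _ _ _).continuous
  obtain ⟨y, hy1, hy2, hy3⟩ := hG q (n + 2) (fun m t => if m = n + 1 then g t else 0) τ a (by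
    intro m
    split_ifs
    · exact hgc
    · exact continuous_const)
  have hini : ∀ m, y m τ = a m := by
    intro m
    rcases lt_or_ge m (n + 2) with h | h
    · exact hy1 m h
    · rw [hy2 m h, ha.zero m (by omega)]
  have hp2 : (0 : ℝ) < (1 / 2) ^ n := by positivity
  have hp3 : ((1 : ℝ) / 2) ^ n ≤ 1 := pow_le_one₀ (by norm_num) (by norm_num)
  have e2n : δ / 2 ^ n = δ * (1 / 2) ^ n := by
    rw [one_div, inv_pow, div_eq_mul_inv]
  have hu1 : √(∑ m ∈ Finset.range (n + 1), a m ^ 2) ≤ 1 + 2 * δ := by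
    refine ha.upp.trans ?_
    nlinarith
  have hsum0 : 0 ≤ ∑ m ∈ Finset.range (n + 1), a m ^ 2 :=
    Finset.sum_nonneg fun m _ => sq_nonneg _
  have hsum : ∑ m ∈ Finset.range (n + 1), a m ^ 2 ≤ (1 + 2 * δ) ^ 2 := by
    rw [← Real.sq_sqrt hsum0]
    exact pow_le_pow_left₀ (Real.sqrt_nonneg _) hu1 2
  have hsum2 : ∑ m ∈ Finset.range (n + 1), a m ^ 2 ≤ 11 / 10 := by
    refine hsum.trans ?_
    nlinarith
  have hlow1 : 1 - 22 * δ ≤ a n ^ 2 := by
    refine le_trans ?_ ha.low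
    nlinarith
  have han : a n ^ 2 ≤ 11 / 10 := by
    refine le_trans ?_ hsum2
    exact Finset.single_le_sum (f := fun m => a m ^ 2) (fun m _ => sq_nonneg _)
      (Finset.mem_range.2 (Nat.lt_succ_self n))
  have han9 : 9 / 10 ≤ a n := by
    by_contra hcon
    push Not at hcon
    have := ha.pos
    nlinarith
  obtain ⟨τ', hτ1, hτ2, hτ3, hτ4, -, hτ6, hτ7, hτ8⟩ := hS q n τ (et q n) y g hq1 hq.s5 hη0
    (by linarith) (by
      have : (20 + 10 * Real.log (1 / et q n)) * q n ^ (-(1 / 5 : ℝ)) ≤ δ / 2 ^ n := hlg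
      linarith)
    hgc (fun t => by
      rw [hg]
      unfold sd
      exact mul_nonneg (mul_nonneg hη0.le hL.le) (hχ0 _))
    (fun t ht => by rw [hg]; exact sd_out hχs hL ht) (by rw [hg]; exact sd_int hχ1 hL τ) hy2 hy3
    (by rw [hini, ha.zero _ (Nat.lt_succ_self n)]) (by rw [hini]; exact han9) (by
      simp only [hini]; exact hsum2)
  simp only [hini] at hτ7 hτ8
  have hupp : ∀ t ∈ Icc τ τ', √(∑ m ∈ Finset.range (n + 2), y m t ^ 2) ≤
      1 + 2 * δ * (1 - (1 / 2) ^ (n + 1)) := by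
    intro t ht
    have h1 := Real.sqrt_le_sqrt (hτ7 t ht)
    rw [Real.sqrt_sq (add_nonneg (Real.sqrt_nonneg _) hη0.le)] at h1
    have h2 := ha.upp
    rw [e2n] at hη2
    rw [pow_succ]
    linarith
  have hlow : ∀ t ∈ Icc τ τ', 1 - 22 * δ * (1 - (1 / 2) ^ (n + 1)) ≤ y n t ^ 2 + y (n + 1) t ^ 2 := by
    intro t ht
    refine le_trans ?_ (hτ8 t ht)
    have h1 : 10 * (20 + 10 * Real.log (1 / et q n)) * q n ^ (-(1 / 5 : ℝ)) ≤
        10 * (δ * (1 / 2) ^ n) := by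
      rw [← e2n]
      have : (20 + 10 * Real.log (1 / et q n)) * q n ^ (-(1 / 5 : ℝ)) ≤ δ / 2 ^ n := hlg
      linarith
    have h2 := ha.low
    have h3 : 10 * (20 + 10 * Real.log (1 / et q n)) * q n ^ (-(1 / 5 : ℝ)) * a n ^ 2 ≤
        10 * (δ * (1 / 2) ^ n) * (11 / 10) := by
      refine (mul_le_mul_of_nonneg_right h1 (sq_nonneg _)).trans ?_
      exact mul_le_mul_of_nonneg_left han (by positivity)
    rw [pow_succ, sub_mul, one_mul]
    linarith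
  refine ⟨τ', fun m => y m τ', y, ⟨hτ6, ?_, hupp τ' ⟨hτ1.le, le_rfl⟩, fun m hm => hy2 m (by omega) τ'⟩,
    ⟨hini, fun m => rfl, hy2, ?_, hτ2, hτ3, hτ4, ?_, ?_⟩⟩
  · have h1 := hlow τ' ⟨hτ1.le, le_rfl⟩
    rw [hτ4] at h1
    linarith
  · intro m hm t ht
    have := hy3 m hm t ht
    rw [hg] at this
    exact this
  · intro t ht
    refine (hupp t ht).trans ?_
    have : (0 : ℝ) < (1 / 2) ^ (n + 1) := by positivity
    nlinarith
  · intro t ht
    refine le_trans ?_ (hlow t ht)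
    have : (0 : ℝ) < (1 / 2) ^ (n + 1) := by positivity
    nlinarith

lemma exists_seq {χ : ℝ → ℝ} (hstep : ∀ (n : ℕ) (τ : ℝ) (a : ℕ → ℝ), Inv δ n a →
    ∃ (τ' : ℝ) (a' : ℕ → ℝ) (y : ℕ → ℝ → ℝ), Inv δ (n + 1) a' ∧ Rel δ q χ n τ a τ' a' y) :
    ∃ (σ : ℕ → ℝ) (A : ℕ → ℕ → ℝ) (Y : ℕ → ℕ → ℝ → ℝ), σ 0 = 0 ∧ A 0 0 = 1 ∧
      ∀ n, Inv δ n (A n) ∧ Rel δ q χ n (σ n) (A n) (σ (n + 1)) (A (n + 1)) (Y n) := by
  choose τf af yf h1 h2 using hstep
  let s : (n : ℕ) → {p : ℝ × (ℕ → ℝ) // Inv δ n p.2} := fun n => Nat.rec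
    (motive := fun n => {p : ℝ × (ℕ → ℝ) // Inv δ n p.2})
    ⟨(0, fun m => if m = 0 then 1 else 0), inv_zero⟩
    (fun n p => ⟨(τf n p.1.1 p.1.2 p.2, af n p.1.1 p.1.2 p.2), h1 n p.1.1 p.1.2 p.2⟩) n
  refine ⟨fun n => (s n).1.1, fun n => (s n).1.2, fun n => yf n (s n).1.1 (s n).1.2 (s n).2,
    rfl, rfl, fun n => ⟨(s n).2, h2 n (s n).1.1 (s n).1.2 (s n).2⟩⟩

lemma Sc.sum5 (h : Sc δ q) (n : ℕ) : ∑ i ∈ Finset.range n, q i ^ 5 ≤ q n ^ 5 := by
  induction n with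
  | zero =>
    have := h.pos 0
    simp only [Finset.range_zero, Finset.sum_empty]
    positivity
  | succ n ih =>
    rw [Finset.sum_range_succ, h.s5]
    have h1 : 0 < q n ^ 5 := pow_pos (h.pos n) 5
    have h2 : q n ^ 6 = q n * q n ^ 5 := by ring
    rw [h2]
    nlinarith [h.two n]

/-- the length of a stage -/
lemma Sc.len0 (h : Sc δ q) (hδ : 0 < δ) (m : ℕ) : lg q m / q m ^ 5 ≤ δ / 2 ^ m := by
  have hp : 0 < q m ^ 5 := pow_pos (h.pos m) 5
  rw [div_le_div_iff₀ hp (by positivity)]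
  refine (h.sm m).trans (mul_le_mul_of_nonneg_left ((h.rt0 m).trans ?_) hδ.le)
  calc q m = q m ^ 1 := (pow_one _).symm
    _ ≤ q m ^ 5 := pow_le_pow_right₀ (by linarith [h.two m]) (by norm_num)

lemma Sc.len1 (h : Sc δ q) (hδ : 0 < δ) {n m : ℕ} (hnm : n ≤ m) :
    lg q (m + 1) / q (m + 1) ^ 5 ≤ δ / q n ^ 5 * (1 / 2) ^ (m + 1) := by
  have hp : 0 < q (m + 1) ^ 5 := pow_pos (h.pos _) 5
  have hp2 : 0 < q m ^ 5 := pow_pos (h.pos _) 5
  have hp3 : 0 < q n ^ 5 := pow_pos (h.pos _) 5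
  have e : δ / q n ^ 5 * (1 / 2) ^ (m + 1) = δ / 2 ^ (m + 1) / q n ^ 5 := by
    rw [one_div, inv_pow]
    field_simp
  rw [e]
  calc lg q (m + 1) / q (m + 1) ^ 5 ≤ δ / 2 ^ (m + 1) / q m ^ 5 := by
        rw [div_div, div_le_div_iff₀ hp (by positivity)]
        have h1 := (h.sm (m + 1)).trans (mul_le_mul_of_nonneg_left (h.rt m) hδ.le)
        rw [h.s5]
        calc lg q (m + 1) * (2 ^ (m + 1) * q m ^ 5) = (lg q (m + 1) * 2 ^ (m + 1)) * q m ^ 5 := by ring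
          _ ≤ (δ * q m) * q m ^ 5 := mul_le_mul_of_nonneg_right h1 hp2.le
          _ = δ * q m ^ 6 := by ring
    _ ≤ δ / 2 ^ (m + 1) / q n ^ 5 := by
        apply div_le_div_of_nonneg_left (by positivity) hp3
        exact pow_le_pow_left₀ (h.pos n).le (h.mono hnm) 5

end

end X2

open X2

theorem t_OX (hG : S_GX) (hS : S_STG) : S_OX := by
  intro ε hε
  obtain ⟨Q₁, hS⟩ := hS
  obtain ⟨χ, hχ, hχ0, hχs, hχ1, hχd⟩ := bump
  obtain ⟨B, hB⟩ := hχd 0
  simp only [iteratedDeriv_zero] at hB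
  have hB0 : 0 ≤ B := (abs_nonneg _).trans (hB 0)
  obtain ⟨δ, hδd⟩ : ∃ δ, δ = min (ε / (100 * (1 + B))) (1 / 200) := ⟨_, rfl⟩
  have hδ : 0 < δ := by rw [hδd]; exact lt_min (by positivity) (by norm_num)
  have hδ1 : δ ≤ 1 / 200 := by rw [hδd]; exact min_le_right _ _
  have hδB : δ * (100 * (1 + B)) ≤ ε := by
    have : δ ≤ ε / (100 * (1 + B)) := by rw [hδd]; exact min_le_left _ _
    rwa [le_div_iff₀ (by positivity)] at this
  have hδB0 : 0 ≤ δ * B := mul_nonneg hδ.le hB0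
  have hδε : 100 * δ ≤ ε := by linarith
  have hδB2 : 100 * (δ * B) ≤ ε := by linarith
  obtain ⟨Q₀, hQ₀⟩ := exists_sc hδ Q₁
  refine ⟨Q₀, fun Q hQ => ?_⟩
  obtain ⟨hq, hq1⟩ := hQ₀ Q hQ
  obtain ⟨q, hqd⟩ : ∃ q, q = qs Q := ⟨_, rfl⟩
  rw [← hqd] at hq hq1 ⊢
  obtain ⟨σ, A, Y, hσ0, hA0, hAY⟩ := exists_seq (q := q) (χ := χ)
    (fun n τ a ha => step hG hS hχ hχ0 hχs hχ1 hδ hδ1 hq hq1 n τ a ha)
  have hR : ∀ n, Rel δ q χ n (σ n) (A n) (σ (n + 1)) (A (n + 1)) (Y n) := fun n => (hAY n).2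
  have hI : ∀ n, Inv δ n (A n) := fun n => (hAY n).1
  have hL : ∀ n, 0 < q n ^ 5 := fun n => pow_pos (hq.pos n) 5
  have hσs : ∀ n, σ n < σ (n + 1) := fun n => by
    have h1 := (hR n).τ1
    have h2 : 0 < 1 / q n ^ 5 := by have := hL n; positivity
    linarith
  have hσm : StrictMono σ := strictMono_nat_of_lt_succ hσs
  have hσb : ∀ n, σ n ≤ 2 * δ * (1 - (1 / 2) ^ n) := by
    intro n
    induction n with
    | zero => rw [hσ0]; simp
    | succ n ih =>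
      have h1 := (hR n).τ2.trans (hq.len0 hδ n)
      have e : δ / 2 ^ n = δ * (1 / 2) ^ n := by rw [one_div, inv_pow, div_eq_mul_inv]
      rw [e] at h1
      rw [pow_succ]
      linarith
  have hbdd : BddAbove (Set.range σ) := by
    refine ⟨2 * δ, ?_⟩
    rintro _ ⟨n, rfl⟩
    refine (hσb n).trans ?_
    have : (0 : ℝ) < (1 / 2) ^ n := by positivity
    nlinarith
  obtain ⟨T, hTd⟩ : ∃ T, T = ⨆ n, σ n := ⟨_, rfl⟩
  have hT : Tendsto σ atTop (𝓝 T) := by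
    rw [hTd]
    exact tendsto_atTop_ciSup hσm.monotone hbdd
  have hσT : ∀ n, σ n < T := fun n =>
    (hσs n).trans_le (by rw [hTd]; exact le_ciSup hbdd (n + 1))
  have hT0 : 0 < T := by rw [← hσ0]; exact hσT 0
  -- gluing
  have hmatch : ∀ n m, Y n m (σ (n + 1)) = Y (n + 1) m (σ (n + 1)) := by
    intro n m
    rw [(hR n).fin, (hR (n + 1)).ini]
  obtain ⟨x, hx⟩ := glue hσm Y hmatch
  obtain ⟨g, hg⟩ : ∃ g : ℕ → ℝ → ℝ, g = fun n t => match n with
    | 0 => 0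
    | n + 1 => sd χ (et q n) (q n ^ 5) (σ n) t := ⟨_, rfl⟩
  have hg0 : g 0 = fun _ => 0 := by rw [hg]
  have hgs : ∀ n, g (n + 1) = sd χ (et q n) (q n ^ 5) (σ n) := fun n => by rw [hg]
  have hgsup : ∀ n t, g (n + 1) t ≠ 0 → σ n < t ∧ t < σ (n + 1) := by
    intro n t ht
    rw [hgs] at ht
    constructor
    · by_contra hcon
      push Not at hcon
      exact ht (sd_out hχs (hL n) (Or.inl hcon))
    · by_contra hcon
      push Not at hcon
      exact ht (sd_out hχs (hL n) (Or.inr ((hR n).τ1.le.trans hcon)))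
  have hgz : ∀ n m t, t ∈ Icc (σ n) (σ (n + 1)) → m ≠ n + 1 → g m t = 0 := by
    intro n m t ht hm
    rcases m with _ | m
    · rw [hg0]
    · by_contra hne
      obtain ⟨h1, h2⟩ := hgsup m t hne
      rcases lt_or_ge m n with h | h
      · have := hσm.monotone (show m + 1 ≤ n by omega)
        linarith [ht.1]
      · have h3 : n + 1 ≤ m := by omega
        have := hσm.monotone h3
        linarith [ht.2]
  have hxz : ∀ n, ∀ t ∈ Icc (σ n) (σ (n + 1)), ∀ m ≥ n + 2, x m t = 0 := by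
    intro n t ht m hm
    rw [hx n t ht m, (hR n).zero m hm]
  -- the infinite sums
  have hts : ∀ n, ∀ t ∈ Icc (σ n) (σ (n + 1)), HasSum (fun m => x m t ^ 2)
      (∑ m ∈ Finset.range (n + 2), Y n m t ^ 2) := by
    intro n t ht
    have h1 : ∑ m ∈ Finset.range (n + 2), Y n m t ^ 2 = ∑ m ∈ Finset.range (n + 2), x m t ^ 2 :=
      Finset.sum_congr rfl fun m _ => by rw [hx n t ht m]
    rw [h1]
    apply hasSum_sum_of_ne_finset_zero
    intro m hm
    rw [Finset.mem_range, not_lt] at hm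
    rw [hxz n t ht m hm]
    ring
  have hts2 : ∀ n, ∀ t ∈ Icc (σ n) (σ (n + 1)), ∀ m < n + 2,
      ∑' k : ℕ, x (m + 1 + k) t ^ 2 = ∑ k ∈ Finset.Ico (m + 1) (n + 2), Y n k t ^ 2 := by
    intro n t ht m hm
    rw [Finset.sum_Ico_eq_sum_range, tsum_eq_sum (s := Finset.range (n + 2 - (m + 1)))]
    · exact Finset.sum_congr rfl fun k _ => by rw [hx n t ht]
    · intro k hk
      rw [Finset.mem_range, not_lt] at hk
      rw [hxz n t ht _ (by omega)]
      ring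
  -- the derivative
  have hder : ∀ m n, ∀ t ∈ Icc (σ n) (σ (n + 1)), HasDerivWithinAt (x m)
      (vx q (fun j => x j t) m + g m t) (Icc (σ n) (σ (n + 1))) t := by
    intro m n t ht
    rcases lt_or_ge m (n + 2) with hm | hm
    · have h1 := ((hR n).ode m hm t ht.1).mono
        (show Icc (σ n) (σ (n + 1)) ⊆ Ici (σ n) from fun s hs => hs.1)
      have h2 := h1.congr (fun s hs => hx n s hs m) (hx n t ht m)
      refine h2.congr_deriv ?_
      unfold vN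
      show _ = -(q m ^ 4 * x m t) + x m t * ∑ i ∈ Finset.range m, q i ^ 5 * x i t -
        q m ^ 5 * ∑' k : ℕ, x (m + 1 + k) t ^ 2 + g m t
      rw [hts2 n t ht m hm, hx n t ht m]
      have h3 : ∑ i ∈ Finset.range m, q i ^ 5 * x i t = ∑ i ∈ Finset.range m, q i ^ 5 * Y n i t :=
        Finset.sum_congr rfl fun i _ => by rw [hx n t ht i]
      have h4 : (if m = n + 1 then sd χ (et q n) (q n ^ 5) (σ n) t else 0) = g m t := by
        split_ifs with h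
        · rw [h, hgs]
        · rw [hgz n m t ht h]
      rw [h3, h4]
    · have h1 : HasDerivWithinAt (x m) 0 (Icc (σ n) (σ (n + 1))) t :=
        (hasDerivWithinAt_const t _ (0 : ℝ)).congr (fun s hs => hxz n s hs m hm) (hxz n t ht m hm)
      refine h1.congr_deriv ?_
      show 0 = -(q m ^ 4 * x m t) + x m t * ∑ i ∈ Finset.range m, q i ^ 5 * x i t -
        q m ^ 5 * ∑' k : ℕ, x (m + 1 + k) t ^ 2 + g m t
      rw [hgz n m t ht (by omega), hxz n t ht m hm]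
      have h2 : ∑' k : ℕ, x (m + 1 + k) t ^ 2 = 0 := by
        have : ∀ k : ℕ, x (m + 1 + k) t ^ 2 = 0 := fun k => by
          rw [hxz n t ht _ (by omega)]
          ring
        simp only [this, tsum_zero]
      rw [h2]
      ring
  have hode : ∀ n, ∀ t ∈ Ico 0 T, HasDerivWithinAt (x n) (vx q (fun m => x m t) n + g n t)
      (Ico 0 T) t := fun n =>
    glue_deriv (F := fun t => vx q (fun m => x m t) n + g n t) hσm hσ0 hT (fun k t ht => hder n k t ht)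
  have hsqrt : ∀ n, ∀ t ∈ Icc (σ n) (σ (n + 1)),
      ∑ m ∈ Finset.range (n + 2), Y n m t ^ 2 ≤ (1 + 2 * δ) ^ 2 := by
    intro n t ht
    rw [← Real.sq_sqrt (Finset.sum_nonneg fun m _ => sq_nonneg (Y n m t))]
    exact pow_le_pow_left₀ (Real.sqrt_nonneg _) ((hR n).upp t ht) 2
  have hstage : ∀ t ∈ Ico 0 T, ∃ n, t ∈ Icc (σ n) (σ (n + 1)) := fun t ht => by
    obtain ⟨n, h1, h2⟩ := exists_stage hσ0 hT ht
    exact ⟨n, h1, h2.le⟩
  have hE : ∀ t ∈ Ico 0 T, Summable (fun m => x m t ^ 2) ∧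
      ∑' m, x m t ^ 2 ≤ (1 + 2 * δ) ^ 2 := by
    intro t ht
    obtain ⟨n, hn⟩ := hstage t ht
    have h1 := hts n t hn
    exact ⟨h1.summable, by rw [h1.tsum_eq]; exact hsqrt n t hn⟩
  have hbd : ∀ n, ∀ t ∈ Ico 0 T, |x n t| ≤ 1 + 2 * δ := by
    intro n t ht
    obtain ⟨h1, h2⟩ := hE t ht
    have h3 : x n t ^ 2 ≤ ∑' m, x m t ^ 2 := h1.le_tsum n fun m _ => sq_nonneg _
    exact abs_le_of_sq_le_sq (h3.trans h2) (by positivity)
  -- the remaining time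
  have hrem : ∀ n, T - σ (n + 1) ≤ δ / q n ^ 5 * (1 / 2) ^ n := by
    intro n
    have h1 : ∀ k, σ (n + 1 + k) - σ (n + 1) ≤ δ / q n ^ 5 * ((1 / 2) ^ n * (1 - (1 / 2) ^ k)) := by
      intro k
      induction k with
      | zero => simp
      | succ k ih =>
        have h2 := (hR (n + 1 + k)).τ2
        have e1 : n + 1 + k = (n + k) + 1 := by ring
        have h3 : σ (n + 1 + k + 1) - σ (n + 1 + k) ≤ δ / q n ^ 5 * (1 / 2) ^ (n + k + 1) := by
          refine h2.trans ?_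
          rw [e1]
          exact hq.len1 hδ (Nat.le_add_right n k)
        have e2 : n + 1 + (k + 1) = n + 1 + k + 1 := by ring
        rw [e2]
        have e3 : δ / q n ^ 5 * ((1 / 2) ^ n * (1 - (1 / 2) ^ (k + 1))) =
            δ / q n ^ 5 * ((1 / 2) ^ n * (1 - (1 / 2) ^ k)) +
            δ / q n ^ 5 * (1 / 2) ^ (n + k + 1) := by
          rw [pow_succ, pow_succ, pow_add]
          ring
        rw [e3]
        linarith
    have h2 : Tendsto (fun k => σ (n + 1 + k) - σ (n + 1)) atTop (𝓝 (T - σ (n + 1))) :=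
      (hT.comp (tendsto_atTop_mono (fun k => Nat.le_add_left k (n + 1)) tendsto_id)).sub_const _
    refine le_of_tendsto h2 (Eventually.of_forall fun k => (h1 k).trans ?_)
    have h3 : (0 : ℝ) < (1 / 2) ^ k := by positivity
    have h4 : (0 : ℝ) < (1 / 2) ^ n := by positivity
    have h5 := hL n
    apply mul_le_mul_of_nonneg_left _ (by positivity)
    nlinarith
  have hinv2 : ∀ n : ℕ, δ / 2 ^ n * 100 ≤ ε / 2 ^ n := by
    intro n
    rw [div_mul_eq_mul_div]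
    apply div_le_div_of_nonneg_right _ (by positivity)
    linarith
  refine ⟨T, σ, x, g, ?_⟩
  refine
    { T0 := hT0
      σ0 := hσ0
      σm := hσm
      σT := hσT
      σl := hT
      ini := ?_
      act := ?_
      ode := hode
      gsm := ?_
      g0 := fun t => by rw [hg0]
      gs := hgsup
      gdec := ?_
      gsmall := ?_
      gL1 := ?_
      bdd := fun n t ht => (hbd n t ht).trans (by linarith)
      low := ?_
      upp := ?_
      left := ?_ }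
  · have h0 := hx 0 0 ⟨hσ0.le, by rw [← hσ0]; exact (hσs 0).le⟩ 0
    rw [h0]
    have h1 := (hR 0).ini 0
    rw [hσ0] at h1
    rw [h1, hA0]
  · intro n t ht
    rcases ht.1.lt_or_eq with h | h
    · -- `σ k ≤ t < σ (k + 1)`
      obtain ⟨k, h1, h2⟩ := exists_stage hσ0 hT ⟨ht.1, ht.2.trans_lt (hσT n)⟩
      rcases lt_or_ge k n with h3 | h3
      · exact hxz k t ⟨h1, h2.le⟩ (n + 1) (by omega)
      · have h4 : σ n ≤ σ k := hσm.monotone h3
        have h5 : t = σ n := le_antisymm ht.2 (h4.trans h1)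
        rcases n with _ | n
        · rw [hσ0] at h5
          linarith
        · rw [h5]
          exact hxz n _ ⟨(hσs n).le, le_rfl⟩ (n + 1 + 1) (by omega)
    · have h0 : t = σ 0 := by rw [hσ0]; exact h.symm
      have h1 := hx 0 t ⟨h0.symm.le, by rw [h0]; exact (hσs 0).le⟩ (n + 1)
      rw [h1, h0, (hR 0).ini, (hI 0).zero (n + 1) (Nat.succ_pos n)]
  · intro n
    rcases n with _ | n
    · rw [hg0]; exact contDiff_const
    · rw [hgs]; exact sd_smooth hχ _ _ _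
  · intro j k
    obtain ⟨C, hC⟩ := hχd j
    have hC0 : 0 ≤ C := (abs_nonneg _).trans (hC 0)
    obtain ⟨K, hK⟩ : ∃ K, K = k + 5 * j + 5 := ⟨_, rfl⟩
    have hqK : 0 < q K := hq.pos K
    refine ⟨q K ^ K * C, fun n t => ?_⟩
    rcases n with _ | n
    · rw [hg0]
      simp only [iteratedDeriv_fun_const_zero, abs_zero, mul_zero]
      positivity
    · rw [hgs, sd_deriv hχ]
      have hη0 := hq.et_pos n
      have hLn := hL n
      have e1 : |et q n * q n ^ 5 * ((q n ^ 5) ^ j * iteratedDeriv j χ (q n ^ 5 * (t - σ n)))| =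
          et q n * q n ^ 5 * (q n ^ 5) ^ j * |iteratedDeriv j χ (q n ^ 5 * (t - σ n))| := by
        rw [← mul_assoc, abs_mul, abs_of_pos (by positivity)]
      rw [e1]
      have h1 : q (n + 1) ^ k * (et q n * q n ^ 5 * (q n ^ 5) ^ j) ≤ q K ^ K := by
        have hqn : 0 < q (n + 1) := hq.pos _
        have hqn1 : 1 ≤ q (n + 1) := by linarith [hq.two (n + 1)]
        have h2 : q n ^ 5 ≤ q (n + 1) ^ 5 := pow_le_pow_left₀ (hq.pos n).le (hq.mono (Nat.le_succ n)) 5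
        have h3 : q (n + 1) ^ k * (et q n * q n ^ 5 * (q n ^ 5) ^ j) ≤
            q (n + 1) ^ k * (et q n * q (n + 1) ^ 5 * (q (n + 1) ^ 5) ^ j) := by
          gcongr
        refine h3.trans ?_
        have e2 : q (n + 1) ^ k * (et q n * q (n + 1) ^ 5 * (q (n + 1) ^ 5) ^ j) =
            q (n + 1) ^ K / q (n + 1) ^ (n + 10) := by
          unfold et
          rw [hK, pow_add (q (n + 1)) (k + 5 * j) 5, pow_add (q (n + 1)) k (5 * j),
            pow_mul (q (n + 1)) 5 j, div_eq_mul_inv]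
          ring
        rw [e2]
        rcases le_or_gt K (n + 10) with h4 | h4
        · calc q (n + 1) ^ K / q (n + 1) ^ (n + 10) ≤ 1 := by
                rw [div_le_one (by positivity)]
                exact pow_le_pow_right₀ hqn1 h4
            _ ≤ q K ^ K := one_le_pow₀ (by linarith [hq.two K])
        · calc q (n + 1) ^ K / q (n + 1) ^ (n + 10) ≤ q (n + 1) ^ K :=
                div_le_self (by positivity) (one_le_pow₀ hqn1)
            _ ≤ q K ^ K := pow_le_pow_left₀ hqn.le (hq.mono (by omega)) K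
      calc q (n + 1) ^ k * (et q n * q n ^ 5 * (q n ^ 5) ^ j *
            |iteratedDeriv j χ (q n ^ 5 * (t - σ n))|)
          = (q (n + 1) ^ k * (et q n * q n ^ 5 * (q n ^ 5) ^ j)) *
            |iteratedDeriv j χ (q n ^ 5 * (t - σ n))| := by ring
        _ ≤ q K ^ K * C := by
            apply mul_le_mul h1 (hC _) (abs_nonneg _) (by positivity)
  · intro n t
    rcases n with _ | n
    · rw [hg0]
      simp only [abs_zero, mul_zero]
      positivity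
    · rw [hgs]
      unfold sd
      have hη0 := hq.et_pos n
      have hLn := hL n
      have hqn : 0 < q (n + 1) := hq.pos _
      have hqn1 : 1 ≤ q (n + 1) := by linarith [hq.two (n + 1)]
      rw [abs_mul, abs_of_pos (by positivity)]
      have h2 : q n ^ 5 ≤ q (n + 1) ^ 5 := pow_le_pow_left₀ (hq.pos n).le (hq.mono (Nat.le_succ n)) 5
      have h1 : q (n + 1) ^ 3 * (et q n * q n ^ 5) ≤ 1 / q (n + 1) := by
        have h3 : q (n + 1) ^ 3 * (et q n * q n ^ 5) ≤ q (n + 1) ^ 3 * (et q n * q (n + 1) ^ 5) := by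
          gcongr
        refine h3.trans ?_
        unfold et
        have h4 : q (n + 1) ^ 9 ≤ q (n + 1) ^ (n + 10) := pow_le_pow_right₀ hqn1 (by omega)
        have e2 : q (n + 1) ^ 3 * ((q (n + 1) ^ (n + 10))⁻¹ * q (n + 1) ^ 5) =
            q (n + 1) ^ 8 / q (n + 1) ^ (n + 10) := by
          rw [div_eq_mul_inv]; ring
        rw [e2, div_le_div_iff₀ (by positivity) hqn]
        calc q (n + 1) ^ 8 * q (n + 1) = q (n + 1) ^ 9 := by ring
          _ ≤ 1 * q (n + 1) ^ (n + 10) := by rw [one_mul]; exact h4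
      calc q (n + 1) ^ 3 * (et q n * q n ^ 5 * |χ (q n ^ 5 * (t - σ n))|)
          = (q (n + 1) ^ 3 * (et q n * q n ^ 5)) * |χ (q n ^ 5 * (t - σ n))| := by ring
        _ ≤ (1 / q (n + 1)) * B := mul_le_mul h1 (hB _) (abs_nonneg _) (by positivity)
        _ ≤ (δ / 20 / 2 ^ (n + 1)) * B := mul_le_mul_of_nonneg_right (hq.inv_le hδ (n + 1)) hB0
        _ = (δ * B / 20) / 2 ^ (n + 1) := by ring
        _ ≤ ε / 2 ^ (n + 1) := by
            apply div_le_div_of_nonneg_right _ (by positivity)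
            linarith
  · intro n
    rcases n with _ | n
    · rw [hg0]
      simp only [abs_zero, integral_zero]
      positivity
    · rw [hgs]
      have hη0 := hq.et_pos n
      have hLn := hL n
      have h1 : ∀ t, |sd χ (et q n) (q n ^ 5) (σ n) t| = sd χ (et q n) (q n ^ 5) (σ n) t := by
        intro t
        apply abs_of_nonneg
        unfold sd
        have := hχ0 (q n ^ 5 * (t - σ n))
        positivity
      simp only [h1]
      rw [sd_int hχ1 hLn]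
      refine (hq.et_le hδ n).trans ?_
      rw [pow_succ, div_le_div_iff₀ (by positivity) (by positivity)]
      have h2 : (0 : ℝ) < 2 ^ n := by positivity
      nlinarith
  · intro t ht
    obtain ⟨n, hn⟩ := hstage t ht
    rw [(hts n t hn).tsum_eq, Finset.sum_range_succ, Finset.sum_range_succ]
    have h1 := (hR n).low t hn
    have h2 : 0 ≤ ∑ m ∈ Finset.range n, Y n m t ^ 2 := Finset.sum_nonneg fun m _ => sq_nonneg _
    linarith
  · intro t ht
    refine (hE t ht).2.trans ?_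
    nlinarith
  · intro n t ht
    have htT : t ∈ Ico 0 T := ⟨by
      have := hσm.monotone (Nat.zero_le (n + 1))
      rw [hσ0] at this
      exact this.trans ht.1, ht.2⟩
    have hsub : Icc (σ (n + 1)) t ⊆ Ico 0 T := by
      intro s hs
      have := hσm.monotone (Nat.zero_le (n + 1))
      rw [hσ0] at this
      exact ⟨this.trans hs.1, hs.2.trans_lt ht.2⟩
    have hLn := hL n
    have h0 : x n (σ (n + 1)) = 0 := by
      rw [hx n _ ⟨(hσs n).le, le_rfl⟩, (hR n).van]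
    have hd : ∀ s ∈ Icc (σ (n + 1)) t, HasDerivWithinAt (x n)
        (vx q (fun m => x m s) n + g n s) (Icc (σ (n + 1)) t) s := fun s hs =>
      (hode n s (hsub hs)).mono hsub
    have hb : ∀ s ∈ Icc (σ (n + 1)) t, ‖vx q (fun m => x m s) n + g n s‖ ≤ 4 * q n ^ 5 := by
      intro s hs
      have hsT := hsub hs
      have hg' : g n s = 0 := by
        rcases n with _ | n
        · rw [hg0]
        · by_contra hne
          have := (hgsup n s hne).2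
          have h2 := hσs (n + 1)
          linarith [hs.1]
      rw [hg', add_zero, Real.norm_eq_abs]
      unfold vx
      have hq4 : q n ^ 4 ≤ q n ^ 5 := pow_le_pow_right₀ (by linarith [hq.two n]) (by norm_num)
      have a1 : |q n ^ 4 * x n s| ≤ q n ^ 5 * (101 / 100) := by
        rw [abs_mul, abs_of_pos (pow_pos (hq.pos n) 4)]
        exact mul_le_mul hq4 ((hbd n s hsT).trans (by linarith)) (abs_nonneg _) hLn.le
      have a2 : |x n s * ∑ i ∈ Finset.range n, q i ^ 5 * x i s| ≤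
          (101 / 100) * ((101 / 100) * q n ^ 5) := by
        rw [abs_mul]
        refine mul_le_mul ((hbd n s hsT).trans (by linarith)) ?_ (abs_nonneg _) (by norm_num)
        calc |∑ i ∈ Finset.range n, q i ^ 5 * x i s| ≤ ∑ i ∈ Finset.range n, |q i ^ 5 * x i s| :=
              Finset.abs_sum_le_sum_abs _ _
          _ ≤ ∑ i ∈ Finset.range n, (101 / 100) * q i ^ 5 := by
              refine Finset.sum_le_sum fun i _ => ?_
              rw [abs_mul, abs_of_pos (hL i), mul_comm]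
              exact mul_le_mul_of_nonneg_right ((hbd i s hsT).trans (by linarith)) (hL i).le
          _ = (101 / 100) * ∑ i ∈ Finset.range n, q i ^ 5 := by rw [Finset.mul_sum]
          _ ≤ (101 / 100) * q n ^ 5 := mul_le_mul_of_nonneg_left (hq.sum5 n) (by norm_num)
      have a3 : |q n ^ 5 * ∑' m : ℕ, x (n + 1 + m) s ^ 2| ≤ q n ^ 5 * (103 / 100) := by
        obtain ⟨c1, c2⟩ := hE s hsT
        have c3 : ∑' m : ℕ, x (n + 1 + m) s ^ 2 ≤ ∑' m : ℕ, x m s ^ 2 :=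
          tsum_comp_le_tsum_of_inj c1 (fun m => sq_nonneg _) (add_right_injective (n + 1))
        have c4 : 0 ≤ ∑' m : ℕ, x (n + 1 + m) s ^ 2 := tsum_nonneg fun m => sq_nonneg _
        rw [abs_of_nonneg (mul_nonneg hLn.le c4)]
        apply mul_le_mul_of_nonneg_left _ hLn.le
        nlinarith
      have b1 := abs_sub (-(q n ^ 4 * x n s) + x n s * ∑ i ∈ Finset.range n, q i ^ 5 * x i s)
        (q n ^ 5 * ∑' m : ℕ, x (n + 1 + m) s ^ 2)
      have b2 := abs_add_le (-(q n ^ 4 * x n s)) (x n s * ∑ i ∈ Finset.range n, q i ^ 5 * x i s)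
      rw [abs_neg] at b2
      linarith
    have hmv := (convex_Icc (σ (n + 1)) t).norm_image_sub_le_of_norm_hasDerivWithin_le hd hb
      (left_mem_Icc.2 ht.1) (right_mem_Icc.2 ht.1)
    rw [h0, sub_zero, Real.norm_eq_abs, Real.norm_eq_abs,
      abs_of_nonneg (show 0 ≤ t - σ (n + 1) by linarith [ht.1])] at hmv
    have h3 : t - σ (n + 1) ≤ δ / q n ^ 5 * (1 / 2) ^ n := by linarith [hrem n, ht.2]
    calc |x n t| ≤ 4 * q n ^ 5 * (t - σ (n + 1)) := hmv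
      _ ≤ 4 * q n ^ 5 * (δ / q n ^ 5 * (1 / 2) ^ n) := mul_le_mul_of_nonneg_left h3 (by positivity)
      _ = 4 * (δ / 2 ^ n) := by
          have hq5 : q n ^ 5 ≠ 0 := hLn.ne'
          rw [one_div, inv_pow]
          generalize q n ^ 5 = z at hq5
          field_simp
      _ ≤ ε / 2 ^ n := by
          have := hinv2 n
          have h4 : 0 < δ / 2 ^ n := by positivity
          linarith

end Pool.Agent.N976.EN
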