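import Pool.Agent.N976.EN.Def
import Pool.Agent.H772R2.NSR.Ode

/-! # (X2a) Global solutions of the finite systems. -/

open Set Filter Topology MeasureTheory Metric
open scoped InnerProductSpace NNReal

set_option autoImplicit false

namespace Pool.Agent.N976.EN.X2a

open Pool.Agent.N976.EN

/-- a vector as a sequence -/
noncomputable def ex {N : ℕ} (x : EuclideanSpace ℝ (Fin N)) (n : ℕ) : ℝ :=
  if h : n < N then x ⟨n, h⟩ else 0

/-- the quadratic field -/
noncomputable def FF (q : ℕ → ℝ) (N : ℕ) (x : EuclideanSpace ℝ (Fin N)) :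
    EuclideanSpace ℝ (Fin N) :=
  WithLp.toLp 2 (fun n : Fin N => vN q N (ex x) n)

/-- the force -/
noncomputable def GG (g : ℕ → ℝ → ℝ) (N : ℕ) (t : ℝ) : EuclideanSpace ℝ (Fin N) :=
  WithLp.toLp 2 (fun n : Fin N => g n t)

theorem ex_contDiff {N : ℕ} (n : ℕ) : ContDiff ℝ 1 (fun x : EuclideanSpace ℝ (Fin N) => ex x n) := by
  unfold ex
  split_ifs with h
  · fun_prop
  · exact contDiff_const

theorem FF_contDiff (q : ℕ → ℝ) (N : ℕ) : ContDiff ℝ 1 (FF q N) := by
  rw [contDiff_euclidean]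
  intro n
  have : (fun x => FF q N x n) = fun x => vN q N (ex x) n := rfl
  rw [this]
  unfold vN
  have h := fun m => ex_contDiff (N := N) m
  refine ContDiff.sub (ContDiff.add ?_ ?_) ?_
  · exact (contDiff_const.mul (h n)).neg
  · exact (h n).mul (ContDiff.sum fun i _ => contDiff_const.mul (h i))
  · exact contDiff_const.mul (ContDiff.sum fun i _ => (h i).pow 2)

theorem FF_lip (q : ℕ → ℝ) (N : ℕ) (R : ℝ) :
    ∃ C : ℝ≥0, LipschitzOnWith C (FF q N) (closedBall 0 R) := by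
  have hc : Continuous (fun x => ‖fderiv ℝ (FF q N) x‖) :=
    ((FF_contDiff q N).continuous_fderiv one_ne_zero).norm
  obtain ⟨C, hC⟩ := (isCompact_closedBall (0 : EuclideanSpace ℝ (Fin N)) R).bddAbove_image
    hc.continuousOn
  refine ⟨Real.toNNReal C, ?_⟩
  refine Convex.lipschitzOnWith_of_nnnorm_fderiv_le (𝕜 := ℝ)
    (fun x _ => ((FF_contDiff q N).differentiable one_ne_zero).differentiableAt) ?_
    (convex_closedBall 0 R)
  intro x hx
  have h1 : ‖fderiv ℝ (FF q N) x‖ ≤ C := hC ⟨x, hx, rfl⟩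
  rw [← NNReal.coe_le_coe, coe_nnnorm]
  exact h1.trans (Real.le_coe_toNNReal C)

theorem tri (N : ℕ) (f : ℕ → ℕ → ℝ) :
    ∑ n ∈ Finset.range N, ∑ i ∈ Finset.range n, f n i =
      ∑ i ∈ Finset.range N, ∑ n ∈ Finset.Ico (i + 1) N, f n i := by
  refine Finset.sum_comm' ?_
  intro x y
  simp only [Finset.mem_range, Finset.mem_Ico]
  omega

theorem energy (q : ℕ → ℝ) (N : ℕ) (x : ℕ → ℝ) :
    ∑ n ∈ Finset.range N, vN q N x n * x n ≤ 0 := by
  have e : ∀ n, vN q N x n * x n = -(q n ^ 4 * x n ^ 2) +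
      ((∑ i ∈ Finset.range n, x n ^ 2 * (q i ^ 5 * x i)) -
        ∑ m ∈ Finset.Ico (n + 1) N, x m ^ 2 * (q n ^ 5 * x n)) := by
    intro n
    unfold vN
    rw [← Finset.mul_sum, ← Finset.sum_mul]
    ring
  simp_rw [e]
  rw [Finset.sum_add_distrib, Finset.sum_sub_distrib, tri N (fun n i => x n ^ 2 * (q i ^ 5 * x i)),
    sub_self, add_zero]
  refine Finset.sum_nonpos fun n _ => ?_
  have : 0 ≤ q n ^ 4 * x n ^ 2 := by positivity
  linarith

theorem inner_FF (q : ℕ → ℝ) (N : ℕ) (x : EuclideanSpace ℝ (Fin N)) :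
    ⟪FF q N x, x⟫_ℝ ≤ 0 := by
  have h := energy q N (ex x)
  have e : ⟪FF q N x, x⟫_ℝ = ∑ n ∈ Finset.range N, vN q N (ex x) n * ex x n := by
    rw [Finset.sum_range, PiLp.inner_apply]
    refine Finset.sum_congr rfl fun n _ => ?_
    have h1 : ex x n = x n := by
      unfold ex
      rw [dif_pos n.2]
    rw [h1]
    simp only [FF]
    rw [real_inner_comm]
    simp
  rw [e]
  exact h

theorem GG_cont (g : ℕ → ℝ → ℝ) (N : ℕ) (hg : ∀ n, Continuous (g n)) : Continuous (GG g N) := by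
  unfold GG
  exact (PiLp.continuous_toLp 2 _).comp (continuous_pi fun n => hg n)

/-- existence on `[0, T]` -/
theorem exT (q : ℕ → ℝ) (N : ℕ) (G : ℝ → EuclideanSpace ℝ (Fin N)) (hG : Continuous G)
    (x0 : EuclideanSpace ℝ (Fin N)) {T : ℝ} (hT : 0 ≤ T) :
    ∃ x : ℝ → EuclideanSpace ℝ (Fin N), x 0 = x0 ∧
      ∀ t ∈ Icc 0 T, HasDerivWithinAt x (FF q N (x t) + G t) (Icc 0 T) t := by
  set Y : ℝ → EuclideanSpace ℝ (Fin N) → EuclideanSpace ℝ (Fin N) := fun t y =>
    -y + Real.exp (-t) • (FF q N (Real.exp t • y) + G t) with hY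
  obtain ⟨B, hB⟩ : ∃ B : ℝ, ∀ t ∈ Icc 0 T, ‖G t‖ ≤ B := by
    obtain ⟨B, h⟩ := (isCompact_Icc.image hG).isBounded.exists_norm_le
    exact ⟨B, fun t ht => h _ ⟨t, ht, rfl⟩⟩
  have hB0 : 0 ≤ B := (norm_nonneg _).trans (hB 0 ⟨le_rfl, hT⟩)
  have hlip : ∀ R : ℝ, ∃ C : ℝ≥0, ∀ t ∈ Icc 0 T, LipschitzOnWith C (Y t) (closedBall 0 R) := by
    intro R
    obtain ⟨C, hC⟩ := FF_lip q N (Real.exp T * R)
    refine ⟨1 + C, fun t ht => LipschitzOnWith.of_dist_le_mul fun x hx y hy => ?_⟩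
    have hmem : ∀ z ∈ closedBall (0 : EuclideanSpace ℝ (Fin N)) R,
        Real.exp t • z ∈ closedBall (0 : EuclideanSpace ℝ (Fin N)) (Real.exp T * R) := by
      intro z hz
      rw [mem_closedBall_zero_iff] at hz ⊢
      rw [norm_smul, Real.norm_eq_abs, abs_of_pos (Real.exp_pos _)]
      have : Real.exp t ≤ Real.exp T := Real.exp_le_exp.2 ht.2
      have h0 : 0 ≤ R := (norm_nonneg _).trans hz
      gcongr
    have h1 := hC.dist_le_mul _ (hmem x hx) _ (hmem y hy)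
    rw [dist_eq_norm, dist_eq_norm, ← smul_sub, norm_smul, Real.norm_eq_abs,
      abs_of_pos (Real.exp_pos _)] at h1
    rw [dist_eq_norm, dist_eq_norm]
    have e1 : Y t x - Y t y = -(x - y) + Real.exp (-t) •
        (FF q N (Real.exp t • x) - FF q N (Real.exp t • y)) := by
      simp only [hY]
      rw [smul_add, smul_add, smul_sub]
      abel
    rw [e1]
    refine (norm_add_le _ _).trans ?_
    rw [norm_neg, norm_smul, Real.norm_eq_abs, abs_of_pos (Real.exp_pos _)]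
    have h2 : Real.exp (-t) * ‖FF q N (Real.exp t • x) - FF q N (Real.exp t • y)‖ ≤
        Real.exp (-t) * (C * (Real.exp t * ‖x - y‖)) :=
      mul_le_mul_of_nonneg_left h1 (Real.exp_pos _).le
    have h3 : Real.exp (-t) * (C * (Real.exp t * ‖x - y‖)) = C * ‖x - y‖ := by
      have : Real.exp (-t) * Real.exp t = 1 := by rw [← Real.exp_add]; simp
      calc _ = (Real.exp (-t) * Real.exp t) * (C * ‖x - y‖) := by ring
        _ = _ := by rw [this, one_mul]
    rw [h3] at h2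
    push_cast
    linarith
  have hcont : ∀ x, ContinuousOn (fun t => Y t x) (Icc 0 T) := by
    intro x
    refine Continuous.continuousOn ?_
    simp only [hY]
    have h1 : Continuous (fun t : ℝ => FF q N (Real.exp t • x)) :=
      (FF_contDiff q N).continuous.comp (Real.continuous_exp.smul continuous_const)
    exact continuous_const.add ((Real.continuous_exp.comp continuous_neg).smul (h1.add hG))
  have hen : ∀ t ∈ Icc 0 T, ∀ x, ⟪Y t x, x⟫_ℝ ≤ B ^ 2 := by
    intro t ht x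
    have e1 : ⟪Y t x, x⟫_ℝ = -‖x‖ ^ 2 + Real.exp (-t) * ⟪FF q N (Real.exp t • x), x⟫_ℝ +
        Real.exp (-t) * ⟪G t, x⟫_ℝ := by
      simp only [hY]
      rw [inner_add_left, inner_neg_left, real_inner_smul_left, inner_add_left,
        real_inner_self_eq_norm_sq]
      ring
    have h1 : ⟪FF q N (Real.exp t • x), x⟫_ℝ ≤ 0 := by
      have h2 := inner_FF q N (Real.exp t • x)
      rw [real_inner_smul_right] at h2
      by_contra h3
      push Not at h3
      have := mul_pos (Real.exp_pos t) h3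
      linarith
    have h2 : Real.exp (-t) * ⟪FF q N (Real.exp t • x), x⟫_ℝ ≤ 0 :=
      mul_nonpos_of_nonneg_of_nonpos (Real.exp_pos _).le h1
    have h3 : ⟪G t, x⟫_ℝ ≤ B * ‖x‖ :=
      (real_inner_le_norm _ _).trans (mul_le_mul_of_nonneg_right (hB t ht) (norm_nonneg _))
    have h4 : Real.exp (-t) ≤ 1 := Real.exp_le_one_iff.2 (by linarith [ht.1])
    have h5 : Real.exp (-t) * ⟪G t, x⟫_ℝ ≤ B * ‖x‖ := by
      rcases le_total 0 ⟪G t, x⟫_ℝ with h | h
      · calc Real.exp (-t) * ⟪G t, x⟫_ℝ ≤ 1 * ⟪G t, x⟫_ℝ := by gcongr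
          _ ≤ _ := by linarith
      · have := mul_nonpos_of_nonneg_of_nonpos (Real.exp_pos (-t)).le h
        have h6 : 0 ≤ B * ‖x‖ := by positivity
        linarith
    rw [e1]
    nlinarith [sq_nonneg (‖x‖ - B / 2), norm_nonneg x]
  obtain ⟨y, hy0, hy, -⟩ := H772R2.NSR.exists_global Y hT hlip hcont x0 (sq_nonneg B) hen
  refine ⟨fun t => Real.exp t • y t, by simp [hy0], fun t ht => ?_⟩
  have h1 := (Real.hasDerivAt_exp t).hasDerivWithinAt (s := Icc 0 T) |>.smul (hy t ht)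
  refine h1.congr_deriv ?_
  simp only [hY]
  rw [smul_add, smul_neg, smul_smul, ← Real.exp_add, add_neg_cancel, Real.exp_zero, one_smul]
  abel

/-- uniqueness on `[0, T]` -/
theorem uniq (q : ℕ → ℝ) (N : ℕ) (G : ℝ → EuclideanSpace ℝ (Fin N)) {T : ℝ}
    {x y : ℝ → EuclideanSpace ℝ (Fin N)}
    (hx : ∀ t ∈ Icc 0 T, HasDerivWithinAt x (FF q N (x t) + G t) (Icc 0 T) t)
    (hy : ∀ t ∈ Icc 0 T, HasDerivWithinAt y (FF q N (y t) + G t) (Icc 0 T) t)
    (h0 : x 0 = y 0) : EqOn x y (Icc 0 T) := by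
  have hcx : ContinuousOn x (Icc 0 T) := fun t ht => (hx t ht).continuousWithinAt
  have hcy : ContinuousOn y (Icc 0 T) := fun t ht => (hy t ht).continuousWithinAt
  obtain ⟨A, hA⟩ := (isCompact_Icc.image_of_continuousOn hcx).isBounded.exists_norm_le
  obtain ⟨B, hB⟩ := (isCompact_Icc.image_of_continuousOn hcy).isBounded.exists_norm_le
  set R := max A B with hR
  obtain ⟨C, hC⟩ := FF_lip q N R
  have hmono : ∀ {z : ℝ → EuclideanSpace ℝ (Fin N)} {v : EuclideanSpace ℝ (Fin N)} {t : ℝ},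
      t ∈ Ico 0 T → HasDerivWithinAt z v (Icc 0 T) t → HasDerivWithinAt z v (Ici t) t := by
    intro z v t ht h
    refine h.mono_of_mem_nhdsWithin ?_
    filter_upwards [mem_nhdsWithin_of_mem_nhds (Iic_mem_nhds ht.2), self_mem_nhdsWithin]
      with s hs hs'
    exact ⟨ht.1.trans hs', hs⟩
  refine ODE_solution_unique_of_mem_Icc_right (v := fun t z => FF q N z + G t)
    (s := fun _ => closedBall 0 R) (K := C) ?_ hcx ?_ ?_ hcy ?_ ?_ h0
  · intro t _
    refine LipschitzOnWith.of_dist_le_mul fun u hu v hv => ?_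
    have := hC.dist_le_mul u hu v hv
    simpa using this
  · intro t ht
    exact hmono ht (hx t ⟨ht.1, ht.2.le⟩)
  · intro t ht
    rw [mem_closedBall_zero_iff]
    exact (hA _ ⟨t, ⟨ht.1, ht.2.le⟩, rfl⟩).trans (le_max_left _ _)
  · intro t ht
    exact hmono ht (hy t ⟨ht.1, ht.2.le⟩)
  · intro t ht
    rw [mem_closedBall_zero_iff]
    exact (hB _ ⟨t, ⟨ht.1, ht.2.le⟩, rfl⟩).trans (le_max_right _ _)

/-- global existence -/
theorem glob (q : ℕ → ℝ) (N : ℕ) (G : ℝ → EuclideanSpace ℝ (Fin N)) (hG : Continuous G)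
    (x0 : EuclideanSpace ℝ (Fin N)) :
    ∃ x : ℝ → EuclideanSpace ℝ (Fin N), x 0 = x0 ∧
      ∀ t ∈ Ici (0 : ℝ), HasDerivWithinAt x (FF q N (x t) + G t) (Ici 0) t := by
  choose! y hy0 hy using fun k : ℕ => exT q N G hG x0 (T := (k : ℝ)) (Nat.cast_nonneg k)
  have hag : ∀ k l : ℕ, k ≤ l → EqOn (y k) (y l) (Icc 0 (k : ℝ)) := by
    intro k l hkl
    refine uniq q N G (hy k) (fun t ht => ?_) (by rw [hy0, hy0])
    have hkl' : (k : ℝ) ≤ l := by exact_mod_cast hkl
    exact (hy l t ⟨ht.1, ht.2.trans hkl'⟩).mono (Icc_subset_Icc le_rfl hkl')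
  set z : ℝ → EuclideanSpace ℝ (Fin N) := fun t => y (⌈t⌉₊) t with hz
  have hzy : ∀ k : ℕ, ∀ t ∈ Icc 0 (k : ℝ), z t = y k t := by
    intro k t ht
    have h1 : ⌈t⌉₊ ≤ k := Nat.ceil_le.2 ht.2
    exact hag _ _ h1 ⟨ht.1, Nat.le_ceil t⟩
  refine ⟨z, ?_, fun t ht => ?_⟩
  · rw [hzy 0 0 (by simp), hy0]
  · set k : ℕ := ⌈t⌉₊ + 1 with hk
    have htk : t < (k : ℝ) := by
      rw [hk]
      push_cast
      linarith [Nat.le_ceil t]
    have ht' : t ∈ Icc 0 (k : ℝ) := ⟨ht, htk.le⟩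
    have h1 : HasDerivWithinAt z (FF q N (z t) + G t) (Icc 0 (k : ℝ)) t := by
      rw [hzy k t ht']
      exact (hy k t ht').congr (fun s hs => hzy k s hs) (hzy k t ht')
    refine h1.mono_of_mem_nhdsWithin ?_
    filter_upwards [mem_nhdsWithin_of_mem_nhds (Iic_mem_nhds htk), self_mem_nhdsWithin]
      with s hs hs'
    exact ⟨hs', hs⟩

/-- (X2a) -/
theorem t_GX : S_GX := by
  intro q N g τ a hg
  have hG : Continuous (fun t => GG g N (t + τ)) :=
    (GG_cont g N hg).comp (continuous_id.add continuous_const)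
  obtain ⟨z, hz0, hz⟩ := glob q N (fun t => GG g N (t + τ)) hG
    (WithLp.toLp 2 (fun n : Fin N => a n))
  refine ⟨fun n t => ex (z (t - τ)) n, ?_, ?_, ?_⟩
  · intro n hn
    simp only [ex, sub_self, hz0, hn, dif_pos]
  · intro n hn t
    simp only [ex]
    rw [dif_neg (not_lt.2 hn)]
  · intro n hn t ht
    have ht0 : t - τ ∈ Ici (0 : ℝ) := Set.mem_Ici.2 (sub_nonneg.2 (Set.mem_Ici.1 ht))
    have h1 := hz (t - τ) ht0
    have h2 : HasDerivWithinAt (fun s => z (s - τ)) (FF q N (z (t - τ)) + GG g N t) (Ici τ) t := by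
      have h3 := h1.scomp t (h' := 1) (s := Ici τ) (h := fun s => s - τ)
        ((hasDerivWithinAt_id t _).sub_const τ) (fun s hs => Set.mem_Ici.2 (sub_nonneg.2 (Set.mem_Ici.1 hs)))
      simpa [Function.comp_def] using h3
    have h4 := (EuclideanSpace.proj (⟨n, hn⟩ : Fin N) :
      EuclideanSpace ℝ (Fin N) →L[ℝ] ℝ).hasFDerivAt.comp_hasDerivWithinAt t h2
    have e1 : (fun s => ex (z (s - τ)) n) = fun s => z (s - τ) ⟨n, hn⟩ := by
      funext s
      simp only [ex, hn, dif_pos]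
    have h5 : HasDerivWithinAt (fun s => ex (z (s - τ)) n)
        ((FF q N (z (t - τ)) + GG g N t) ⟨n, hn⟩) (Ici τ) t := by
      rw [e1]
      exact h4
    exact h5

end Pool.Agent.N976.EN.X2a
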