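import Pool.Agent.N976.EN.Def

/-!
# One stage of the cascade (S_STG)
-/

open Set Filter Topology MeasureTheory

set_option autoImplicit false

namespace Pool.Agent.N976.EN.X2b

/-- monotonicity from the one-sided derivative -/
lemma mono_aux {f f' : ℝ → ℝ} {τ a b : ℝ} (ha : τ ≤ a) (hab : a ≤ b)
    (hf : ∀ t ∈ Ici τ, HasDerivWithinAt f (f' t) (Ici τ) t)
    (h0 : ∀ t ∈ Ioo a b, 0 ≤ f' t) : f a ≤ f b := by
  have hmono : MonotoneOn f (Icc a b) := by
    apply monotoneOn_of_deriv_nonneg (convex_Icc a b)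
    · intro t ht
      exact ((hf t (ha.trans ht.1)).continuousWithinAt).mono (fun s hs => ha.trans hs.1)
    · intro t ht
      rw [interior_Icc] at ht
      have : HasDerivAt f (f' t) t :=
        (hf t (ha.trans ht.1.le)).hasDerivAt (Ici_mem_nhds (lt_of_le_of_lt ha ht.1))
      exact this.differentiableAt.differentiableWithinAt
    · intro t ht
      rw [interior_Icc] at ht
      have : HasDerivAt f (f' t) t :=
        (hf t (ha.trans ht.1.le)).hasDerivAt (Ici_mem_nhds (lt_of_le_of_lt ha ht.1))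
      rw [this.deriv]
      exact h0 t ht
  exact hmono (left_mem_Icc.2 hab) (right_mem_Icc.2 hab) hab

/-- barrier from the one-sided derivative -/
lemma barrier {f f' B B' : ℝ → ℝ} {τ a b : ℝ} (ha : τ ≤ a)
    (hf : ∀ t ∈ Ici τ, HasDerivWithinAt f (f' t) (Ici τ) t)
    (hB : ∀ t, HasDerivAt B (B' t) t) (h0 : f a ≤ B a)
    (hbd : ∀ t ∈ Ico a b, f t = B t → f' t < B' t) : ∀ t ∈ Icc a b, f t ≤ B t := by
  have h := image_le_of_deriv_right_lt_deriv_boundary (f := f) (f' := f') (a := a) (b := b)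
    (fun t ht => ((hf t (ha.trans ht.1)).continuousWithinAt).mono (fun s hs => ha.trans hs.1))
    (fun t ht => (hf t (ha.trans ht.1)).mono (Ici_subset_Ici.2 (ha.trans ht.1))) h0 hB hbd
  exact fun t ht => h ht

lemma cont_of_deriv {f f' : ℝ → ℝ} {τ : ℝ}
    (hf : ∀ t ∈ Ici τ, HasDerivWithinAt f (f' t) (Ici τ) t) : ContinuousOn f (Ici τ) :=
  fun t ht => (hf t ht).continuousWithinAt

/-- The two dominant modes. -/
structure Two (L κ c η τ : ℝ) (p r S g : ℝ → ℝ) : Prop where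
  L0 : 0 < L
  κ0 : 0 < κ
  c0 : 0 ≤ c
  cL : c ≤ L * κ
  η0 : 0 < η
  η1 : η ≤ 1 / 10
  lκ : (20 + 10 * Real.log (1 / η)) * κ ≤ 1 / 100
  hp : ∀ t ∈ Ici τ, HasDerivWithinAt p (p t * (S t - c) - L * r t ^ 2) (Ici τ) t
  hr : ∀ t ∈ Ici τ, HasDerivWithinAt r (r t * (S t + L * p t - L * κ) + g t) (Ici τ) t
  hS : ∀ t ∈ Ici τ, |S t| ≤ 1 / 10 * (L * κ)
  p2 : ∀ t ∈ Ici τ, p t ^ 2 ≤ 133 / 100
  r2 : ∀ t ∈ Ici τ, r t ^ 2 ≤ 133 / 100
  gc : Continuous g
  g0 : ∀ t, 0 ≤ g t
  gs : ∀ t, t ≤ τ ∨ τ + 1 / L ≤ t → g t = 0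
  gi : ∫ t, g t = η
  rτ : r τ = 0
  pτ : 9 / 10 ≤ p τ

section

variable {L κ c η τ : ℝ} {p r S g : ℝ → ℝ}

lemma G_deriv (gc : Continuous g) (t : ℝ) : HasDerivAt (fun t => ∫ s in τ..t, g s) (g t) t :=
  intervalIntegral.integral_hasDerivAt_right (gc.intervalIntegrable _ _)
    (gc.stronglyMeasurableAtFilter _ _) gc.continuousAt

lemma g_int (gc : Continuous g) (gs : ∀ t, t ≤ τ ∨ τ + 1 / L ≤ t → g t = 0) :
    Integrable g := by
  apply gc.integrable_of_hasCompactSupport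
  apply HasCompactSupport.intro (K := Icc τ (τ + 1 / L)) isCompact_Icc
  intro t ht
  apply gs
  by_contra hcon
  push Not at hcon
  exact ht ⟨hcon.1.le, hcon.2.le⟩

lemma G_le (gc : Continuous g) (g0 : ∀ t, 0 ≤ g t)
    (gs : ∀ t, t ≤ τ ∨ τ + 1 / L ≤ t → g t = 0) (gi : ∫ t, g t = η) (t : ℝ) (ht : τ ≤ t) :
    ∫ s in τ..t, g s ≤ η := by
  rw [intervalIntegral.integral_of_le ht, ← gi]
  exact setIntegral_le_integral (g_int gc gs) (Eventually.of_forall g0)

lemma G_nonneg (g0 : ∀ t, 0 ≤ g t) (t : ℝ) (ht : τ ≤ t) :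
    0 ≤ ∫ s in τ..t, g s :=
  intervalIntegral.integral_nonneg ht (fun s _ => g0 s)

lemma G_eq (gs : ∀ t, t ≤ τ ∨ τ + 1 / L ≤ t → g t = 0) (gi : ∫ t, g t = η) :
    ∫ s in τ..(τ + 1 / L), g s = η := by
  rw [← gi]
  apply intervalIntegral.integral_eq_integral_of_support_subset
  intro t ht
  rw [Function.mem_support] at ht
  by_contra hcon
  apply ht
  apply gs
  by_contra h2
  push Not at h2
  exact hcon ⟨h2.1, h2.2.le⟩

end

namespace Two

variable {L κ c η τ : ℝ} {p r S g : ℝ → ℝ} (H : Two L κ c η τ p r S g)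

include H

lemma logn : 0 ≤ Real.log (1 / η) := by
  apply Real.log_nonneg
  rw [le_div_iff₀ H.η0]
  linarith [H.η1]

lemma κs : κ ≤ 1 / 2000 := by
  have h1 := H.lκ
  have h2 := H.logn
  have h3 := H.κ0
  nlinarith [mul_nonneg h2 h3.le]

lemma pab : ∀ t ∈ Ici τ, |p t| ≤ 1154 / 1000 := by
  intro t ht
  apply abs_le_of_sq_le_sq _ (by norm_num)
  exact (H.p2 t ht).trans (by norm_num)

lemma rab : ∀ t ∈ Ici τ, |r t| ≤ 1154 / 1000 := by
  intro t ht
  apply abs_le_of_sq_le_sq _ (by norm_num)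
  exact (H.r2 t ht).trans (by norm_num)

lemma a_up : ∀ t ∈ Ici τ, S t + L * p t - L * κ < 116 / 100 * L := by
  intro t ht
  have h1 := abs_le.1 (H.hS t ht)
  have h2 := abs_le.1 (H.pab t ht)
  have h3 := H.κs
  have h4 := H.L0
  have h5 : 0 < L * κ := mul_pos H.L0 H.κ0
  have h6 : L * p t ≤ L * (1154 / 1000) := mul_le_mul_of_nonneg_left h2.2 h4.le
  nlinarith

lemma r_nonneg : ∀ t ∈ Ici τ, 0 ≤ r t := by
  intro t ht
  have key : ∀ δ : ℝ, 0 < δ → -(r t) ≤ δ * Real.exp (2 * L * (t - τ)) := by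
    intro δ hδ
    have hf : ∀ s ∈ Ici τ, HasDerivWithinAt (fun s => -(r s))
        (-(r s * (S s + L * p s - L * κ) + g s)) (Ici τ) s := fun s hs => (H.hr s hs).neg
    have hB : ∀ s, HasDerivAt (fun s => δ * Real.exp (2 * L * (s - τ)))
        (δ * (Real.exp (2 * L * (s - τ)) * (2 * L))) s := by
      intro s
      have h1 : HasDerivAt (fun s => 2 * L * (s - τ)) (2 * L) s := by
        simpa using ((hasDerivAt_id s).sub_const τ).const_mul (2 * L)
      exact (h1.exp).const_mul δ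
    have := barrier (a := τ) (b := t) le_rfl hf hB (by
      simp [H.rτ]; exact hδ.le) (by
      intro s hs hsB
      have ha := H.a_up s hs.1
      have hg := H.g0 s
      have hE : 0 < δ * Real.exp (2 * L * (s - τ)) := mul_pos hδ (Real.exp_pos _)
      have hL := H.L0
      have e1 : r s = -(δ * Real.exp (2 * L * (s - τ))) := by linarith
      rw [e1]
      have : (δ * Real.exp (2 * L * (s - τ))) * (S s + L * p s - L * κ) <
          (δ * Real.exp (2 * L * (s - τ))) * (2 * L) := by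
        apply mul_lt_mul_of_pos_left _ hE
        linarith
      nlinarith) t ⟨ht, le_rfl⟩
    simpa using this
  have h2 : -(r t) ≤ 0 := by
    apply le_of_forall_pos_le_add
    intro ε hε
    have h3 := key (ε / Real.exp (2 * L * (t - τ))) (div_pos hε (Real.exp_pos _))
    rw [div_mul_cancel₀ _ (Real.exp_pos _).ne'] at h3
    linarith
  linarith

lemma F_low : ∀ t ∈ Ici τ, t - τ ≤ (20 + 10 * Real.log (1 / η)) / L →
    (1 - 3 * (20 + 10 * Real.log (1 / η)) * κ) * p τ ^ 2 ≤ p t ^ 2 + r t ^ 2 := by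
  intro t ht htl
  have hL := H.L0
  have hκ := H.κ0
  have hLκ : 0 < L * κ := mul_pos hL hκ
  set F : ℝ → ℝ := fun s => (p s ^ 2 + r s ^ 2) * Real.exp (3 * (L * κ) * (s - τ)) with hF
  have hd : ∀ s ∈ Ici τ, HasDerivWithinAt F
      ((2 * p s * (p s * (S s - c) - L * r s ^ 2) +
        2 * r s * (r s * (S s + L * p s - L * κ) + g s)) * Real.exp (3 * (L * κ) * (s - τ)) +
        (p s ^ 2 + r s ^ 2) * (Real.exp (3 * (L * κ) * (s - τ)) * (3 * (L * κ)))) (Ici τ) s := by
    intro s hs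
    have h1 : HasDerivWithinAt (fun s => 3 * (L * κ) * (s - τ)) (3 * (L * κ)) (Ici τ) s := by
      simpa using (((hasDerivAt_id s).sub_const τ).const_mul (3 * (L * κ))).hasDerivWithinAt
    have h2 := ((H.hp s hs).pow 2).add ((H.hr s hs).pow 2)
    have h3 := h2.mul h1.exp
    refine h3.congr_deriv ?_
    simp only [Pi.add_apply, Pi.pow_apply]
    push_cast
    ring
  have hm := mono_aux (a := τ) (b := t) le_rfl ht hd (by
    intro s hs
    have hs' : s ∈ Ici τ := hs.1.le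
    have hSb := abs_le.1 (H.hS s hs')
    have hr0 := H.r_nonneg s hs'
    have hg := H.g0 s
    have hc := H.cL
    have hc0 := H.c0
    have hE := Real.exp_pos (3 * (L * κ) * (s - τ))
    have e : (2 * p s * (p s * (S s - c) - L * r s ^ 2) +
        2 * r s * (r s * (S s + L * p s - L * κ) + g s)) * Real.exp (3 * (L * κ) * (s - τ)) +
        (p s ^ 2 + r s ^ 2) * (Real.exp (3 * (L * κ) * (s - τ)) * (3 * (L * κ))) =
        ((2 * S s + 3 * (L * κ) - 2 * c) * p s ^ 2 + (2 * S s + L * κ) * r s ^ 2 +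
          2 * (r s * g s)) * Real.exp (3 * (L * κ) * (s - τ)) := by ring
    rw [e]
    apply mul_nonneg _ hE.le
    have i1 : 0 ≤ (2 * S s + 3 * (L * κ) - 2 * c) * p s ^ 2 := by
      apply mul_nonneg _ (sq_nonneg _)
      linarith
    have i2 : 0 ≤ (2 * S s + L * κ) * r s ^ 2 := by
      apply mul_nonneg _ (sq_nonneg _)
      linarith
    have i3 : 0 ≤ r s * g s := mul_nonneg hr0 hg
    linarith)
  simp only [hF, sub_self, mul_zero, Real.exp_zero, mul_one, H.rτ] at hm
  have hF0 : 0 ≤ p t ^ 2 + r t ^ 2 := by positivity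
  have hE2 : Real.exp (3 * (L * κ) * (t - τ)) * Real.exp (-(3 * (L * κ) * (t - τ))) = 1 := by
    rw [← Real.exp_add]; simp
  have hE3 : 1 - 3 * (L * κ) * (t - τ) ≤ Real.exp (-(3 * (L * κ) * (t - τ))) := by
    have := Real.add_one_le_exp (-(3 * (L * κ) * (t - τ)))
    linarith
  have hE4 := Real.exp_pos (-(3 * (L * κ) * (t - τ)))
  have h5 : p τ ^ 2 * Real.exp (-(3 * (L * κ) * (t - τ))) ≤ p t ^ 2 + r t ^ 2 := by
    have hm' : p τ ^ 2 ≤ (p t ^ 2 + r t ^ 2) * Real.exp (3 * (L * κ) * (t - τ)) := by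
      simpa using hm
    calc p τ ^ 2 * Real.exp (-(3 * (L * κ) * (t - τ)))
        ≤ ((p t ^ 2 + r t ^ 2) * Real.exp (3 * (L * κ) * (t - τ))) *
          Real.exp (-(3 * (L * κ) * (t - τ))) := mul_le_mul_of_nonneg_right hm' hE4.le
      _ = (p t ^ 2 + r t ^ 2) * (Real.exp (3 * (L * κ) * (t - τ)) *
          Real.exp (-(3 * (L * κ) * (t - τ)))) := by ring
      _ = p t ^ 2 + r t ^ 2 := by rw [hE2, mul_one]
  have h6 : (L * κ) * (t - τ) ≤ (20 + 10 * Real.log (1 / η)) * κ := by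
    have := mul_le_mul_of_nonneg_left htl hLκ.le
    have e : L * κ * ((20 + 10 * Real.log (1 / η)) / L) = (20 + 10 * Real.log (1 / η)) * κ := by
      field_simp
    linarith
  have h7 : 1 - 3 * (20 + 10 * Real.log (1 / η)) * κ ≤
      Real.exp (-(3 * (L * κ) * (t - τ))) := by linarith
  calc (1 - 3 * (20 + 10 * Real.log (1 / η)) * κ) * p τ ^ 2
      ≤ Real.exp (-(3 * (L * κ) * (t - τ))) * p τ ^ 2 :=
        mul_le_mul_of_nonneg_right h7 (sq_nonneg _)
    _ = p τ ^ 2 * Real.exp (-(3 * (L * κ) * (t - τ))) := by ring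
    _ ≤ _ := h5

lemma F_low' : ∀ t ∈ Ici τ, t - τ ≤ (20 + 10 * Real.log (1 / η)) / L →
    785 / 1000 ≤ p t ^ 2 + r t ^ 2 := by
  intro t ht htl
  have h1 := H.F_low t ht htl
  have h2 := H.lκ
  have h3 := H.pτ
  have h4 : (81 / 100 : ℝ) ≤ p τ ^ 2 := by nlinarith
  have h5 : (97 / 100 : ℝ) ≤ 1 - 3 * (20 + 10 * Real.log (1 / η)) * κ := by linarith
  have h6 : (97 / 100 : ℝ) * (81 / 100) ≤
      (1 - 3 * (20 + 10 * Real.log (1 / η)) * κ) * p τ ^ 2 :=
    mul_le_mul h5 h4 (by norm_num) (by linarith)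
  linarith

lemma l_ge : 20 / L ≤ (20 + 10 * Real.log (1 / η)) / L := by
  apply div_le_div_of_nonneg_right _ H.L0.le
  linarith [H.logn]

lemma t1_le : 1 / L ≤ (20 + 10 * Real.log (1 / η)) / L := by
  apply div_le_div_of_nonneg_right _ H.L0.le
  linarith [H.logn]

omit H in
lemma exp116 : Real.exp (116 / 100) * (11 / 10) ≤ 4 := by
  have h1 := Real.exp_one_lt_d9
  have h2 := Real.add_one_le_exp (-(16 / 100 : ℝ))
  have h3 : Real.exp (16 / 100) * Real.exp (-(16 / 100 : ℝ)) = 1 := by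
    rw [← Real.exp_add]; simp
  have h4 := Real.exp_pos (16 / 100 : ℝ)
  have h5 : Real.exp (16 / 100) * (84 / 100) ≤ 1 := by
    calc Real.exp (16 / 100) * (84 / 100) ≤ Real.exp (16 / 100) * Real.exp (-(16 / 100 : ℝ)) :=
          mul_le_mul_of_nonneg_left (by linarith) h4.le
      _ = 1 := h3
  have h6 : Real.exp (116 / 100) = Real.exp 1 * Real.exp (16 / 100) := by
    rw [← Real.exp_add]; norm_num
  rw [h6]
  have h7 : Real.exp (16 / 100) ≤ 100 / 84 := by linarith
  have h8 : Real.exp 1 * Real.exp (16 / 100) ≤ 2.7182818286 * (100 / 84) :=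
    mul_le_mul h1.le h7 h4.le (by norm_num)
  linarith [h8, show (2.7182818286 : ℝ) * (100 / 84) * (11 / 10) ≤ 4 by norm_num]

/-- `r` is small during the seeding -/
lemma r_small : ∀ t ∈ Icc τ (τ + 1 / L), r t ≤ 4 * η := by
  intro t ht
  have hL := H.L0
  have hη := H.η0
  have hB : ∀ s, HasDerivAt (fun s => Real.exp (116 / 100 * L * (s - τ)) *
      ((∫ u in τ..s, g u) + η / 10))
      (Real.exp (116 / 100 * L * (s - τ)) * (116 / 100 * L) * ((∫ u in τ..s, g u) + η / 10) +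
        Real.exp (116 / 100 * L * (s - τ)) * g s) s := by
    intro s
    have h1 : HasDerivAt (fun s => 116 / 100 * L * (s - τ)) (116 / 100 * L) s := by
      simpa using ((hasDerivAt_id s).sub_const τ).const_mul (116 / 100 * L)
    exact h1.exp.mul ((G_deriv H.gc s).add_const (η / 10))
  have h0 := barrier (a := τ) (b := t) le_rfl H.hr hB (by
      simp only [H.rτ, sub_self, mul_zero, Real.exp_zero, intervalIntegral.integral_same]
      linarith) (by
      intro s hs hsB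
      have hs' : s ∈ Ici τ := hs.1
      have ha := H.a_up s hs'
      have hg := H.g0 s
      have hG := G_nonneg (τ := τ) H.g0 s hs'
      have hE1 : 1 ≤ Real.exp (116 / 100 * L * (s - τ)) := by
        apply Real.one_le_exp
        apply mul_nonneg (by positivity)
        linarith [hs.1]
      have hb : 0 < Real.exp (116 / 100 * L * (s - τ)) * ((∫ u in τ..s, g u) + η / 10) :=
        mul_pos (Real.exp_pos _) (by linarith)
      have e1 : r s * (S s + L * p s - L * κ) < r s * (116 / 100 * L) := by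
        apply mul_lt_mul_of_pos_left ha
        rw [hsB]; exact hb
      have e2 : g s ≤ Real.exp (116 / 100 * L * (s - τ)) * g s := by
        nlinarith
      rw [hsB] at e1 ⊢
      nlinarith) t ⟨ht.1, le_rfl⟩
  have hG1 := G_le (τ := τ) H.gc H.g0 H.gs H.gi t ht.1
  have hG2 := G_nonneg (τ := τ) H.g0 t ht.1
  have hE : Real.exp (116 / 100 * L * (t - τ)) ≤ Real.exp (116 / 100) := by
    apply Real.exp_le_exp.2
    have : L * (t - τ) ≤ 1 := by
      have : t - τ ≤ 1 / L := by linarith [ht.2]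
      calc L * (t - τ) ≤ L * (1 / L) := mul_le_mul_of_nonneg_left this hL.le
        _ = 1 := by field_simp
    nlinarith
  calc r t ≤ Real.exp (116 / 100 * L * (t - τ)) * ((∫ u in τ..t, g u) + η / 10) := h0
    _ ≤ Real.exp (116 / 100) * (η + η / 10) :=
        mul_le_mul hE (by linarith) (by linarith) (Real.exp_pos _).le
    _ = (Real.exp (116 / 100) * (11 / 10)) * η := by ring
    _ ≤ 4 * η := mul_le_mul_of_nonneg_right exp116 hη.le

lemma p_sq_big : ∀ t ∈ Icc τ (τ + 1 / L), 6 / 10 ≤ p t ^ 2 := by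
  intro t ht
  have h1 := H.r_small t ht
  have h2 := H.r_nonneg t ht.1
  have h3 := H.F_low' t ht.1 (le_trans (by linarith [ht.2]) H.t1_le)
  have h4 := H.η1
  have h5 : r t ≤ 4 / 10 := by linarith
  nlinarith

lemma p_big : ∀ t ∈ Icc τ (τ + 1 / L), 7 / 10 ≤ p t := by
  intro t ht
  have hpc := cont_of_deriv H.hp
  have hpos : 0 < p t := by
    by_contra hcon
    push Not at hcon
    have hc : ContinuousOn p (Icc τ t) := hpc.mono (fun s hs => hs.1)
    have h0 : (0 : ℝ) ∈ Icc (p t) (p τ) := ⟨hcon, by linarith [H.pτ]⟩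
    obtain ⟨s, hs, hs0⟩ := intermediate_value_Icc' ht.1 hc h0
    have := H.p_sq_big s ⟨hs.1, hs.2.trans ht.2⟩
    rw [hs0] at this
    norm_num at this
  have := H.p_sq_big t ht
  nlinarith

lemma r_t1 : η ≤ r (τ + 1 / L) := by
  have hL := H.L0
  have hd : ∀ s ∈ Ici τ, HasDerivWithinAt (fun s => r s - ∫ u in τ..s, g u)
      ((r s * (S s + L * p s - L * κ) + g s) - g s) (Ici τ) s := fun s hs =>
    (H.hr s hs).sub (G_deriv H.gc s).hasDerivWithinAt
  have h1 : (0 : ℝ) ≤ 1 / L := by positivity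
  have := mono_aux (a := τ) (b := τ + 1 / L) le_rfl (by linarith) hd (by
    intro s hs
    have hs' : s ∈ Ici τ := hs.1.le
    have h2 := H.p_big s ⟨hs.1.le, hs.2.le⟩
    have h3 := abs_le.1 (H.hS s hs')
    have h4 := H.κs
    have h5 := H.r_nonneg s hs'
    have h6 : 0 < L * κ := mul_pos hL H.κ0
    have h7 : L * κ ≤ L * (1 / 2000) := mul_le_mul_of_nonneg_left h4 hL.le
    have h8 : L * (7 / 10) ≤ L * p s := mul_le_mul_of_nonneg_left h2 hL.le
    have h9 : 0 ≤ S s + L * p s - L * κ := by linarith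
    have := mul_nonneg h5 h9
    linarith)
  simp only [intervalIntegral.integral_same, H.rτ, sub_zero] at this
  rw [G_eq H.gs H.gi] at this
  linarith

lemma phase : ∃ t ∈ Icc τ (τ + (20 + 10 * Real.log (1 / η)) / L), p t = 0 := by
  by_contra hcon
  push Not at hcon
  have hL := H.L0
  have hκ := H.κ0
  have hlog := H.logn
  have hη := H.η0
  set Λ := Real.log (1 / η) with hΛ
  have h20 := H.l_ge
  have hpc := cont_of_deriv H.hp
  have hl0 : (0 : ℝ) < (20 + 10 * Λ) / L := by positivity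
  have hpos : ∀ t ∈ Icc τ (τ + (20 + 10 * Λ) / L), 0 < p t := by
    intro t ht
    by_contra hc0
    push Not at hc0
    have hc : ContinuousOn p (Icc τ t) := hpc.mono (fun s hs => hs.1)
    have h0 : (0 : ℝ) ∈ Icc (p t) (p τ) := ⟨hc0, by linarith [H.pτ]⟩
    obtain ⟨s, hs, hs0⟩ := intermediate_value_Icc' ht.1 hc h0
    exact hcon s ⟨hs.1, hs.2.trans ht.2⟩ hs0
  -- the times
  have hL1 : (0 : ℝ) < 1 / L := by positivity
  have e0 : (20 + 10 * Λ) / L = (20 + 10 * Λ) * (1 / L) := by ring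
  have hΛL : 0 ≤ Λ * (1 / L) := by positivity
  set t1 := τ + 1 / L with ht1
  set ts := t1 + 3 * (1 + Λ) * (1 / L) with hts
  have i1 : τ ≤ t1 := by rw [ht1]; linarith
  have i2 : t1 ≤ ts := by
    rw [hts]
    have : 0 ≤ 3 * (1 + Λ) * (1 / L) := by positivity
    linarith
  have i3 : ts + 16 * (1 / L) ≤ τ + (20 + 10 * Λ) / L := by
    rw [hts, ht1, e0]
    nlinarith
  -- in the first case `p` is at least 1/2 up to `ts`
  by_cases hcase : ∀ s ∈ Icc t1 ts, 1 / 2 ≤ p s
  · have hd : ∀ s ∈ Ici τ, HasDerivWithinAt (fun s => r s * Real.exp (-(45 / 100 * L * (s - t1))))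
        ((r s * (S s + L * p s - L * κ) + g s) * Real.exp (-(45 / 100 * L * (s - t1))) +
          r s * (Real.exp (-(45 / 100 * L * (s - t1))) * (-(45 / 100 * L)))) (Ici τ) s := by
      intro s hs
      have h1 : HasDerivWithinAt (fun s => -(45 / 100 * L * (s - t1))) (-(45 / 100 * L))
          (Ici τ) s := by
        have h0 : HasDerivAt (fun s => (-(45 / 100 * L)) * (s - t1)) (-(45 / 100 * L)) s := by
          simpa using ((hasDerivAt_id s).sub_const t1).const_mul (-(45 / 100 * L))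
        exact (h0.congr_of_eventuallyEq (Eventually.of_forall (fun y => by ring))).hasDerivWithinAt
      exact (H.hr s hs).mul h1.exp
    have hm := mono_aux (a := t1) (b := ts) i1 i2 hd (by
      intro s hs
      have hs' : s ∈ Ici τ := i1.trans hs.1.le
      have h2 := hcase s ⟨hs.1.le, hs.2.le⟩
      have h3 := abs_le.1 (H.hS s hs')
      have h4 := H.κs
      have h5 := H.r_nonneg s hs'
      have h6 : 0 < L * κ := mul_pos hL H.κ0
      have h7 : L * κ ≤ L * (1 / 2000) := mul_le_mul_of_nonneg_left h4 hL.le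
      have h8 : L * (1 / 2) ≤ L * p s := mul_le_mul_of_nonneg_left h2 hL.le
      have h9 : 0 ≤ S s + L * p s - L * κ - 45 / 100 * L := by linarith
      have hg := H.g0 s
      have hE := Real.exp_pos (-(45 / 100 * L * (s - t1)))
      have e : (r s * (S s + L * p s - L * κ) + g s) * Real.exp (-(45 / 100 * L * (s - t1))) +
          r s * (Real.exp (-(45 / 100 * L * (s - t1))) * (-(45 / 100 * L))) =
          (r s * (S s + L * p s - L * κ - 45 / 100 * L) + g s) *
            Real.exp (-(45 / 100 * L * (s - t1))) := by ring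
      rw [e]
      apply mul_nonneg _ hE.le
      have := mul_nonneg h5 h9
      linarith)
    have hr1 : η ≤ r t1 := H.r_t1
    simp only [sub_self, mul_zero, neg_zero, Real.exp_zero, mul_one] at hm
    have e1 : 45 / 100 * L * (ts - t1) = 135 / 100 * (1 + Λ) := by
      rw [hts]; field_simp; ring
    rw [e1] at hm
    have h10 : η = Real.exp (-Λ) := by
      rw [hΛ, one_div, Real.log_inv, neg_neg, Real.exp_log hη]
    have h11 : η * Real.exp (135 / 100 * (1 + Λ)) ≤ r ts := by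
      have h12 : r ts * Real.exp (-(135 / 100 * (1 + Λ))) * Real.exp (135 / 100 * (1 + Λ)) =
          r ts := by
        rw [mul_assoc, ← Real.exp_add]; simp
      calc η * Real.exp (135 / 100 * (1 + Λ))
          ≤ r ts * Real.exp (-(135 / 100 * (1 + Λ))) * Real.exp (135 / 100 * (1 + Λ)) :=
            mul_le_mul_of_nonneg_right (hr1.trans hm) (Real.exp_pos _).le
        _ = r ts := h12
    rw [h10, ← Real.exp_add] at h11
    have h13 := Real.add_one_le_exp (-Λ + 135 / 100 * (1 + Λ))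
    have h14 := (abs_le.1 (H.rab ts (i1.trans i2))).2
    linarith
  · push Not at hcase
    obtain ⟨s, hs, hsp⟩ := hcase
    set T0 := τ + (20 + 10 * Λ) / L with hT0
    have hsτ : τ ≤ s := i1.trans hs.1
    have hsT : s + 16 * (1 / L) ≤ T0 := by linarith [hs.2]
    have hsT' : s ≤ T0 := by linarith
    have h6 : 0 < L * κ := mul_pos hL H.κ0
    have h7 : L * κ ≤ L * (1 / 2000) := mul_le_mul_of_nonneg_left H.κs hL.le
    have hle : ∀ t ∈ Icc s T0, p t ≤ 1 / 2 := by
      refine barrier (τ := τ) hsτ H.hp (B := fun _ => 1 / 2) (B' := fun _ => 0)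
        (fun t => hasDerivAt_const t _) hsp.le ?_
      intro t ht hpt
      have ht' : t ∈ Ici τ := hsτ.trans ht.1
      have hF := H.F_low' t ht' (by
        have := ht.2
        rw [hT0] at this
        linarith)
      have h3 := abs_le.1 (H.hS t ht')
      rw [hpt] at hF ⊢
      have hr2 : 53 / 100 ≤ r t ^ 2 := by linarith
      have h8 : L * (53 / 100) ≤ L * r t ^ 2 := mul_le_mul_of_nonneg_left hr2 hL.le
      have hc0 := H.c0
      nlinarith
    have hd : ∀ t ∈ Ici τ, HasDerivWithinAt (fun t => -(p t) - 1 / 2 * L * t)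
        (-(p t * (S t - c) - L * r t ^ 2) - 1 / 2 * L) (Ici τ) t := by
      intro t ht
      have h1 : HasDerivWithinAt (fun t => 1 / 2 * L * t) (1 / 2 * L) (Ici τ) t := by
        simpa using ((hasDerivAt_id t).const_mul (1 / 2 * L)).hasDerivWithinAt
      exact (H.hp t ht).neg.sub h1
    have hm := mono_aux (a := s) (b := T0) hsτ hsT' hd (by
      intro t ht
      have ht' : t ∈ Ici τ := hsτ.trans ht.1.le
      have hF := H.F_low' t ht' (by
        have := ht.2
        rw [hT0] at this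
        linarith)
      have h3 := abs_le.1 (H.hS t ht')
      have h4 := hle t ⟨ht.1.le, ht.2.le⟩
      have h5 := hpos t ⟨hsτ.trans ht.1.le, ht.2.le⟩
      have hr2 : 53 / 100 ≤ r t ^ 2 := by nlinarith
      have h8 : L * (53 / 100) ≤ L * r t ^ 2 := mul_le_mul_of_nonneg_left hr2 hL.le
      have hc0 := H.c0
      have h9 : p t * (S t - c) ≤ 1 / 2 * (1 / 10 * (L * κ)) := by
        calc p t * (S t - c) ≤ p t * (1 / 10 * (L * κ)) :=
              mul_le_mul_of_nonneg_left (by linarith) h5.le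
          _ ≤ 1 / 2 * (1 / 10 * (L * κ)) := mul_le_mul_of_nonneg_right h4 (by positivity)
      linarith)
    have h15 := hpos T0 ⟨hsτ.trans hsT', le_rfl⟩
    have h16 : L * (s + 16 * (1 / L)) ≤ L * T0 := mul_le_mul_of_nonneg_left hsT hL.le
    have h17 : L * (16 * (1 / L)) = 16 := by field_simp
    nlinarith

/-- the first zero -/
lemma first_zero : ∃ τ' > τ, τ + 1 / L < τ' ∧ τ' - τ ≤ (20 + 10 * Real.log (1 / η)) / L ∧
    p τ' = 0 ∧ (∀ t ∈ Icc τ τ', 0 ≤ p t) ∧ 0 < r τ' := by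
  have hL := H.L0
  have hpc := cont_of_deriv H.hp
  set T0 := τ + (20 + 10 * Real.log (1 / η)) / L with hT0
  have hcomp : IsCompact (Icc τ T0 ∩ p ⁻¹' {0}) := by
    apply IsCompact.of_isClosed_subset (isCompact_Icc (a := τ) (b := T0)) _ inter_subset_left
    exact (hpc.mono (fun s hs => hs.1)).preimage_isClosed_of_isClosed isClosed_Icc
      isClosed_singleton
  obtain ⟨t0, ht0, hp0⟩ := H.phase
  obtain ⟨τ', hτ', hleast⟩ := hcomp.exists_isLeast ⟨t0, ht0, hp0⟩
  have hτp : p τ' = 0 := hτ'.2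
  have hne : ∀ t ∈ Ico τ τ', p t ≠ 0 := by
    intro t ht h0
    have := hleast ⟨⟨ht.1, ht.2.le.trans hτ'.1.2⟩, h0⟩
    linarith [ht.2]
  have hpos : ∀ t ∈ Ico τ τ', 0 < p t := by
    intro t ht
    by_contra hc0
    push Not at hc0
    have hc : ContinuousOn p (Icc τ t) := hpc.mono (fun s hs => hs.1)
    have h0 : (0 : ℝ) ∈ Icc (p t) (p τ) := ⟨hc0, by linarith [H.pτ]⟩
    obtain ⟨s, hs, hs0⟩ := intermediate_value_Icc' ht.1 hc h0
    exact hne s ⟨hs.1, lt_of_le_of_lt hs.2 ht.2⟩ hs0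
  have h1 : τ + 1 / L < τ' := by
    by_contra hcon
    push Not at hcon
    have := H.p_big τ' ⟨hτ'.1.1, hcon⟩
    rw [hτp] at this
    norm_num at this
  have hL1 : (0 : ℝ) < 1 / L := by positivity
  refine ⟨τ', by linarith, h1, by linarith [hτ'.1.2], hτp, ?_, ?_⟩
  · intro t ht
    rcases eq_or_lt_of_le ht.2 with h | h
    · rw [h, hτp]
    · exact (hpos t ⟨ht.1, h⟩).le
  · have hF := H.F_low' τ' hτ'.1.1 (by linarith [hτ'.1.2])
    rw [hτp] at hF
    have h2 := H.r_nonneg τ' hτ'.1.1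
    rcases eq_or_lt_of_le h2 with h | h
    · rw [← h] at hF
      norm_num at hF
    · exact h

end Two

/-! ### The energy -/

lemma energy_id (q : ℕ → ℝ) (N : ℕ) (x : ℕ → ℝ) :
    ∑ m ∈ Finset.range N, x m * vN q N x m = -∑ m ∈ Finset.range N, q m ^ 4 * x m ^ 2 := by
  have h1 : ∀ m ∈ Finset.range N, x m * vN q N x m = -(q m ^ 4 * x m ^ 2) +
      (∑ i ∈ Finset.Ico 0 m, q i ^ 5 * x i * x m ^ 2 -
        ∑ j ∈ Finset.Ico (m + 1) N, q m ^ 5 * x m * x j ^ 2) := by
    intro m _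
    unfold vN
    rw [← Finset.sum_mul, ← Finset.mul_sum, Finset.range_eq_Ico]
    ring
  rw [Finset.sum_congr rfl h1, Finset.sum_add_distrib, Finset.sum_neg_distrib,
    Finset.sum_sub_distrib, Finset.range_eq_Ico]
  have h2 : ∑ m ∈ Finset.Ico 0 N, ∑ j ∈ Finset.Ico (m + 1) N, q m ^ 5 * x m * x j ^ 2 =
      ∑ m ∈ Finset.Ico 0 N, ∑ i ∈ Finset.Ico 0 m, q i ^ 5 * x i * x m ^ 2 :=
    Finset.sum_Ico_Ico_comm' 0 N (fun i j => q i ^ 5 * x i * x j ^ 2)
  rw [h2]
  ring

lemma energy_ineq (q : ℕ → ℝ) (n : ℕ) (τ : ℝ) (x : ℕ → ℝ → ℝ) (g : ℝ → ℝ)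
    (gc : Continuous g) (g0 : ∀ t, 0 ≤ g t)
    (hx : ∀ m < n + 2, ∀ t ∈ Ici τ, HasDerivWithinAt (x m)
      (vN q (n + 2) (fun j => x j t) m + if m = n + 1 then g t else 0) (Ici τ) t) :
    ∀ t ∈ Ici τ, √(∑ m ∈ Finset.range (n + 2), x m t ^ 2) ≤
      √(∑ m ∈ Finset.range (n + 2), x m τ ^ 2) + ∫ s in τ..t, g s := by
  intro t ht
  set E : ℝ → ℝ := fun t => ∑ m ∈ Finset.range (n + 2), x m t ^ 2 with hE
  have hE0 : ∀ t, 0 ≤ E t := fun t => Finset.sum_nonneg (fun _ _ => sq_nonneg _)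
  have hd : ∀ s ∈ Ici τ, HasDerivWithinAt E
      (2 * (-∑ m ∈ Finset.range (n + 2), q m ^ 4 * x m s ^ 2) + 2 * (x (n + 1) s * g s))
      (Ici τ) s := by
    intro s hs
    have h1 : HasDerivWithinAt E (∑ m ∈ Finset.range (n + 2),
        (2 * (x m s * vN q (n + 2) (fun j => x j s) m) +
          2 * (x m s * if m = n + 1 then g s else 0))) (Ici τ) s := by
      rw [hE]
      apply HasDerivWithinAt.fun_sum
      intro m hm
      have := (hx m (Finset.mem_range.1 hm) s hs).pow 2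
      refine this.congr_deriv ?_
      push_cast
      ring
    refine h1.congr_deriv ?_
    rw [Finset.sum_add_distrib, ← Finset.mul_sum, ← Finset.mul_sum,
      energy_id q (n + 2) (fun j => x j s)]
    congr 2
    rw [Finset.sum_eq_single (n + 1)]
    · simp
    · intro b _ hb
      simp [hb]
    · intro h
      exact absurd (Finset.mem_range.2 (by omega)) h
  have hr : ∀ s, |x (n + 1) s| ≤ √(E s) := by
    intro s
    apply Real.abs_le_sqrt
    exact Finset.single_le_sum (f := fun m => x m s ^ 2) (fun _ _ => sq_nonneg _)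
      (Finset.mem_range.2 (by omega : n + 1 < n + 2))
  apply le_of_forall_pos_le_add
  intro ε hε
  have hpos : 0 < 1 + (t - τ) := by linarith [show τ ≤ t from ht]
  set δ := ε / (1 + (t - τ)) with hδ
  have hδ0 : 0 < δ := div_pos hε hpos
  set b : ℝ → ℝ := fun s => √(E τ) + δ + (∫ u in τ..s, g u) + δ * (s - τ) with hb
  have hbd : ∀ s, HasDerivAt b (g s + δ) s := by
    intro s
    have h1 : HasDerivAt (fun s => δ * (s - τ)) δ s := by
      simpa using ((hasDerivAt_id s).sub_const τ).const_mul δ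
    exact ((G_deriv (τ := τ) gc s).const_add (√(E τ) + δ)).add h1
  have hB : ∀ s, HasDerivAt (fun s => b s ^ 2) (2 * b s * (g s + δ)) s := by
    intro s
    have := (hbd s).pow 2
    refine this.congr_deriv ?_
    push_cast
    ring
  have hbpos : ∀ s, τ ≤ s → 0 < b s := by
    intro s hs
    have h1 := G_nonneg (τ := τ) g0 s hs
    have h2 := Real.sqrt_nonneg (E τ)
    have h3 : 0 ≤ δ * (s - τ) := mul_nonneg hδ0.le (by linarith)
    simp only [hb]
    linarith
  have hmain := barrier (τ := τ) (a := τ) (b := t) le_rfl hd hB (by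
      have h1 : b τ = √(E τ) + δ := by simp [hb]
      rw [h1]
      have h2 := Real.sq_sqrt (hE0 τ)
      nlinarith [Real.sqrt_nonneg (E τ)]) (by
      intro s hs hsB
      have hb0 := hbpos s hs.1
      have h1 : √(E s) = b s := by rw [hsB, Real.sqrt_sq hb0.le]
      have h2 := (abs_le.1 (hr s)).2
      rw [h1] at h2
      have h3 : x (n + 1) s * g s ≤ b s * g s := mul_le_mul_of_nonneg_right h2 (g0 s)
      have h4 : 0 ≤ ∑ m ∈ Finset.range (n + 2), q m ^ 4 * x m s ^ 2 :=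
        Finset.sum_nonneg (fun m _ => by positivity)
      have h5 : 0 < b s * δ := mul_pos hb0 hδ0
      nlinarith) t ⟨ht, le_rfl⟩
  have h6 : √(E t) ≤ b t := by
    rw [← Real.sqrt_sq (hbpos t ht).le]
    exact Real.sqrt_le_sqrt hmain
  have h7 : b t = √(E τ) + (∫ u in τ..t, g u) + ε := by
    have : δ * (1 + (t - τ)) = ε := div_mul_cancel₀ _ hpos.ne'
    simp only [hb]
    linarith
  linarith

/-! ### The scales -/

lemma q_succ (q : ℕ → ℝ) (hq : ∀ i, (1000000 : ℝ) ≤ q i) (h : ∀ i, q (i + 1) ^ 5 = q i ^ 6)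
    (i : ℕ) : q (i + 1) = q i ^ (6 / 5 : ℝ) := by
  have h1 : 0 < q i := by linarith [hq i]
  have h2 : 0 < q (i + 1) := by linarith [hq (i + 1)]
  have h3 : (q i ^ (6 / 5 : ℝ)) ^ 5 = q i ^ 6 := by
    rw [← Real.rpow_natCast, ← Real.rpow_mul h1.le, ← Real.rpow_natCast]
    norm_num
  have h4 : 0 ≤ q i ^ (6 / 5 : ℝ) := Real.rpow_nonneg h1.le _
  rw [← h i] at h3
  exact (pow_left_inj₀ h2.le h4 (by norm_num)).1 h3.symm

lemma sumq (q : ℕ → ℝ) (hq : ∀ i, (1000000 : ℝ) ≤ q i) (h : ∀ i, q (i + 1) ^ 5 = q i ^ 6)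
    (n : ℕ) : ∑ i ∈ Finset.range n, q i ^ 5 ≤ 2 * q n ^ (25 / 6 : ℝ) := by
  induction n with
  | zero =>
    simp only [Finset.range_zero, Finset.sum_empty]
    have : 0 ≤ q 0 ^ (25 / 6 : ℝ) := Real.rpow_nonneg (by linarith [hq 0]) _
    linarith
  | succ n ih =>
    have h1 : 0 < q n := by linarith [hq n]
    have h2 : q (n + 1) ^ (25 / 6 : ℝ) = q n ^ 5 := by
      rw [q_succ q hq h n, ← Real.rpow_mul h1.le, ← Real.rpow_natCast]
      norm_num
    have h3 : 2 * q n ^ (25 / 6 : ℝ) ≤ q n ^ 5 := by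
      have h4 : q n ^ 5 = q n ^ (25 / 6 : ℝ) * q n ^ (5 / 6 : ℝ) := by
        rw [← Real.rpow_add h1, ← Real.rpow_natCast]
        norm_num
      have h5 : (2 : ℝ) ≤ q n ^ (5 / 6 : ℝ) := by
        have h6 : q n ^ (1 / 2 : ℝ) ≤ q n ^ (5 / 6 : ℝ) :=
          Real.rpow_le_rpow_of_exponent_le (by linarith [hq n]) (by norm_num)
        have h7 : (1000 : ℝ) ≤ q n ^ (1 / 2 : ℝ) := by
          rw [← Real.sqrt_eq_rpow]
          exact Real.le_sqrt_of_sq_le (by linarith [hq n])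
        linarith
      rw [h4]
      have h8 : 0 ≤ q n ^ (25 / 6 : ℝ) := Real.rpow_nonneg h1.le _
      nlinarith
    rw [Finset.sum_range_succ, h2]
    linarith

/-- (X2b) One stage of the cascade. -/
theorem t_STG : S_STG := by
  refine ⟨1000000, ?_⟩
  intro q n τ η x g hq hqs hη hη1 hlκ gc g0 gs gi _hx0 hx hrτ hpτ hEτ
  have hqn := hq n
  have hqn0 : 0 < q n := by linarith
  set L : ℝ := q n ^ 5 with hL
  set κ : ℝ := q n ^ (-(1 / 5 : ℝ)) with hκ
  have hL0 : 0 < L := by positivity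
  have hκ0 : 0 < κ := Real.rpow_pos_of_pos hqn0 _
  have hLκ : L * κ = q n ^ (24 / 5 : ℝ) := by
    rw [hL, hκ, ← Real.rpow_natCast, ← Real.rpow_add hqn0]
    norm_num
  have hq4 : q (n + 1) ^ 4 = L * κ := by
    rw [hLκ, q_succ q hq hqs n, ← Real.rpow_natCast, ← Real.rpow_mul hqn0.le]
    norm_num
  have hcL : q n ^ 4 ≤ L * κ := by
    rw [hLκ, ← Real.rpow_natCast]
    exact Real.rpow_le_rpow_of_exponent_le (by linarith) (by norm_num)
  -- the energy
  have hgs' : ∀ t, t ≤ τ ∨ τ + 1 / L ≤ t → g t = 0 := gs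
  have hE := energy_ineq q n τ x g gc g0 hx
  have hEτ2 : ∑ m ∈ Finset.range (n + 2), x m τ ^ 2 = ∑ m ∈ Finset.range (n + 1), x m τ ^ 2 := by
    rw [Finset.sum_range_succ, hrτ]
    simp
  rw [hEτ2] at hE
  have hE2 : ∀ t ∈ Ici τ, ∑ m ∈ Finset.range (n + 2), x m t ^ 2 ≤
      (√(∑ m ∈ Finset.range (n + 1), x m τ ^ 2) + η) ^ 2 := by
    intro t ht
    have h1 := hE t ht
    have h2 := G_le (L := L) (τ := τ) gc g0 hgs' gi t ht
    have h3 : √(∑ m ∈ Finset.range (n + 2), x m t ^ 2) ≤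
        √(∑ m ∈ Finset.range (n + 1), x m τ ^ 2) + η := by linarith
    have h4 : 0 ≤ ∑ m ∈ Finset.range (n + 2), x m t ^ 2 :=
      Finset.sum_nonneg (fun _ _ => sq_nonneg _)
    rw [← Real.sq_sqrt h4]
    exact pow_le_pow_left₀ (Real.sqrt_nonneg _) h3 2
  have hE3 : ∀ t ∈ Ici τ, ∑ m ∈ Finset.range (n + 2), x m t ^ 2 ≤ 133 / 100 := by
    intro t ht
    refine (hE2 t ht).trans ?_
    have h1 : √(∑ m ∈ Finset.range (n + 1), x m τ ^ 2) ≤ 105 / 100 := by
      rw [Real.sqrt_le_left (by norm_num)]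
      linarith
    have h2 := Real.sqrt_nonneg (∑ m ∈ Finset.range (n + 1), x m τ ^ 2)
    nlinarith
  have hx2 : ∀ t ∈ Ici τ, ∀ m < n + 2, x m t ^ 2 ≤ 133 / 100 := by
    intro t ht m hm
    exact (Finset.single_le_sum (f := fun m => x m t ^ 2) (fun _ _ => sq_nonneg _)
      (Finset.mem_range.2 hm)).trans (hE3 t ht)
  -- the low modes
  set S : ℝ → ℝ := fun t => ∑ i ∈ Finset.range n, q i ^ 5 * x i t with hS
  have hSb : ∀ t ∈ Ici τ, |S t| ≤ 1 / 10 * (L * κ) := by
    intro t ht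
    have h1 : |S t| ≤ ∑ i ∈ Finset.range n, q i ^ 5 * (1154 / 1000) := by
      refine (Finset.abs_sum_le_sum_abs _ _).trans (Finset.sum_le_sum ?_)
      intro i hi
      have hi' := Finset.mem_range.1 hi
      have h2 : |x i t| ≤ 1154 / 1000 := by
        apply abs_le_of_sq_le_sq _ (by norm_num)
        exact (hx2 t ht i (by omega)).trans (by norm_num)
      have h3 : 0 < q i := by linarith [hq i]
      rw [abs_mul, abs_of_pos (by positivity : 0 < q i ^ 5)]
      exact mul_le_mul_of_nonneg_left h2 (by positivity)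
    rw [← Finset.sum_mul] at h1
    have h4 := sumq q hq hqs n
    have h5 : q n ^ (24 / 5 : ℝ) = q n ^ (25 / 6 : ℝ) * q n ^ (19 / 30 : ℝ) := by
      rw [← Real.rpow_add hqn0]
      norm_num
    have h6 : (1000 : ℝ) ≤ q n ^ (19 / 30 : ℝ) := by
      have h7 : q n ^ (1 / 2 : ℝ) ≤ q n ^ (19 / 30 : ℝ) :=
        Real.rpow_le_rpow_of_exponent_le (by linarith) (by norm_num)
      have h8 : (1000 : ℝ) ≤ q n ^ (1 / 2 : ℝ) := by
        rw [← Real.sqrt_eq_rpow]
        exact Real.le_sqrt_of_sq_le (by linarith)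
      linarith
    have h9 : 0 ≤ q n ^ (25 / 6 : ℝ) := Real.rpow_nonneg hqn0.le _
    rw [hLκ, h5]
    nlinarith
  -- the two dominant modes
  have hp : ∀ t ∈ Ici τ, HasDerivWithinAt (x n)
      (x n t * (S t - q n ^ 4) - L * x (n + 1) t ^ 2) (Ici τ) t := by
    intro t ht
    refine (hx n (by omega) t ht).congr_deriv ?_
    have e1 : Finset.Ico (n + 1) (n + 2) = {n + 1} := by
      ext j; simp
    simp only [vN, e1, Finset.sum_singleton, hS, hL]
    rw [if_neg (by omega)]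
    ring
  have hr : ∀ t ∈ Ici τ, HasDerivWithinAt (x (n + 1))
      (x (n + 1) t * (S t + L * x n t - L * κ) + g t) (Ici τ) t := by
    intro t ht
    refine (hx (n + 1) (by omega) t ht).congr_deriv ?_
    have e1 : Finset.Ico (n + 1 + 1) (n + 2) = ∅ := by
      ext j; simp
    simp only [vN, e1, Finset.sum_empty, hS, if_true, Finset.sum_range_succ, hq4]
    rw [hL]
    ring
  have H : Two L κ (q n ^ 4) η τ (x n) (x (n + 1)) S g :=
    { L0 := hL0
      κ0 := hκ0
      c0 := by positivity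
      cL := hcL
      η0 := hη
      η1 := hη1
      lκ := hlκ
      hp := hp
      hr := hr
      hS := hSb
      p2 := fun t ht => hx2 t ht n (by omega)
      r2 := fun t ht => hx2 t ht (n + 1) (by omega)
      gc := gc
      g0 := g0
      gs := hgs'
      gi := gi
      rτ := hrτ
      pτ := hpτ }
  obtain ⟨τ', h1, h2, h3, h4, h5, h6⟩ := H.first_zero
  refine ⟨τ', h1, h2, h3, h4, h5, h6, fun t ht => hE2 t ht.1, ?_⟩
  intro t ht
  have h7 := H.F_low t ht.1 (by linarith [ht.2])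
  have h8 : 0 ≤ Real.log (1 / η) := H.logn
  have h9 : (1 - 10 * (20 + 10 * Real.log (1 / η)) * κ) * x n τ ^ 2 ≤
      (1 - 3 * (20 + 10 * Real.log (1 / η)) * κ) * x n τ ^ 2 := by
    apply mul_le_mul_of_nonneg_right _ (sq_nonneg _)
    have : 0 ≤ (20 + 10 * Real.log (1 / η)) * κ := by positivity
    linarith
  exact h9.trans h7

end Pool.Agent.N976.EN.X2b
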