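import Pool.Agent.N976.EN.Def4
import Pool.Agent.N976.EN.X1
import Pool.Agent.N976.EN.X2
import Pool.Agent.N976.EN.X2a
import Pool.Agent.N976.EN.X2b
import Pool.Agent.N976.EN.M01

/-! The choice of the parameters. -/

open Set Filter Topology MeasureTheory
open scoped ContDiff InnerProductSpace

set_option autoImplicit false

namespace Pool.Agent.N976.EN

open Pool.Agent.N976.SC

namespace Core

lemma one_le_pw (n : ℕ) : (1 : ℝ) ≤ (6 / 5 : ℝ) ^ n := one_le_pow₀ (by norm_num)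

lemma qs_ge {Q : ℝ} (hQ : 1 ≤ Q) (n : ℕ) : Q ≤ qs Q n := by
  unfold qs
  calc Q = Q ^ (1 : ℝ) := (Real.rpow_one Q).symm
    _ ≤ Q ^ ((6 / 5 : ℝ) ^ n) := Real.rpow_le_rpow_of_exponent_le hQ (one_le_pw n)

lemma qs_succ {Q : ℝ} (hQ : 0 < Q) (n : ℕ) : qs Q (n + 1) = qs Q n * qs Q n ^ (1 / 5 : ℝ) := by
  unfold qs
  rw [← Real.rpow_mul hQ.le, ← Real.rpow_add hQ]
  congr 1
  ring

lemma qs_step {Q C : ℝ} (hC : 0 ≤ C) (hQ : 1 ≤ Q) (h : C ^ 5 ≤ Q) (n : ℕ) :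
    C * qs Q n ≤ qs Q (n + 1) := by
  have h1 := qs_ge hQ n
  have h0 : 0 < qs Q n := by linarith
  rw [qs_succ (by linarith), mul_comm]
  refine mul_le_mul_of_nonneg_left ?_ h0.le
  calc C = (C ^ 5) ^ (1 / 5 : ℝ) := by
        rw [← Real.rpow_natCast, ← Real.rpow_mul hC]
        norm_num
    _ ≤ qs Q n ^ (1 / 5 : ℝ) :=
        Real.rpow_le_rpow (by positivity) (h.trans h1) (by norm_num)

lemma qs_sq {Q : ℝ} (hQ : 0 < Q) (n : ℕ) :
    (Q ^ (5 / 3 : ℝ)) ^ ((6 / 5 : ℝ) ^ (n + 1)) = qs Q n ^ 2 := by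
  unfold qs
  have e : (Q ^ ((6 / 5 : ℝ) ^ n)) ^ 2 = Q ^ ((6 / 5 : ℝ) ^ n * 2) := by
    rw [Real.rpow_mul hQ.le, Real.rpow_two]
  rw [e, ← Real.rpow_mul hQ.le]
  congr 1
  rw [pow_succ]
  ring

end Core

open Core

theorem core (ε R₀ : ℝ) (hε : 0 < ε) : ∃ (Q β lam ε₁ N T₁ : ℝ) (P : E3 → E3)
    (r : Fin 3 × ℕ → E3 → E3) (σ : ℕ → ℝ) (x g : ℕ → ℝ → ℝ), 0 < ε₁ ∧ ε₁ ≤ 1 / 8 ∧
    8 * ε₁ ≤ ε ∧ R₀ ≤ Q ^ (5 / 3 : ℝ) ∧ 1 < Q ^ (5 / 3 : ℝ) ∧ TX (qs Q) β lam P r ∧ 0 < N ∧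
    (∀ m n, ip (pq P (qs Q m)) (pq P (qs Q n)) = if m = n then N else 0) ∧
    (∀ n, 2 ≤ qs Q n) ∧ (∀ n, 2 * qs Q n ≤ qs Q (n + 1)) ∧ Cas ε₁ (qs Q) T₁ σ x g ∧
    (∀ t y, ‖fU P (qs Q) (fun n t => 1 * lam / β * (1 * lam) * g n (1 * lam * t)) t y‖ ≤ ε) ∧
    ∀ i n y, 1 ≤ (Q ^ (5 / 3 : ℝ)) ^ ((6 / 5 : ℝ) ^ n) * ‖y‖ → r (i, n) y = 0 := by
  obtain ⟨C₀, β, lam, P, hX⟩ := t_TX
  -- positivity of the constants, smoothness of `P`: from any admissible sequence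
  obtain ⟨r₁, h₁⟩ := hX (qs (max (max C₀ 1) ((max C₀ 1) ^ 5)))
    (fun n => (le_max_left _ _).trans ((le_max_left _ _).trans
      (qs_ge ((le_max_right _ _).trans (le_max_left _ _)) n)))
    (fun n => by
      have h1 : (1 : ℝ) ≤ max (max C₀ 1) ((max C₀ 1) ^ 5) :=
        (le_max_right _ _).trans (le_max_left _ _)
      refine le_trans (mul_le_mul_of_nonneg_right (le_max_left C₀ 1)
        (by linarith [qs_ge h1 n])) (qs_step (by positivity) h1 (le_max_right _ _) n))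
  have hβ := h₁.β0
  have hlam := h₁.lam0
  have hcs : HasCompactSupport P := by
    refine HasCompactSupport.of_support_subset_isCompact (isCompact_closedBall 0 1) ?_
    intro y hy
    rw [Metric.mem_closedBall, dist_zero_right]
    by_contra h
    exact hy (h₁.out y (by linarith [not_le.1 h]))
  obtain ⟨B, hB⟩ : ∃ B, ∀ y, ‖P y‖ ≤ B := hcs.exists_bound_of_continuous h₁.sm.continuous
  have hB0 : 0 ≤ B := (norm_nonneg _).trans (hB 0)
  obtain ⟨ε₁, he1, he2, he3, he4⟩ : ∃ ε₁ : ℝ, 0 < ε₁ ∧ ε₁ ≤ 1 / 8 ∧ 8 * ε₁ ≤ ε ∧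
      2 * (lam ^ 2 / β * (B * ε₁)) ≤ ε := by
    refine ⟨min (1 / 8) (min (ε / 8) (ε / (2 * (lam ^ 2 / β * (B + 1))))), by positivity,
      min_le_left _ _, ?_, ?_⟩
    · have := (min_le_right (1 / 8 : ℝ) (min (ε / 8) (ε / (2 * (lam ^ 2 / β * (B + 1)))))).trans
        (min_le_left _ _)
      linarith
    · have h1 := (min_le_right (1 / 8 : ℝ) (min (ε / 8)
        (ε / (2 * (lam ^ 2 / β * (B + 1)))))).trans (min_le_right _ _)
      have h2 : 0 < 2 * (lam ^ 2 / β * (B + 1)) := by positivity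
      rw [le_div_iff₀ h2] at h1
      have h3 : 0 < lam ^ 2 / β := by positivity
      have h4 : 0 < min (1 / 8 : ℝ) (min (ε / 8) (ε / (2 * (lam ^ 2 / β * (B + 1))))) := by
        positivity
      nlinarith [mul_pos h3 h4]
  obtain ⟨Q₀, hO⟩ := t_OX X2a.t_GX X2b.t_STG ε₁ he1
  obtain ⟨Q, hQ⟩ : ∃ Q, Q = max (max Q₀ (max C₀ 2)) (max ((max C₀ 2) ^ 5) (max R₀ 2)) := ⟨_, rfl⟩
  have q1 : Q₀ ≤ Q := by rw [hQ]; exact (le_max_left _ _).trans (le_max_left _ _)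
  have q2 : C₀ ≤ Q := by
    rw [hQ]; exact (le_max_left _ _).trans ((le_max_right _ _).trans (le_max_left _ _))
  have q3 : 2 ≤ Q := by
    rw [hQ]; exact (le_max_right _ _).trans ((le_max_right _ _).trans (le_max_left _ _))
  have q4 : (max C₀ 2) ^ 5 ≤ Q := by
    rw [hQ]; exact (le_max_left _ _).trans (le_max_right _ _)
  have q5 : R₀ ≤ Q := by
    rw [hQ]; exact (le_max_left _ _).trans ((le_max_right _ _).trans (le_max_right _ _))
  have hQ1 : 1 ≤ Q := by linarith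
  have hQ0 : 0 < Q := by linarith
  have hge : ∀ n, Q ≤ qs Q n := qs_ge hQ1
  have hst : ∀ n, max C₀ 2 * qs Q n ≤ qs Q (n + 1) :=
    qs_step ((by norm_num : (0 : ℝ) ≤ 2).trans (le_max_right _ _)) hQ1 q4
  obtain ⟨r, hT⟩ := hX (qs Q) (fun n => q2.trans (hge n)) (fun n =>
    (mul_le_mul_of_nonneg_right (le_max_left _ _) (by linarith [hge n])).trans (hst n))
  obtain ⟨N, hN, hnrm⟩ := hT.norm
  obtain ⟨T₁, σ, x, g, hC⟩ := hO Q q1
  have hRQ : Q ≤ Q ^ (5 / 3 : ℝ) := by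
    calc Q = Q ^ (1 : ℝ) := (Real.rpow_one Q).symm
      _ ≤ Q ^ (5 / 3 : ℝ) := Real.rpow_le_rpow_of_exponent_le hQ1 (by norm_num)
  refine ⟨Q, β, lam, ε₁, N, T₁, P, r, σ, x, g, he1, he2, he3, q5.trans hRQ, by linarith, hT, hN,
    hnrm, fun n => q3.trans (hge n), fun n => ?_, hC, ?_, ?_⟩
  · exact (mul_le_mul_of_nonneg_right (le_max_right _ _) (by linarith [hge n])).trans (hst n)
  · -- the force is small
    intro t y
    have hb : ∀ n, ‖(1 * lam / β * (1 * lam) * g n (1 * lam * t)) • pq P (qs Q n) y‖ ≤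
        lam ^ 2 / β * (B * ε₁) * (1 / 2) ^ n := by
      intro n
      have h1 := hC.gsmall n (1 * lam * t)
      have hq0 : 0 < qs Q n := hQ0.trans_le (hge n)
      have h2 : ‖pq P (qs Q n) y‖ ≤ qs Q n ^ 3 * B := by
        unfold pq pk
        rw [norm_smul, Real.norm_of_nonneg (by positivity)]
        simp only [mul_one]
        exact mul_le_mul_of_nonneg_left (hB _) (by positivity)
      have h3 : 0 ≤ |g n (1 * lam * t)| := abs_nonneg _
      rw [norm_smul, Real.norm_eq_abs, abs_mul, abs_of_pos (by positivity :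
        (0 : ℝ) < 1 * lam / β * (1 * lam))]
      have h4 : (1 / 2 : ℝ) ^ n = 1 / 2 ^ n := by rw [div_pow, one_pow]
      calc 1 * lam / β * (1 * lam) * |g n (1 * lam * t)| * ‖pq P (qs Q n) y‖
          ≤ 1 * lam / β * (1 * lam) * |g n (1 * lam * t)| * (qs Q n ^ 3 * B) := by gcongr
        _ = lam ^ 2 / β * B * (qs Q n ^ 3 * |g n (1 * lam * t)|) := by ring
        _ ≤ lam ^ 2 / β * B * (ε₁ / 2 ^ n) := by gcongr
        _ = lam ^ 2 / β * (B * ε₁) * (1 / 2) ^ n := by rw [h4]; ring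
    have hs : Summable fun n : ℕ => lam ^ 2 / β * (B * ε₁) * (1 / 2 : ℝ) ^ n :=
      (summable_geometric_of_lt_one (by norm_num) (by norm_num)).mul_left _
    calc ‖fU P (qs Q) (fun n t => 1 * lam / β * (1 * lam) * g n (1 * lam * t)) t y‖
        ≤ ∑' n : ℕ, lam ^ 2 / β * (B * ε₁) * (1 / 2 : ℝ) ^ n :=
          tsum_of_norm_bounded hs.hasSum hb
      _ = 2 * (lam ^ 2 / β * (B * ε₁)) := by
          rw [tsum_mul_left, tsum_geometric_of_lt_one (by norm_num) (by norm_num)]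
          ring
      _ ≤ ε := he4
  · intro i n y hy
    rcases n with _ | n
    · apply hT.rout0
      rw [pow_zero, Real.rpow_one] at hy
      have h1 : qs Q 0 = Q := by unfold qs; simp
      rw [h1]
      have h2 : Q ^ (5 / 3 : ℝ) ≤ Q ^ 2 := by
        rw [← Real.rpow_natCast]
        exact Real.rpow_le_rpow_of_exponent_le hQ1 (by norm_num)
      nlinarith [norm_nonneg y]
    · apply hT.rout
      rw [qs_sq hQ0] at hy
      exact hy

end Pool.Agent.N976.EN
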