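import Pool.Agent.N976.SC.Def2

/-!
# Energy concentration for the Navier-Stokes equations under very sparse workless constraints

Packets at doubly exponential scales, seeded one after the other by a tiny smooth force; each
packet hands over almost all of its energy to the next one.
-/

open Set Filter Topology MeasureTheory
open scoped ContDiff

set_option autoImplicit false

namespace Pool.Agent.N976.EN

open Pool.Agent.N976.SC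

/-- The packet `q³ P(q² y)`. -/
noncomputable def pq (P : E3 → E3) (q : ℝ) (y : E3) : E3 := pk q P 1 y

/-- The packets at the scales `q n` and their interactions modulo the constraint fields `r`. -/
structure TX (q : ℕ → ℝ) (β lam : ℝ) (P : E3 → E3) (r : Fin 3 × ℕ → E3 → E3) : Prop where
  β0 : 0 < β
  lam0 : 0 < lam
  sm : ContDiff ℝ ∞ P
  out : ∀ y, 1 / 2 ≤ ‖y‖ → P y = 0
  div : ∀ y, divg P y = 0
  rsm : ∀ i, ContDiff ℝ ∞ (r i)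
  rout0 : ∀ i y, 1 ≤ q 0 ^ 2 * ‖y‖ → r (i, 0) y = 0
  rout : ∀ i n y, 1 ≤ q n ^ 2 * ‖y‖ → r (i, n + 1) y = 0
  norm : ∃ N, 0 < N ∧ ∀ m n, ip (pq P (q m)) (pq P (q n)) = if m = n then N else 0
  orth : ∀ m i, ip (pq P (q m)) (r i) = 0
  pd : ∀ n y, adv (pq P (q n)) (pq P (q n)) y = ∑ k ∈ Finset.range (n + 1), r (0, k) y +
    β • ∑ j ∈ Finset.range n, q j ^ 5 • pq P (q j) y
  pc : ∀ m n y, m < n → adv (pq P (q m)) (pq P (q n)) y + adv (pq P (q n)) (pq P (q m)) y =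
    q m ^ 5 • (r (1, n) y - β • pq P (q n) y)
  pl : ∀ n y, lap (pq P (q n)) y = r (2, n) y - (lam * q n ^ 4) • pq P (q n) y

/-- (X1) The table. -/
def S_TX : Prop := ∃ (C₀ β lam : ℝ) (P : E3 → E3), ∀ q : ℕ → ℝ, (∀ n, C₀ ≤ q n) →
  (∀ n, C₀ * q n ≤ q (n + 1)) → ∃ r : Fin 3 × ℕ → E3 → E3, TX q β lam P r

/-- The scales: `q n = Q^((6/5)^n)`. -/
noncomputable def qs (Q : ℝ) (n : ℕ) : ℝ := Q ^ ((6 / 5 : ℝ) ^ n)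

/-- The reduced system. -/
noncomputable def vx (q : ℕ → ℝ) (x : ℕ → ℝ) (n : ℕ) : ℝ :=
  -(q n ^ 4 * x n) + x n * ∑ i ∈ Finset.range n, q i ^ 5 * x i
  - q n ^ 5 * ∑' m : ℕ, x (n + 1 + m) ^ 2

/-- The cascade: mode `n + 1` is zero up to the time `σ n`, then it is seeded by the force
`g (n + 1)`, and at the time `σ (n + 1)` mode `n` has handed over its energy. -/
structure Cas (ε : ℝ) (q : ℕ → ℝ) (T : ℝ) (σ : ℕ → ℝ) (x g : ℕ → ℝ → ℝ) : Prop where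
  T0 : 0 < T
  σ0 : σ 0 = 0
  σm : StrictMono σ
  σT : ∀ n, σ n < T
  σl : Tendsto σ atTop (𝓝 T)
  ini : x 0 0 = 1
  act : ∀ n, ∀ t ∈ Icc 0 (σ n), x (n + 1) t = 0
  ode : ∀ n, ∀ t ∈ Ico 0 T,
    HasDerivWithinAt (x n) (vx q (fun m => x m t) n + g n t) (Ico 0 T) t
  gsm : ∀ n, ContDiff ℝ ∞ (g n)
  g0 : ∀ t, g 0 t = 0
  gs : ∀ n t, g (n + 1) t ≠ 0 → σ n < t ∧ t < σ (n + 1)
  gdec : ∀ j k : ℕ, ∃ C, ∀ n t, q n ^ k * |iteratedDeriv j (g n) t| ≤ C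
  gsmall : ∀ n t, q n ^ 3 * |g n t| ≤ ε / 2 ^ n
  gL1 : ∀ n, ∫ t, |g n t| ≤ ε / 2 ^ n
  bdd : ∀ n, ∀ t ∈ Ico 0 T, |x n t| ≤ 2
  low : ∀ t ∈ Ico 0 T, 1 - ε ≤ ∑' m, x m t ^ 2
  upp : ∀ t ∈ Ico 0 T, ∑' m, x m t ^ 2 ≤ 1 + ε
  left : ∀ n, ∀ t ∈ Ico (σ (n + 1)) T, |x n t| ≤ ε / 2 ^ n

/-- (X2) Existence of the cascade. -/
def S_OX : Prop := ∀ ε : ℝ, 0 < ε → ∃ Q₀ : ℝ, ∀ Q ≥ Q₀, ∃ (T : ℝ) (σ : ℕ → ℝ)
  (x g : ℕ → ℝ → ℝ), Cas ε (qs Q) T σ x g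

/-! ### Steps of the proof of (X2) -/

/-- The system with the modes `0, …, N - 1`. -/
noncomputable def vN (q : ℕ → ℝ) (N : ℕ) (x : ℕ → ℝ) (n : ℕ) : ℝ :=
  -(q n ^ 4 * x n) + x n * ∑ i ∈ Finset.range n, q i ^ 5 * x i
  - q n ^ 5 * ∑ m ∈ Finset.Ico (n + 1) N, x m ^ 2

/-- (X2a) Global solutions of the finite systems. -/
def S_GX : Prop := ∀ (q : ℕ → ℝ) (N : ℕ) (g : ℕ → ℝ → ℝ) (τ : ℝ) (a : ℕ → ℝ),
  (∀ n, Continuous (g n)) → ∃ x : ℕ → ℝ → ℝ, (∀ n < N, x n τ = a n) ∧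
  (∀ n ≥ N, ∀ t, x n t = 0) ∧
  ∀ n < N, ∀ t ∈ Ici τ, HasDerivWithinAt (x n) (vN q N (fun m => x m t) n + g n t) (Ici τ) t

/-- (X2b) One stage: mode `n` hands over its energy to mode `n + 1`, which is seeded with the
amplitude `η`, within the time `(20 + 10 log (1/η)) / q n ^ 5`, with a small loss. The modes
`0, …, n + 1` are active. -/
def S_STG : Prop := ∃ Q₁ : ℝ, ∀ (q : ℕ → ℝ) (n : ℕ) (τ η : ℝ) (x : ℕ → ℝ → ℝ) (g : ℝ → ℝ),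
  (∀ i, Q₁ ≤ q i) → (∀ i, q (i + 1) ^ 5 = q i ^ 6) → 0 < η → η ≤ 1 / 10 →
  (20 + 10 * Real.log (1 / η)) * q n ^ (-(1 / 5 : ℝ)) ≤ 1 / 100 →
  Continuous g → (∀ t, 0 ≤ g t) → (∀ t, t ≤ τ ∨ τ + 1 / q n ^ 5 ≤ t → g t = 0) →
  (∫ t, g t) = η → (∀ m ≥ n + 2, ∀ t, x m t = 0) →
  (∀ m < n + 2, ∀ t ∈ Ici τ, HasDerivWithinAt (x m)
    (vN q (n + 2) (fun j => x j t) m + if m = n + 1 then g t else 0) (Ici τ) t) →
  x (n + 1) τ = 0 → 9 / 10 ≤ x n τ → ∑ m ∈ Finset.range (n + 1), x m τ ^ 2 ≤ 11 / 10 →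
  ∃ τ' > τ, τ + 1 / q n ^ 5 < τ' ∧ τ' - τ ≤ (20 + 10 * Real.log (1 / η)) / q n ^ 5 ∧
    x n τ' = 0 ∧ (∀ t ∈ Icc τ τ', 0 ≤ x n t) ∧ 0 < x (n + 1) τ' ∧
    (∀ t ∈ Icc τ τ', ∑ m ∈ Finset.range (n + 2), x m t ^ 2 ≤
      (√(∑ m ∈ Finset.range (n + 1), x m τ ^ 2) + η) ^ 2) ∧
    ∀ t ∈ Icc τ τ', (1 - 10 * (20 + 10 * Real.log (1 / η)) * q n ^ (-(1 / 5 : ℝ))) * x n τ ^ 2 ≤
      x n t ^ 2 + x (n + 1) t ^ 2

end Pool.Agent.N976.EN
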