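import Pool.Agent.N976.EN.Def

/-!
# Energy concentration: the flow, statements of the steps
-/

open Set Filter Topology MeasureTheory
open scoped ContDiff

set_option autoImplicit false

namespace Pool.Agent.N976.EN

open Pool.Agent.N976.SC

/-- The sum of the packets. -/
noncomputable def su (P : E3 → E3) (q : ℕ → ℝ) (a : ℕ → ℝ) (y : E3) : E3 :=
  ∑' n, a n • pq P (q n) y

/-- The reaction coefficients. -/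
noncomputable def lx (ν : ℝ) (q : ℕ → ℝ) (a : ℕ → ℝ) (p : Fin 3 × ℕ) : ℝ :=
  ![∑' m, a (p.2 + m) ^ 2, a p.2 * ∑ i ∈ Finset.range p.2, q i ^ 5 * a i, -(ν * a p.2)] p.1

/-- Finite sums of packets: at every time before `T` only finitely many modes are active, and they
are smooth in time. -/
structure Act (T : ℝ) (X : ℕ → ℝ → ℝ) : Prop where
  fin : ∀ T' < T, ∃ M, ∀ n ≥ M, ∀ t ∈ Icc 0 T', X n t = 0
  sm : ∀ n, ContDiffOn ℝ ∞ (X n) (Ico 0 T)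

/-- (M0) Smoothness in time of the cascade. -/
def S_M0 : Prop := ∀ (ε : ℝ) (q : ℕ → ℝ) (T : ℝ) (σ : ℕ → ℝ) (x g : ℕ → ℝ → ℝ),
  Cas ε q T σ x g → Act T x

/-- (M1) Regularity of sums of packets. -/
def S_M1 : Prop := ∀ (P : E3 → E3) (q : ℕ → ℝ) (T : ℝ) (X : ℕ → ℝ → ℝ), 0 < T →
  ContDiff ℝ ∞ P → (∀ y, 1 / 2 ≤ ‖y‖ → P y = 0) → (∀ y, divg P y = 0) → (∀ n, 1 ≤ q n) →
  Act T X →
  ContDiffOn ℝ ∞ (fun z : ℝ × E3 => su P q (fun n => X n z.1) z.2) (Ico 0 T ×ˢ univ) ∧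
  (∀ t ∈ Ico 0 T, ContDiff ℝ ∞ (su P q (fun n => X n t)) ∧
    (∀ y, 1 / 2 ≤ ‖y‖ → su P q (fun n => X n t) y = 0) ∧
    ∀ y, divg (su P q (fun n => X n t)) y = 0) ∧
  ∀ t ∈ Ico 0 T, ∀ y, dt T (fun τ => su P q (fun n => X n τ)) t y =
    su P q (fun n => derivWithin (X n) (Ico 0 T) t) y

/-- (M2) The residual is a finite sum of reaction forces. -/
def S_M2 : Prop := ∀ (q : ℕ → ℝ) (β lam ν : ℝ) (P : E3 → E3) (r : Fin 3 × ℕ → E3 → E3),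
  TX q β lam P r → ∀ (a a' b : ℕ → ℝ) (M : ℕ), (∀ n ≥ M, a n = 0) →
  (∀ n, a' n = -(ν * lam * q n ^ 4 * a n) + β * (a n * ∑ i ∈ Finset.range n, q i ^ 5 * a i
    - q n ^ 5 * ∑' m : ℕ, a (n + 1 + m) ^ 2) + b n) → (∀ n ≥ M, a' n = 0) →
  ∀ y, HasSum (fun p => lx ν q a p • r p y)
    (su P q a' y + adv (su P q a) (su P q a) y - ν • lap (su P q a) y - su P q b y)

/-- (M3) The force is smooth and small. -/
def S_M3 : Prop := ∀ (P : E3 → E3) (q : ℕ → ℝ) (T K : ℝ) (σ : ℕ → ℝ) (G : ℕ → ℝ → ℝ),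
  ContDiff ℝ ∞ P → (∀ y, 1 / 2 ≤ ‖y‖ → P y = 0) → (∀ n, 2 ≤ q n) → (∀ n, 2 * q n ≤ q (n + 1)) →
  (∀ n, 0 ≤ σ n ∧ σ n < T) → (∀ n, ContDiff ℝ ∞ (G n)) → (∀ t, G 0 t = 0) →
  (∀ n t, G (n + 1) t ≠ 0 → σ n < t ∧ t < σ (n + 1)) →
  (∀ j k : ℕ, ∃ C, ∀ n t, q n ^ k * |iteratedDeriv j (G n) t| ≤ C) →
  (∀ n t, q n ^ 3 * |G n t| ≤ K / 2 ^ n) → (∀ y, ‖P y‖ ≤ K) →
  ContDiff ℝ ∞ (fun z : ℝ × E3 => su P q (fun n => G n z.1) z.2) ∧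
  (∀ t y, (t ≤ 0 ∨ T ≤ t ∨ 1 / 2 ≤ ‖y‖) → su P q (fun n => G n t) y = 0) ∧
  ∀ t y, ‖su P q (fun n => G n t) y‖ ≤ 2 * K ^ 2

/-- (M4) Products, Dirichlet integral and energy outside of small balls of sums of packets. -/
def S_M4 : Prop := ∀ (q : ℕ → ℝ) (β lam N : ℝ) (P : E3 → E3) (r : Fin 3 × ℕ → E3 → E3),
  TX q β lam P r → (∀ n, 1 ≤ q n) →
  (∀ m n, ip (pq P (q m)) (pq P (q n)) = if m = n then N else 0) →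
  ∀ (a b : ℕ → ℝ) (M : ℕ), (∀ n ≥ M, a n = 0) → (∀ n ≥ M, b n = 0) →
  ip (su P q a) (su P q b) = N * ∑ n ∈ Finset.range M, a n * b n ∧
  dir (su P q a) = lam * N * ∑ n ∈ Finset.range M, q n ^ 4 * a n ^ 2 ∧
  (∀ i, ip (su P q a) (r i) = 0) ∧
  ∀ (δ : ℝ) (n₀ : ℕ), 0 < δ → (∀ n ≥ n₀, 1 / 2 ≤ q n ^ 2 * δ) →
    ∫ y in {y : E3 | δ ≤ ‖y‖}, ‖su P q a y‖ ^ 2 ≤ N * ∑ n ∈ Finset.range n₀, a n ^ 2

/-- Classical solutions on `[0, T)` of the Navier-Stokes equations with the force `f` under the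
constraints `∫ u(t) · r i = 0`. -/
structure SolF {ι : Type} (ν : ℝ) (r : ι → E3 → E3) (f : ℝ → E3 → E3) (T : ℝ)
    (u : ℝ → E3 → E3) : Prop where
  c1 : ContDiffOn ℝ 1 (fun z : ℝ × E3 => u z.1 z.2) (Ico 0 T ×ˢ univ)
  smooth : ∀ t ∈ Ico 0 T, ContDiff ℝ ∞ (u t)
  div : ∀ t ∈ Ico 0 T, ∀ y, divg (u t) y = 0
  dec : ∀ T' < T, ∃ M, ∀ t ∈ Icc 0 T', Dec M (u t) ∧ ∀ y, (1 + ‖y‖) ^ 2 * ‖dt T u t y‖ ≤ M
  con : ∀ t ∈ Ico 0 T, ∀ i, ip (u t) (r i) = 0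
  eqn : ∀ t ∈ Ico 0 T, ∀ w, Fld w → (∀ i, ip w (r i) = 0) →
    ip (fun y => dt T u t y + adv (u t) (u t) y - ν • lap (u t) y - f t y) w = 0

/-- (M5a) Uniqueness. -/
def S_UNF : Prop := ∀ (ι : Type) (ν T : ℝ) (r : ι → E3 → E3) (f u v : ℝ → E3 → E3), 0 ≤ ν →
  (∀ i, Continuous (r i)) → (∀ i, HasCompactSupport (r i)) → (∀ t, Continuous (f t)) →
  (∀ t, HasCompactSupport (f t)) → SolF ν r f T u → SolF ν r f T v → u 0 = v 0 →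
  ∀ t ∈ Ico 0 T, u t = v t

/-- (M5b) Energy identity. -/
def S_ENF : Prop := ∀ (ι : Type) (ν T : ℝ) (r : ι → E3 → E3) (f u : ℝ → E3 → E3), 0 ≤ ν →
  (∀ t, Continuous (f t)) → (∀ t, HasCompactSupport (f t)) → SolF ν r f T u →
  ContinuousOn (fun t => ip (u t) (u t)) (Ico 0 T) ∧
  ∀ t ∈ Ioo 0 T, HasDerivAt (fun τ => ip (u τ) (u τ))
    (-(2 * (ν * dir (u t))) + 2 * ip (u t) (f t)) t

end Pool.Agent.N976.EN
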