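import Pool.Agent.N976.EN.Def2
import Pool.Agent.N976.DI.Def

/-!
# Energy concentration and Leray-Hopf solutions: statements of the steps
-/

open Set Filter Topology MeasureTheory
open scoped ContDiff InnerProductSpace

set_option autoImplicit false

namespace Pool.Agent.N976.EN

open Pool.Agent.N976.SC
open Pool.Agent.N976.DI (mv Con cf)
open H772R2.NS (jac IsTest L2V L2M L2sigma H1graph M3)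

/-- Leray-Hopf solutions on `[0, T]` of the Navier-Stokes equations in `Ω` with viscosity `ν`, zero
boundary values and force `f`, under the constraints `∫ u · r i = 0`; `G = ∇u`. -/
structure CLH {ι : Type} (Ω : Set E3) (ν T : ℝ) (r : ι → E3 → E3) (f : ℝ → E3 → E3)
    (u : ℝ → L2V Ω) (G : ℝ → L2M Ω) : Prop where
  bdd : ∃ M, ∀ t ∈ Icc 0 T, ‖u t‖ ≤ M
  sol : ∀ t ∈ Icc 0 T, u t ∈ L2sigma Ω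
  con : ∀ t ∈ Icc 0 T, Con r (u t)
  wcont : ∀ v : L2V Ω, ContinuousOn (fun t => ⟪u t, v⟫_ℝ) (Icc 0 T)
  grad : ∀ᵐ t ∂(volume.restrict (Ioc 0 T)), (u t, G t) ∈ H1graph Ω
  gradL2 : MemLp G 2 (volume.restrict (Ioc 0 T))
  eqn : ∀ v z, (v, z) ∈ H1graph Ω → Con r v → ∀ t ∈ Icc 0 T,
    ⟪u t, v⟫_ℝ - ⟪u 0, v⟫_ℝ = ∫ s in (0 : ℝ)..t, ((∫ x in Ω, ⟪u s x, mv (z x) (u s x)⟫_ℝ)
      - ν * ⟪G s, z⟫_ℝ + ∫ x in Ω, ⟪f s x, v x⟫_ℝ)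
  en : ∀ t ∈ Icc 0 T, ‖u t‖ ^ 2 / 2 + ν * (∫ s in (0 : ℝ)..t, ‖G s‖ ^ 2)
    ≤ ‖u 0‖ ^ 2 / 2 + ∫ s in (0 : ℝ)..t, ∫ x in Ω, ⟪f s x, u s x⟫_ℝ

/-- Smooth flows with compact support in `Ω` under the constraints, with the force `f`. -/
structure FlowF {ι : Type} (Ω : Set E3) (ν T : ℝ) (r : ι → E3 → E3) (f U : ℝ → E3 → E3) :
    Prop where
  T0 : 0 < T
  sm : ContDiffOn ℝ ∞ (fun z : ℝ × E3 => U z.1 z.2) (Ico 0 T ×ˢ univ)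
  fsm : ContDiff ℝ ∞ (fun z : ℝ × E3 => f z.1 z.2)
  cpt : ∃ K, IsCompact K ∧ K ⊆ Ω ∧ (∀ t ∈ Ico 0 T, ∀ x, x ∉ K → U t x = 0) ∧
    ∀ t x, x ∉ K → f t x = 0
  div : ∀ t ∈ Ico 0 T, ∀ x, divg (U t) x = 0
  con : ∀ t ∈ Ico 0 T, ∀ i, ip (U t) (r i) = 0
  res : ∀ t ∈ Ico 0 T, ∀ v : L2V Ω, Con r v →
    ∫ x in Ω, ⟪v x, dt T U t x + adv (U t) (U t) x - ν • lap (U t) x - f t x⟫_ℝ = 0

/-- Almost all the energy is still there before the time `T`, and almost nothing is left in the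
weak limit at the time `T`. -/
structure Conc (ε ν T : ℝ) (f U : ℝ → E3 → E3) : Prop where
  dis : ∀ t ∈ Ico 0 T, ν * (∫ s in (0 : ℝ)..t, dir (U s)) ≤ ε * ip (U 0) (U 0)
  wrk : ∀ t ∈ Ico 0 T, |∫ s in (0 : ℝ)..t, ip (U s) (f s)| ≤ ε * ip (U 0) (U 0)
  wlim : ∀ v : E3 → E3, MemLp v 2 volume →
    ∃ c, Tendsto (fun t => ip (U t) v) (𝓝[<] T) (𝓝 c) ∧ c ^ 2 ≤ ε * ip (U 0) (U 0) * ip v v

/-- (L1) The smooth flow, closed by its weak limit at `T`, is a Leray-Hopf solution on `[0, T]`. -/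
def S_L1 : Prop := ∀ (ι : Type) (Ω : Set E3) (ε ν T : ℝ) (r : ι → E3 → E3) (f U : ℝ → E3 → E3),
  IsOpen Ω → 0 < ν → 0 < ε → (∀ i, Continuous (r i)) → (∀ i, HasCompactSupport (r i)) →
  (∀ i, tsupport (r i) ⊆ Ω) → FlowF Ω ν T r f U → Conc ε ν T f U →
  ∃ (u : ℝ → L2V Ω) (G : ℝ → L2M Ω), CLH Ω ν T r f u G ∧
    (∀ t ∈ Ico 0 T, u t =ᵐ[volume.restrict Ω] U t ∧ G t =ᵐ[volume.restrict Ω] jac (U t) ∧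
      ‖u t‖ ^ 2 / 2 + ν * (∫ s in (0 : ℝ)..t, ‖G s‖ ^ 2)
        = ‖u 0‖ ^ 2 / 2 + ∫ s in (0 : ℝ)..t, ∫ x in Ω, ⟪f s x, u s x⟫_ℝ) ∧
    ‖u T‖ ^ 2 ≤ ε * ‖u 0‖ ^ 2 ∧ ν * (∫ s in (0 : ℝ)..T, ‖G s‖ ^ 2) ≤ ε * ‖u 0‖ ^ 2 ∧
    |∫ s in (0 : ℝ)..T, ∫ x in Ω, ⟪f s x, u s x⟫_ℝ| ≤ ε * ‖u 0‖ ^ 2

/-- (L2) Every Leray-Hopf solution with these data is equal to the flow. -/
def S_L2 : Prop := ∀ (ι : Type) (Ω : Set E3) (ν T : ℝ) (r : ι → E3 → E3) (f U : ℝ → E3 → E3)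
  (u : ℝ → L2V Ω) (G : ℝ → L2M Ω),
  IsOpen Ω → Bornology.IsBounded Ω → 0 < ν → (∀ i, Continuous (r i)) →
  (∀ i, HasCompactSupport (r i)) → (∀ i, tsupport (r i) ⊆ Ω) → FlowF Ω ν T r f U →
  CLH Ω ν T r f u G → u 0 =ᵐ[volume.restrict Ω] U 0 →
  (∀ t ∈ Ico 0 T, u t =ᵐ[volume.restrict Ω] U t) ∧ ∀ᵐ t ∂(volume.restrict (Ioc 0 T)),
    G t =ᵐ[volume.restrict Ω] jac (U t)

/-- (L3) Dilation and translation. -/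
def S_L3 : Prop := ∀ (ι : Type) (ε ν T : ℝ) (r : ι → E3 → E3) (f U : ℝ → E3 → E3),
  0 < ν → (∀ i, ContDiff ℝ ∞ (r i)) → (∀ i y, 1 ≤ ‖y‖ → r i y = 0) →
  (∀ t ∈ Ico 0 T, ∀ y, 1 / 2 ≤ ‖y‖ → U t y = 0) → (∀ t y, 1 / 2 ≤ ‖y‖ → f t y = 0) →
  (∃ l : ℝ → ι → ℝ, ∀ t ∈ Ico 0 T, {i | l t i ≠ 0}.Finite ∧ ∀ y,
    HasSum (fun i => l t i • r i y)
      (dt T U t y + adv (U t) (U t) y - ν • lap (U t) y - f t y)) →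
  FlowF univ ν T r f U → Conc ε ν T f U →
  ∀ (Ω : Set E3) (x₀ : E3) (ℓ : ℝ), 0 < ℓ → IsOpen Ω → Metric.closedBall x₀ ℓ ⊆ Ω →
  FlowF Ω ν (ℓ ^ 2 * T) (cf x₀ ℓ r) (fun t x => (ℓ⁻¹) ^ 3 • f (t / ℓ ^ 2) (ℓ⁻¹ • (x - x₀)))
    (fun t x => ℓ⁻¹ • U (t / ℓ ^ 2) (ℓ⁻¹ • (x - x₀))) ∧
  Conc ε ν (ℓ ^ 2 * T) (fun t x => (ℓ⁻¹) ^ 3 • f (t / ℓ ^ 2) (ℓ⁻¹ • (x - x₀)))
    (fun t x => ℓ⁻¹ • U (t / ℓ ^ 2) (ℓ⁻¹ • (x - x₀)))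

/-- (L4) The weak limit of the sums of packets. -/
def S_L4 : Prop := ∀ (q : ℕ → ℝ) (β lam N ε T A : ℝ) (P : E3 → E3) (r : Fin 3 × ℕ → E3 → E3)
  (X : ℕ → ℝ → ℝ), TX q β lam P r → (∀ n, 1 ≤ q n) → 0 < T → 0 < N → 0 < A → 0 < ε →
  (∀ m n, ip (pq P (q m)) (pq P (q n)) = if m = n then N else 0) → Act T X →
  (∀ n, ∃ C, ∀ t ∈ Ico 0 T, |derivWithin (X n) (Ico 0 T) t| ≤ C) →
  (∀ n, ∃ t₀ < T, ∀ t ∈ Ico t₀ T, |X n t| ≤ A * (ε / 2 ^ n)) →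
  (∃ B, ∀ t ∈ Ico 0 T, ∑' n, X n t ^ 2 ≤ B) →
  ∀ v : E3 → E3, MemLp v 2 volume →
    ∃ c, Tendsto (fun t => ip (su P q (fun n => X n t)) v) (𝓝[<] T) (𝓝 c) ∧
      c ^ 2 ≤ 2 * ε ^ 2 * A ^ 2 * N * ip v v

end Pool.Agent.N976.EN
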