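import Pool.Agent.N976.EN.Def3

/-!
# Energy concentration: the data of the flow, statements of the last steps
-/

open Set Filter Topology MeasureTheory
open scoped ContDiff InnerProductSpace

set_option autoImplicit false

namespace Pool.Agent.N976.EN

open Pool.Agent.N976.SC

/-- The velocity. -/
noncomputable def fU (P : E3 → E3) (q : ℕ → ℝ) (X : ℕ → ℝ → ℝ) (t : ℝ) (y : E3) : E3 :=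
  su P q (fun n => X n t) y

/-- The data of the flow with the viscosity `ν`. -/
structure Fd (ε ν β lam N : ℝ) (q : ℕ → ℝ) (P : E3 → E3) (r : Fin 3 × ℕ → E3 → E3) (T A : ℝ)
    (σ : ℕ → ℝ) (X G : ℕ → ℝ → ℝ) : Prop where
  ε0 : 0 < ε
  ν0 : 0 < ν
  N0 : 0 < N
  T0 : 0 < T
  A0 : 0 < A
  tab : TX q β lam P r
  nrm : ∀ m n, ip (pq P (q m)) (pq P (q n)) = if m = n then N else 0
  q2 : ∀ n, 2 ≤ q n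
  qq : ∀ n, 2 * q n ≤ q (n + 1)
  act : Act T X
  ini0 : X 0 0 = A
  ini : ∀ n, X (n + 1) 0 = 0
  ode : ∀ n, ∀ t ∈ Ico 0 T, HasDerivWithinAt (X n) (-(ν * lam * q n ^ 4 * X n t) +
    β * (X n t * ∑ i ∈ Finset.range n, q i ^ 5 * X i t
      - q n ^ 5 * ∑' m : ℕ, X (n + 1 + m) t ^ 2) + G n t) (Ico 0 T) t
  σ0 : ∀ n, 0 ≤ σ n ∧ σ n < T
  σm : StrictMono σ
  σl : Tendsto σ atTop (𝓝 T)
  Gsm : ∀ n, ContDiff ℝ ∞ (G n)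
  G0 : ∀ t, G 0 t = 0
  Gs : ∀ n t, G (n + 1) t ≠ 0 → σ n < t ∧ t < σ (n + 1)
  Gdec : ∀ j k : ℕ, ∃ C, ∀ n t, q n ^ k * |iteratedDeriv j (G n) t| ≤ C
  GL1 : ∀ n, ∫ t, |G n t| ≤ A * (ε / 2 ^ n)
  bdd : ∀ n, ∀ t ∈ Ico 0 T, |X n t| ≤ 2 * A
  low : ∀ t ∈ Ico 0 T, A ^ 2 * (1 - ε) ≤ ∑' m, X m t ^ 2
  upp : ∀ t ∈ Ico 0 T, ∑' m, X m t ^ 2 ≤ A ^ 2 * (1 + ε)
  left : ∀ n, ∀ t ∈ Ico (σ (n + 1)) T, |X n t| ≤ A * (ε / 2 ^ n)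

/-- (K0) Scaling of the cascade. -/
def S_K0 : Prop := ∀ (ε ν β lam N : ℝ) (q : ℕ → ℝ) (P : E3 → E3) (r : Fin 3 × ℕ → E3 → E3)
  (T : ℝ) (σ : ℕ → ℝ) (x g : ℕ → ℝ → ℝ), 0 < ε → 0 < ν → 0 < N → TX q β lam P r →
  (∀ m n, ip (pq P (q m)) (pq P (q n)) = if m = n then N else 0) →
  (∀ n, 2 ≤ q n) → (∀ n, 2 * q n ≤ q (n + 1)) → Cas ε q T σ x g →
  Fd ε ν β lam N q P r (T / (ν * lam)) (ν * lam / β) (fun n => σ n / (ν * lam))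
    (fun n t => ν * lam / β * x n (ν * lam * t))
    (fun n t => ν * lam / β * (ν * lam) * g n (ν * lam * t))

/-- (K1) The flow. -/
def S_K1 : Prop := ∀ (ε ν β lam N : ℝ) (q : ℕ → ℝ) (P : E3 → E3) (r : Fin 3 × ℕ → E3 → E3)
  (T A : ℝ) (σ : ℕ → ℝ) (X G : ℕ → ℝ → ℝ), Fd ε ν β lam N q P r T A σ X G →
  SolF ν r (fU P q G) T (fU P q X) ∧ FlowF univ ν T r (fU P q G) (fU P q X) ∧
  (∀ t y, (t ≤ 0 ∨ T ≤ t ∨ 1 / 2 ≤ ‖y‖) → fU P q G t y = 0) ∧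
  (∀ t ∈ Ico 0 T, ∀ y, 1 / 2 ≤ ‖y‖ → fU P q X t y = 0) ∧ (∀ t y, divg (fU P q G t) y = 0)

/-- (K2) The reaction forces. -/
def S_K2 : Prop := ∀ (ε ν β lam N : ℝ) (q : ℕ → ℝ) (P : E3 → E3) (r : Fin 3 × ℕ → E3 → E3)
  (T A : ℝ) (σ : ℕ → ℝ) (X G : ℕ → ℝ → ℝ), Fd ε ν β lam N q P r T A σ X G →
  (∀ p, ContDiffOn ℝ ∞ (fun t => lx ν q (fun n => X n t) p) (Ico 0 T)) ∧
  (∀ T' < T, ∃ M, ∀ i, ∀ n ≥ M, ∀ t ∈ Icc 0 T', lx ν q (fun n => X n t) (i, n) = 0) ∧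
  (∀ t ∈ Ico 0 T, {p | lx ν q (fun n => X n t) p ≠ 0}.Finite) ∧
  ∀ t ∈ Ico 0 T, ∀ y, HasSum (fun p => lx ν q (fun n => X n t) p • r p y)
    (dt T (fU P q X) t y + adv (fU P q X t) (fU P q X t) y - ν • lap (fU P q X t) y
      - fU P q G t y)

/-- (K3) Energy. -/
def S_K3 : Prop := ∀ (ε ν β lam N : ℝ) (q : ℕ → ℝ) (P : E3 → E3) (r : Fin 3 × ℕ → E3 → E3)
  (T A : ℝ) (σ : ℕ → ℝ) (X G : ℕ → ℝ → ℝ), Fd ε ν β lam N q P r T A σ X G →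
  SolF ν r (fU P q G) T (fU P q X) →
  ip (fU P q X 0) (fU P q X 0) = N * A ^ 2 ∧
  (∀ t ∈ Ico 0 T, (1 - ε) * (N * A ^ 2) ≤ ip (fU P q X t) (fU P q X t) ∧
    ip (fU P q X t) (fU P q X t) ≤ (1 + ε) * (N * A ^ 2)) ∧
  (∀ t ∈ Ico 0 T, ν * (∫ s in (0 : ℝ)..t, dir (fU P q X s)) ≤ 8 * ε * (N * A ^ 2)) ∧
  (∀ t ∈ Ico 0 T, |∫ s in (0 : ℝ)..t, ip (fU P q X s) (fU P q G s)| ≤ 8 * ε * (N * A ^ 2)) ∧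
  ∀ δ > 0, ∃ t₀ < T, ∀ t ∈ Ico t₀ T, 0 ≤ t →
    ∫ y in {y : E3 | δ ≤ ‖y‖}, ‖fU P q X t y‖ ^ 2 ≤ 2 * ε ^ 2 * (N * A ^ 2)

/-- (K4) The maximal time of existence. -/
def S_K4 : Prop := ∀ (ι : Type) (ν T E : ℝ) (r : ι → E3 → E3) (f U : ℝ → E3 → E3), 0 ≤ ν →
  0 < T → 0 < E → (∀ i, Continuous (r i)) → (∀ i, HasCompactSupport (r i)) →
  (∀ t, Continuous (f t)) → (∀ t, HasCompactSupport (f t)) → SolF ν r f T U →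
  (∀ t ∈ Ico 0 T, E ≤ ip (U t) (U t)) →
  (∀ δ > 0, ∃ t₀ < T, ∀ t ∈ Ico t₀ T, 0 ≤ t →
    ∫ y in {y : E3 | δ ≤ ‖y‖}, ‖U t y‖ ^ 2 ≤ E / 2) →
  ∀ (T' : ℝ) (v : ℝ → E3 → E3), 0 < T' → SolF ν r f T' v → v 0 = U 0 →
    T' ≤ T ∧ ∀ t ∈ Ico 0 T', v t = U t

end Pool.Agent.N976.EN
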