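import Pool.Agent.N976.EN.Def2

/-!
# The residual of a finite sum of packets is a finite sum of reaction forces
-/

open Set Filter Topology MeasureTheory
open scoped ContDiff

set_option autoImplicit false

namespace Pool.Agent.N976.EN.M2

open Pool.Agent.N976.SC

/-- A tail sum with finitely many terms. -/
theorem tail (a : ℕ → ℝ) (M : ℕ) (ha : ∀ n ≥ M, a n = 0) (k : ℕ) :
    ∑' m : ℕ, a (k + m) ^ 2 = ∑ n ∈ Finset.Ico k M, a n ^ 2 := by
  rw [Finset.sum_Ico_eq_sum_range]
  refine tsum_eq_sum fun m hm => ?_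
  have : M ≤ k + m := by
    have := Finset.mem_range.not.1 hm
    omega
  rw [ha _ this]
  norm_num

/-- A finite sum of packets. -/
theorem su_eq (P : E3 → E3) (q a : ℕ → ℝ) (M : ℕ) (ha : ∀ n ≥ M, a n = 0) (y : E3) :
    su P q a y = ∑ n ∈ Finset.range M, a n • pq P (q n) y := by
  refine tsum_eq_sum fun m hm => ?_
  rw [ha m (by simpa using hm), zero_smul]

theorem pq_smooth {P : E3 → E3} (hP : ContDiff ℝ ∞ P) (s : ℝ) : ContDiff ℝ ∞ (pq P s) := by
  unfold pq pk
  exact (hP.comp (contDiff_id.const_smul (s ^ (2 * 1)))).const_smul (s ^ (3 * 1))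

/-- Double sums over a square. -/
theorem dbl {V : Type} [AddCommGroup V] (f : ℕ → ℕ → V) (M : ℕ) :
    ∑ n ∈ Finset.range M, ∑ m ∈ Finset.range M, f m n =
    ∑ n ∈ Finset.range M, (f n n + ∑ m ∈ Finset.range n, (f m n + f n m)) := by
  induction M with
  | zero => simp
  | succ M ih =>
    rw [Finset.sum_range_succ, Finset.sum_range_succ (fun n => f n n + _) M, ← ih,
      Finset.sum_range_succ (fun m => f m M) M]
    have h1 : ∑ n ∈ Finset.range M, ∑ m ∈ Finset.range (M + 1), f m n =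
        ∑ n ∈ Finset.range M, ∑ m ∈ Finset.range M, f m n + ∑ n ∈ Finset.range M, f M n := by
      rw [← Finset.sum_add_distrib]
      exact Finset.sum_congr rfl fun n _ => Finset.sum_range_succ _ _
    rw [h1, Finset.sum_add_distrib]
    abel

theorem fderiv_su {P : E3 → E3} (hP : ContDiff ℝ ∞ P) (q a : ℕ → ℝ) (M : ℕ)
    (ha : ∀ n ≥ M, a n = 0) (y : E3) :
    fderiv ℝ (su P q a) y = ∑ n ∈ Finset.range M, a n • fderiv ℝ (pq P (q n)) y := by
  have h1 : su P q a = fun y => ∑ n ∈ Finset.range M, a n • pq P (q n) y :=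
    funext fun y => su_eq P q a M ha y
  have hd : ∀ n, DifferentiableAt ℝ (pq P (q n)) y := fun n =>
    (pq_smooth hP (q n)).differentiable (by simp) y
  have h2 : HasFDerivAt (fun y => ∑ n ∈ Finset.range M, a n • pq P (q n) y)
      (∑ n ∈ Finset.range M, a n • fderiv ℝ (pq P (q n)) y) y := by
    refine HasFDerivAt.fun_sum fun n _ => ?_
    exact ((hd n).hasFDerivAt).const_smul (a n)
  rw [h1]
  exact h2.fderiv

theorem adv_su {P : E3 → E3} (hP : ContDiff ℝ ∞ P) (q a : ℕ → ℝ) (M : ℕ)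
    (ha : ∀ n ≥ M, a n = 0) (y : E3) :
    adv (su P q a) (su P q a) y = ∑ n ∈ Finset.range M, ∑ m ∈ Finset.range M,
      (a m * a n) • adv (pq P (q m)) (pq P (q n)) y := by
  unfold adv
  rw [fderiv_su hP q a M ha, su_eq P q a M ha, sum_apply]
  refine Finset.sum_congr rfl fun n _ => ?_
  rw [map_sum]
  refine Finset.sum_congr rfl fun m _ => ?_
  rw [smul_apply, map_smul, smul_smul, mul_comm]

theorem lap_su {P : E3 → E3} (hP : ContDiff ℝ ∞ P) (q a : ℕ → ℝ) (M : ℕ)
    (ha : ∀ n ≥ M, a n = 0) (y : E3) :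
    lap (su P q a) y = ∑ n ∈ Finset.range M, a n • lap (pq P (q n)) y := by
  unfold lap
  have h0 : ∀ i : Fin 3, fderiv ℝ (fun z => fderiv ℝ (su P q a) z (bv i)) y (bv i) =
      ∑ n ∈ Finset.range M, a n • fderiv ℝ (fun z => fderiv ℝ (pq P (q n)) z (bv i)) y (bv i) := by
    intro i
    have h1 : (fun z => fderiv ℝ (su P q a) z (bv i)) =
        fun z => ∑ n ∈ Finset.range M, a n • fderiv ℝ (pq P (q n)) z (bv i) := by
      funext z
      rw [fderiv_su hP q a M ha, sum_apply]
      rfl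
    have hd : ∀ n, DifferentiableAt ℝ (fun z => fderiv ℝ (pq P (q n)) z (bv i)) y := by
      intro n
      have h2 : ContDiff ℝ 1 (fderiv ℝ (pq P (q n))) :=
        (pq_smooth hP (q n)).fderiv_right (by norm_cast)
      exact ((h2.differentiable (by norm_num)) y).clm_apply (differentiableAt_const _)
    have h2 : HasFDerivAt (fun z => ∑ n ∈ Finset.range M, a n • fderiv ℝ (pq P (q n)) z (bv i))
        (∑ n ∈ Finset.range M, a n • fderiv ℝ (fun z => fderiv ℝ (pq P (q n)) z (bv i)) y) y := by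
      refine HasFDerivAt.fun_sum fun n _ => ?_
      exact ((hd n).hasFDerivAt).const_smul (a n)
    rw [h1, h2.fderiv, sum_apply]
    rfl
  simp only [h0]
  rw [Finset.sum_comm]
  refine Finset.sum_congr rfl fun n _ => ?_
  rw [Finset.smul_sum]

/-- (M2) -/
theorem t_M2 : S_M2 := by
  intro q β lam ν P r hT a a' b M ha hode ha' y
  have hT' : ∀ n, ∑' m : ℕ, a (n + 1 + m) ^ 2 = ∑ m ∈ Finset.Ico (n + 1) M, a m ^ 2 :=
    fun n => tail a M ha (n + 1)
  have hb : ∀ n ≥ M, b n = 0 := by
    intro n hn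
    have h1 := hode n
    rw [ha' n hn, ha n hn, hT' n, Finset.Ico_eq_empty (by omega)] at h1
    simp at h1
    exact h1.symm
  have e1 := su_eq P q a' M ha' y
  have e2 := su_eq P q b M hb y
  have e3 := adv_su hT.sm q a M ha y
  have e4 := lap_su hT.sm q a M ha y
  set p : ℕ → E3 := fun n => pq P (q n) y with hp
  -- the sum over the index set
  have hsum : su P q a' y + adv (su P q a) (su P q a) y - ν • lap (su P q a) y - su P q b y =
      ∑ x ∈ (Finset.univ : Finset (Fin 3)) ×ˢ Finset.range M, lx ν q a x • r x y := by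
    rw [e1, e2, e3, e4, dbl, Finset.sum_product, Fin.sum_univ_three]
    have f0 : ∑ k ∈ Finset.range M, lx ν q a (0, k) • r (0, k) y =
        ∑ n ∈ Finset.range M, a n ^ 2 • ∑ k ∈ Finset.range (n + 1), r (0, k) y := by
      have h1 : ∀ k, lx ν q a (0, k) • r (0, k) y =
          ∑ n ∈ Finset.Ico k M, a n ^ 2 • r (0, k) y := by
        intro k
        have h2 : lx ν q a (0, k) = ∑ n ∈ Finset.Ico k M, a n ^ 2 := by
          rw [← tail a M ha k]; rfl
        rw [h2, Finset.sum_smul]
      simp only [h1, Finset.smul_sum, Finset.range_eq_Ico]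
      exact Finset.sum_Ico_Ico_comm _ _ _
    have f1 : ∀ k, lx ν q a (1, k) = a k * ∑ i ∈ Finset.range k, q i ^ 5 * a i := fun k => rfl
    have f2 : ∀ k, lx ν q a (2, k) = -(ν * a k) := fun k => rfl
    have f3 : ∑ n ∈ Finset.range M, a n ^ 2 • ∑ j ∈ Finset.range n, q j ^ 5 • p j =
        ∑ n ∈ Finset.range M, (q n ^ 5 * ∑ m ∈ Finset.Ico (n + 1) M, a m ^ 2) • p n := by
      have h1 : ∀ n, (q n ^ 5 * ∑ m ∈ Finset.Ico (n + 1) M, a m ^ 2) • p n =
          ∑ m ∈ Finset.Ico (n + 1) M, (a m ^ 2) • (q n ^ 5 • p n) := by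
        intro n
        rw [Finset.mul_sum, Finset.sum_smul]
        refine Finset.sum_congr rfl fun m _ => ?_
        rw [smul_smul, mul_comm]
      simp only [h1, Finset.smul_sum, Finset.range_eq_Ico]
      exact (Finset.sum_Ico_Ico_comm' _ _ _).symm
    rw [f0]
    simp only [f1, f2]
    have g1 : ∑ n ∈ Finset.range M, a' n • p n =
        -(ν • ∑ n ∈ Finset.range M, (lam * q n ^ 4 * a n) • p n) +
        β • (∑ n ∈ Finset.range M, (a n * ∑ i ∈ Finset.range n, q i ^ 5 * a i) • p n) -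
        β • (∑ n ∈ Finset.range M, (q n ^ 5 * ∑ m ∈ Finset.Ico (n + 1) M, a m ^ 2) • p n) +
        ∑ n ∈ Finset.range M, b n • p n := by
      simp only [Finset.smul_sum, ← Finset.sum_neg_distrib, ← Finset.sum_add_distrib,
        ← Finset.sum_sub_distrib]
      refine Finset.sum_congr rfl fun n _ => ?_
      rw [hode n, hT' n]
      module
    have g2 : ∑ n ∈ Finset.range M, (a n * a n) • adv (pq P (q n)) (pq P (q n)) y =
        ∑ n ∈ Finset.range M, a n ^ 2 • ∑ k ∈ Finset.range (n + 1), r (0, k) y +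
        β • ∑ n ∈ Finset.range M, a n ^ 2 • ∑ j ∈ Finset.range n, q j ^ 5 • p j := by
      rw [Finset.smul_sum, ← Finset.sum_add_distrib]
      refine Finset.sum_congr rfl fun n _ => ?_
      rw [hT.pd n y, ← sq, smul_add, smul_comm β (a n ^ 2)]
    have g3 : ∑ n ∈ Finset.range M,
        ∑ m ∈ Finset.range n, ((a m * a n) • adv (pq P (q m)) (pq P (q n)) y +
        (a n * a m) • adv (pq P (q n)) (pq P (q m)) y) =
        ∑ n ∈ Finset.range M, (a n * ∑ i ∈ Finset.range n, q i ^ 5 * a i) • r (1, n) y -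
        β • ∑ n ∈ Finset.range M, (a n * ∑ i ∈ Finset.range n, q i ^ 5 * a i) • p n := by
      rw [Finset.smul_sum, ← Finset.sum_sub_distrib]
      refine Finset.sum_congr rfl fun n _ => ?_
      rw [Finset.mul_sum, Finset.sum_smul, Finset.sum_smul, Finset.smul_sum,
        ← Finset.sum_sub_distrib]
      refine Finset.sum_congr rfl fun m hm => ?_
      rw [mul_comm (a n) (a m), ← smul_add, hT.pc m n y (Finset.mem_range.1 hm)]
      module
    have g4 : ∑ n ∈ Finset.range M, a n • lap (pq P (q n)) y =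
        ∑ n ∈ Finset.range M, a n • r (2, n) y -
        ∑ n ∈ Finset.range M, (lam * q n ^ 4 * a n) • p n := by
      rw [← Finset.sum_sub_distrib]
      refine Finset.sum_congr rfl fun n _ => ?_
      rw [hT.pl n y]
      module
    have g5 : ∑ n ∈ Finset.range M, -(ν * a n) • r (2, n) y =
        -(ν • ∑ n ∈ Finset.range M, a n • r (2, n) y) := by
      rw [Finset.smul_sum, ← Finset.sum_neg_distrib]
      refine Finset.sum_congr rfl fun n _ => ?_
      module
    rw [Finset.sum_add_distrib, g1, g2, g3, g4, g5, f3]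
    module
  rw [hsum]
  refine hasSum_sum_of_ne_finset_zero fun x hx => ?_
  have hx2 : M ≤ x.2 := by
    by_contra h
    exact hx (Finset.mem_product.2 ⟨Finset.mem_univ _, Finset.mem_range.2 (by omega)⟩)
  have hz : lx ν q a x = 0 := by
    rcases x with ⟨i, k⟩
    have h1 : ∑' m : ℕ, a (k + m) ^ 2 = 0 := by
      rw [tail a M ha k, Finset.Ico_eq_empty_of_le hx2]; rfl
    have h2 : a k = 0 := ha k hx2
    fin_cases i
    · exact h1
    · show a k * ∑ i ∈ Finset.range k, q i ^ 5 * a i = 0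
      rw [h2, zero_mul]
    · show -(ν * a k) = 0
      rw [h2]; ring
  rw [hz, zero_smul]

end Pool.Agent.N976.EN.M2
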