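import Pool.Agent.N976.EN.Def4
import Pool.Agent.N976.EN.M01
import Pool.Agent.N976.EN.M2

/-!
# (K0) scaling of the cascade, (K2) reaction forces (helper803)
-/

open Set Filter Topology MeasureTheory
open scoped ContDiff

set_option autoImplicit false

namespace Pool.Agent.N976.EN

open Pool.Agent.N976.SC

namespace K02

lemma map_Ico {c T : ℝ} (hc : 0 < c) {t : ℝ} (ht : t ∈ Ico 0 (T / c)) : c * t ∈ Ico 0 T := by
  refine ⟨mul_nonneg hc.le ht.1, ?_⟩
  have := (lt_div_iff₀ hc).1 ht.2
  rwa [mul_comm]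

lemma act {c A T : ℝ} (hc : 0 < c) {x : ℕ → ℝ → ℝ} (h : Act T x) :
    Act (T / c) fun n t => A * x n (c * t) := by
  refine ⟨fun T' hT' => ?_, fun n => ?_⟩
  · have h1 : c * T' < T := by
      have := (lt_div_iff₀ hc).1 hT'
      rwa [mul_comm]
    obtain ⟨M, hM⟩ := h.fin (c * T') h1
    refine ⟨M, fun n hn t ht => ?_⟩
    have := hM n hn (c * t) ⟨mul_nonneg hc.le ht.1, mul_le_mul_of_nonneg_left ht.2 hc.le⟩
    simp only [this, mul_zero]
  · refine contDiffOn_const.mul ((h.sm n).comp (t := Ico 0 T) (s := Ico 0 (T / c))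
      (f := fun t => c * t) ?_ ?_)
    · exact (contDiff_const.mul contDiff_id).contDiffOn
    · exact fun t ht => map_Ico hc ht

lemma tsum_sq (A : ℝ) (x : ℕ → ℝ) : ∑' m, (A * x m) ^ 2 = A ^ 2 * ∑' m, x m ^ 2 := by
  rw [← tsum_mul_left]
  refine tsum_congr fun m => ?_
  ring

end K02

open K02

theorem t_K0 : S_K0 := by
  intro ε ν β lam N q P r T σ x g hε hν hN hTX hnrm hq2 hqq hC
  have hβ := hTX.β0
  have hlam := hTX.lam0
  obtain ⟨c, hc'⟩ : ∃ c : ℝ, c = ν * lam := ⟨_, rfl⟩
  rw [← hc']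
  have hc : 0 < c := by rw [hc']; positivity
  obtain ⟨A, hA'⟩ : ∃ A : ℝ, A = c / β := ⟨_, rfl⟩
  rw [← hA']
  have hA : 0 < A := by rw [hA']; positivity
  have hβA : β * A = c := by rw [hA']; field_simp
  have hσ0 : ∀ n, 0 ≤ σ n := fun n => by
    rw [← hC.σ0]
    exact hC.σm.monotone (Nat.zero_le n)
  exact
  { ε0 := hε
    ν0 := hν
    N0 := hN
    T0 := div_pos hC.T0 hc
    A0 := hA
    tab := hTX
    nrm := hnrm
    q2 := hq2
    qq := hqq
    act := act hc (M01.t_M0 ε q T σ x g hC)
    ini0 := by rw [mul_zero, hC.ini, mul_one]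
    ini := fun n => by rw [mul_zero, hC.act n 0 ⟨le_rfl, hσ0 n⟩, mul_zero]
    ode := by
      intro n t ht
      have h1 := hC.ode n (c * t) (map_Ico hc ht)
      have h2 : HasDerivWithinAt (fun t : ℝ => c * t) c (Ico 0 (T / c)) t := by
        simpa using ((hasDerivAt_id t).const_mul c).hasDerivWithinAt
      have h3 := (HasDerivWithinAt.comp (h₂ := x n) t h1 h2
        (fun t ht => map_Ico hc ht)).const_mul A
      refine h3.congr_deriv ?_
      unfold vx
      rw [tsum_sq, ← hc']
      have e1 : ∑ i ∈ Finset.range n, q i ^ 5 * (A * x i (c * t)) =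
          A * ∑ i ∈ Finset.range n, q i ^ 5 * x i (c * t) := by
        rw [Finset.mul_sum]
        refine Finset.sum_congr rfl fun i _ => ?_
        ring
      rw [e1]
      linear_combination (-(A * (x n (c * t) * ∑ i ∈ Finset.range n, q i ^ 5 * x i (c * t)
        - q n ^ 5 * ∑' m : ℕ, x (n + 1 + m) (c * t) ^ 2))) * hβA
    σ0 := fun n => ⟨div_nonneg (hσ0 n) hc.le, div_lt_div_of_pos_right (hC.σT n) hc⟩
    σm := fun m n h => div_lt_div_of_pos_right (hC.σm h) hc
    σl := hC.σl.div_const c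
    Gsm := fun n => contDiff_const.mul ((hC.gsm n).comp (contDiff_const.mul contDiff_id))
    G0 := fun t => by rw [hC.g0, mul_zero]
    Gs := by
      intro n t h
      have h1 : g (n + 1) (c * t) ≠ 0 := fun h0 => h (by rw [h0, mul_zero])
      obtain ⟨h2, h3⟩ := hC.gs n _ h1
      refine ⟨?_, ?_⟩
      · rw [div_lt_iff₀ hc, mul_comm]
        exact h2
      · rw [lt_div_iff₀ hc, mul_comm]
        exact h3
    Gdec := by
      intro j k
      obtain ⟨C, hCC⟩ := hC.gdec j k
      refine ⟨A * c * c ^ j * C, fun n t => ?_⟩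
      have e1 : iteratedDeriv j (fun t => A * c * g n (c * t)) t =
          A * c * (c ^ j * iteratedDeriv j (g n) (c * t)) := by
        have e2 : iteratedDeriv j (fun t => g n (c * t)) =
            fun t => c ^ j * iteratedDeriv j (g n) (c * t) :=
          iteratedDeriv_comp_const_mul (n := j) ((hC.gsm n).of_le
            (by exact_mod_cast le_top)) c
        have e3 : iteratedDeriv j (fun t => A * c * g n (c * t)) t =
            A * c * iteratedDeriv j (fun t => g n (c * t)) t := by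
          apply iteratedDeriv_const_mul_field
        rw [e3, e2]
      rw [e1, abs_mul (A * c), abs_mul (c ^ j), abs_of_pos (mul_pos hA hc),
        abs_of_pos (pow_pos hc j)]
      have h4 := mul_le_mul_of_nonneg_left (hCC n (c * t)) (by positivity : 0 ≤ A * c * c ^ j)
      calc q n ^ k * (A * c * (c ^ j * |iteratedDeriv j (g n) (c * t)|)) =
          A * c * c ^ j * (q n ^ k * |iteratedDeriv j (g n) (c * t)|) := by ring
        _ ≤ _ := h4
    GL1 := by
      intro n
      have e1 : ∫ t, |A * c * g n (c * t)| = A * ∫ t, |g n t| := by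
        have e2 : (fun t => |A * c * g n (c * t)|) = fun t => (A * c) * |g n (c * t)| := by
          funext t
          rw [abs_mul, abs_of_pos (mul_pos hA hc)]
        rw [e2, integral_const_mul, Measure.integral_comp_mul_left (fun t => |g n t|) c,
          smul_eq_mul, abs_of_pos (inv_pos.2 hc)]
        field_simp
      rw [e1]
      exact mul_le_mul_of_nonneg_left (hC.gL1 n) hA.le
    bdd := by
      intro n t ht
      rw [abs_mul, abs_of_pos hA]
      have := mul_le_mul_of_nonneg_left (hC.bdd n (c * t) (map_Ico hc ht)) hA.le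
      linarith
    low := by
      intro t ht
      rw [tsum_sq]
      exact mul_le_mul_of_nonneg_left (hC.low (c * t) (map_Ico hc ht)) (sq_nonneg _)
    upp := by
      intro t ht
      rw [tsum_sq]
      exact mul_le_mul_of_nonneg_left (hC.upp (c * t) (map_Ico hc ht)) (sq_nonneg _)
    left := by
      intro n t ht
      rw [abs_mul, abs_of_pos hA]
      refine mul_le_mul_of_nonneg_left (hC.left n (c * t) ⟨?_, ?_⟩) hA.le
      · have := (div_le_iff₀ hc).1 ht.1
        rwa [mul_comm]
      · have := (lt_div_iff₀ hc).1 ht.2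
        rwa [mul_comm] }

theorem t_K2 : S_K2 := by
  intro ε ν β lam N q P r T A σ X G h
  have hT := h.T0
  have hv : ∀ (a : ℕ → ℝ) (M : ℕ), (∀ n ≥ M, a n = 0) → ∀ (i : Fin 3) (n : ℕ), M ≤ n →
      lx ν q a (i, n) = 0 := by
    intro a M ha i n hn
    fin_cases i
    · show ∑' m, a (n + m) ^ 2 = 0
      have : (fun m => a (n + m) ^ 2) = fun _ => 0 := by
        funext m
        rw [ha (n + m) (by omega)]
        norm_num
      rw [this, tsum_zero]
    · show a n * _ = 0
      rw [ha n hn, zero_mul]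
    · show -(ν * a n) = 0
      rw [ha n hn]
      simp
  refine ⟨?_, ?_, ?_, ?_⟩
  · rintro ⟨i, k⟩
    fin_cases i
    · show ContDiffOn ℝ ∞ (fun t => ∑' m, X (k + m) t ^ 2) (Ico 0 T)
      refine contDiffOn_of_locally_contDiffOn fun t ht => ?_
      obtain ⟨T', hT1, hT2⟩ := exists_between ht.2
      obtain ⟨M, hM⟩ := h.act.fin T' hT2
      refine ⟨Iio T', isOpen_Iio, hT1, ?_⟩
      have e : ∀ t ∈ Ico 0 T ∩ Iio T', (∑' m, X (k + m) t ^ 2) =
          ∑ m ∈ Finset.range M, X (k + m) t ^ 2 := by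
        intro t ht
        refine tsum_eq_sum fun m hm => ?_
        rw [Finset.mem_range, not_lt] at hm
        rw [hM (k + m) (by omega) t ⟨ht.1.1, le_of_lt ht.2⟩]
        norm_num
      refine ContDiffOn.congr ?_ e
      exact ContDiffOn.sum fun m _ => ((h.act.sm _).mono inter_subset_left).pow 2
    · show ContDiffOn ℝ ∞ (fun t => X k t * ∑ i ∈ Finset.range k, q i ^ 5 * X i t) (Ico 0 T)
      exact (h.act.sm k).mul (ContDiffOn.sum fun i _ => contDiffOn_const.mul (h.act.sm i))
    · show ContDiffOn ℝ ∞ (fun t => -(ν * X k t)) (Ico 0 T)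
      exact (contDiffOn_const.mul (h.act.sm k)).neg
  · intro T' hT'
    obtain ⟨M, hM⟩ := h.act.fin T' hT'
    exact ⟨M, fun i n hn t ht => hv _ M (fun m hm => hM m hm t ht) i n hn⟩
  · intro t ht
    obtain ⟨M, hM⟩ := h.act.fin t ht.2
    refine ((finite_univ (α := Fin 3)).prod (finite_Iio M)).subset ?_
    rintro ⟨i, n⟩ hp
    refine ⟨mem_univ _, ?_⟩
    by_contra hc
    rw [mem_Iio, not_lt] at hc
    exact hp (hv _ M (fun m hm => hM m hm t ⟨ht.1, le_rfl⟩) i n hc)
  · intro t ht y
    obtain ⟨T', hT1, hT2⟩ := exists_between ht.2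
    obtain ⟨M, hM⟩ := h.act.fin T' hT2
    have hnear : ∀ᶠ τ in 𝓝[Ico 0 T] t, τ ∈ Icc 0 T' := by
      filter_upwards [self_mem_nhdsWithin, mem_nhdsWithin_of_mem_nhds (Iio_mem_nhds hT1)]
        with τ h1 h2
      exact ⟨h1.1, le_of_lt h2⟩
    have h0 : ∀ n ≥ M, derivWithin (X n) (Ico 0 T) t = 0 := by
      intro n hn
      have e : X n =ᶠ[𝓝[Ico 0 T] t] fun _ => (0 : ℝ) := by
        filter_upwards [hnear] with τ hτ
        exact hM n hn τ hτ
      rw [e.derivWithin_eq (hM n hn t ⟨ht.1, hT1.le⟩)]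
      simp
    have hq1 : ∀ n, 1 ≤ q n := fun n => by linarith [h.q2 n]
    have hdt := (M01.t_M1 P q T X hT h.tab.sm h.tab.out h.tab.div hq1 h.act).2.2 t ht y
    have hmain := M2.t_M2 q β lam ν P r h.tab (fun n => X n t)
      (fun n => derivWithin (X n) (Ico 0 T) t) (fun n => G n t) M
      (fun n hn => hM n hn t ⟨ht.1, hT1.le⟩)
      (fun n => (h.ode n t ht).derivWithin (uniqueDiffOn_Ico 0 T t ht)) h0 y
    have e : dt T (fU P q X) t y = su P q (fun n => derivWithin (X n) (Ico 0 T) t) y := hdt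
    rw [e]
    exact hmain

end Pool.Agent.N976.EN
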