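import Pool.Agent.N976.EN.Def2

/-!
# Energy concentration: the force is smooth and small (helper879, for helper976)
-/

open Set Filter Topology MeasureTheory
open scoped ContDiff

set_option autoImplicit false

namespace Pool.Agent.N976.EN

open Pool.Agent.N976.SC

namespace M3

lemma hcs {P : E3 → E3} (hout : ∀ y, 1 / 2 ≤ ‖y‖ → P y = 0) : HasCompactSupport P := by
  refine HasCompactSupport.of_support_subset_isCompact (isCompact_closedBall (0 : E3) (1 / 2)) ?_
  intro y hy
  rw [Function.mem_support] at hy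
  rw [Metric.mem_closedBall, dist_zero_right]
  by_contra h
  exact hy (hout y (not_le.1 h).le)

lemma bdP {P : E3 → E3} (hP : ContDiff ℝ ∞ P) (hout : ∀ y, 1 / 2 ≤ ‖y‖ → P y = 0) (m : ℕ) :
    ∃ C, 0 ≤ C ∧ ∀ y, ‖iteratedFDeriv ℝ m P y‖ ≤ C := by
  have h1 : Continuous (iteratedFDeriv ℝ m P) :=
    hP.continuous_iteratedFDeriv (mod_cast le_top)
  have h2 : HasCompactSupport (iteratedFDeriv ℝ m P) := (hcs hout).iteratedFDeriv m
  obtain ⟨C, hC⟩ := h1.bounded_above_of_compact_support h2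
  exact ⟨C, (norm_nonneg _).trans (hC 0), hC⟩

lemma q_pow {q : ℕ → ℝ} (h2 : ∀ n, 2 ≤ q n) (hq : ∀ n, 2 * q n ≤ q (n + 1)) (n : ℕ) :
    (2 : ℝ) ^ n ≤ q n := by
  induction n with
  | zero => simpa using (by linarith [h2 0] : (1 : ℝ) ≤ q 0)
  | succ n ih =>
    calc (2 : ℝ) ^ (n + 1) = 2 * 2 ^ n := by ring
      _ ≤ 2 * q n := by linarith
      _ ≤ q (n + 1) := hq n

lemma pq_eq (P : E3 → E3) (q : ℝ) (y : E3) : pq P q y = q ^ 3 • P (q ^ 2 • y) := by
  simp [pq, pk]

/-- derivatives of a packet, as a function on space-time -/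
lemma bd_pk {P : E3 → E3} (hP : ContDiff ℝ ∞ P) {m : ℕ} {C : ℝ} (hC : ∀ y, ‖iteratedFDeriv ℝ m P y‖ ≤ C)
    {q : ℝ} (hq : 0 ≤ q) (z : ℝ × E3) :
    ‖iteratedFDeriv ℝ m (fun z : ℝ × E3 => pq P q z.2) z‖ ≤ q ^ (3 + 2 * m) * C := by
  have e1 : (fun z : ℝ × E3 => pq P q z.2) =
      fun z => q ^ 3 • (P ∘ ⇑(q ^ 2 • ContinuousLinearMap.snd ℝ ℝ E3)) z := by
    funext z
    rw [pq_eq]
    rfl
  have hP' : ContDiff ℝ m P := hP.of_le (mod_cast le_top)
  have hc : ContDiff ℝ m (P ∘ ⇑(q ^ 2 • ContinuousLinearMap.snd ℝ ℝ E3)) :=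
    hP'.comp (ContinuousLinearMap.contDiff _)
  rw [e1, iteratedFDeriv_const_smul_apply' hc.contDiffAt, norm_smul,
    ContinuousLinearMap.iteratedFDeriv_comp_right _ hP' z le_rfl]
  have h1 : ‖(iteratedFDeriv ℝ m P ((q ^ 2 • ContinuousLinearMap.snd ℝ ℝ E3) z)).compContinuousLinearMap
      fun _ => q ^ 2 • ContinuousLinearMap.snd ℝ ℝ E3‖ ≤ C * (q ^ 2) ^ m := by
    refine (ContinuousMultilinearMap.norm_compContinuousLinearMap_le _ _).trans ?_
    rw [Finset.prod_const, Finset.card_univ, Fintype.card_fin]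
    have h2 : ‖q ^ 2 • ContinuousLinearMap.snd ℝ ℝ E3‖ ≤ q ^ 2 := by
      rw [norm_smul, Real.norm_of_nonneg (by positivity)]
      exact mul_le_of_le_one_right (by positivity) (ContinuousLinearMap.norm_snd_le ℝ ℝ E3)
    have hC0 : 0 ≤ C := (norm_nonneg _).trans (hC 0)
    exact mul_le_mul (hC _) (pow_le_pow_left₀ (norm_nonneg _) h2 m) (by positivity) hC0
  rw [Real.norm_of_nonneg (by positivity)]
  calc q ^ 3 * _ ≤ q ^ 3 * (C * (q ^ 2) ^ m) := by gcongr
    _ = q ^ (3 + 2 * m) * C := by ring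

lemma bd_G {g : ℝ → ℝ} (hg : ContDiff ℝ ∞ g) (m : ℕ) (z : ℝ × E3) :
    ‖iteratedFDeriv ℝ m (fun z : ℝ × E3 => g z.1) z‖ ≤ |iteratedDeriv m g z.1| := by
  have hg' : ContDiff ℝ m g := hg.of_le (mod_cast le_top)
  have e1 : (fun z : ℝ × E3 => g z.1) = g ∘ ⇑(ContinuousLinearMap.fst ℝ ℝ E3) := rfl
  rw [e1, ContinuousLinearMap.iteratedFDeriv_comp_right _ hg' z le_rfl]
  refine (ContinuousMultilinearMap.norm_compContinuousLinearMap_le _ _).trans ?_
  rw [Finset.prod_const, Finset.card_univ, Fintype.card_fin, norm_iteratedFDeriv_eq_norm_iteratedDeriv,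
    Real.norm_eq_abs]
  exact mul_le_of_le_one_right (abs_nonneg _)
    (pow_le_one₀ (norm_nonneg _) (ContinuousLinearMap.norm_fst_le ℝ ℝ E3))

lemma cd_pk {P : E3 → E3} (hP : ContDiff ℝ ∞ P) (q : ℝ) :
    ContDiff ℝ ∞ (fun z : ℝ × E3 => pq P q z.2) := by
  simp only [pq_eq]
  have h1 : ContDiff ℝ ∞ (fun z : ℝ × E3 => q ^ 2 • z.2) := contDiff_snd.const_smul (q ^ 2)
  have h2 : ContDiff ℝ ∞ (fun z : ℝ × E3 => P (q ^ 2 • z.2)) := hP.comp h1
  exact h2.const_smul (q ^ 3)

lemma cd_G {g : ℝ → ℝ} (hg : ContDiff ℝ ∞ g) : ContDiff ℝ ∞ (fun z : ℝ × E3 => g z.1) :=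
  hg.comp contDiff_fst

theorem t_M3 : S_M3 := by
  intro P q T K σ G hP hout hq2 hqq hσ hG hG0 hGs hdec hsm hK
  have hq0 : ∀ n, 0 < q n := fun n => by linarith [hq2 n]
  have hK0 : 0 ≤ K := (norm_nonneg _).trans (hK 0)
  have hpow := q_pow hq2 hqq
  refine ⟨?_, ?_, ?_⟩
  · choose CP hCP0 hCP using bdP hP hout
    choose CG hCG using hdec
    have hCG0 : ∀ j k, 0 ≤ CG j k := fun j k =>
      (mul_nonneg (pow_nonneg (hq0 0).le k) (abs_nonneg _)).trans (hCG j k 0 0)
    have hmain : ContDiff ℝ ((⊤ : ℕ∞) : WithTop ℕ∞)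
        (fun z : ℝ × E3 => ∑' n, G n z.1 • pq P (q n) z.2) := by
      refine contDiff_tsum (𝕜 := ℝ) (N := (⊤ : ℕ∞)) (f := fun n (z : ℝ × E3) => G n z.1 • pq P (q n) z.2)
        (v := fun k n => (∑ i ∈ Finset.range (k + 1), (k.choose i : ℝ) * CG i (4 + 2 * k) * CP (k - i)) *
          (1 / 2) ^ n) ?_ ?_ ?_
      · intro n
        have h1 : ContDiff ℝ ∞ (fun z : ℝ × E3 => G n z.1) := cd_G (hG n)
        have h2 : ContDiff ℝ ∞ (fun z : ℝ × E3 => pq P (q n) z.2) := cd_pk hP (q n)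
        exact h1.smul h2
      · intro k _
        exact (summable_geometric_of_lt_one (by norm_num) (by norm_num)).mul_left _
      · intro k n z _
        have h1 : ContDiff ℝ ∞ (fun z : ℝ × E3 => G n z.1) := cd_G (hG n)
        have h2 : ContDiff ℝ ∞ (fun z : ℝ × E3 => pq P (q n) z.2) := cd_pk hP (q n)
        have hkk : (k : WithTop ℕ∞) ≤ ∞ := mod_cast le_top
        refine (norm_iteratedFDeriv_smul_le h1 h2 z hkk).trans ?_
        rw [Finset.sum_mul]
        refine Finset.sum_le_sum fun i hi => ?_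
        rw [Finset.mem_range] at hi
        have hq1 : 1 ≤ q n := by linarith [hq2 n]
        have h3 := bd_G (hG n) i z
        have h4 := bd_pk hP (hCP (k - i)) (hq0 n).le z
        have h5 := hCG i (4 + 2 * k) n z.1
        have h6 : |iteratedDeriv i (G n) z.1| * q n ^ (3 + 2 * (k - i)) ≤ CG i (4 + 2 * k) * (1 / 2) ^ n := by
          have h7 : q n ^ (3 + 2 * (k - i)) * q n ≤ q n ^ (4 + 2 * k) := by
            rw [← pow_succ]
            exact pow_le_pow_right₀ hq1 (by omega)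
          have h8 : |iteratedDeriv i (G n) z.1| * q n ^ (3 + 2 * (k - i)) * q n ≤ CG i (4 + 2 * k) := by
            calc |iteratedDeriv i (G n) z.1| * q n ^ (3 + 2 * (k - i)) * q n
                = |iteratedDeriv i (G n) z.1| * (q n ^ (3 + 2 * (k - i)) * q n) := by ring
              _ ≤ |iteratedDeriv i (G n) z.1| * q n ^ (4 + 2 * k) := by gcongr
              _ = q n ^ (4 + 2 * k) * |iteratedDeriv i (G n) z.1| := mul_comm _ _
              _ ≤ _ := h5
          have h9 : |iteratedDeriv i (G n) z.1| * q n ^ (3 + 2 * (k - i)) ≤ CG i (4 + 2 * k) / q n :=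
            (le_div_iff₀ (hq0 n)).2 h8
          refine h9.trans ?_
          rw [one_div, inv_pow, ← div_eq_mul_inv]
          exact div_le_div_of_nonneg_left (hCG0 _ _) (by positivity) (hpow n)
        calc (k.choose i : ℝ) * ‖iteratedFDeriv ℝ i (fun z : ℝ × E3 => G n z.1) z‖ *
              ‖iteratedFDeriv ℝ (k - i) (fun z : ℝ × E3 => pq P (q n) z.2) z‖
            ≤ (k.choose i : ℝ) * |iteratedDeriv i (G n) z.1| * (q n ^ (3 + 2 * (k - i)) * CP (k - i)) := by
              gcongr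
          _ = (k.choose i : ℝ) * (|iteratedDeriv i (G n) z.1| * q n ^ (3 + 2 * (k - i))) * CP (k - i) := by
              ring
          _ ≤ (k.choose i : ℝ) * (CG i (4 + 2 * k) * (1 / 2) ^ n) * CP (k - i) := by
              have := hCP0 (k - i)
              gcongr
          _ = _ := by ring
    exact hmain
  · intro t y h
    have h1 : ∀ n, G n t • pq P (q n) y = 0 := by
      intro n
      rcases h with h | h | h
      · have h2 : G n t = 0 := by
          cases n with
          | zero => exact hG0 t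
          | succ n =>
            by_contra h3
            linarith [(hGs n t h3).1, (hσ n).1]
        rw [h2, zero_smul]
      · have h2 : G n t = 0 := by
          cases n with
          | zero => exact hG0 t
          | succ n =>
            by_contra h3
            linarith [(hGs n t h3).2, (hσ (n + 1)).2]
        rw [h2, zero_smul]
      · have h2 : P (q n ^ 2 • y) = 0 := by
          apply hout
          rw [norm_smul, Real.norm_of_nonneg (by positivity)]
          have h3 : 1 ≤ q n ^ 2 := one_le_pow₀ (by linarith [hq2 n])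
          nlinarith [norm_nonneg y]
        rw [pq_eq, h2, smul_zero, smul_zero]
    simp only [su, h1, tsum_zero]
  · intro t y
    have h1 : HasSum (fun n : ℕ => K ^ 2 * (1 / 2 : ℝ) ^ n) (K ^ 2 * 2) :=
      hasSum_geometric_two.mul_left _
    have h2 : ∀ n, ‖G n t • pq P (q n) y‖ ≤ K ^ 2 * (1 / 2) ^ n := by
      intro n
      have h3 := hsm n t
      have h4 := hK (q n ^ 2 • y)
      rw [pq_eq, norm_smul, norm_smul, Real.norm_eq_abs, Real.norm_of_nonneg (pow_nonneg (hq0 n).le 3)]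
      calc |G n t| * (q n ^ 3 * ‖P (q n ^ 2 • y)‖) = (q n ^ 3 * |G n t|) * ‖P (q n ^ 2 • y)‖ := by ring
        _ ≤ (K / 2 ^ n) * K := by
            have : 0 ≤ K / 2 ^ n := by positivity
            gcongr
        _ = K ^ 2 * (1 / 2) ^ n := by
            rw [one_div, inv_pow]; ring
    have h3 := tsum_of_norm_bounded h1 h2
    simp only [su]
    linarith

end M3

end Pool.Agent.N976.EN
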