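import Pool.Agent.N976.EN.Def2
import Pool.Agent.N976.SC.T4a

/-!
# Products, Dirichlet integral and energy outside of small balls of sums of packets
-/

open Set Filter Topology MeasureTheory
open scoped ContDiff

set_option autoImplicit false

namespace Pool.Agent.N976.EN

open Pool.Agent.N976.SC

namespace M4

theorem sm_pq {P : E3 → E3} (hP : T4.Sm P) {q : ℝ} (hq : 0 < q) : T4.Sm (pq P q) :=
  hP.pk hq 1

theorem sm_zero : T4.Sm (fun _ => (0 : E3)) :=
  ⟨contDiff_const, HasCompactSupport.zero⟩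

/-- finite sums -/
noncomputable def fs (v : ℕ → E3 → E3) (a : ℕ → ℝ) (M : ℕ) (y : E3) : E3 :=
  ∑ n ∈ Finset.range M, a n • v n y

theorem fs_succ (v : ℕ → E3 → E3) (a : ℕ → ℝ) (M : ℕ) :
    fs v a (M + 1) = fun y => fs v a M y + a M • v M y := by
  funext y
  exact Finset.sum_range_succ _ _

theorem sm_fs {v : ℕ → E3 → E3} (hv : ∀ n, T4.Sm (v n)) (a : ℕ → ℝ) (M : ℕ) :
    T4.Sm (fs v a M) := by
  induction M with
  | zero =>
    have : fs v a 0 = fun _ => 0 := by funext y; simp [fs]
    rw [this]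
    exact sm_zero
  | succ M ih =>
    rw [fs_succ]
    exact ih.add ((hv M).smul _)

theorem ip_fs {v : ℕ → E3 → E3} (hv : ∀ n, T4.Sm (v n)) {w : E3 → E3} (hw : Continuous w)
    (a : ℕ → ℝ) (M : ℕ) : ip w (fs v a M) = ∑ n ∈ Finset.range M, a n * ip w (v n) := by
  induction M with
  | zero =>
    have : fs v a 0 = fun _ => 0 := by funext y; simp [fs]
    rw [this]
    simp [ip]
  | succ M ih =>
    rw [fs_succ, T4.ip_add hw (sm_fs hv a M) ((hv M).smul _), T4.ip_smul, ih,
      Finset.sum_range_succ]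

theorem lap_add {v w : E3 → E3} (hv : ContDiff ℝ ∞ v) (hw : ContDiff ℝ ∞ w) :
    lap (fun y => v y + w y) = fun y => lap v y + lap w y := by
  funext y
  simp only [lap]
  rw [← Finset.sum_add_distrib]
  refine Finset.sum_congr rfl fun i _ => ?_
  have h1 : (fun z => fderiv ℝ (fun y => v y + w y) z (bv i)) =
      fun z => fderiv ℝ v z (bv i) + fderiv ℝ w z (bv i) := by
    funext z
    rw [fderiv_fun_add (hv.differentiable (by simp) z) (hw.differentiable (by simp) z)]
    rfl
  have h2 : Differentiable ℝ (fun z => fderiv ℝ v z (bv i)) :=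
    ((T4.cd_fderiv hv).clm_apply contDiff_const).differentiable (by simp)
  have h3 : Differentiable ℝ (fun z => fderiv ℝ w z (bv i)) :=
    ((T4.cd_fderiv hw).clm_apply contDiff_const).differentiable (by simp)
  rw [h1, fderiv_fun_add (h2 y) (h3 y)]
  rfl

theorem lap_fs {v : ℕ → E3 → E3} (hv : ∀ n, T4.Sm (v n)) (a : ℕ → ℝ) (M : ℕ) :
    lap (fs v a M) = fs (fun n => lap (v n)) a M := by
  induction M with
  | zero =>
    have h0 : fs v a 0 = fun _ => 0 := by funext y; simp [fs]
    have h1 : fs (fun n => lap (v n)) a 0 = fun _ => 0 := by funext y; simp [fs]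
    rw [h0, h1]
    funext y
    simp [lap]
  | succ M ih =>
    rw [fs_succ, lap_add (sm_fs hv a M).sm ((hv M).smul _).sm, ih,
      T4.lap_smul (hv M).sm, fs_succ]

theorem su_eq {P : E3 → E3} {q a : ℕ → ℝ} {M : ℕ} (h : ∀ n ≥ M, a n = 0) :
    su P q a = fs (fun n => pq P (q n)) a M := by
  funext y
  unfold su fs
  refine tsum_eq_sum fun n hn => ?_
  rw [h n (by simpa using hn), zero_smul]

theorem prod {P : E3 → E3} (hP : T4.Sm P) {q : ℕ → ℝ} (hq : ∀ n, 1 ≤ q n) {N : ℝ}
    (hN : ∀ m n, ip (pq P (q m)) (pq P (q n)) = if m = n then N else 0)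
    (a : ℕ → ℝ) (M : ℕ) {n : ℕ} (hn : n < M) :
    ip (fs (fun n => pq P (q n)) a M) (pq P (q n)) = N * a n := by
  have hs : ∀ n, T4.Sm (pq P (q n)) := fun n => sm_pq hP (by linarith [hq n])
  rw [T4.ip_comm, ip_fs hs (hs n).sm.continuous]
  rw [Finset.sum_eq_single n]
  · rw [hN, if_pos rfl, mul_comm]
  · intro m _ hm
    rw [hN, if_neg (fun h => hm h.symm), mul_zero]
  · intro h
    exact absurd (Finset.mem_range.2 hn) h

end M4

/-- **Products, Dirichlet integral and energy outside of small balls.** -/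
theorem t_M4 : S_M4 := by
  intro q β lam N P r T hq hN a b M ha hb
  have hP : T4.Sm P := T4.Sm.of_out T.sm T.out
  have hs : ∀ n, T4.Sm (pq P (q n)) := fun n => M4.sm_pq hP (by linarith [hq n])
  have hpr := fun (a : ℕ → ℝ) (M : ℕ) {n : ℕ} (hn : n < M) => M4.prod hP hq hN a M hn
  -- compact support of the constraint fields
  have hr : ∀ i, T4.Sm (r i) := by
    rintro ⟨i, n⟩
    refine T4.Sm.of_out (T.rsm _) (R := 1) fun y hy => ?_
    rcases n with _ | n
    · refine T.rout0 i y ?_
      nlinarith [hq 0, norm_nonneg y, one_le_pow₀ (hq 0) (n := 2)]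
    · refine T.rout i n y ?_
      nlinarith [hq n, norm_nonneg y, one_le_pow₀ (hq n) (n := 2)]
  -- products
  have key : ∀ (a b : ℕ → ℝ) (M : ℕ), (∀ n ≥ M, a n = 0) → (∀ n ≥ M, b n = 0) →
      ip (su P q a) (su P q b) = N * ∑ n ∈ Finset.range M, a n * b n := by
    intro a b M ha hb
    rw [M4.su_eq ha, M4.su_eq hb, M4.ip_fs hs (M4.sm_fs hs a M).sm.continuous, Finset.mul_sum]
    refine Finset.sum_congr rfl fun n hn => ?_
    rw [hpr a M (Finset.mem_range.1 hn)]
    ring
  have hcon : ∀ i, ip (su P q a) (r i) = 0 := by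
    intro i
    rw [M4.su_eq ha, T4.ip_comm, M4.ip_fs hs (hr i).sm.continuous]
    refine Finset.sum_eq_zero fun n _ => ?_
    rw [T4.ip_comm, T.orth, mul_zero]
  refine ⟨key a b M ha hb, ?_, hcon, ?_⟩
  · have h0 : dir (su P q a) = -ip (su P q a) (lap (su P q a)) := by
      rw [T4.ip_comm, T4.ip_lap_self (by rw [M4.su_eq ha]; exact M4.sm_fs hs a M), neg_neg]
    have h1 : ∀ n, T4.Sm (lap (pq P (q n))) := fun n => (hs n).lap
    have hc : Continuous (su P q a) := by rw [M4.su_eq ha]; exact (M4.sm_fs hs a M).sm.continuous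
    rw [h0]
    have h2 : lap (su P q a) = M4.fs (fun n => lap (pq P (q n))) a M := by
      rw [M4.su_eq ha]; exact M4.lap_fs hs a M
    rw [h2, M4.ip_fs h1 hc, ← Finset.sum_neg_distrib, Finset.mul_sum]
    refine Finset.sum_congr rfl fun n hn => ?_
    have h3 : lap (pq P (q n)) = fun y => r (2, n) y - (lam * q n ^ 4) • pq P (q n) y :=
      funext fun y => T.pl n y
    rw [h3, T4.ip_sub hc (hr _) ((hs n).smul _), T4.ip_smul, hcon, M4.su_eq ha,
      hpr a M (Finset.mem_range.1 hn)]
    ring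
  · intro δ n₀ hδ hn₀
    -- only the first packets matter
    obtain ⟨c, hc⟩ : ∃ c : ℕ → ℝ, c = fun n => if n < n₀ then a n else 0 := ⟨_, rfl⟩
    have hc0 : ∀ n ≥ M, c n = 0 := by
      intro n hn
      rw [hc]
      by_cases h : n < n₀
      · simp [h, ha n hn]
      · simp [h]
    have h1 : ∀ y : E3, δ ≤ ‖y‖ → su P q a y = su P q c y := by
      intro y hy
      unfold su
      refine tsum_congr fun n => ?_
      by_cases h : n < n₀
      · simp [hc, h]
      · have h2 : pq P (q n) y = 0 := by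
          unfold pq pk
          have h3 : P (q n ^ (2 * 1) • y) = 0 := by
            refine T.out _ ?_
            have hq0 : (0 : ℝ) ≤ q n := by linarith [hq n]
            rw [norm_smul, Real.norm_eq_abs, abs_of_nonneg (pow_nonneg hq0 _)]
            have h4 := hn₀ n (not_lt.1 h)
            calc (1 / 2 : ℝ) ≤ q n ^ 2 * δ := h4
              _ ≤ q n ^ (2 * 1) * ‖y‖ := by
                have : (0 : ℝ) ≤ q n ^ 2 := by positivity
                simpa using mul_le_mul_of_nonneg_left hy this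
          rw [h3, smul_zero]
        rw [h2, smul_zero, smul_zero]
    have hms : MeasurableSet {y : E3 | δ ≤ ‖y‖} :=
      measurableSet_le measurable_const measurable_norm
    have h5 : ∫ y in {y : E3 | δ ≤ ‖y‖}, ‖su P q a y‖ ^ 2 =
        ∫ y in {y : E3 | δ ≤ ‖y‖}, ‖su P q c y‖ ^ 2 :=
      setIntegral_congr_fun hms fun y hy => by
        show ‖su P q a y‖ ^ 2 = ‖su P q c y‖ ^ 2
        rw [h1 y hy]
    have hsc : T4.Sm (su P q c) := by rw [M4.su_eq hc0]; exact M4.sm_fs hs c M
    have h6 : Integrable (fun y => ‖su P q c y‖ ^ 2) := by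
      refine (T4.integ hsc.sm.continuous hsc).congr (ae_of_all _ fun y => ?_)
      exact real_inner_self_eq_norm_sq _
    have h7 : ∫ y in {y : E3 | δ ≤ ‖y‖}, ‖su P q c y‖ ^ 2 ≤ ∫ y, ‖su P q c y‖ ^ 2 :=
      setIntegral_le_integral h6 (ae_of_all _ fun y => by positivity)
    have h8 : ∫ y, ‖su P q c y‖ ^ 2 = ip (su P q c) (su P q c) := by
      unfold ip
      refine integral_congr_ae (ae_of_all _ fun y => ?_)
      exact (real_inner_self_eq_norm_sq _).symm
    have h9 : ip (su P q c) (su P q c) = N * ∑ n ∈ Finset.range n₀, a n ^ 2 := by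
      rw [key c c (max M n₀) (fun n hn => hc0 n (le_trans (le_max_left _ _) hn))
        (fun n hn => hc0 n (le_trans (le_max_left _ _) hn))]
      congr 1
      rw [← Finset.sum_subset (Finset.range_mono (le_max_right M n₀))]
      · refine Finset.sum_congr rfl fun n hn => ?_
        have := Finset.mem_range.1 hn
        simp [hc, this, sq]
      · intro n _ hn
        have : ¬ n < n₀ := fun h => hn (Finset.mem_range.2 h)
        simp [hc, this]
    rw [h5]
    linarith

end Pool.Agent.N976.EN
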