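import Pool.Agent.N976.EN.Def2
import Pool.Agent.N976.SC.T3

/-!
# Uniqueness and the energy identity for forced constrained flows
-/

open Set Filter Topology MeasureTheory
open scoped ContDiff

set_option autoImplicit false

namespace Pool.Agent.N976.EN

open Pool.Agent.N976.SC

namespace M5

/-- Continuous fields with compact support decay. -/
theorem cs_B2 {f : E3 → E3} (hf : Continuous f) (hc : HasCompactSupport f) :
    ∃ N, T3.B2 N f := by
  have h1 : Continuous (fun y : E3 => (1 + ‖y‖) ^ 2 • f y) := by fun_prop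
  have h2 : HasCompactSupport (fun y : E3 => (1 + ‖y‖) ^ 2 • f y) := by
    refine hc.mono ?_
    intro y hy hy'
    apply hy
    show (1 + ‖y‖) ^ 2 • f y = 0
    rw [hy', smul_zero]
  obtain ⟨N, hN⟩ := h1.bounded_above_of_compact_support h2
  refine ⟨N, fun y => ?_⟩
  have h3 := hN y
  rw [norm_smul, Real.norm_eq_abs, abs_of_nonneg (by positivity)] at h3
  exact h3

theorem tm {ι : Type} {ν T : ℝ} {r : ι → E3 → E3} {f u : ℝ → E3 → E3} (h : SolF ν r f T u) :
    T3.Tm T u := ⟨h.c1, fun T' hT' => by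
  obtain ⟨M, hM⟩ := h.dec T' hT'
  exact ⟨M, fun t ht => ⟨(hM t ht).1.d0, (hM t ht).2⟩⟩⟩

theorem fld {ι : Type} {ν T : ℝ} {r : ι → E3 → E3} {f u : ℝ → E3 → E3} (h : SolF ν r f T u)
    {t : ℝ} (ht : t ∈ Ico 0 T) : Fld (u t) := by
  refine ⟨h.smooth t ht, h.div t ht, ?_⟩
  obtain ⟨M, hM⟩ := h.dec t ht.2
  exact ⟨M, (hM t ⟨ht.1, le_rfl⟩).1⟩

theorem ip_splitF {A B C D N ν : ℝ} {a b c g w : E3 → E3} (ha : Continuous a) (hb : Continuous b)
    (hc : Continuous c) (hg : Continuous g) (hw : Continuous w) (hA : T3.B2 A a)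
    (hB : T3.B2 B b) (hC : T3.B2 C c) (hN : T3.B2 N g) (hD : T3.B2 D w) :
    ip (fun y => a y + b y - ν • c y - g y) w = ip a w + ip b w - ν * ip c w - ip g w := by
  rw [← T3.ip_split ha hb hc hw hA hB hC hD]
  unfold ip
  have hc' : Continuous (fun y => a y + b y - ν • c y) := (ha.add hb).sub (hc.const_smul ν)
  have hB' : T3.B2 (A + B + |ν| * C) (fun y => a y + b y - ν • c y) :=
    T3.B2.sub (T3.B2.add hA hB) (T3.B2.smul hC ν)
  rw [← integral_sub (T3.int_inner hc' hw hB' hD) (T3.int_inner hg hw hN hD)]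
  simp only [inner_sub_left]

theorem energy_main {ι : Type} {ν T : ℝ} {r : ι → E3 → E3} {f u : ℝ → E3 → E3}
    (hfc : ∀ t, Continuous (f t)) (hfs : ∀ t, HasCompactSupport (f t))
    (h : SolF ν r f T u) {t : ℝ} (ht : t ∈ Ico 0 T) :
    ip (dt T u t) (u t) = -(ν * dir (u t)) + ip (u t) (f t) := by
  have htm := tm h
  have hf := fld h ht
  obtain ⟨M, hM⟩ := h.dec t ht.2
  obtain ⟨hM1, hM2⟩ := hM t ⟨ht.1, le_rfl⟩
  obtain ⟨N, hN⟩ := cs_B2 (hfc t) (hfs t)
  have h1 := h.eqn t ht (u t) hf (h.con t ht)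
  rw [ip_splitF (htm.cdt ht) (T3.cont_adv hf.smooth hf.smooth) (T3.cont_lap hf.smooth) (hfc t)
    hf.smooth.continuous hM2 (T3.B2_adv hM1.d0 (T3.Dec.f1 hM1)) (T3.B2_lap hM1) hN hM1.d0,
    T3.adv_orth hf.smooth hf.smooth hf.div hM1 hM1, T3.lap_dir hf.smooth hM1] at h1
  have h2 : ip (f t) (u t) = ip (u t) (f t) := by
    unfold ip
    exact integral_congr_ae (ae_of_all _ fun y => real_inner_comm _ _)
  rw [h2] at h1
  linarith

end M5

/-- **Energy identity.** -/
theorem t_ENF : S_ENF := by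
  intro ι ν T r f u _ hfc hfs h
  refine ⟨T3.energy_cont (M5.tm h), fun t ht => ?_⟩
  have h1 := T3.energy_deriv (M5.tm h) ht
  rw [M5.energy_main hfc hfs h ⟨ht.1.le, ht.2⟩] at h1
  refine h1.congr_deriv ?_
  ring

/-- **Uniqueness.** -/
theorem t_UNF : S_UNF := by
  intro ι ν T r f u v hν hr hrc hfc hfs hu hv h0 t ht
  have hut := M5.tm hu
  have hvt := M5.tm hv
  obtain ⟨w, hw⟩ : ∃ w : ℝ → E3 → E3, w = fun τ y => u τ y - v τ y := ⟨_, rfl⟩
  have hwt : T3.Tm T w := by rw [hw]; exact hut.sub hvt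
  obtain ⟨M, hM⟩ := hu.dec t ht.2
  have hM0 : 0 ≤ M := T3.Dec.nonneg (hM t ⟨ht.1, le_rfl⟩).1
  -- the differential inequality
  have key : ∀ τ ∈ Icc 0 t, ip (dt T w τ) (w τ) ≤ M * ip (w τ) (w τ) := by
    intro τ hτ
    have hτ' : τ ∈ Ico 0 T := ⟨hτ.1, lt_of_le_of_lt hτ.2 ht.2⟩
    have fu := M5.fld hu hτ'
    have fv := M5.fld hv hτ'
    have du := (hM τ hτ).1
    obtain ⟨N, hN⟩ := hv.dec τ hτ'.2
    obtain ⟨dv, ev⟩ := hN τ ⟨hτ'.1, le_rfl⟩
    obtain ⟨K, hK⟩ := M5.cs_B2 (hfc τ) (hfs τ)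
    have eu := (hM τ hτ).2
    have hwe : w τ = fun y => u τ y - v τ y := by rw [hw]
    have sw : ContDiff ℝ ∞ (w τ) := by rw [hwe]; exact fu.smooth.sub fv.smooth
    have dw : Dec (M + N) (w τ) := by
      rw [hwe]; exact T3.Dec.sub fu.smooth fv.smooth du dv
    have divw : ∀ y, divg (w τ) y = 0 := by
      rw [hwe]; exact T3.divg_diff fu.smooth fv.smooth fu.div fv.div
    have fw : Fld (w τ) := ⟨sw, divw, _, dw⟩
    have conw : ∀ i, ip (w τ) (r i) = 0 := by
      intro i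
      rw [hwe, T3.ip_sub_cs fu.smooth.continuous fv.smooth.continuous (hr i) (hrc i),
        hu.con τ hτ' i, hv.con τ hτ' i, sub_zero]
    have e1 := hu.eqn τ hτ' (w τ) fw conw
    have e2 := hv.eqn τ hτ' (w τ) fw conw
    rw [M5.ip_splitF (hut.cdt hτ') (T3.cont_adv fu.smooth fu.smooth) (T3.cont_lap fu.smooth)
      (hfc τ) sw.continuous eu (T3.B2_adv du.d0 (T3.Dec.f1 du)) (T3.B2_lap du) hK dw.d0] at e1
    rw [M5.ip_splitF (hvt.cdt hτ') (T3.cont_adv fv.smooth fv.smooth) (T3.cont_lap fv.smooth)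
      (hfc τ) sw.continuous ev (T3.B2_adv dv.d0 (T3.Dec.f1 dv)) (T3.B2_lap dv) hK dw.d0] at e2
    -- differences
    have i1 : ip (dt T w τ) (w τ) = ip (dt T u τ) (w τ) - ip (dt T v τ) (w τ) := by
      have : dt T w τ = fun y => dt T u τ y - dt T v τ y := by
        rw [hw]; exact T3.dt_sub hut hvt hτ'
      rw [this]
      unfold ip
      simp only [inner_sub_left]
      exact integral_sub (T3.int_inner (hut.cdt hτ') sw.continuous eu dw.d0)
        (T3.int_inner (hvt.cdt hτ') sw.continuous ev dw.d0)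
    have i2 : ip (lap (w τ)) (w τ) = ip (lap (u τ)) (w τ) - ip (lap (v τ)) (w τ) := by
      have : ∀ y, lap (w τ) y = lap (u τ) y - lap (v τ) y := by
        rw [hwe]; exact T3.lap_diff fu.smooth fv.smooth
      unfold ip
      simp only [this, inner_sub_left]
      exact integral_sub (T3.int_inner (T3.cont_lap fu.smooth) sw.continuous (T3.B2_lap du) dw.d0)
        (T3.int_inner (T3.cont_lap fv.smooth) sw.continuous (T3.B2_lap dv) dw.d0)
    have i3 : ip (adv (u τ) (u τ)) (w τ) - ip (adv (v τ) (v τ)) (w τ) =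
        ip (adv (w τ) (u τ)) (w τ) + ip (adv (v τ) (w τ)) (w τ) := by
      unfold ip
      rw [← integral_sub (T3.int_inner (T3.cont_adv fu.smooth fu.smooth) sw.continuous
          (T3.B2_adv du.d0 (T3.Dec.f1 du)) dw.d0)
        (T3.int_inner (T3.cont_adv fv.smooth fv.smooth) sw.continuous
          (T3.B2_adv dv.d0 (T3.Dec.f1 dv)) dw.d0),
        ← integral_add (T3.int_inner (T3.cont_adv sw fu.smooth) sw.continuous
          (T3.B2_adv dw.d0 (T3.Dec.f1 du)) dw.d0)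
        (T3.int_inner (T3.cont_adv fv.smooth sw) sw.continuous
          (T3.B2_adv dv.d0 (T3.Dec.f1 dw)) dw.d0)]
      refine integral_congr_ae (ae_of_all _ fun y => ?_)
      show inner ℝ (adv (u τ) (u τ) y) (w τ y) - inner ℝ (adv (v τ) (v τ) y) (w τ y) =
        inner ℝ (adv (w τ) (u τ) y) (w τ y) + inner ℝ (adv (v τ) (w τ) y) (w τ y)
      rw [← inner_sub_left, ← inner_add_left, T3.adv_diff fu.smooth fv.smooth y, ← hwe]
    have i4 : ip (adv (v τ) (w τ)) (w τ) = 0 := T3.adv_orth fv.smooth sw fv.div dv dw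
    have i5 : ip (lap (w τ)) (w τ) = -dir (w τ) := T3.lap_dir sw dw
    have i6 : -ip (adv (w τ) (u τ)) (w τ) ≤ M * ip (w τ) (w τ) :=
      T3.adv_bound fu.smooth sw (T3.Dec.f1 du) dw.d0
    have i7 : 0 ≤ ν * dir (w τ) := mul_nonneg hν (T3.dir_nonneg _)
    have i8 : ν * ip (lap (u τ)) (w τ) - ν * ip (lap (v τ)) (w τ) = -(ν * dir (w τ)) := by
      rw [← mul_sub, ← i2, i5]; ring
    linarith
  -- Gronwall
  have hEc := T3.energy_cont hwt
  have hsub : Icc 0 t ⊆ Ico 0 T := fun τ hτ => ⟨hτ.1, lt_of_le_of_lt hτ.2 ht.2⟩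
  have hd : ∀ τ ∈ Ioo 0 t, HasDerivAt (fun x => ip (w x) (w x) * Real.exp (-(2 * M) * x))
      ((2 * ip (dt T w τ) (w τ)) * Real.exp (-(2 * M) * τ) +
        ip (w τ) (w τ) * (Real.exp (-(2 * M) * τ) * (-(2 * M)))) τ := by
    intro τ hτ
    have h1 := T3.energy_deriv hwt (t := τ) ⟨hτ.1, hτ.2.trans ht.2⟩
    have h2 : HasDerivAt (fun x : ℝ => Real.exp (-(2 * M) * x))
        (Real.exp (-(2 * M) * τ) * (-(2 * M))) τ := by
      have := (hasDerivAt_id τ).const_mul (-(2 * M))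
      have h3 := this.exp
      simpa using h3
    exact h1.mul h2
  have hanti : AntitoneOn (fun x => ip (w x) (w x) * Real.exp (-(2 * M) * x)) (Icc 0 t) := by
    refine antitoneOn_of_deriv_nonpos (convex_Icc 0 t) ?_ ?_ ?_
    · exact (hEc.mono hsub).mul (by fun_prop)
    · rw [interior_Icc]
      exact fun τ hτ => (hd τ hτ).differentiableAt.differentiableWithinAt
    · rw [interior_Icc]
      intro τ hτ
      rw [(hd τ hτ).deriv]
      have h1 := key τ ⟨hτ.1.le, hτ.2.le⟩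
      have h2 : 0 < Real.exp (-(2 * M) * τ) := Real.exp_pos _
      nlinarith
  have h1 : ip (w 0) (w 0) = 0 := by
    have : w 0 = fun _ => 0 := by
      rw [hw]; funext y; simp [h0]
    rw [this]
    simp [ip]
  have h2 := hanti (left_mem_Icc.2 ht.1) (right_mem_Icc.2 ht.1) ht.1
  simp only [h1, zero_mul] at h2
  have h3 : 0 < Real.exp (-(2 * M) * t) := Real.exp_pos _
  have h4 : ip (w t) (w t) = 0 := by
    refine le_antisymm ?_ (T3.ip_self_nonneg _)
    by_contra hcon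
    push Not at hcon
    exact absurd h2 (not_le.2 (mul_pos hcon h3))
  -- vanishing
  have hcw : Continuous (w t) := hwt.cont ht
  obtain ⟨N, hN⟩ := hwt.dec t ht.2
  have hi := T3.int_inner hcw hcw (hN t ⟨ht.1, le_rfl⟩).1 (hN t ⟨ht.1, le_rfl⟩).1
  unfold ip at h4
  rw [integral_eq_zero_iff_of_nonneg (fun y => real_inner_self_nonneg) hi,
    Continuous.ae_eq_iff_eq volume (hcw.inner hcw) continuous_zero] at h4
  funext y
  have h5 := congrFun h4 y
  have h6 : w t y = 0 := inner_self_eq_zero.1 h5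
  rw [hw] at h6
  exact sub_eq_zero.1 h6

end Pool.Agent.N976.EN
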