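import Pool.Agent.N976.EN.Def4
import Pool.Agent.N976.EN.M01
import Pool.Agent.N976.EN.M2
import Pool.Agent.N976.EN.M3
import Pool.Agent.N976.EN.M4
import Pool.Agent.N976.EN.M5

/-!
# Energy concentration: the sums of packets are flows (K1) (helper42, for helper976)
-/

open Set Filter Topology MeasureTheory
open scoped ContDiff InnerProductSpace

set_option autoImplicit false

namespace Pool.Agent.N976.EN

open Pool.Agent.N976.SC
open Pool.Agent.N976.DI (mv Con cf)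
open H772R2.NS (jac IsTest L2V L2M L2sigma H1graph M3)

namespace K1

/-! ### Decay of sums of packets -/

/-- Continuous functions with compact support decay. -/
theorem cs_wt {W : Type} [NormedAddCommGroup W] [NormedSpace ℝ W] {f : E3 → W} (hf : Continuous f)
    (hc : HasCompactSupport f) : ∃ N, ∀ y, (1 + ‖y‖) ^ 2 * ‖f y‖ ≤ N := by
  have h1 : Continuous (fun y : E3 => (1 + ‖y‖) ^ 2 • f y) := by fun_prop
  have h2 : HasCompactSupport (fun y : E3 => (1 + ‖y‖) ^ 2 • f y) := by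
    refine hc.mono ?_
    intro y hy hy'
    apply hy
    show (1 + ‖y‖) ^ 2 • f y = 0
    rw [hy', smul_zero]
  obtain ⟨N, hN⟩ := h1.bounded_above_of_compact_support h2
  refine ⟨N, fun y => ?_⟩
  have h3 := hN y
  rw [norm_smul, Real.norm_eq_abs, abs_of_nonneg (by positivity)] at h3
  exact h3

theorem dec_of_sm {v : E3 → E3} (h : T4.Sm v) : ∃ D, Dec D v := by
  obtain ⟨a, ha⟩ := cs_wt h.sm.continuous h.cs
  obtain ⟨b, hb⟩ := cs_wt (T4.cd_fderiv h.sm).continuous (h.cs.fderiv ℝ)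
  have hc : ∀ i j, ∃ N, ∀ y, (1 + ‖y‖) ^ 2 *
      ‖fderiv ℝ (fun z => fderiv ℝ v z (bv i)) y (bv j)‖ ≤ N := fun i j =>
    cs_wt ((h.dd (bv i)).dd (bv j)).sm.continuous ((h.dd (bv i)).dd (bv j)).cs
  choose c hc using hc
  have hs : 0 ≤ ∑ i, ∑ j, |c i j| :=
    Finset.sum_nonneg fun i _ => Finset.sum_nonneg fun j _ => abs_nonneg _
  refine ⟨|a| + |b| + ∑ i, ∑ j, |c i j|, ?_, ?_, ?_⟩
  · intro y
    linarith [ha y, le_abs_self a, abs_nonneg b]
  · intro y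
    linarith [hb y, le_abs_self b, abs_nonneg a]
  · intro y i j
    have h1 : |c i j| ≤ ∑ j, |c i j| :=
      Finset.single_le_sum (f := fun j => |c i j|) (fun j _ => abs_nonneg _) (Finset.mem_univ j)
    have h2 : ∑ j, |c i j| ≤ ∑ i, ∑ j, |c i j| :=
      Finset.single_le_sum (f := fun i => ∑ j, |c i j|)
        (fun i _ => Finset.sum_nonneg fun j _ => abs_nonneg _) (Finset.mem_univ i)
    linarith [hc i j y, le_abs_self (c i j), abs_nonneg a, abs_nonneg b]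

theorem wt_sum {W : Type} [NormedAddCommGroup W] [NormedSpace ℝ W] {w : ℕ → E3 → W} {D a : ℕ → ℝ}
    {M : ℕ} {B : ℝ} (hB : 0 ≤ B) (ha : ∀ n < M, |a n| ≤ B)
    (h : ∀ n y, (1 + ‖y‖) ^ 2 * ‖w n y‖ ≤ D n) (y : E3) :
    (1 + ‖y‖) ^ 2 * ‖∑ n ∈ Finset.range M, a n • w n y‖ ≤ ∑ n ∈ Finset.range M, B * D n := by
  have h1 : ‖∑ n ∈ Finset.range M, a n • w n y‖ ≤ ∑ n ∈ Finset.range M, |a n| * ‖w n y‖ := by
    refine (norm_sum_le _ _).trans (le_of_eq ?_)
    refine Finset.sum_congr rfl fun n _ => ?_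
    rw [norm_smul, Real.norm_eq_abs]
  calc (1 + ‖y‖) ^ 2 * ‖∑ n ∈ Finset.range M, a n • w n y‖
      ≤ (1 + ‖y‖) ^ 2 * ∑ n ∈ Finset.range M, |a n| * ‖w n y‖ :=
        mul_le_mul_of_nonneg_left h1 (by positivity)
    _ = ∑ n ∈ Finset.range M, |a n| * ((1 + ‖y‖) ^ 2 * ‖w n y‖) := by
        rw [Finset.mul_sum]
        exact Finset.sum_congr rfl fun n _ => by ring
    _ ≤ _ := by
        refine Finset.sum_le_sum fun n hn => ?_
        exact mul_le_mul (ha n (Finset.mem_range.1 hn)) (h n y) (by positivity) hB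

theorem fderiv2_su {P : E3 → E3} (hP : ContDiff ℝ ∞ P) (q a : ℕ → ℝ) (M : ℕ)
    (ha : ∀ n ≥ M, a n = 0) (y : E3) (i j : Fin 3) :
    fderiv ℝ (fun z => fderiv ℝ (su P q a) z (bv i)) y (bv j) =
      ∑ n ∈ Finset.range M, a n • fderiv ℝ (fun z => fderiv ℝ (pq P (q n)) z (bv i)) y (bv j) := by
  have h1 : (fun z => fderiv ℝ (su P q a) z (bv i)) =
      fun z => ∑ n ∈ Finset.range M, a n • fderiv ℝ (pq P (q n)) z (bv i) := by
    funext z
    rw [M2.fderiv_su hP q a M ha, sum_apply]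
    rfl
  have hd : ∀ n, DifferentiableAt ℝ (fun z => fderiv ℝ (pq P (q n)) z (bv i)) y := by
    intro n
    have h2 : ContDiff ℝ 1 (fderiv ℝ (pq P (q n))) :=
      (M2.pq_smooth hP (q n)).fderiv_right (by norm_cast)
    exact ((h2.differentiable (by norm_num)) y).clm_apply (differentiableAt_const _)
  have h2 : HasFDerivAt (fun z => ∑ n ∈ Finset.range M, a n • fderiv ℝ (pq P (q n)) z (bv i))
      (∑ n ∈ Finset.range M, a n • fderiv ℝ (fun z => fderiv ℝ (pq P (q n)) z (bv i)) y) y := by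
    refine HasFDerivAt.fun_sum fun n _ => ?_
    exact ((hd n).hasFDerivAt).const_smul (a n)
  rw [h1, h2.fderiv, sum_apply]
  rfl

theorem dec_su {P : E3 → E3} (hP : ContDiff ℝ ∞ P) {q a : ℕ → ℝ} {D : ℕ → ℝ}
    (hD : ∀ n, Dec (D n) (pq P (q n))) {M : ℕ} {B : ℝ} (hB : 0 ≤ B) (ha : ∀ n ≥ M, a n = 0)
    (hab : ∀ n < M, |a n| ≤ B) : Dec (∑ n ∈ Finset.range M, B * D n) (su P q a) := by
  refine ⟨?_, ?_, ?_⟩
  · intro y
    rw [M2.su_eq P q a M ha y]
    exact wt_sum hB hab (fun n y => (hD n).d0 y) y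
  · intro y
    rw [M2.fderiv_su hP q a M ha y]
    exact wt_sum hB hab (fun n y => (hD n).d1 y) y
  · intro y i j
    rw [fderiv2_su hP q a M ha y i j]
    exact wt_sum (w := fun n y => fderiv ℝ (fun z => fderiv ℝ (pq P (q n)) z (bv i)) y (bv j))
      hB hab (fun n y => (hD n).d2 y i j) y

/-! ### The active modes -/

theorem loc {T : ℝ} {X : ℕ → ℝ → ℝ} (hA : Act T X) {T' : ℝ} (hT' : T' < T) :
    ∃ M, ∀ n ≥ M, ∀ t ∈ Icc 0 T', X n t = 0 ∧ derivWithin (X n) (Ico 0 T) t = 0 := by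
  obtain ⟨T₁, h1, h2⟩ := exists_between hT'
  obtain ⟨M, hM⟩ := hA.fin T₁ h2
  refine ⟨M, fun n hn t ht => ⟨hM n hn t ⟨ht.1, ht.2.trans h1.le⟩, ?_⟩⟩
  have e : X n =ᶠ[𝓝[Ico 0 T] t] fun _ => (0 : ℝ) := by
    filter_upwards [self_mem_nhdsWithin,
      mem_nhdsWithin_of_mem_nhds (Iio_mem_nhds (lt_of_le_of_lt ht.2 h1))] with τ h3 h4
    exact hM n hn τ ⟨h3.1, le_of_lt h4⟩
  rw [e.derivWithin_eq (hM n hn t ⟨ht.1, ht.2.trans h1.le⟩)]
  simp

theorem der_bdd {T : ℝ} {X : ℕ → ℝ → ℝ} (hA : Act T X) {T' : ℝ} (hT' : T' < T) (M : ℕ) :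
    ∃ B, 0 ≤ B ∧ ∀ n < M, ∀ t ∈ Icc 0 T', |derivWithin (X n) (Ico 0 T) t| ≤ B := by
  have h1 : ∀ n, ∃ b, ∀ t ∈ Icc 0 T', ‖derivWithin (X n) (Ico 0 T) t‖ ≤ b := by
    intro n
    have hc : ContinuousOn (derivWithin (X n) (Ico 0 T)) (Ico 0 T) :=
      (hA.sm n).continuousOn_derivWithin (uniqueDiffOn_Ico 0 T) (by simp)
    exact isCompact_Icc.exists_bound_of_continuousOn
      (hc.mono fun t ht => ⟨ht.1, lt_of_le_of_lt ht.2 hT'⟩)
  choose b hb using h1
  refine ⟨∑ n ∈ Finset.range M, |b n|, Finset.sum_nonneg fun n _ => abs_nonneg _, ?_⟩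
  intro n hn t ht
  have h2 : |b n| ≤ ∑ n ∈ Finset.range M, |b n| :=
    Finset.single_le_sum (f := fun n => |b n|) (fun n _ => abs_nonneg _) (Finset.mem_range.2 hn)
  have h3 := hb n t ht
  rw [Real.norm_eq_abs] at h3
  linarith [le_abs_self (b n)]

/-! ### The force -/

section force

variable {ε ν β lam N : ℝ} {q : ℕ → ℝ} {P : E3 → E3} {r : Fin 3 × ℕ → E3 → E3}
  {T A : ℝ} {σ : ℕ → ℝ} {X G : ℕ → ℝ → ℝ}

theorem bP (H : Fd ε ν β lam N q P r T A σ X G) : ∃ K, ∀ y, ‖P y‖ ≤ K :=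
  H.tab.sm.continuous.bounded_above_of_compact_support (M3.hcs H.tab.out)

theorem frc (H : Fd ε ν β lam N q P r T A σ X G) :
    ContDiff ℝ ∞ (fun z : ℝ × E3 => su P q (fun n => G n z.1) z.2) ∧
    ∀ t y, (t ≤ 0 ∨ T ≤ t ∨ 1 / 2 ≤ ‖y‖) → su P q (fun n => G n t) y = 0 := by
  obtain ⟨K, hK⟩ := bP H
  obtain ⟨C, hC⟩ := H.Gdec 0 4
  have hpow := M3.q_pow H.q2 H.qq
  have h1 : ∀ n t, q n ^ 3 * |G n t| ≤ max K C / 2 ^ n := by
    intro n t
    have h2 := hC n t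
    rw [iteratedDeriv_zero] at h2
    rw [le_div_iff₀ (by positivity)]
    have hq0 : 0 ≤ q n := by linarith [H.q2 n]
    have h3 : 0 ≤ q n ^ 3 * |G n t| := by positivity
    calc q n ^ 3 * |G n t| * 2 ^ n ≤ q n ^ 3 * |G n t| * q n :=
          mul_le_mul_of_nonneg_left (hpow n) h3
      _ = q n ^ 4 * |G n t| := by ring
      _ ≤ C := h2
      _ ≤ max K C := le_max_right _ _
  have := M3.t_M3 P q T (max K C) σ G H.tab.sm H.tab.out H.q2 H.qq H.σ0 H.Gsm H.G0 H.Gs H.Gdec h1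
    (fun y => (hK y).trans (le_max_left _ _))
  exact ⟨this.1, this.2.1⟩

theorem G_fin (H : Fd ε ν β lam N q P r T A σ X G) (t : ℝ) : ∃ M, ∀ n ≥ M, G n t = 0 := by
  rcases lt_or_ge t T with ht | ht
  · obtain ⟨M, hM⟩ := (H.σl.eventually (lt_mem_nhds ht)).exists_forall_of_atTop
    refine ⟨M + 1, fun n hn => ?_⟩
    obtain ⟨k, rfl⟩ : ∃ k, n = k + 1 := ⟨n - 1, by omega⟩
    by_contra h
    have h1 := (H.Gs k t h).1
    have h2 := hM k (by omega)
    linarith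
  · refine ⟨0, fun n _ => ?_⟩
    cases n with
    | zero => exact H.G0 t
    | succ n =>
      by_contra h
      have h1 := (H.Gs n t h).2
      have h2 := (H.σ0 (n + 1)).2
      linarith

theorem frc_div (H : Fd ε ν β lam N q P r T A σ X G) (t : ℝ) (y : E3) :
    divg (su P q (fun n => G n t)) y = 0 := by
  obtain ⟨M, hM⟩ := G_fin H t
  have e : su P q (fun n => G n t) = fun y => ∑ n ∈ Finset.range M, G n t • pq P (q n) y := by
    funext y
    exact M01.su_fin P q _ M hM y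
  rw [e]
  refine M01.divg_sum _ _ _ (fun n => M01.pq_cd H.tab.sm (q n)) (fun n y => ?_) y
  exact T4.divg_pk (H.tab.sm.differentiable (by simp)) H.tab.div 1 y

/-! ### The residual -/

theorem r_sm (H : Fd ε ν β lam N q P r T A σ X G) (p : Fin 3 × ℕ) : T4.Sm (r p) := by
  obtain ⟨i, n⟩ := p
  have hq1 : ∀ n, 1 ≤ q n := fun n => by linarith [H.q2 n]
  refine T4.Sm.of_out (H.tab.rsm _) (R := 1) fun y hy => ?_
  rcases n with _ | n
  · refine H.tab.rout0 i y ?_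
    nlinarith [hq1 0, norm_nonneg y, one_le_pow₀ (hq1 0) (n := 2)]
  · refine H.tab.rout i n y ?_
    nlinarith [hq1 n, norm_nonneg y, one_le_pow₀ (hq1 n) (n := 2)]

theorem lx_zero {ν : ℝ} {q a : ℕ → ℝ} {M : ℕ} (ha : ∀ n ≥ M, a n = 0) (x : Fin 3 × ℕ)
    (hx2 : M ≤ x.2) : lx ν q a x = 0 := by
  rcases x with ⟨i, k⟩
  have h1 : ∑' m : ℕ, a (k + m) ^ 2 = 0 := by
    rw [M2.tail a M ha k, Finset.Ico_eq_empty_of_le hx2]; rfl
  have h2 : a k = 0 := ha k hx2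
  fin_cases i
  · exact h1
  · show a k * ∑ i ∈ Finset.range k, q i ^ 5 * a i = 0
    rw [h2, zero_mul]
  · show -(ν * a k) = 0
    rw [h2]; ring

theorem resid (H : Fd ε ν β lam N q P r T A σ X G) {t : ℝ} (ht : t ∈ Ico 0 T) :
    ∃ (S : Finset (Fin 3 × ℕ)) (l : Fin 3 × ℕ → ℝ), ∀ y,
      dt T (fU P q X) t y + adv (fU P q X t) (fU P q X t) y - ν • lap (fU P q X t) y
        - fU P q G t y = ∑ p ∈ S, l p • r p y := by
  obtain ⟨M, hM⟩ := loc H.act ht.2
  have hX0 : ∀ n ≥ M, X n t = 0 := fun n hn => (hM n hn t ⟨ht.1, le_rfl⟩).1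
  have hX1 : ∀ n ≥ M, derivWithin (X n) (Ico 0 T) t = 0 := fun n hn =>
    (hM n hn t ⟨ht.1, le_rfl⟩).2
  have hq1 : ∀ n, 1 ≤ q n := fun n => by linarith [H.q2 n]
  have hode : ∀ n, derivWithin (X n) (Ico 0 T) t = -(ν * lam * q n ^ 4 * X n t) +
      β * (X n t * ∑ i ∈ Finset.range n, q i ^ 5 * X i t
        - q n ^ 5 * ∑' m : ℕ, X (n + 1 + m) t ^ 2) + G n t := fun n =>
    (H.ode n t ht).derivWithin (uniqueDiffOn_Ico 0 T t ht)
  refine ⟨Finset.univ ×ˢ Finset.range M, lx ν q (fun n => X n t), fun y => ?_⟩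
  have h1 := M2.t_M2 q β lam ν P r H.tab (fun n => X n t)
    (fun n => derivWithin (X n) (Ico 0 T) t) (fun n => G n t) M hX0 hode hX1 y
  have h2 : HasSum (fun p => lx ν q (fun n => X n t) p • r p y)
      (∑ p ∈ (Finset.univ : Finset (Fin 3)) ×ˢ Finset.range M,
        lx ν q (fun n => X n t) p • r p y) := by
    refine hasSum_sum_of_ne_finset_zero fun x hx => ?_
    have hx2 : M ≤ x.2 := by
      by_contra h
      exact hx (Finset.mem_product.2 ⟨Finset.mem_univ _, Finset.mem_range.2 (by omega)⟩)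
    rw [lx_zero hX0 x hx2, zero_smul]
  have h3 := h1.unique h2
  have h4 := (M01.t_M1 P q T X H.T0 H.tab.sm H.tab.out H.tab.div hq1 H.act).2.2 t ht y
  have h5 : dt T (fU P q X) t y = su P q (fun n => derivWithin (X n) (Ico 0 T) t) y := h4
  rw [h5]
  exact h3

theorem int_zero {μ : Measure E3} {v : E3 → E3} (S : Finset (Fin 3 × ℕ)) (l : Fin 3 × ℕ → ℝ)
    (hi : ∀ p, Integrable (fun x => ⟪v x, r p x⟫_ℝ) μ) (h0 : ∀ p, ∫ x, ⟪v x, r p x⟫_ℝ ∂μ = 0) :
    ∫ x, ⟪v x, ∑ p ∈ S, l p • r p x⟫_ℝ ∂μ = 0 := by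
  have h1 : ∀ x, ⟪v x, ∑ p ∈ S, l p • r p x⟫_ℝ = ∑ p ∈ S, l p * ⟪v x, r p x⟫_ℝ := by
    intro x
    rw [inner_sum]
    exact Finset.sum_congr rfl fun p _ => real_inner_smul_right _ _ _
  simp only [h1]
  rw [integral_finset_sum _ fun p _ => (hi p).const_mul (l p)]
  refine Finset.sum_eq_zero fun p _ => ?_
  rw [integral_const_mul, h0, mul_zero]

end force

end K1

/-- **(K1)** -/
theorem t_K1 : S_K1 := by
  intro ε ν β lam N q P r T A σ X G H
  have hq1 : ∀ n, 1 ≤ q n := fun n => by linarith [H.q2 n]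
  have hP : T4.Sm P := T4.Sm.of_out H.tab.sm H.tab.out
  obtain ⟨hsm, hreg, hdt⟩ := M01.t_M1 P q T X H.T0 H.tab.sm H.tab.out H.tab.div hq1 H.act
  obtain ⟨hf1, hf2⟩ := K1.frc H
  have hcon : ∀ t ∈ Ico 0 T, ∀ i, ip (fU P q X t) (r i) = 0 := by
    intro t ht i
    obtain ⟨M, hM⟩ := K1.loc H.act ht.2
    have hX0 : ∀ n ≥ M, X n t = 0 := fun n hn => (hM n hn t ⟨ht.1, le_rfl⟩).1
    exact (t_M4 q β lam N P r H.tab hq1 H.nrm (fun n => X n t) (fun n => X n t) M hX0 hX0).2.2.1 i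
  have hsol : SolF ν r (fU P q G) T (fU P q X) := by
    refine ⟨?_, fun t ht => (hreg t ht).1, fun t ht => (hreg t ht).2.2, ?_, hcon, ?_⟩
    · exact hsm.of_le (by exact_mod_cast le_top)
    · intro T' hT'
      obtain ⟨M, hM⟩ := K1.loc H.act hT'
      obtain ⟨B, hB0, hB⟩ := K1.der_bdd H.act hT' M
      have hDe : ∀ n, ∃ D, Dec D (pq P (q n)) := fun n =>
        K1.dec_of_sm (M4.sm_pq hP (by linarith [hq1 n]))
      choose D hD using hDe
      have hD0 : ∀ n, 0 ≤ D n := fun n => T3.Dec.nonneg (hD n)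
      have hA0 : 0 ≤ 2 * A := by linarith [H.A0]
      refine ⟨(∑ n ∈ Finset.range M, (2 * A + B) * D n), fun t ht => ?_⟩
      have ht' : t ∈ Ico 0 T := ⟨ht.1, lt_of_le_of_lt ht.2 hT'⟩
      refine ⟨?_, ?_⟩
      · refine K1.dec_su H.tab.sm hD (by linarith) (fun n hn => (hM n hn t ht).1) fun n _ => ?_
        linarith [H.bdd n t ht']
      · intro y
        have h5 : dt T (fU P q X) t y = su P q (fun n => derivWithin (X n) (Ico 0 T) t) y :=
          hdt t ht' y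
        rw [h5, M2.su_eq P q _ M (fun n hn => (hM n hn t ht).2) y]
        refine K1.wt_sum (by linarith) (fun n hn => ?_) (fun n y => (hD n).d0 y) y
        linarith [hB n hn t ht]
    · intro t ht w hw hwr
      obtain ⟨S, l, hS⟩ := K1.resid H ht
      have h1 : (fun y => dt T (fU P q X) t y + adv (fU P q X t) (fU P q X t) y
          - ν • lap (fU P q X t) y - fU P q G t y) = fun y => ∑ p ∈ S, l p • r p y :=
        funext hS
      rw [h1, T4.ip_comm]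
      exact K1.int_zero (μ := volume) S l
        (fun p => T4.integ hw.smooth.continuous (K1.r_sm H p)) hwr
  refine ⟨hsol, ?_, hf2, fun t ht => (hreg t ht).2.1, K1.frc_div H⟩
  refine ⟨H.T0, hsm, hf1, ⟨Metric.closedBall 0 (1 / 2), isCompact_closedBall _ _, subset_univ _,
    ?_, ?_⟩, fun t ht => (hreg t ht).2.2, hcon, ?_⟩
  · intro t ht x hx
    rw [Metric.mem_closedBall, dist_zero_right, not_le] at hx
    exact (hreg t ht).2.1 x hx.le
  · intro t x hx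
    rw [Metric.mem_closedBall, dist_zero_right, not_le] at hx
    exact hf2 t x (Or.inr (Or.inr hx.le))
  · intro t ht v hv
    obtain ⟨S, l, hS⟩ := K1.resid H ht
    simp only [hS]
    refine K1.int_zero S l (fun p => ?_) hv
    have h1 : MemLp (r p) 2 (volume.restrict (univ : Set E3)) :=
      (K1.r_sm H p).sm.continuous.memLp_of_hasCompactSupport (K1.r_sm H p).cs
    have h2 := L2.integrable_inner (𝕜 := ℝ) v (h1.toLp (r p))
    refine h2.congr ?_
    filter_upwards [h1.coeFn_toLp] with x hx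
    rw [hx]

end Pool.Agent.N976.EN
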