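import Pool.Agent.N976.EN.Def4
import Pool.Agent.N976.EN.M4
import Pool.Agent.N976.EN.M5

/-!
# Energy concentration: the energy of the flow (K3)
-/

open Set Filter Topology MeasureTheory
open scoped ContDiff InnerProductSpace

set_option autoImplicit false

namespace Pool.Agent.N976.EN

open Pool.Agent.N976.SC

namespace K3

variable {ε ν β lam N : ℝ} {q : ℕ → ℝ} {P : E3 → E3} {r : Fin 3 × ℕ → E3 → E3}
  {T A : ℝ} {σ : ℕ → ℝ} {X G : ℕ → ℝ → ℝ}

theorem hq1 (h : Fd ε ν β lam N q P r T A σ X G) (n : ℕ) : 1 ≤ q n := by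
  have := h.q2 n
  linarith

/-- Finitely many active modes up to the time `T' < T`. -/
theorem fin (h : Fd ε ν β lam N q P r T A σ X G) {T' : ℝ} (hT : T' < T) :
    ∃ M, ∀ n ≥ M, ∀ t ∈ Icc 0 T', X n t = 0 ∧ G n t = 0 := by
  obtain ⟨M, hM⟩ := h.act.fin T' hT
  have h1 : ∀ᶠ n in atTop, T' < σ n := h.σl.eventually (lt_mem_nhds hT)
  obtain ⟨M', hM'⟩ := eventually_atTop.mp h1
  refine ⟨max M (M' + 1), fun n hn t ht => ⟨hM n (le_trans (le_max_left _ _) hn) t ht, ?_⟩⟩
  have hn' : M' + 1 ≤ n := le_trans (le_max_right _ _) hn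
  obtain ⟨k, rfl⟩ : ∃ k, n = k + 1 := ⟨n - 1, by omega⟩
  by_contra hG
  have h2 := (h.Gs k t hG).1
  have h3 := hM' k (by omega)
  have h4 := ht.2
  linarith

/-- Finitely many active components of the force. -/
theorem finG (h : Fd ε ν β lam N q P r T A σ X G) (s : ℝ) : ∃ M, ∀ n ≥ M, G n s = 0 := by
  by_cases hs : s < T
  · have h1 : ∀ᶠ n in atTop, s < σ n := h.σl.eventually (lt_mem_nhds hs)
    obtain ⟨M', hM'⟩ := eventually_atTop.mp h1
    refine ⟨M' + 1, fun n hn => ?_⟩
    obtain ⟨k, rfl⟩ : ∃ k, n = k + 1 := ⟨n - 1, by omega⟩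
    by_contra hG
    have h2 := (h.Gs k s hG).1
    have h3 := hM' k (by omega)
    linarith
  · refine ⟨0, fun n _ => ?_⟩
    rcases n with _ | k
    · exact h.G0 s
    · by_contra hG
      have h2 := (h.Gs k s hG).2
      have h3 := (h.σ0 (k + 1)).2
      exact hs (h2.trans h3)

theorem contX (h : Fd ε ν β lam N q P r T A σ X G) (n : ℕ) : ContinuousOn (X n) (Ico 0 T) :=
  (h.act.sm n).continuousOn

theorem contG (h : Fd ε ν β lam N q P r T A σ X G) (n : ℕ) : Continuous (G n) :=
  (h.Gsm n).continuous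

theorem intG (h : Fd ε ν β lam N q P r T A σ X G) (n : ℕ) : Integrable (fun t => |G n t|) := by
  have h1 : Continuous (fun t => |G n t|) := (contG h n).abs
  refine h1.integrable_of_hasCompactSupport ?_
  rcases n with _ | k
  · have : (fun t => |G 0 t|) = fun _ => 0 := by
      funext t
      rw [h.G0 t, abs_zero]
    rw [this]
    exact HasCompactSupport.zero
  · refine HasCompactSupport.of_support_subset_isCompact
      (isCompact_Icc : IsCompact (Icc (σ k) (σ (k + 1)))) ?_
    intro t ht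
    have h2 : G (k + 1) t ≠ 0 := by
      intro h0
      apply ht
      simp [h0]
    have h3 := h.Gs k t h2
    exact ⟨h3.1.le, h3.2.le⟩

theorem geo (M : ℕ) : ∑ n ∈ Finset.range M, (1 / (2 : ℝ) ^ n) ≤ 2 := by
  have := sum_geometric_two_le M
  refine le_trans (le_of_eq ?_) this
  refine Finset.sum_congr rfl fun n _ => ?_
  rw [one_div_pow]

/-- The product of the flow with the force. -/
theorem work (h : Fd ε ν β lam N q P r T A σ X G) {t : ℝ} (ht : t ∈ Ico 0 T) :
    |∫ s in (0 : ℝ)..t, ip (fU P q X s) (fU P q G s)| ≤ 4 * ε * (N * A ^ 2) := by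
  obtain ⟨M, hM⟩ := fin h ht.2
  have e1 : ∀ s ∈ Icc 0 t, ip (fU P q X s) (fU P q G s) =
      N * ∑ n ∈ Finset.range M, X n s * G n s := fun s hs =>
    (t_M4 q β lam N P r h.tab (hq1 h) h.nrm (fun n => X n s) (fun n => G n s) M
      (fun n hn => (hM n hn s hs).1) (fun n hn => (hM n hn s hs).2)).1
  have hA := h.A0
  have hN := h.N0
  have b1 : ‖∫ s in (0 : ℝ)..t, ip (fU P q X s) (fU P q G s)‖ ≤
      ∫ s in (0 : ℝ)..t, N * (2 * A) * ∑ n ∈ Finset.range M, |G n s| := by
    refine intervalIntegral.norm_integral_le_of_norm_le ht.1 (Eventually.of_forall ?_) ?_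
    · intro s hs
      have hs' : s ∈ Icc 0 t := ⟨hs.1.le, hs.2⟩
      rw [e1 s hs', Real.norm_eq_abs, abs_mul, abs_of_pos hN, mul_assoc]
      refine mul_le_mul_of_nonneg_left ?_ hN.le
      refine (Finset.abs_sum_le_sum_abs _ _).trans ?_
      rw [Finset.mul_sum]
      refine Finset.sum_le_sum fun n _ => ?_
      rw [abs_mul]
      exact mul_le_mul_of_nonneg_right (h.bdd n s ⟨hs'.1, lt_of_le_of_lt hs'.2 ht.2⟩)
        (abs_nonneg _)
    · refine Continuous.intervalIntegrable ?_ _ _
      refine continuous_const.mul (continuous_finsetSum _ fun n _ => (contG h n).abs)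
  rw [Real.norm_eq_abs] at b1
  refine b1.trans ?_
  rw [intervalIntegral.integral_const_mul,
    intervalIntegral.integral_finsetSum fun n _ => (contG h n).abs.intervalIntegrable _ _]
  have b2 : ∀ n, ∫ s in (0 : ℝ)..t, |G n s| ≤ A * ε * (1 / 2 ^ n) := by
    intro n
    rw [intervalIntegral.integral_of_le ht.1]
    refine (setIntegral_le_integral (intG h n) (Eventually.of_forall fun s => abs_nonneg _)).trans ?_
    refine (h.GL1 n).trans (le_of_eq ?_)
    ring
  have b3 : ∑ n ∈ Finset.range M, ∫ s in (0 : ℝ)..t, |G n s| ≤ A * ε * 2 := by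
    refine (Finset.sum_le_sum fun n _ => b2 n).trans ?_
    rw [← Finset.mul_sum]
    exact mul_le_mul_of_nonneg_left (geo M) (mul_pos hA h.ε0).le
  refine (mul_le_mul_of_nonneg_left b3 (by positivity)).trans (le_of_eq ?_)
  ring

end K3

/-- **Energy of the flow.** -/
theorem t_K3 : S_K3 := by
  intro ε ν β lam N q P r T A σ X G h hS
  have hN := h.N0
  have hA := h.A0
  have hε := h.ε0
  have hν := h.ν0
  -- the energy
  have en : ∀ t ∈ Ico 0 T, ip (fU P q X t) (fU P q X t) = N * ∑' m, X m t ^ 2 := by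
    intro t ht
    obtain ⟨M, hM⟩ := K3.fin h ht.2
    have hz : ∀ n ≥ M, X n t = 0 := fun n hn => (hM n hn t ⟨ht.1, le_rfl⟩).1
    have e1 := (t_M4 q β lam N P r h.tab (K3.hq1 h) h.nrm (fun n => X n t) (fun n => X n t) M
      hz hz).1
    rw [tsum_eq_sum (s := Finset.range M) (fun n hn => by
      rw [hz n (by simpa using hn)]; ring)]
    refine Eq.trans e1 ?_
    congr 1
    exact Finset.sum_congr rfl fun n _ => (sq _).symm
  have en0 : ip (fU P q X 0) (fU P q X 0) = N * A ^ 2 := by
    have hz : ∀ n ≥ 1, X n 0 = 0 := by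
      intro n hn
      obtain ⟨k, rfl⟩ : ∃ k, n = k + 1 := ⟨n - 1, by omega⟩
      exact h.ini k
    have e1 := (t_M4 q β lam N P r h.tab (K3.hq1 h) h.nrm (fun n => X n 0) (fun n => X n 0) 1
      hz hz).1
    refine Eq.trans e1 ?_
    rw [Finset.sum_range_one, h.ini0]
    ring
  have enb : ∀ t ∈ Ico 0 T, (1 - ε) * (N * A ^ 2) ≤ ip (fU P q X t) (fU P q X t) ∧
      ip (fU P q X t) (fU P q X t) ≤ (1 + ε) * (N * A ^ 2) := by
    intro t ht
    rw [en t ht]
    have h1 := mul_le_mul_of_nonneg_left (h.low t ht) hN.le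
    have h2 := mul_le_mul_of_nonneg_left (h.upp t ht) hN.le
    constructor
    · refine le_trans (le_of_eq ?_) h1
      ring
    · refine h2.trans (le_of_eq ?_)
      ring
  refine ⟨en0, enb, ?_, ?_, ?_⟩
  · -- the dissipation
    intro t ht
    obtain ⟨M, hM⟩ := K3.fin h ht.2
    have hdir : ∀ s ∈ Icc 0 t, dir (fU P q X s) =
        lam * N * ∑ n ∈ Finset.range M, q n ^ 4 * X n s ^ 2 := fun s hs =>
      (t_M4 q β lam N P r h.tab (K3.hq1 h) h.nrm (fun n => X n s) (fun n => X n s) M
        (fun n hn => (hM n hn s hs).1) (fun n hn => (hM n hn s hs).1)).2.1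
    have hwrk : ∀ s ∈ Icc 0 t, ip (fU P q X s) (fU P q G s) =
        N * ∑ n ∈ Finset.range M, X n s * G n s := fun s hs =>
      (t_M4 q β lam N P r h.tab (K3.hq1 h) h.nrm (fun n => X n s) (fun n => G n s) M
        (fun n hn => (hM n hn s hs).1) (fun n hn => (hM n hn s hs).2)).1
    have hsub : Icc 0 t ⊆ Ico 0 T := fun s hs => ⟨hs.1, lt_of_le_of_lt hs.2 ht.2⟩
    have c1 : ContinuousOn (fun s => dir (fU P q X s)) (Icc 0 t) := by
      refine ContinuousOn.congr ?_ hdir
      refine continuousOn_const.mul (continuousOn_finsetSum _ fun n _ => ?_)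
      exact continuousOn_const.mul (((K3.contX h n).mono hsub).pow 2)
    have c2 : ContinuousOn (fun s => ip (fU P q X s) (fU P q G s)) (Icc 0 t) := by
      refine ContinuousOn.congr ?_ hwrk
      refine continuousOn_const.mul (continuousOn_finsetSum _ fun n _ => ?_)
      exact ((K3.contX h n).mono hsub).mul (K3.contG h n).continuousOn
    have i1 : IntervalIntegrable (fun s => dir (fU P q X s)) volume 0 t :=
      ContinuousOn.intervalIntegrable (by rwa [uIcc_of_le ht.1])
    have i2 : IntervalIntegrable (fun s => ip (fU P q X s) (fU P q G s)) volume 0 t :=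
      ContinuousOn.intervalIntegrable (by rwa [uIcc_of_le ht.1])
    have hfc : ∀ s, T4.Sm (fU P q G s) := by
      intro s
      obtain ⟨M', hM'⟩ := K3.finG h s
      unfold fU
      rw [M4.su_eq hM']
      exact M4.sm_fs (fun n => M4.sm_pq (T4.Sm.of_out h.tab.sm h.tab.out)
        (by linarith [K3.hq1 h n])) _ _
    obtain ⟨ec, ed⟩ := t_ENF _ ν T r (fU P q G) (fU P q X) hν.le (fun s => (hfc s).sm.continuous)
      (fun s => (hfc s).cs) hS
    have key := intervalIntegral.integral_eq_sub_of_hasDerivAt_of_le ht.1 (ec.mono hsub)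
      (fun s hs => ed s ⟨hs.1, hs.2.trans ht.2⟩)
      (((i1.const_mul ν).const_mul 2).neg.add (i2.const_mul 2))
    have e2 : (∫ s in (0 : ℝ)..t, (-(2 * (ν * dir (fU P q X s))) +
        2 * ip (fU P q X s) (fU P q G s))) =
        -(2 * (ν * ∫ s in (0 : ℝ)..t, dir (fU P q X s))) +
        2 * ∫ s in (0 : ℝ)..t, ip (fU P q X s) (fU P q G s) := by
      have i3 : IntervalIntegrable (fun s => -(2 * (ν * dir (fU P q X s)))) volume 0 t :=
        ((i1.const_mul ν).const_mul 2).neg
      rw [intervalIntegral.integral_add i3 (i2.const_mul 2), intervalIntegral.integral_neg, intervalIntegral.integral_const_mul,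
        intervalIntegral.integral_const_mul, intervalIntegral.integral_const_mul]
    rw [e2, en0] at key
    have h1 := (enb t ht).1
    have h2 := K3.work h ht
    have h3 := (abs_le.mp h2).2
    have h4 : 0 < ε * (N * A ^ 2) := by positivity
    nlinarith
  · intro t ht
    refine (K3.work h ht).trans ?_
    have h4 : 0 < ε * (N * A ^ 2) := by positivity
    nlinarith
  · -- outside of small balls
    intro δ hδ
    have hq : ∀ n, (2 : ℝ) ^ (n + 1) ≤ q n := by
      intro n
      induction n with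
      | zero => simpa using h.q2 0
      | succ k ih =>
        refine le_trans ?_ (h.qq k)
        rw [pow_succ]
        linarith
    obtain ⟨n₀, hn₀⟩ := pow_unbounded_of_one_lt (1 / (2 * δ)) (one_lt_two : (1 : ℝ) < 2)
    have hn : ∀ n ≥ n₀, 1 / 2 ≤ q n ^ 2 * δ := by
      intro n hn
      have h1 : (2 : ℝ) ^ n₀ ≤ 2 ^ (n + 1) := pow_le_pow_right₀ one_le_two (by omega)
      have h2 : q n ≤ q n ^ 2 := by
        have := K3.hq1 h n
        nlinarith
      have h3 : 1 / (2 * δ) ≤ q n ^ 2 := by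
        linarith [hq n]
      rw [div_le_iff₀ (by positivity)] at h3
      linarith
    refine ⟨σ n₀, (h.σ0 n₀).2, fun t ht ht0 => ?_⟩
    have ht' : t ∈ Ico 0 T := ⟨ht0, ht.2⟩
    obtain ⟨M, hM⟩ := K3.fin h ht.2
    have hz : ∀ n ≥ M, X n t = 0 := fun n hn => (hM n hn t ⟨ht0, le_rfl⟩).1
    have e1 := (t_M4 q β lam N P r h.tab (K3.hq1 h) h.nrm (fun n => X n t) (fun n => X n t) M
      hz hz).2.2.2 δ n₀ hδ hn
    refine e1.trans ?_
    have e3 : ∑ n ∈ Finset.range n₀, X n t ^ 2 ≤ A ^ 2 * ε ^ 2 * 2 := by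
      have e4 : ∀ n ∈ Finset.range n₀, X n t ^ 2 ≤ A ^ 2 * ε ^ 2 * (1 / 2 ^ n) := by
        intro n hn'
        have hlt := Finset.mem_range.mp hn'
        have h1 : σ (n + 1) ≤ σ n₀ := h.σm.monotone (by omega)
        have h2 := h.left n t ⟨h1.trans ht.1, ht.2⟩
        have h3 : X n t ^ 2 ≤ (A * (ε / 2 ^ n)) ^ 2 := by
          rw [← sq_abs (X n t)]
          exact pow_le_pow_left₀ (abs_nonneg _) h2 2
        refine h3.trans ?_
        have h5 : (A * (ε / 2 ^ n)) ^ 2 = A ^ 2 * ε ^ 2 * ((1 / 2 ^ n) * (1 / 2 ^ n)) := by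
          ring
        rw [h5]
        refine mul_le_mul_of_nonneg_left ?_ (by positivity)
        have h6 : (1 : ℝ) / 2 ^ n ≤ 1 := by
          rw [div_le_one (by positivity)]
          exact one_le_pow₀ one_le_two
        have h7 : (0 : ℝ) ≤ 1 / 2 ^ n := by positivity
        nlinarith
      refine (Finset.sum_le_sum e4).trans ?_
      rw [← Finset.mul_sum]
      exact mul_le_mul_of_nonneg_left (K3.geo n₀) (by positivity)
    refine (mul_le_mul_of_nonneg_left e3 hN.le).trans (le_of_eq ?_)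
    ring

end Pool.Agent.N976.EN
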