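import Pool.Agent.N976.EN.Def4
import Pool.Agent.N976.EN.M5

/-!
# (K4) the maximal time of existence (helper803)
-/

open Set Filter Topology MeasureTheory
open scoped ContDiff

set_option autoImplicit false

namespace Pool.Agent.N976.EN

open Pool.Agent.N976.SC

namespace K4

lemma dt_restr {T T₁ : ℝ} (h : T₁ ≤ T) (u : ℝ → E3 → E3) {t : ℝ} (ht : t < T₁) (y : E3) :
    dt T₁ u t y = dt T u t y := by
  unfold dt
  have e : Ico 0 T₁ = Ico 0 T ∩ Iio T₁ := by
    ext s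
    simp only [mem_Ico, mem_inter_iff, mem_Iio]
    constructor
    · rintro ⟨h1, h2⟩
      exact ⟨⟨h1, h2.trans_le h⟩, h2⟩
    · rintro ⟨⟨h1, -⟩, h2⟩
      exact ⟨h1, h2⟩
  rw [e, derivWithin_inter (Iio_mem_nhds ht)]

/-- Restriction to a shorter interval. -/
lemma restr {ι : Type} {ν T T₁ : ℝ} {r : ι → E3 → E3} {f u : ℝ → E3 → E3} (hT : T₁ ≤ T)
    (h : SolF ν r f T u) : SolF ν r f T₁ u := by
  have hs : ∀ t ∈ Ico 0 T₁, t ∈ Ico 0 T := fun t ht => ⟨ht.1, ht.2.trans_le hT⟩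
  refine ⟨h.c1.mono (prod_mono hs subset_rfl), fun t ht => h.smooth t (hs t ht),
    fun t ht => h.div t (hs t ht), ?_, fun t ht => h.con t (hs t ht), ?_⟩
  · intro T' hT'
    obtain ⟨M, hM⟩ := h.dec T' (hT'.trans_le hT)
    refine ⟨M, fun t ht => ⟨(hM t ht).1, fun y => ?_⟩⟩
    rw [dt_restr hT u (ht.2.trans_lt hT') y]
    exact (hM t ht).2 y
  · intro t ht w hw hwr
    have e : (fun y => dt T₁ u t y + adv (u t) (u t) y - ν • lap (u t) y - f t y) =
        fun y => dt T u t y + adv (u t) (u t) y - ν • lap (u t) y - f t y := by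
      funext y
      rw [dt_restr hT u ht.2 y]
    rw [e]
    exact h.eqn t (hs t ht) w hw hwr

lemma small_ball {E M : ℝ} (hE : 0 < E) : ∃ δ : ℝ, 0 < δ ∧
    M ^ 2 * (volume : Measure E3).real (Metric.ball (0 : E3) δ) < E / 2 := by
  obtain ⟨V, hV⟩ : ∃ V : ℝ, V = (volume : Measure E3).real (Metric.ball (0 : E3) 1) := ⟨_, rfl⟩
  have hV0 : 0 ≤ V := by rw [hV]; exact measureReal_nonneg
  obtain ⟨δ, hδ0, hδ1, hδ⟩ : ∃ δ : ℝ, 0 < δ ∧ δ ≤ 1 ∧ δ * (M ^ 2 * V) < E / 2 := by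
    refine ⟨min 1 (E / (4 * (M ^ 2 * V + 1))), by positivity, min_le_left _ _, ?_⟩
    have h1 : min 1 (E / (4 * (M ^ 2 * V + 1))) * (M ^ 2 * V) ≤
        E / (4 * (M ^ 2 * V + 1)) * (M ^ 2 * V + 1) := by
      apply mul_le_mul (min_le_right _ _) (by linarith) (by positivity) (by positivity)
    have h2 : E / (4 * (M ^ 2 * V + 1)) * (M ^ 2 * V + 1) = E / 4 := by
      field_simp
    linarith
  refine ⟨δ, hδ0, ?_⟩
  have e : (volume : Measure E3).real (Metric.ball (0 : E3) δ) = δ ^ 3 * V := by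
    rw [hV, measureReal_def, measureReal_def, Measure.addHaar_ball_of_pos volume 0 hδ0,
      ENNReal.toReal_mul, ENNReal.toReal_ofReal (by positivity)]
    congr 2
    simp
  rw [e]
  have h3 : δ ^ 3 ≤ δ := by
    calc δ ^ 3 = δ * δ ^ 2 := by ring
      _ ≤ δ * 1 := mul_le_mul_of_nonneg_left (pow_le_one₀ hδ0.le hδ1) hδ0.le
      _ = δ := mul_one δ
  calc M ^ 2 * (δ ^ 3 * V) = δ ^ 3 * (M ^ 2 * V) := by ring
    _ ≤ δ * (M ^ 2 * V) := mul_le_mul_of_nonneg_right h3 (by positivity)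
    _ < E / 2 := hδ

/-- The energy cannot concentrate while the field is bounded. -/
lemma no_conc {E M δ : ℝ} {u : E3 → E3} (hc : Continuous u) (hM : T3.B2 M u)
    (hδ : M ^ 2 * (volume : Measure E3).real (Metric.ball (0 : E3) δ) < E / 2)
    (hout : ∫ y in {y : E3 | δ ≤ ‖y‖}, ‖u y‖ ^ 2 ≤ E / 2) : ip u u < E := by
  have hi : Integrable (fun y => ‖u y‖ ^ 2) := by
    have := T3.int_inner hc hc hM hM
    refine this.congr (ae_of_all _ fun y => ?_)
    simp only [real_inner_self_eq_norm_sq]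
  have hms : MeasurableSet {y : E3 | δ ≤ ‖y‖} := measurableSet_le measurable_const measurable_norm
  have e1 : ip u u = ∫ y, ‖u y‖ ^ 2 := by
    unfold ip
    simp only [real_inner_self_eq_norm_sq]
  have e2 : {y : E3 | δ ≤ ‖y‖}ᶜ = Metric.ball (0 : E3) δ := by
    ext y
    simp
  rw [e1, ← integral_add_compl hms hi, e2]
  have h1 : ∫ y in Metric.ball (0 : E3) δ, ‖u y‖ ^ 2 ≤
      M ^ 2 * (volume : Measure E3).real (Metric.ball (0 : E3) δ) := by
    refine (le_abs_self _).trans ?_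
    rw [← Real.norm_eq_abs]
    refine norm_setIntegral_le_of_norm_le_const measure_ball_lt_top fun y _ => ?_
    rw [Real.norm_of_nonneg (by positivity)]
    exact pow_le_pow_left₀ (norm_nonneg _) (hM.le y) 2
  linarith

end K4

open K4

theorem t_K4 : S_K4 := by
  intro ι ν T E r f U hν hT hE hr hrc hfc hfs hU hlow hconc T' v hT' hv h0
  have huni : ∀ t ∈ Ico 0 (min T T'), v t = U t :=
    t_UNF ι ν (min T T') r f v U hν hr hrc hfc hfs (restr (min_le_right _ _) hv)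
      (restr (min_le_left _ _) hU) h0
  have hle : T' ≤ T := by
    by_contra hcon
    push Not at hcon
    rw [min_eq_left hcon.le] at huni
    obtain ⟨M, hM⟩ := hv.dec T hcon
    obtain ⟨δ, hδ0, hδ⟩ := small_ball (M := M) hE
    obtain ⟨t₀, ht₀, hc⟩ := hconc δ hδ0
    have htm : max t₀ 0 ∈ Ico 0 T := ⟨le_max_right _ _, max_lt ht₀ hT⟩
    have h1 := hc (max t₀ 0) ⟨le_max_left _ _, htm.2⟩ htm.1
    have h2 := huni _ htm
    have h3 : T3.B2 M (U (max t₀ 0)) := by
      rw [← h2]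
      exact (hM _ ⟨htm.1, htm.2.le⟩).1.d0
    have h4 := no_conc (hU.smooth _ htm).continuous h3 hδ h1
    have h5 := hlow _ htm
    linarith
  refine ⟨hle, fun t ht => huni t ⟨ht.1, ?_⟩⟩
  rw [min_eq_right hle]
  exact ht.2

end Pool.Agent.N976.EN
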