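import Pool.Agent.N976.EN.Def3
import Pool.Agent.N976.DI.D2
import Pool.Agent.H772R2.NS.Space3

/-!
# (L1) The smooth flow, closed by its weak limit, is a Leray-Hopf solution
-/

open Set Filter Topology MeasureTheory
open scoped ContDiff InnerProductSpace ENNReal

set_option autoImplicit false
set_option linter.unusedSectionVars false

namespace Pool.Agent.N976.EN

open Pool.Agent.N976.SC
open Pool.Agent.N976.DI (mv Con)
open H772R2.NS (jac IsTest L2V L2M L2sigma H1graph M3)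

namespace L1

/-! ### Real analysis -/

theorem lt_le_Icc {T : ℝ} (hT : 0 < T) : 𝓝[<] T ≤ 𝓝[Icc 0 T] T :=
  nhdsWithin_le_iff.2 (mem_of_superset (Ioo_mem_nhdsLT hT) Ioo_subset_Icc_self)

theorem lim_int {g A : ℝ → ℝ} {T : ℝ} (hT : 0 < T) (hc : ContinuousOn g (Ico 0 T))
    (hA : IntegrableOn A (Ioo 0 T)) (hb : ∀ s ∈ Ioo 0 T, |g s| ≤ A s) :
    IntervalIntegrable g volume 0 T ∧
    Tendsto (fun t => ∫ s in (0 : ℝ)..t, g s) (𝓝[<] T) (𝓝 (∫ s in (0 : ℝ)..T, g s)) := by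
  have h1 : IntegrableOn g (Ioo 0 T) := by
    refine Integrable.mono' hA ?_ ?_
    · exact (hc.mono Ioo_subset_Ico_self).aestronglyMeasurable measurableSet_Ioo
    · exact (ae_restrict_iff' measurableSet_Ioo).2 (Eventually.of_forall hb)
  have h2 : IntervalIntegrable g volume 0 T := by
    rw [intervalIntegrable_iff_integrableOn_Ioo_of_le hT.le]; exact h1
  refine ⟨h2, ?_⟩
  have h3 := intervalIntegral.continuousOn_primitive_interval' h2
    (left_mem_uIcc (a := (0 : ℝ)) (b := T))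
  rw [uIcc_of_le hT.le] at h3
  have h4 := h3 T ⟨hT.le, le_rfl⟩
  exact h4.mono_left (lt_le_Icc hT)

theorem bdd_int {n : ℝ → ℝ} {T I : ℝ} (hT : 0 < T) (hc : ContinuousOn n (Ico 0 T))
    (h0 : ∀ s, 0 ≤ n s) (hI : ∀ t ∈ Ico 0 T, ∫ s in (0 : ℝ)..t, n s ≤ I) :
    IntegrableOn n (Ioo 0 T) := by
  have hb : ∀ i : ℕ, T * (1 - 1 / ((i : ℝ) + 1)) ∈ Ico 0 T := by
    intro i
    have h1 : 0 < 1 / ((i : ℝ) + 1) := by positivity
    have h2 : 1 / ((i : ℝ) + 1) ≤ 1 := by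
      rw [div_le_one (by positivity)]
      have := Nat.cast_nonneg (α := ℝ) i
      linarith
    constructor
    · apply mul_nonneg hT.le; linarith
    · nlinarith
  have hlim : Tendsto (fun i : ℕ => T * (1 - 1 / ((i : ℝ) + 1))) atTop (𝓝 T) := by
    have h1 := (tendsto_one_div_add_atTop_nhds_zero_nat (𝕜 := ℝ)).const_sub 1
    have h2 := h1.const_mul T
    simpa using h2
  have h1 : IntegrableOn n (Ioc 0 T) := by
    refine integrableOn_Ioc_of_intervalIntegral_norm_bounded_right (I := I) (l := atTop)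
      (b := fun i : ℕ => T * (1 - 1 / ((i : ℝ) + 1))) (fun i => ?_) hlim
      (Eventually.of_forall fun i => ?_)
    · have h2 : ContinuousOn n (Icc 0 (T * (1 - 1 / ((i : ℝ) + 1)))) :=
        hc.mono fun x hx => ⟨hx.1, hx.2.trans_lt (hb i).2⟩
      exact h2.integrableOn_Icc.mono_set Ioc_subset_Icc_self
    · have h3 := hI _ (hb i)
      rw [intervalIntegral.integral_of_le (hb i).1] at h3
      refine le_trans (le_of_eq ?_) h3
      refine setIntegral_congr_fun measurableSet_Ioc fun s _ => ?_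
      exact Real.norm_of_nonneg (h0 s)
  exact h1.mono_set Ioo_subset_Ioc_self

/-! ### The flow -/

open Pool.Agent.N976.DI.D2

section flow

variable {ι : Type} {Ω K : Set E3} {ν T : ℝ} {r : ι → E3 → E3} {f U : ℝ → E3 → E3}

/-- the data -/
structure Dat {ι : Type} (K Ω : Set E3) (ν T : ℝ) (r : ι → E3 → E3) (f U : ℝ → E3 → E3) :
    Prop where
  hF : FlowF Ω ν T r f U
  hK : IsCompact K
  hKΩ : K ⊆ Ω
  out : ∀ t ∈ Ico 0 T, ∀ x, x ∉ K → U t x = 0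
  fout : ∀ t x, x ∉ K → f t x = 0

variable (h : Dat K Ω ν T r f U)

include h

theorem fi {t : ℝ} (ht : t ∈ Ico 0 T) : Fi K (U t) :=
  ⟨cd_slice (Φ := fun z : ℝ × E3 => U z.1 z.2) h.hF.sm ht, h.out t ht, h.hF.div t ht⟩

theorem ckd {t : ℝ} (ht : t ∈ Ico 0 T) : CK K (dt T U t) := by
  refine ⟨(cd_slice (Φ := fun z : ℝ × E3 => dt T U z.1 z.2) (dt_cd h.hF.sm) ht).continuous,
    fun x hx => ?_⟩
  have h1 : HasDerivWithinAt (fun τ => U τ x) 0 (Ico 0 T) t :=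
    (hasDerivWithinAt_const t (Ico 0 T) (0 : E3)).congr (fun τ hτ => h.out τ hτ x hx)
      (h.out t ht x hx)
  exact h1.derivWithin (uniqueDiffOn_Ico 0 T t ht)

theorem ckf (t : ℝ) : CK K (f t) := by
  refine ⟨?_, h.fout t⟩
  have := h.hF.fsm.continuous
  exact this.comp (continuous_const.prodMk continuous_id)

theorem mem {t : ℝ} (ht : t ∈ Ico 0 T) : (cls Ω (U t), cls Ω (jac (U t))) ∈ H1graph Ω :=
  subset_closure ⟨U t, (fi h ht).test h.hK h.hKΩ, (fi h ht).ck.ae h.hK Ω,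
    ((fi h ht).ck_jac h.hK).ae h.hK Ω⟩

theorem cu : ContinuousOn (fun t => cls Ω (U t)) (Ico 0 T) :=
  cls_cont h.hK Ω (F := U) h.hF.sm.continuousOn fun _ ht => (fi h ht).ck

theorem cG : ContinuousOn (fun t => cls Ω (jac (U t))) (Ico 0 T) :=
  cls_cont h.hK Ω (F := fun t => jac (U t)) (jac_cd h.hF.sm).continuousOn
    fun _ ht => (fi h ht).ck_jac h.hK

theorem ctn : ContinuousOn (fun t => cls Ω (fun x => tn (U t x))) (Ico 0 T) :=
  cls_cont h.hK Ω (F := fun t x => tn (U t x)) (cont_tn.comp_continuousOn h.hF.sm.continuousOn)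
    fun _ ht => (fi h ht).ck_tn

theorem cd : ContinuousOn (fun t => cls Ω (dt T U t)) (Ico 0 T) :=
  cls_cont h.hK Ω (F := dt T U) (dt_cd h.hF.sm).continuousOn fun _ ht => ckd h ht

theorem cf : Continuous (fun t => cls Ω (f t)) := by
  rw [← continuousOn_univ]
  exact cls_cont h.hK Ω (F := f) h.hF.fsm.continuous.continuousOn fun t _ => ckf h t

theorem conU {t : ℝ} (ht : t ∈ Ico 0 T) : Con r (cls Ω (U t)) := by
  intro i
  have h1 := h.hF.con t ht i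
  unfold ip at h1
  rw [← h1, ← full (Ω := Ω)]
  · refine integral_congr_ae ?_
    filter_upwards [(fi h ht).ck.ae h.hK Ω] with x hx
    rw [hx]
  · intro x hx
    rw [h.out t ht x (fun hc => hx (h.hKΩ hc)), inner_zero_left]

/-- the weak form of the equation -/
theorem weak {t : ℝ} (ht : t ∈ Ico 0 T) {v : L2V Ω} {z : L2M Ω} (hvz : (v, z) ∈ H1graph Ω)
    (hcon : Con r v) : ⟪v, cls Ω (dt T U t)⟫_ℝ =
      ⟪z, cls Ω (fun x => tn (U t x))⟫_ℝ - ν * ⟪cls Ω (jac (U t)), z⟫_ℝ + ⟪v, cls Ω (f t)⟫_ℝ := by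
  have hK := h.hK
  have hf := fi h ht
  have hd := ckd h ht
  have hff := ckf h t
  have hm : MemLp (fun x => dt T U t x + adv (U t) (U t) x - ν • lap (U t) x - f t x) 2
      (volume.restrict Ω) :=
    (((hd.memLp hK Ω).add ((hf.ck_adv hK).memLp hK Ω)).sub
      (((hf.ck_lap hK).memLp hK Ω).const_smul ν)).sub (hff.memLp hK Ω)
  have e1 : cls Ω (fun x => dt T U t x + adv (U t) (U t) x - ν • lap (U t) x - f t x) =
      cls Ω (dt T U t) + cls Ω (adv (U t) (U t)) - ν • cls Ω (lap (U t)) - cls Ω (f t) := by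
    refine Lp.ext ?_
    filter_upwards [cls_ae hm, hd.ae hK Ω, (hf.ck_adv hK).ae hK Ω, (hf.ck_lap hK).ae hK Ω,
      Lp.coeFn_sub (cls Ω (dt T U t) + cls Ω (adv (U t) (U t))) (ν • cls Ω (lap (U t))),
      Lp.coeFn_add (cls Ω (dt T U t)) (cls Ω (adv (U t) (U t))),
      Lp.coeFn_smul ν (cls Ω (lap (U t))), hff.ae hK Ω,
      Lp.coeFn_sub (cls Ω (dt T U t) + cls Ω (adv (U t) (U t)) - ν • cls Ω (lap (U t)))
        (cls Ω (f t))] with x a1 a2 a3 a4 a5 a6 a7 a8 a9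
    rw [a1, a9, Pi.sub_apply, a5, Pi.sub_apply, a6, Pi.add_apply, a7, Pi.smul_apply, a2, a3, a4,
      a8]
  have e2 : ⟪v, cls Ω (fun x => dt T U t x + adv (U t) (U t) x - ν • lap (U t) x - f t x)⟫_ℝ
      = 0 := by
    rw [inner_cls hm, h.hF.res t ht v hcon]
  rw [e1, inner_sub_right, inner_sub_right, inner_add_right, inner_smul_right] at e2
  have e3 := id_adv hK h.hKΩ hf hvz
  have e4 := id_lap hK h.hKΩ hf hvz
  rw [real_inner_comm (cls Ω (jac (U t))) z] at *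
  linear_combination e2 - e3 + ν * e4

theorem tri_zero {t : ℝ} (ht : t ∈ Ico 0 T) :
    ⟪cls Ω (jac (U t)), cls Ω (fun x => tn (U t x))⟫_ℝ = 0 := by
  have hK := h.hK
  have hf := fi h ht
  have e3 := id_adv hK h.hKΩ hf (mem h ht)
  have e1 : ⟪cls Ω (U t), cls Ω (adv (U t) (U t))⟫_ℝ = 0 := by
    rw [inner_ip hK h.hKΩ (hf.ck_adv hK) (hf.ck.ae hK Ω)]
    have e2 := Pool.Agent.N976.SC.T4.ip_adv_anti (a := U t) (b := U t) (c := U t)
      (hf.sm.of_le (by simp)) (hf.sm.of_le (by simp)) (hf.sm.of_le (by simp)) hf.div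
      (Or.inl (hf.Sm hK).cs)
    have e4 : ip (U t) (adv (U t) (U t)) = ip (adv (U t) (U t)) (U t) :=
      Pool.Agent.N976.SC.T4.ip_comm _ _
    have e5 : ∫ x, ⟪U t x, adv (U t) (U t) x⟫_ℝ = ip (U t) (adv (U t) (U t)) := rfl
    rw [e5, e4]
    linarith
  linarith

/-- the derivative of the energy -/
theorem energy {t : ℝ} (ht : t ∈ Ico 0 T) :
    ‖cls Ω (U t)‖ ^ 2 / 2 + ν * (∫ s in (0 : ℝ)..t, ‖cls Ω (jac (U s))‖ ^ 2) =
      ‖cls Ω (U 0)‖ ^ 2 / 2 + ∫ s in (0 : ℝ)..t, ⟪cls Ω (U s), cls Ω (f s)⟫_ℝ := by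
  have hK := h.hK
  have hsub : Icc 0 t ⊆ Ico 0 T := fun x hx => ⟨hx.1, hx.2.trans_lt ht.2⟩
  have cu1 := (cu h).mono hsub
  have cG1 := (cG h).mono hsub
  have cf1 : ContinuousOn (fun s => cls Ω (f s)) (Icc 0 t) := (cf h).continuousOn
  have key : ∀ s ∈ Ioo 0 t, HasDerivAt (fun s => ‖cls Ω (U s)‖ ^ 2 / 2)
      (-(ν * ‖cls Ω (jac (U s))‖ ^ 2) + ⟪cls Ω (U s), cls Ω (f s)⟫_ℝ) s := by
    intro s hs
    have hs' : s ∈ Ioo 0 T := ⟨hs.1, hs.2.trans ht.2⟩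
    have hs'' : s ∈ Ico 0 T := Ioo_subset_Ico_self hs'
    have h1 : HasDerivAt (fun τ => cls Ω (U τ)) (cls Ω (dt T U s)) s :=
      cls_deriv hK Ω (a := 0) (b := T)
        ((dt_cd h.hF.sm).continuousOn.mono (prod_mono Ioo_subset_Ico_self le_rfl))
        (fun τ hτ => (fi h (Ioo_subset_Ico_self hτ)).ck)
        (fun τ hτ => ckd h (Ioo_subset_Ico_self hτ))
        (fun τ hτ x => (dt_has h.hF.sm (Ioo_subset_Ico_self hτ) x).hasDerivAt
          (Ico_mem_nhds hτ.1 hτ.2)) hs'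
    have h2 := (h1.norm_sq).div_const 2
    refine h2.congr_deriv ?_
    have h3 := weak h hs'' (mem h hs'') (conU h hs'')
    rw [h3, tri_zero h hs'', real_inner_self_eq_norm_sq]
    ring
  have hint1 : IntervalIntegrable (fun s => ‖cls Ω (jac (U s))‖ ^ 2) volume 0 t := by
    apply ContinuousOn.intervalIntegrable
    rw [uIcc_of_le ht.1]
    exact cG1.norm.pow 2
  have hint2 : IntervalIntegrable (fun s => ⟪cls Ω (U s), cls Ω (f s)⟫_ℝ) volume 0 t := by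
    apply ContinuousOn.intervalIntegrable
    rw [uIcc_of_le ht.1]
    exact cu1.inner cf1
  have hneg : IntervalIntegrable (fun s => -(ν * ‖cls Ω (jac (U s))‖ ^ 2)) volume 0 t :=
    (hint1.const_mul ν).neg
  have h4 := intervalIntegral.integral_eq_sub_of_hasDeriv_right_of_le ht.1
    (f := fun s => ‖cls Ω (U s)‖ ^ 2 / 2) ((cu1.norm.pow 2).div_const 2)
    (fun s hs => (key s hs).hasDerivWithinAt) (hneg.add hint2)
  rw [intervalIntegral.integral_add hneg hint2,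
    intervalIntegral.integral_neg, intervalIntegral.integral_const_mul] at h4
  linarith

theorem nU {t : ℝ} (ht : t ∈ Ico 0 T) : ‖cls Ω (U t)‖ ^ 2 = ip (U t) (U t) := by
  rw [← real_inner_self_eq_norm_sq,
    inner_ip h.hK h.hKΩ (fi h ht).ck ((fi h ht).ck.ae h.hK Ω)]
  rfl

theorem nG {t : ℝ} (ht : t ∈ Ico 0 T) : ‖cls Ω (jac (U t))‖ ^ 2 = dir (U t) := by
  rw [← real_inner_self_eq_norm_sq,
    inner_ip h.hK h.hKΩ ((fi h ht).ck_jac h.hK) (((fi h ht).ck_jac h.hK).ae h.hK Ω)]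
  unfold dir
  congr 1
  ext x
  rw [inner_M, Finset.sum_comm]
  refine Finset.sum_congr rfl fun i _ => ?_
  rw [← real_inner_self_eq_norm_sq, inner_E]
  rfl

theorem nf {t : ℝ} (ht : t ∈ Ico 0 T) : ⟪cls Ω (U t), cls Ω (f t)⟫_ℝ = ip (U t) (f t) := by
  rw [inner_ip h.hK h.hKΩ (ckf h t) ((fi h ht).ck.ae h.hK Ω)]
  rfl

/-- the trilinear term -/
theorem tn_bound (hΩ : IsOpen Ω) {t : ℝ} (ht : t ∈ Ico 0 T) {M : ℝ} (hM : ‖cls Ω (U t)‖ ≤ M) :
    ‖cls Ω (fun x => tn (U t x))‖ ≤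
      (1 + (H772R2.NS.CS : ℝ) ^ 3 * M) * (1 + ‖cls Ω (jac (U t))‖ ^ 2) := by
  have hmem : (cls Ω (U t), cls Ω (jac (U t))) ∈ H772R2.NS.graphW Ω :=
    H772R2.NS.mem_graphW.2 (mem h ht)
  have h1 := H772R2.NS.norm_tensL_sq_le hΩ.measurableSet hmem
  have h2 : H772R2.NS.tensL (cls Ω (U t)) = cls Ω (fun x => tn (U t x)) := by
    apply Lp.ext
    filter_upwards [H772R2.NS.tensL_coe hΩ.measurableSet hmem, (fi h ht).ck_tn.ae h.hK Ω,
      (fi h ht).ck.ae h.hK Ω] with x a b c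
    rw [a, b, c]
    rfl
  simp only at h1
  rw [h2] at h1
  set a := ‖cls Ω (fun x => tn (U t x))‖ with ha
  set g := ‖cls Ω (jac (U t))‖ with hg
  set m := ‖cls Ω (U t)‖ with hm
  have ha0 : 0 ≤ a := norm_nonneg _
  have hg0 : 0 ≤ g := norm_nonneg _
  have hm0 : 0 ≤ m := norm_nonneg _
  have hC0 : (0 : ℝ) ≤ (H772R2.NS.CS : ℝ) ^ 3 := by positivity
  set C : ℝ := (H772R2.NS.CS : ℝ) ^ 3
  have h3 : a ^ 2 ≤ C * M * g ^ 3 := by
    refine h1.trans ?_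
    have : m * g ^ 3 ≤ M * g ^ 3 := by gcongr
    calc C * (m * g ^ 3) ≤ C * (M * g ^ 3) := by gcongr
      _ = C * M * g ^ 3 := by ring
  have hCM : 0 ≤ C * M := mul_nonneg hC0 (hm0.trans hM)
  have h4 : g ^ 3 ≤ (1 + g ^ 2) ^ 2 := by nlinarith [sq_nonneg (g - 1), sq_nonneg (g ^ 2 - g)]
  have h5 : a ^ 2 ≤ ((1 + C * M) * (1 + g ^ 2)) ^ 2 := by
    calc a ^ 2 ≤ C * M * g ^ 3 := h3
      _ ≤ C * M * (1 + g ^ 2) ^ 2 := by gcongr
      _ ≤ (1 + C * M) ^ 2 * (1 + g ^ 2) ^ 2 := by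
        have : C * M ≤ (1 + C * M) ^ 2 := by nlinarith
        gcongr
      _ = ((1 + C * M) * (1 + g ^ 2)) ^ 2 := by ring
  exact (abs_le_of_sq_le_sq' h5 (by positivity)).2

/-- the primitive of the weak form -/
theorem prim {t : ℝ} (ht : t ∈ Ico 0 T) {v : L2V Ω} {z : L2M Ω} (hvz : (v, z) ∈ H1graph Ω)
    (hcon : Con r v) : ⟪cls Ω (U t), v⟫_ℝ - ⟪cls Ω (U 0), v⟫_ℝ = ∫ s in (0 : ℝ)..t,
      (⟪z, cls Ω (fun x => tn (U s x))⟫_ℝ - ν * ⟪cls Ω (jac (U s)), z⟫_ℝ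
        + ⟪v, cls Ω (f s)⟫_ℝ) := by
  have hsub : Icc 0 t ⊆ Ico 0 T := fun x hx => ⟨hx.1, hx.2.trans_lt ht.2⟩
  have pu := cls_ftc h.hK Ω (F := U) (F' := dt T U) h.hF.sm.continuousOn
      (dt_cd h.hF.sm).continuousOn (fun t ht => (fi h ht).ck) (fun t ht => ckd h ht)
      (fun t ht x => (dt_has h.hF.sm (Ioo_subset_Ico_self ht) x).hasDerivAt
          (Ico_mem_nhds ht.1 ht.2)) le_rfl ht.1 ht.2
  have hint : IntervalIntegrable (fun s => cls Ω (dt T U s)) volume 0 t :=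
    (((cd h).mono hsub).mono (by rw [uIcc_of_le ht.1])).intervalIntegrable
  have h1 : ⟪cls Ω (U t), v⟫_ℝ - ⟪cls Ω (U 0), v⟫_ℝ
      = ∫ s in (0 : ℝ)..t, ⟪v, cls Ω (dt T U s)⟫_ℝ := by
    rw [← inner_sub_left, pu, real_inner_comm]
    exact ((innerSL ℝ v).intervalIntegral_comp_comm hint).symm
  rw [h1]
  refine intervalIntegral.integral_congr fun s hs => ?_
  rw [uIcc_of_le ht.1] at hs
  exact weak h (hsub hs) hvz hcon

end flow

/-! ### The weak limit -/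

/-- the classes of the test fields -/
noncomputable def preS (Ω : Set E3) : Submodule ℝ (L2V Ω) where
  carrier := {v | ∃ φ, IsTest Ω φ ∧ v =ᵐ[volume.restrict Ω] φ}
  zero_mem' := ⟨0, H772R2.NS.IsTest.zero, Lp.coeFn_zero _ _ _⟩
  add_mem' := by
    rintro v w ⟨φ, h1, h2⟩ ⟨ψ, g1, g2⟩
    refine ⟨φ + ψ, h1.add g1, ?_⟩
    filter_upwards [Lp.coeFn_add v w, h2, g2] with x a b c
    rw [a, Pi.add_apply, Pi.add_apply, b, c]
  smul_mem' := by
    rintro c v ⟨φ, h1, h2⟩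
    refine ⟨c • φ, h1.smul c, ?_⟩
    filter_upwards [Lp.coeFn_smul c v, h2] with x a b
    rw [a, Pi.smul_apply, Pi.smul_apply, b]

theorem sigma_eq (Ω : Set E3) : L2sigma Ω = ((preS Ω).topologicalClosure : Set (L2V Ω)) := by
  rw [Submodule.topologicalClosure_coe]
  rfl

theorem sigma_weak {Ω : Set E3} {T : ℝ} {u : ℝ → L2V Ω} {w : L2V Ω} (hT : 0 < T)
    (hu : ∀ t ∈ Ico 0 T, u t ∈ L2sigma Ω)
    (hlim : ∀ v, Tendsto (fun t => ⟪u t, v⟫_ℝ) (𝓝[<] T) (𝓝 ⟪w, v⟫_ℝ)) : w ∈ L2sigma Ω := by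
  rw [sigma_eq, SetLike.mem_coe, ← Submodule.orthogonal_orthogonal_eq_closure,
    Submodule.mem_orthogonal]
  intro v hv
  have h1 : ∀ t ∈ Ico 0 T, ⟪u t, v⟫_ℝ = 0 := by
    intro t ht
    have h2 := hu t ht
    rw [sigma_eq, SetLike.mem_coe, ← Submodule.orthogonal_orthogonal_eq_closure,
      Submodule.mem_orthogonal] at h2
    rw [real_inner_comm]
    exact h2 v hv
  have h2 : Tendsto (fun t => ⟪u t, v⟫_ℝ) (𝓝[<] T) (𝓝 0) := by
    refine tendsto_const_nhds.congr' ?_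
    filter_upwards [Ioo_mem_nhdsLT hT] with t ht
    exact (h1 t (Ioo_subset_Ico_self ht)).symm
  rw [real_inner_comm]
  exact tendsto_nhds_unique (hlim v) h2

theorem exists_lim {ι : Type} {Ω K : Set E3} {ε ν T : ℝ} {r : ι → E3 → E3}
    {f U : ℝ → E3 → E3} (hΩ : IsOpen Ω) (h : Dat K Ω ν T r f U) (hε : 0 < ε)
    (hC : Conc ε ν T f U) :
    ∃ w : L2V Ω, (∀ v, Tendsto (fun t => ⟪cls Ω (U t), v⟫_ℝ) (𝓝[<] T) (𝓝 ⟪w, v⟫_ℝ)) ∧
      ‖w‖ ^ 2 ≤ ε * ‖cls Ω (U 0)‖ ^ 2 := by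
  have hT := h.hF.T0
  have h0 : (0 : ℝ) ∈ Ico 0 T := ⟨le_rfl, hT⟩
  have key : ∀ v : L2V Ω, ∃ c, Tendsto (fun t => ⟪cls Ω (U t), v⟫_ℝ) (𝓝[<] T) (𝓝 c) ∧
      c ^ 2 ≤ ε * ‖cls Ω (U 0)‖ ^ 2 * ‖v‖ ^ 2 := by
    intro v
    have hm : MemLp (Ω.indicator (v : E3 → E3)) 2 volume :=
      (memLp_indicator_iff_restrict hΩ.measurableSet).2 (Lp.memLp v)
    obtain ⟨c, hc1, hc2⟩ := hC.wlim _ hm
    refine ⟨c, hc1.congr' ?_, ?_⟩
    · filter_upwards [Ioo_mem_nhdsLT hT] with t ht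
      have ht' := Ioo_subset_Ico_self ht
      rw [real_inner_comm, inner_cls ((fi h ht').ck.memLp h.hK Ω)]
      unfold ip
      rw [← full (Ω := Ω)]
      · refine setIntegral_congr_fun hΩ.measurableSet fun x hx => ?_
        rw [indicator_of_mem hx, real_inner_comm]
      · intro x hx
        rw [indicator_of_notMem hx, inner_zero_right]
    · have e1 : ip (Ω.indicator (v : E3 → E3)) (Ω.indicator (v : E3 → E3)) = ‖v‖ ^ 2 := by
        rw [← real_inner_self_eq_norm_sq, L2.inner_def]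
        unfold ip
        rw [← full (Ω := Ω)]
        · refine setIntegral_congr_fun hΩ.measurableSet fun x hx => ?_
          rw [indicator_of_mem hx]
        · intro x hx
          rw [indicator_of_notMem hx, inner_zero_right]
      rw [e1, ← nU h h0] at hc2
      exact hc2
  choose c hc1 hc2 using key
  set B : ℝ := Real.sqrt (ε * ‖cls Ω (U 0)‖ ^ 2) with hB
  have hεN : 0 ≤ ε * ‖cls Ω (U 0)‖ ^ 2 := by positivity
  have hB2 : B ^ 2 = ε * ‖cls Ω (U 0)‖ ^ 2 := Real.sq_sqrt hεN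
  let l : L2V Ω →ₗ[ℝ] ℝ :=
    { toFun := c
      map_add' := fun v w => by
        refine tendsto_nhds_unique (hc1 (v + w)) ?_
        simp only [inner_add_right]
        exact (hc1 v).add (hc1 w)
      map_smul' := fun a v => by
        refine tendsto_nhds_unique (hc1 (a • v)) ?_
        simp only [inner_smul_right, RingHom.id_apply, smul_eq_mul]
        exact (hc1 v).const_mul a }
  have hl : ∀ v, ‖l v‖ ≤ B * ‖v‖ := by
    intro v
    refine abs_le_of_sq_le_sq ?_ (mul_nonneg (Real.sqrt_nonneg _) (norm_nonneg _))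
    rw [mul_pow, hB2]
    exact hc2 v
  let L := l.mkContinuous B hl
  have hw : ∀ v, ⟪(InnerProductSpace.toDual ℝ (L2V Ω)).symm L, v⟫_ℝ = c v := by
    intro v
    rw [InnerProductSpace.toDual_symm_apply]
    rfl
  refine ⟨(InnerProductSpace.toDual ℝ (L2V Ω)).symm L, fun v => ?_, ?_⟩
  · rw [hw]; exact hc1 v
  · set w := (InnerProductSpace.toDual ℝ (L2V Ω)).symm L with hwdef
    have h1 := hc2 w
    rw [← hw w, real_inner_self_eq_norm_sq] at h1
    by_cases h2 : ‖w‖ ^ 2 = 0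
    · rw [h2]; exact hεN
    · have h3 : 0 < ‖w‖ ^ 2 := lt_of_le_of_ne (by positivity) (Ne.symm h2)
      rw [sq (‖w‖ ^ 2)] at h1
      exact le_of_mul_le_mul_right h1 h3

theorem int_congr {F₁ F₂ : ℝ → ℝ} {t T : ℝ} (ht : t ∈ Icc 0 T)
    (h : ∀ s ∈ Ico 0 T, F₁ s = F₂ s) :
    ∫ s in (0 : ℝ)..t, F₁ s = ∫ s in (0 : ℝ)..t, F₂ s := by
  rw [intervalIntegral.integral_of_le ht.1, intervalIntegral.integral_of_le ht.1,
    integral_Ioc_eq_integral_Ioo, integral_Ioc_eq_integral_Ioo]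
  exact setIntegral_congr_fun measurableSet_Ioo fun s hs => h s ⟨hs.1.le, hs.2.trans_le ht.2⟩

end L1

open L1 Pool.Agent.N976.DI.D2 in
theorem t_L1 : S_L1 := by
  intro ι Ω ε ν T r f U hΩ hν hε hr hrc hrs hF hC
  obtain ⟨K, hK, hKΩ, hout, hfout⟩ := hF.cpt
  have h : Dat K Ω ν T r f U := ⟨hF, hK, hKΩ, hout, hfout⟩
  have hT := hF.T0
  have h0 : (0 : ℝ) ∈ Ico 0 T := ⟨le_rfl, hT⟩
  have hTT : T ∈ Icc 0 T := ⟨hT.le, le_rfl⟩
  obtain ⟨w, hw1, hw2⟩ := exists_lim hΩ h hε hC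
  set N0 : ℝ := ‖cls Ω (U 0)‖ ^ 2 with hN0
  have hN0' : 0 ≤ N0 := by positivity
  -- the estimates
  have hdis : ∀ t ∈ Ico 0 T, ∫ s in (0 : ℝ)..t, ‖cls Ω (jac (U s))‖ ^ 2 ≤ ε * N0 / ν := by
    intro t ht
    have h1 := hC.dis t ht
    rw [← nU h h0] at h1
    rw [le_div_iff₀ hν, mul_comm]
    refine le_trans (le_of_eq ?_) h1
    congr 1
    exact int_congr ⟨ht.1, ht.2.le⟩ fun s hs => nG h hs
  have hwrk : ∀ t ∈ Ico 0 T, |∫ s in (0 : ℝ)..t, ⟪cls Ω (U s), cls Ω (f s)⟫_ℝ| ≤ ε * N0 := by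
    intro t ht
    have h1 := hC.wrk t ht
    rw [← nU h h0] at h1
    refine le_trans (le_of_eq ?_) h1
    congr 1
    exact int_congr ⟨ht.1, ht.2.le⟩ fun s hs => nf h hs
  have hen := fun t (ht : t ∈ Ico 0 T) => energy h ht
  have hdpos : ∀ t ∈ Ico 0 T, 0 ≤ ∫ s in (0 : ℝ)..t, ‖cls Ω (jac (U s))‖ ^ 2 := fun t ht =>
    intervalIntegral.integral_nonneg ht.1 fun _ _ => by positivity
  obtain ⟨M, hM⟩ : ∃ M : ℝ, M = Real.sqrt ((1 + 2 * ε) * N0) := ⟨_, rfl⟩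
  have hMb : ∀ t ∈ Ico 0 T, ‖cls Ω (U t)‖ ≤ M := by
    intro t ht
    rw [hM]
    apply Real.le_sqrt_of_sq_le
    have h1 := hen t ht
    have h2 := (abs_le.1 (hwrk t ht)).2
    have h3 := mul_nonneg hν.le (hdpos t ht)
    rw [← hN0] at h1
    linarith
  have hM0 : 0 ≤ M := by rw [hM]; exact Real.sqrt_nonneg _
  -- integrability
  have hnint : IntegrableOn (fun s => ‖cls Ω (jac (U s))‖ ^ 2) (Ioo 0 T) :=
    bdd_int hT ((cG h).norm.pow 2) (fun _ => by positivity) hdis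
  obtain ⟨hni, hnlim⟩ := lim_int (g := fun s => ‖cls Ω (jac (U s))‖ ^ 2) hT ((cG h).norm.pow 2)
    hnint (fun s _ => by rw [abs_of_nonneg (by positivity)])
  obtain ⟨Fb, hFb⟩ := isCompact_Icc.exists_bound_of_continuousOn (s := Icc 0 T)
    (cf h).continuousOn
  have hFb0 : 0 ≤ Fb := (norm_nonneg _).trans (hFb 0 ⟨le_rfl, hT.le⟩)
  obtain ⟨hfi, hflim⟩ := lim_int (g := fun s => ⟪cls Ω (U s), cls Ω (f s)⟫_ℝ)
    (A := fun _ => M * Fb) hT ((cu h).inner (cf h).continuousOn)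
    (integrableOn_const (by simp)) (fun s hs => by
      refine (abs_real_inner_le_norm _ _).trans ?_
      exact mul_le_mul (hMb s (Ioo_subset_Ico_self hs)) (hFb s (Ioo_subset_Icc_self hs))
        (norm_nonneg _) hM0)
  -- the solution
  set u : ℝ → L2V Ω := fun t => if t < T then cls Ω (U t) else w with hudef
  set G : ℝ → L2M Ω := fun t => if t < T then cls Ω (jac (U t)) else 0 with hGdef
  have hu : ∀ t ∈ Ico 0 T, u t = cls Ω (U t) := fun t ht => if_pos ht.2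
  have hG : ∀ t ∈ Ico 0 T, G t = cls Ω (jac (U t)) := fun t ht => if_pos ht.2
  have huT : u T = w := if_neg (lt_irrefl T)
  have hu0 : u 0 = cls Ω (U 0) := hu 0 h0
  have hwl : ∀ v, Tendsto (fun t => ⟪u t, v⟫_ℝ) (𝓝[<] T) (𝓝 ⟪u T, v⟫_ℝ) := by
    intro v
    rw [huT]
    refine (hw1 v).congr' ?_
    filter_upwards [Ioo_mem_nhdsLT hT] with t ht
    rw [hu t (Ioo_subset_Ico_self ht)]
  have hGi : ∀ t ∈ Icc 0 T, ∫ s in (0 : ℝ)..t, ‖G s‖ ^ 2
      = ∫ s in (0 : ℝ)..t, ‖cls Ω (jac (U s))‖ ^ 2 := fun t ht =>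
    int_congr ht fun s hs => by rw [hG s hs]
  have hfu : ∀ s ∈ Ico 0 T, ∫ x in Ω, ⟪f s x, u s x⟫_ℝ = ⟪cls Ω (U s), cls Ω (f s)⟫_ℝ := by
    intro s hs
    rw [inner_cls ((ckf h s).memLp hK Ω), hu s hs]
    exact integral_congr_ae (Eventually.of_forall fun x => real_inner_comm _ _)
  have hfui : ∀ t ∈ Icc 0 T, ∫ s in (0 : ℝ)..t, (∫ x in Ω, ⟪f s x, u s x⟫_ℝ)
      = ∫ s in (0 : ℝ)..t, ⟪cls Ω (U s), cls Ω (f s)⟫_ℝ := fun t ht => int_congr ht hfu
  have hcase : ∀ t ∈ Icc 0 T, t ∈ Ico 0 T ∨ t = T := fun t ht => by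
    rcases ht.2.lt_or_eq with h1 | h1
    · exact Or.inl ⟨ht.1, h1⟩
    · exact Or.inr h1
  have hres : volume.restrict (Ioc 0 T) = (volume.restrict (Ioo 0 T) : Measure ℝ) :=
    (Measure.restrict_congr_set Ioo_ae_eq_Ioc).symm
  -- energy equality before `T`
  have hE : ∀ t ∈ Ico 0 T, ‖u t‖ ^ 2 / 2 + ν * (∫ s in (0 : ℝ)..t, ‖G s‖ ^ 2)
      = ‖u 0‖ ^ 2 / 2 + ∫ s in (0 : ℝ)..t, ∫ x in Ω, ⟪f s x, u s x⟫_ℝ := by
    intro t ht
    rw [hu t ht, hu0, hGi t ⟨ht.1, ht.2.le⟩, hfui t ⟨ht.1, ht.2.le⟩]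
    exact hen t ht
  refine ⟨u, G, ⟨?_, ?_, ?_, ?_, ?_, ?_, ?_, ?_⟩, fun t ht => ⟨?_, ?_, hE t ht⟩, ?_, ?_, ?_⟩
  · -- bdd
    refine ⟨max M ‖w‖, fun t ht => ?_⟩
    rcases hcase t ht with h1 | h1
    · rw [hu t h1]; exact (hMb t h1).trans (le_max_left _ _)
    · rw [h1, huT]; exact le_max_right _ _
  · -- sol
    have h1 : ∀ t ∈ Ico 0 T, u t ∈ L2sigma Ω := fun t ht => by
      rw [hu t ht]
      exact subset_closure ⟨U t, (fi h ht).test hK hKΩ, (fi h ht).ck.ae hK Ω⟩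
    intro t ht
    rcases hcase t ht with h2 | h2
    · exact h1 t h2
    · rw [h2]; exact sigma_weak hT h1 hwl
  · -- con
    intro t ht
    rcases hcase t ht with h2 | h2
    · rw [hu t h2]; exact conU h h2
    · intro i
      have hm : MemLp (r i) 2 (volume.restrict Ω) :=
        ((hr i).memLp_of_hasCompactSupport (hrc i)).restrict Ω
      rw [h2, ← inner_cls hm]
      have h3 : Tendsto (fun t => ⟪u t, cls Ω (r i)⟫_ℝ) (𝓝[<] T) (𝓝 0) := by
        refine tendsto_const_nhds.congr' ?_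
        filter_upwards [Ioo_mem_nhdsLT hT] with t ht
        have ht' := Ioo_subset_Ico_self ht
        rw [hu t ht', inner_cls hm]
        exact (conU h ht' i).symm
      exact tendsto_nhds_unique (hwl _) h3
  · -- wcont
    intro v t ht
    rcases hcase t ht with h2 | h2
    · have h3 : ContinuousWithinAt (fun t => ⟪cls Ω (U t), v⟫_ℝ) (Ico 0 T) t :=
        ((cu h).inner continuousOn_const) t h2
      have h4 : ContinuousWithinAt (fun t => ⟪u t, v⟫_ℝ) (Ico 0 T) t :=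
        h3.congr (fun s hs => by rw [hu s hs]) (by rw [hu t h2])
      refine h4.mono_of_mem_nhdsWithin ?_
      have h5 : Iio T ∈ 𝓝 t := Iio_mem_nhds h2.2
      filter_upwards [self_mem_nhdsWithin, mem_nhdsWithin_of_mem_nhds h5] with s hs1 hs2
      exact ⟨hs1.1, hs2⟩
    · rw [h2]
      have h3 : Icc 0 T = insert T (Ico 0 T) := (Ico_insert_right hT.le).symm
      rw [h3, continuousWithinAt_insert_self]
      change Tendsto _ (𝓝[Ico 0 T] T) _
      rw [nhdsWithin_Ico_eq_nhdsLT hT]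
      exact hwl v
  · -- grad
    rw [hres]
    refine (ae_restrict_iff' measurableSet_Ioo).2 (Eventually.of_forall fun s hs => ?_)
    have hs' := Ioo_subset_Ico_self hs
    rw [hu s hs', hG s hs']
    exact mem h hs'
  · -- gradL2
    rw [hres]
    have h1 : AEStronglyMeasurable (fun s => cls Ω (jac (U s))) (volume.restrict (Ioo 0 T)) :=
      ((cG h).mono Ioo_subset_Ico_self).aestronglyMeasurable measurableSet_Ioo
    have h2 : MemLp (fun s => cls Ω (jac (U s))) 2 (volume.restrict (Ioo 0 T)) :=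
      (memLp_two_iff_integrable_sq_norm h1).2 hnint
    refine h2.ae_eq ?_
    refine (ae_restrict_iff' measurableSet_Ioo).2 (Eventually.of_forall fun s hs => ?_)
    exact (hG s (Ioo_subset_Ico_self hs)).symm
  · -- eqn
    intro v z hvz hcon
    obtain ⟨Φ, hΦ⟩ : ∃ Φ : ℝ → ℝ, Φ = fun s => ⟪z, cls Ω (fun x => tn (U s x))⟫_ℝ
      - ν * ⟪cls Ω (jac (U s)), z⟫_ℝ + ⟪v, cls Ω (f s)⟫_ℝ := ⟨_, rfl⟩
    have hΦc : ContinuousOn Φ (Ico 0 T) := by
      rw [hΦ]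
      exact ((continuousOn_const.inner (ctn h)).sub
        (continuousOn_const.mul ((cG h).inner continuousOn_const))).add
        (continuousOn_const.inner (cf h).continuousOn)
    obtain ⟨C, hCd⟩ : ∃ C : ℝ, C = (1 + (H772R2.NS.CS : ℝ) ^ 3 * M) := ⟨_, rfl⟩
    have hC0 : 0 ≤ C := by rw [hCd]; positivity
    have hΦb : ∀ s ∈ Ioo 0 T, |Φ s| ≤ (‖z‖ * C + ν * ‖z‖) * (1 + ‖cls Ω (jac (U s))‖ ^ 2)
        + ‖v‖ * Fb := by
      intro s hs
      have hs' := Ioo_subset_Ico_self hs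
      have b1 : |⟪z, cls Ω (fun x => tn (U s x))⟫_ℝ| ≤
          ‖z‖ * (C * (1 + ‖cls Ω (jac (U s))‖ ^ 2)) := by
        refine (abs_real_inner_le_norm _ _).trans ?_
        rw [hCd]
        exact mul_le_mul_of_nonneg_left (tn_bound h hΩ hs' (hMb s hs')) (norm_nonneg _)
      have b2 : |ν * ⟪cls Ω (jac (U s)), z⟫_ℝ| ≤ ν * ((1 + ‖cls Ω (jac (U s))‖ ^ 2) * ‖z‖) := by
        rw [abs_mul, abs_of_pos hν]
        refine mul_le_mul_of_nonneg_left ?_ hν.le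
        refine (abs_real_inner_le_norm _ _).trans ?_
        refine mul_le_mul_of_nonneg_right ?_ (norm_nonneg _)
        nlinarith [sq_nonneg (‖cls Ω (jac (U s))‖ - 1)]
      have b3 : |⟪v, cls Ω (f s)⟫_ℝ| ≤ ‖v‖ * Fb :=
        (abs_real_inner_le_norm _ _).trans
          (mul_le_mul_of_nonneg_left (hFb s (Ioo_subset_Icc_self hs)) (norm_nonneg _))
      rw [hΦ]
      refine (abs_add_le _ _).trans ?_
      refine (add_le_add (abs_sub _ _) le_rfl).trans ?_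
      linarith
    have hAint : IntegrableOn (fun s => (‖z‖ * C + ν * ‖z‖) *
        (1 + ‖cls Ω (jac (U s))‖ ^ 2) + ‖v‖ * Fb) (Ioo 0 T) := by
      refine Integrable.add (Integrable.const_mul (Integrable.add ?_ hnint) _) ?_
      · exact integrableOn_const (by simp)
      · exact integrableOn_const (by simp)
    obtain ⟨-, hΦlim⟩ := lim_int hT hΦc hAint hΦb
    have hA : ∀ t ∈ Ico 0 T, ⟪u t, v⟫_ℝ - ⟪u 0, v⟫_ℝ = ∫ s in (0 : ℝ)..t, Φ s := by
      intro t ht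
      rw [hu t ht, hu0, hΦ]
      exact prim h ht hvz hcon
    have hB : ∀ t ∈ Icc 0 T, ⟪u t, v⟫_ℝ - ⟪u 0, v⟫_ℝ = ∫ s in (0 : ℝ)..t, Φ s := by
      intro t ht
      rcases hcase t ht with h2 | h2
      · exact hA t h2
      · rw [h2]
        refine tendsto_nhds_unique ((hwl v).sub_const _) (hΦlim.congr' ?_)
        filter_upwards [Ioo_mem_nhdsLT hT] with s hs
        exact (hA s (Ioo_subset_Ico_self hs)).symm
    intro t ht
    rw [hB t ht]
    refine int_congr ht fun s hs => ?_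
    rw [hΦ, hu s hs, hG s hs]
    have e5 : ∫ x in Ω, ⟪cls Ω (U s) x, mv (z x) (cls Ω (U s) x)⟫_ℝ
        = ⟪z, cls Ω (fun x => tn (U s x))⟫_ℝ := by
      rw [inner_cls ((fi h hs).ck_tn.memLp hK Ω)]
      refine integral_congr_ae ?_
      filter_upwards [(fi h hs).ck.ae hK Ω] with x hx
      rw [hx, inner_mv]
    have e6 : ∫ x in Ω, ⟪f s x, v x⟫_ℝ = ⟪v, cls Ω (f s)⟫_ℝ := by
      rw [inner_cls ((ckf h s).memLp hK Ω)]
      exact integral_congr_ae (Eventually.of_forall fun x => real_inner_comm _ _)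
    rw [e5, e6]
  · -- en
    intro t ht
    rcases hcase t ht with h2 | h2
    · exact (hE t h2).le
    · rw [h2, hGi T hTT, hfui T hTT, hu0, huT]
      have l1 : Tendsto (fun t => ⟪cls Ω (U t), w⟫_ℝ - ‖w‖ ^ 2 / 2) (𝓝[<] T)
          (𝓝 (⟪w, w⟫_ℝ - ‖w‖ ^ 2 / 2)) := (hw1 w).sub_const _
      have l2 : Tendsto (fun t => ‖cls Ω (U 0)‖ ^ 2 / 2
          + (∫ s in (0 : ℝ)..t, ⟪cls Ω (U s), cls Ω (f s)⟫_ℝ)
          - ν * ∫ s in (0 : ℝ)..t, ‖cls Ω (jac (U s))‖ ^ 2) (𝓝[<] T)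
          (𝓝 (‖cls Ω (U 0)‖ ^ 2 / 2 + (∫ s in (0 : ℝ)..T, ⟪cls Ω (U s), cls Ω (f s)⟫_ℝ)
          - ν * ∫ s in (0 : ℝ)..T, ‖cls Ω (jac (U s))‖ ^ 2)) :=
        (hflim.const_add _).sub (hnlim.const_mul _)
      have l3 := le_of_tendsto_of_tendsto l1 l2 (by
        filter_upwards [Ioo_mem_nhdsLT hT] with s hs
        have h3 := hen s (Ioo_subset_Ico_self hs)
        have h4 := sq_nonneg ‖cls Ω (U s) - w‖
        rw [norm_sub_sq_real] at h4
        linarith)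
      rw [real_inner_self_eq_norm_sq] at l3
      linarith
  · rw [hu t ht]; exact (fi h ht).ck.ae hK Ω
  · rw [hG t ht]; exact ((fi h ht).ck_jac hK).ae hK Ω
  · rw [huT, hu0]; exact hw2
  · rw [hGi T hTT, hu0]
    have h3 : ∫ s in (0 : ℝ)..T, ‖cls Ω (jac (U s))‖ ^ 2 ≤ ε * N0 / ν := by
      refine le_of_tendsto hnlim ?_
      filter_upwards [Ioo_mem_nhdsLT hT] with s hs
      exact hdis s (Ioo_subset_Ico_self hs)
    rw [le_div_iff₀ hν] at h3
    linarith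
  · rw [hfui T hTT, hu0]
    refine le_of_tendsto hflim.abs ?_
    filter_upwards [Ioo_mem_nhdsLT hT] with s hs
    exact hwrk s (Ioo_subset_Ico_self hs)

end Pool.Agent.N976.EN
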