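import Pool.Agent.N976.EN.Def3
import Pool.Agent.N976.DI.D2
import Pool.Agent.H772R2.NSG.Rel
import Pool.Agent.H772R2.NSR.Conc

/-!
# Uniqueness of constrained Leray-Hopf solutions

As long as the smooth flow exists, every Leray-Hopf solution with its data is equal to it.
-/

open Set Filter Topology MeasureTheory
open scoped ContDiff InnerProductSpace NNReal ENNReal

set_option autoImplicit false
set_option linter.unusedSectionVars false

namespace Pool.Agent.N976.EN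

open Pool.Agent.N976.SC
open Pool.Agent.N976.DI (mv Con cf)
open Pool.Agent.N976.DI.D2
open H772R2.NS (jac IsTest L2V L2M L2sigma H1graph M3)

namespace L2

section abs
variable {H K : Type} [NormedAddCommGroup H] [InnerProductSpace ℝ H]
  [NormedAddCommGroup K] [InnerProductSpace ℝ K] [CompleteSpace K]

/-- weakly measurable functions with values in a separable Hilbert space are measurable -/
lemma aesm_of_weak [SecondCountableTopology H] {μ : Measure ℝ} {u : ℝ → H}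
    (h : ∀ v : H, AEStronglyMeasurable (fun t => ⟪u t, v⟫_ℝ) μ) : AEStronglyMeasurable u μ := by
  have hne : Nonempty H := ⟨0⟩
  set d := TopologicalSpace.denseSeq H with hd
  set V : ℕ → Submodule ℝ H := fun n => Submodule.span ℝ (d '' (Finset.range (n + 1) : Set ℕ)) with hV
  have hfd : ∀ n, FiniteDimensional ℝ (V n) := fun n =>
    FiniteDimensional.span_of_finite ℝ ((Finset.finite_toSet _).image _)
  have hmono : Monotone V := by
    intro m n hmn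
    refine Submodule.span_mono (image_mono ?_)
    intro x hx
    simp only [Finset.coe_range, Set.mem_Iio] at hx ⊢
    omega
  have htop : ⊤ ≤ (⨆ n, V n).topologicalClosure := by
    intro x _
    have h1 : x ∈ closure (Set.range d) := (TopologicalSpace.denseRange_denseSeq H).closure_range ▸ mem_univ x
    refine closure_mono ?_ h1
    rintro _ ⟨n, rfl⟩
    have h2 : d n ∈ V n := Submodule.subset_span ⟨n, by simp, rfl⟩
    exact (le_iSup V n) h2
  have hlim : ∀ x, Tendsto (fun n => (V n).starProjection x) atTop (𝓝 x) := fun x =>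
    Submodule.starProjection_tendsto_self V hmono x htop
  refine aestronglyMeasurable_of_tendsto_ae (u := atTop) (f := fun n t => (V n).starProjection (u t)) (fun n => ?_)
    (Eventually.of_forall fun t => hlim (u t))
  have e : (fun t => (V n).starProjection (u t)) =
      fun t => ∑ i, ⟪u t, (stdOrthonormalBasis ℝ (V n) i : H)⟫_ℝ • (stdOrthonormalBasis ℝ (V n) i : H) := by
    funext t
    have h3 := congrArg (fun x : V n => (x : H))
      ((stdOrthonormalBasis ℝ (V n)).orthogonalProjectionOnto_apply_eq_sum (u t))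
    simp only [Submodule.coe_sum, Submodule.coe_smul] at h3
    rw [Submodule.starProjection_apply, h3]
    refine Finset.sum_congr rfl fun i _ => ?_
    rw [real_inner_comm]
  rw [e]
  refine Finset.aestronglyMeasurable_fun_sum _ fun i _ => ?_
  exact (h _).smul_const _

/-- representation of `v ↦ ⟪h, v⟫` as a functional of `z` -/
lemma riesz_W [CompleteSpace H] {W : Submodule ℝ (H × K)} (hW : IsClosed (W : Set (H × K))) {C : ℝ}
    (hC0 : 0 ≤ C) (hC : ∀ p ∈ W, ‖p.1‖ ≤ C * ‖p.2‖) :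
    ∃ R : H →L[ℝ] K, ∀ h, ∀ p ∈ W, ⟪R h, p.2⟫_ℝ = ⟪h, p.1⟫_ℝ := by
  have hcW : CompleteSpace W := hW.completeSpace_coe
  set e : W →L[ℝ] K := (ContinuousLinearMap.snd ℝ H K).comp W.subtypeL with he
  have hb : ∀ p : W, ‖p‖ ≤ (C + 1) * ‖e p‖ := by
    intro p
    have h1 := hC p.1 p.2
    have h2 : ‖p‖ = max ‖p.1.1‖ ‖p.1.2‖ := rfl
    have h3 : e p = p.1.2 := rfl
    rw [h2, h3]
    refine max_le ?_ ?_
    · nlinarith [norm_nonneg p.1.2]
    · nlinarith [norm_nonneg p.1.2]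
  have hinj : Function.Injective e := by
    intro p q hpq
    have h1 := hb (p - q)
    rw [map_sub, hpq, sub_self, norm_zero, mul_zero] at h1
    exact sub_eq_zero.1 (norm_le_zero_iff.1 h1)
  have hanti : AntilipschitzWith (C + 1).toNNReal e := by
    refine e.antilipschitz_of_bound fun p => ?_
    rw [Real.coe_toNNReal _ (by linarith)]
    exact hb p
  have hcl : IsClosed (Set.range e) := hanti.isClosed_range e.uniformContinuous
  set Z : Submodule ℝ K := LinearMap.range e.toLinearMap with hZ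
  have hZc : CompleteSpace Z := by
    have : IsClosed (Z : Set K) := by
      rw [hZ, LinearMap.coe_range]; exact hcl
    exact this.completeSpace_coe
  set g : Z →ₗ[ℝ] H := ((LinearMap.fst ℝ H K).comp W.subtype).comp
    (LinearEquiv.ofInjective e.toLinearMap hinj).symm.toLinearMap with hg
  have hg1 : ∀ p : W, ∀ h : e p ∈ Z, g ⟨e p, h⟩ = p.1.1 := by
    intro p h
    have : (LinearEquiv.ofInjective e.toLinearMap hinj).symm ⟨e p, h⟩ = p := by
      rw [LinearEquiv.symm_apply_eq]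
      rfl
    show ((LinearEquiv.ofInjective e.toLinearMap hinj).symm ⟨e p, h⟩).1.1 = p.1.1
    rw [this]
  set G : Z →L[ℝ] H := g.mkContinuous C (by
    rintro ⟨z, p, rfl⟩
    have h1 := hg1 p ⟨p, rfl⟩
    have h2 : g ⟨e.toLinearMap p, ⟨p, rfl⟩⟩ = p.1.1 := h1
    rw [h2]
    exact hC p.1 p.2) with hG
  refine ⟨Z.subtypeL.comp (ContinuousLinearMap.adjoint G), fun h p hp => ?_⟩
  have hpz : p.2 ∈ Z := ⟨⟨p, hp⟩, rfl⟩
  have h1 : ⟪(Z.subtypeL.comp (ContinuousLinearMap.adjoint G)) h, p.2⟫_ℝ =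
      ⟪ContinuousLinearMap.adjoint G h, (⟨p.2, hpz⟩ : Z)⟫_ℝ := rfl
  rw [h1, ContinuousLinearMap.adjoint_inner_left]
  have h2 : G ⟨p.2, hpz⟩ = p.1 := hg1 ⟨p, hp⟩ hpz
  rw [h2]

open H772R2.NSR in
/-- the frame passes to closed subspaces -/
lemma frame_sub [CompleteSpace H] {W W' : Submodule ℝ (H × K)} {m : H → K} {C : ℝ}
    (Fr : Frame W m C) (hle : W' ≤ W) (hcl : IsClosed (W' : Set (H × K))) : Frame W' m C where
  C0 := Fr.C0
  closedW := hcl
  uniq p hp := Fr.uniq p (hle hp)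
  poinc p hp := Fr.poinc p (hle hp)
  ortho p hp := Fr.ortho p (hle hp)
  anti p hp q hq := Fr.anti p (hle hp) q (hle hq)
  quart p hp := Fr.quart p (hle hp)
  lips p hp q hq := Fr.lips p (hle hp) q (hle hq)

end abs

open H772R2.NS (graphW tensL tens mem_graphW tensL_coe)
open H772R2.NSR (Frame)
open H772R2.NSG (Coef LH St stab gap stc)

/-- the constrained graph -/
noncomputable def WC {ι : Type} (Ω : Set E3) (r : ι → E3 → E3) : Submodule ℝ (L2V Ω × L2M Ω) where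
  carrier := {p | p ∈ graphW Ω ∧ ∀ i, ⟪p.1, cls Ω (r i)⟫_ℝ = 0}
  add_mem' := by
    rintro p q ⟨h1, h2⟩ ⟨h3, h4⟩
    refine ⟨(graphW Ω).add_mem h1 h3, fun i => ?_⟩
    show ⟪p.1 + q.1, cls Ω (r i)⟫_ℝ = 0
    rw [inner_add_left, h2 i, h4 i, add_zero]
  zero_mem' := ⟨(graphW Ω).zero_mem, fun i => by
    show ⟪(0 : L2V Ω), cls Ω (r i)⟫_ℝ = 0
    rw [inner_zero_left]⟩
  smul_mem' := by
    rintro c p ⟨h1, h2⟩
    refine ⟨(graphW Ω).smul_mem c h1, fun i => ?_⟩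
    show ⟪c • p.1, cls Ω (r i)⟫_ℝ = 0
    rw [real_inner_smul_left, h2 i, mul_zero]

lemma WC_closed {ι : Type} (Ω : Set E3) (r : ι → E3 → E3) :
    IsClosed (WC Ω r : Set (L2V Ω × L2M Ω)) := by
  have h1 : (WC Ω r : Set (L2V Ω × L2M Ω)) = (graphW Ω : Set (L2V Ω × L2M Ω)) ∩
      ⋂ i, {p | ⟪p.1, cls Ω (r i)⟫_ℝ = 0} := by
    ext p
    simp only [mem_inter_iff, mem_iInter]
    exact Iff.rfl
  rw [h1]
  refine (H772R2.NS.graphW_closed Ω).inter (isClosed_iInter fun i => ?_)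
  exact isClosed_eq (continuous_fst.inner continuous_const) continuous_const

lemma WC_le {ι : Type} (Ω : Set E3) (r : ι → E3 → E3) : WC Ω r ≤ graphW Ω := fun _ h => h.1

lemma con_iff {ι : Type} {Ω : Set E3} {r : ι → E3 → E3} (hr : ∀ i, Continuous (r i))
    (hrc : ∀ i, HasCompactSupport (r i)) (v : L2V Ω) :
    Con r v ↔ ∀ i, ⟪v, cls Ω (r i)⟫_ℝ = 0 := by
  refine forall_congr' fun i => ?_
  have hm : MemLp (r i) 2 (volume.restrict Ω) :=
    ((hr i).memLp_of_hasCompactSupport (hrc i)).restrict Ω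
  rw [inner_cls hm]

/-- the properties of the flow which do not refer to the equation -/
structure Fl (K : Set E3) (T : ℝ) (U : ℝ → E3 → E3) : Prop where
  sm : ContDiffOn ℝ ∞ (fun z : ℝ × E3 => U z.1 z.2) (Ico 0 T ×ˢ univ)
  out : ∀ t ∈ Ico 0 T, ∀ x, x ∉ K → U t x = 0
  div : ∀ t ∈ Ico 0 T, ∀ x, divg (U t) x = 0

section fl

variable {K Ω : Set E3} {T : ℝ} {U : ℝ → E3 → E3}

lemma Fl.fi (h : Fl K T U) {t : ℝ} (ht : t ∈ Ico 0 T) : Fi K (U t) :=
  ⟨cd_slice (Φ := fun z : ℝ × E3 => U z.1 z.2) h.sm ht, h.out t ht, h.div t ht⟩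

lemma Fl.fd (h : Fl K T U) {t : ℝ} (ht : t ∈ Ico 0 T) : Fi K (dt T U t) := by
  have hsm := h.sm
  refine ⟨cd_slice (Φ := fun z : ℝ × E3 => dt T U z.1 z.2) (dt_cd hsm) ht, fun x hx => ?_, fun x => ?_⟩
  · have h1 : HasDerivWithinAt (fun τ => U τ x) 0 (Ico 0 T) t :=
      (hasDerivWithinAt_const t (Ico 0 T) (0 : E3)).congr (fun τ hτ => h.out τ hτ x hx)
        (h.out t ht x hx)
    exact h1.derivWithin (uniqueDiffOn_Ico 0 T t ht)
  · have h1 : ∀ i : Fin 3, HasDerivWithinAt (fun τ => (fderiv ℝ (U τ) x (bv i)) i)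
        ((fderiv ℝ (dt T U t) x (bv i)) i) (Ico 0 T) t := by
      intro i
      have h2 := (fd_dt hsm ht x).clm_apply (hasDerivWithinAt_const t (Ico 0 T) (bv i))
      simp only [map_zero, add_zero] at h2
      exact (EuclideanSpace.proj (𝕜 := ℝ) (ι := Fin 3) i).hasFDerivAt.comp_hasDerivWithinAt t h2
    have h3 : HasDerivWithinAt (fun τ => divg (U τ) x) (divg (dt T U t) x) (Ico 0 T) t := by
      unfold divg
      exact HasDerivWithinAt.fun_sum fun i _ => h1 i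
    have h4 : HasDerivWithinAt (fun τ => divg (U τ) x) 0 (Ico 0 T) t :=
      (hasDerivWithinAt_const t (Ico 0 T) (0 : ℝ)).congr (fun τ hτ => h.div τ hτ x) (h.div t ht x)
    exact ((uniqueDiffOn_Ico 0 T t ht).eq_deriv _ h3 h4)

lemma mem_gr (hK : IsCompact K) (hKΩ : K ⊆ Ω) {V : E3 → E3} (h : Fi K V) :
    (cls Ω V, cls Ω (jac V)) ∈ graphW Ω :=
  mem_graphW.2 (subset_closure ⟨V, h.test hK hKΩ, h.ck.ae hK Ω, (h.ck_jac hK).ae hK Ω⟩)

lemma Fl.cu (hK : IsCompact K) (h : Fl K T U) : ContinuousOn (fun t => cls Ω (U t)) (Ico 0 T) :=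
  cls_cont hK Ω (F := U) h.sm.continuousOn fun _ ht => (h.fi ht).ck

lemma Fl.cG (hK : IsCompact K) (h : Fl K T U) :
    ContinuousOn (fun t => cls Ω (jac (U t))) (Ico 0 T) :=
  cls_cont hK Ω (F := fun t => jac (U t)) (jac_cd h.sm).continuousOn
      fun _ ht => (h.fi ht).ck_jac hK

lemma Fl.cu' (hK : IsCompact K) (h : Fl K T U) :
    ContinuousOn (fun t => cls Ω (dt T U t)) (Ico 0 T) :=
  cls_cont hK Ω (F := dt T U) (dt_cd h.sm).continuousOn fun _ ht => (h.fd ht).ck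

lemma Fl.cG' (hK : IsCompact K) (h : Fl K T U) :
    ContinuousOn (fun t => cls Ω (jac (dt T U t))) (Ico 0 T) :=
  cls_cont hK Ω (F := fun t => jac (dt T U t)) (jac_cd (dt_cd h.sm)).continuousOn
      fun _ ht => (h.fd ht).ck_jac hK

lemma hIo {E : Type} [NormedAddCommGroup E] [NormedSpace ℝ E] {f : ℝ → E} {f' : E} {t : ℝ}
    (ht : t ∈ Ioo 0 T) (h : HasDerivWithinAt f f' (Ico 0 T) t) : HasDerivAt f f' t :=
  h.hasDerivAt (Ico_mem_nhds ht.1 ht.2)

lemma Fl.du (hK : IsCompact K) (h : Fl K T U) {t : ℝ} (ht : t ∈ Ioo 0 T) :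
    HasDerivAt (fun t => cls Ω (U t)) (cls Ω (dt T U t)) t :=
  cls_deriv hK Ω (a := 0) (b := T) ((dt_cd h.sm).continuousOn.mono
      (prod_mono Ioo_subset_Ico_self le_rfl))
    (fun _ ht => (h.fi (Ioo_subset_Ico_self ht)).ck) (fun _ ht => (h.fd (Ioo_subset_Ico_self ht)).ck)
    (fun _ ht x => hIo ht (dt_has h.sm (Ioo_subset_Ico_self ht) x)) ht

lemma Fl.pu (hK : IsCompact K) (h : Fl K T U) {a b : ℝ} (ha : 0 ≤ a) (hab : a ≤ b) (hb : b < T) :
    cls Ω (U b) - cls Ω (U a) = ∫ s in a..b, cls Ω (dt T U s) :=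
  cls_ftc hK Ω (F := U) (F' := dt T U) h.sm.continuousOn (dt_cd h.sm).continuousOn
      (fun _ ht => (h.fi ht).ck) (fun _ ht => (h.fd ht).ck)
      (fun _ ht x => hIo ht (dt_has h.sm (Ioo_subset_Ico_self ht) x)) ha hab hb

lemma Fl.pG (hK : IsCompact K) (h : Fl K T U) {a b : ℝ} (ha : 0 ≤ a) (hab : a ≤ b) (hb : b < T) :
    cls Ω (jac (U b)) - cls Ω (jac (U a)) = ∫ s in a..b, cls Ω (jac (dt T U s)) :=
  cls_ftc hK Ω (F := fun t => jac (U t)) (F' := fun t => jac (dt T U t))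
      (jac_cd h.sm).continuousOn (jac_cd (dt_cd h.sm)).continuousOn
      (fun _ ht => (h.fi ht).ck_jac hK) (fun _ ht => (h.fd ht).ck_jac hK)
      (fun _ ht x => hIo ht (jac_dt h.sm (Ioo_subset_Ico_self ht) x)) ha hab hb

lemma tensL_cls (hΩ : MeasurableSet Ω) (hK : IsCompact K) (hKΩ : K ⊆ Ω) {V : E3 → E3}
    (h : Fi K V) : tensL (cls Ω V) = cls Ω (fun x => tn (V x)) := by
  refine Lp.ext ?_
  filter_upwards [tensL_coe hΩ (mem_gr hK hKΩ h), h.ck.ae hK Ω, h.ck_tn.ae hK Ω] with x a1 a2 a3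
  rw [a3]
  have a1' : (tensL (cls Ω V)) x = tens ((cls Ω V) x) := a1
  rw [a1', a2]
  rfl

lemma inner_tensL (hΩ : MeasurableSet Ω) {p : L2V Ω × L2M Ω} (hp : p ∈ graphW Ω) (z : L2M Ω) :
    ⟪tensL p.1, z⟫_ℝ = ∫ x in Ω, ⟪p.1 x, mv (z x) (p.1 x)⟫_ℝ := by
  rw [L2.inner_def]
  refine integral_congr_ae ?_
  filter_upwards [tensL_coe hΩ hp] with x a1
  rw [a1, inner_mv, real_inner_comm]
  rfl

end fl

section main

variable {ι : Type} {Ω K : Set E3} {ν T : ℝ} {r : ι → E3 → E3} {f U : ℝ → E3 → E3}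
  {u : ℝ → L2V Ω} {G : ℝ → L2M Ω}

lemma fl_of (hF : FlowF Ω ν T r f U) (hout : ∀ t ∈ Ico 0 T, ∀ x, x ∉ K → U t x = 0) :
    Fl K T U := ⟨hF.sm, hout, hF.div⟩

lemma f_ck (hF : FlowF Ω ν T r f U) (hfout : ∀ t x, x ∉ K → f t x = 0) (t : ℝ) :
    CK K (f t) := ⟨(hF.fsm.continuous).comp (Continuous.prodMk_right t), hfout t⟩

lemma f_cont (hK : IsCompact K) (hF : FlowF Ω ν T r f U) (hfout : ∀ t x, x ∉ K → f t x = 0) :
    Continuous (fun t => cls Ω (f t)) := by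
  rw [← continuousOn_univ]
  exact cls_cont hK Ω (F := f) hF.fsm.continuous.continuousOn fun t _ => f_ck hF hfout t

/-- the constraints for the flow -/
lemma con_u (hK : IsCompact K) (hKΩ : K ⊆ Ω) (hr : ∀ i, Continuous (r i))
    (hrc : ∀ i, HasCompactSupport (r i)) (hF : FlowF Ω ν T r f U)
    (hout : ∀ t ∈ Ico 0 T, ∀ x, x ∉ K → U t x = 0) {t : ℝ} (ht : t ∈ Ico 0 T) (i : ι) :
    ⟪cls Ω (U t), cls Ω (r i)⟫_ℝ = 0 := by
  have hm : MemLp (r i) 2 (volume.restrict Ω) :=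
    ((hr i).memLp_of_hasCompactSupport (hrc i)).restrict Ω
  rw [inner_cls hm]
  have h1 := hF.con t ht i
  unfold ip at h1
  rw [← h1, ← full (Ω := Ω)]
  · refine integral_congr_ae ?_
    filter_upwards [((fl_of hF hout).fi ht).ck.ae hK Ω] with x hx
    rw [hx]
  · intro x hx
    rw [hout t ht x (fun hc => hx (hKΩ hc)), inner_zero_left]

/-- the constraints for the time derivative of the flow -/
lemma con_du (hK : IsCompact K) (hKΩ : K ⊆ Ω) (hr : ∀ i, Continuous (r i))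
    (hrc : ∀ i, HasCompactSupport (r i)) (hF : FlowF Ω ν T r f U)
    (hout : ∀ t ∈ Ico 0 T, ∀ x, x ∉ K → U t x = 0) {t : ℝ} (ht : t ∈ Ioo 0 T) (i : ι) :
    ⟪cls Ω (dt T U t), cls Ω (r i)⟫_ℝ = 0 := by
  have h1 : HasDerivAt (fun t => ⟪cls Ω (U t), cls Ω (r i)⟫_ℝ)
      (⟪cls Ω (U t), (0 : L2V Ω)⟫_ℝ + ⟪cls Ω (dt T U t), cls Ω (r i)⟫_ℝ) t :=
    ((fl_of hF hout).du hK ht).inner ℝ (hasDerivAt_const t (cls Ω (r i)))
  rw [inner_zero_right, zero_add] at h1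
  have h2 : HasDerivAt (fun t => ⟪cls Ω (U t), cls Ω (r i)⟫_ℝ) 0 t := by
    refine (hasDerivAt_const t (0 : ℝ)).congr_of_eventuallyEq ?_
    filter_upwards [Ioo_mem_nhds ht.1 ht.2] with s hs
    exact con_u hK hKΩ hr hrc hF hout (Ioo_subset_Ico_self hs) i
  exact h1.unique h2

/-- the equation for the flow -/
lemma key (hΩ : MeasurableSet Ω) (hK : IsCompact K) (hKΩ : K ⊆ Ω) (hr : ∀ i, Continuous (r i))
    (hrc : ∀ i, HasCompactSupport (r i)) (hF : FlowF Ω ν T r f U)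
    (hout : ∀ t ∈ Ico 0 T, ∀ x, x ∉ K → U t x = 0) (hfout : ∀ t x, x ∉ K → f t x = 0)
    {R : L2V Ω →L[ℝ] L2M Ω} (hR : ∀ h, ∀ p ∈ WC Ω r, ⟪R h, p.2⟫_ℝ = ⟪h, p.1⟫_ℝ)
    {s : ℝ} (hs : s ∈ Ico 0 T) {p : L2V Ω × L2M Ω} (hp : p ∈ WC Ω r) :
    ⟪cls Ω (dt T U s), p.1⟫_ℝ =
      ⟪R (cls Ω (f s)) - ν • cls Ω (jac (U s)) + tensL (cls Ω (U s)), p.2⟫_ℝ := by
  have hf := (fl_of hF hout).fi hs
  have hd := (fl_of hF hout).fd hs
  have hff := f_ck hF hfout s
  obtain ⟨v, z⟩ := p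
  have hvz : (v, z) ∈ H1graph Ω := mem_graphW.1 hp.1
  have hcon : Con r v := (con_iff hr hrc v).2 hp.2
  have hm : MemLp (fun x => dt T U s x + adv (U s) (U s) x - ν • lap (U s) x - f s x) 2
      (volume.restrict Ω) :=
    (((hd.ck.memLp hK Ω).add ((hf.ck_adv hK).memLp hK Ω)).sub
      (((hf.ck_lap hK).memLp hK Ω).const_smul ν)).sub (hff.memLp hK Ω)
  have e1 : cls Ω (fun x => dt T U s x + adv (U s) (U s) x - ν • lap (U s) x - f s x) =
      cls Ω (dt T U s) + cls Ω (adv (U s) (U s)) - ν • cls Ω (lap (U s)) - cls Ω (f s) := by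
    refine Lp.ext ?_
    filter_upwards [cls_ae hm, hd.ck.ae hK Ω, (hf.ck_adv hK).ae hK Ω, (hf.ck_lap hK).ae hK Ω,
      hff.ae hK Ω,
      Lp.coeFn_sub (cls Ω (dt T U s) + cls Ω (adv (U s) (U s)) - ν • cls Ω (lap (U s))) (cls Ω (f s)),
      Lp.coeFn_sub (cls Ω (dt T U s) + cls Ω (adv (U s) (U s))) (ν • cls Ω (lap (U s))),
      Lp.coeFn_add (cls Ω (dt T U s)) (cls Ω (adv (U s) (U s))),
      Lp.coeFn_smul ν (cls Ω (lap (U s)))] with x a1 a2 a3 a4 a8 a9 a5 a6 a7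
    rw [a1, a9, Pi.sub_apply, a5, Pi.sub_apply, a6, Pi.add_apply, a7, Pi.smul_apply, a2, a3, a4, a8]
  have e2 : ⟪v, cls Ω (fun x => dt T U s x + adv (U s) (U s) x - ν • lap (U s) x - f s x)⟫_ℝ = 0 := by
    rw [inner_cls hm]
    exact hF.res s hs v hcon
  rw [e1, inner_sub_right, inner_sub_right, inner_add_right, inner_smul_right] at e2
  have e3 := id_adv hK hKΩ hf hvz
  have e4 := id_lap hK hKΩ hf hvz
  have e5 := hR (cls Ω (f s)) (v, z) hp
  simp only at e5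
  rw [tensL_cls hΩ hK hKΩ hf, inner_add_left, inner_sub_left, real_inner_smul_left, e5]
  show ⟪cls Ω (dt T U s), v⟫_ℝ = _
  rw [real_inner_comm v (cls Ω (dt T U s)), real_inner_comm v (cls Ω (f s)),
    real_inner_comm z (cls Ω (jac (U s))), real_inner_comm z (cls Ω (fun x => tn (U s x)))]
  linear_combination e2 - e3 + ν * e4

/-- the flow is a strong solution -/
lemma st {C T1 : ℝ} (Fr : Frame (WC Ω r) (tensL (Ω := Ω)) C) (hΩ : MeasurableSet Ω)
    (hK : IsCompact K) (hKΩ : K ⊆ Ω) (hr : ∀ i, Continuous (r i))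
    (hrc : ∀ i, HasCompactSupport (r i)) (hF : FlowF Ω ν T r f U)
    (hout : ∀ t ∈ Ico 0 T, ∀ x, x ∉ K → U t x = 0) (hfout : ∀ t x, x ∉ K → f t x = 0)
    {R : L2V Ω →L[ℝ] L2M Ω} (hR : ∀ h, ∀ p ∈ WC Ω r, ⟪R h, p.2⟫_ℝ = ⟪h, p.1⟫_ℝ) (hT : T1 < T) :
    ∃ Z, St (WC Ω r) (tensL (Ω := Ω)) T1 (fun _ => ν) (fun s => R (cls Ω (f s))) (cls Ω (U 0))
      (fun t => cls Ω (U t)) (fun t => cls Ω (jac (U t))) (fun t => cls Ω (dt T U t))
      (fun t => cls Ω (jac (dt T U t))) Z := by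
  have hsub : Icc 0 T1 ⊆ Ico 0 T := fun x hx => ⟨hx.1, hx.2.trans_lt hT⟩
  have fl := fl_of hF hout
  have memW : ∀ t ∈ Ico 0 T, (cls Ω (U t), cls Ω (jac (U t))) ∈ WC Ω r := fun t ht =>
    ⟨mem_gr hK hKΩ (fl.fi ht), con_u hK hKΩ hr hrc hF hout ht⟩
  have memW1 : ∀ t ∈ Ioo 0 T, (cls Ω (dt T U t), cls Ω (jac (dt T U t))) ∈ WC Ω r := fun t ht =>
    ⟨mem_gr hK hKΩ (fl.fd (Ioo_subset_Ico_self ht)), con_du hK hKΩ hr hrc hF hout ht⟩
  have cF : Continuous (fun s => R (cls Ω (f s))) := R.continuous.comp (f_cont hK hF hfout)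
  obtain ⟨Z, hZ⟩ := isCompact_Icc.exists_bound_of_continuousOn ((fl.cG (Ω := Ω) hK).mono hsub)
  refine ⟨Z, ⟨rfl, fun t ht => memW t (hsub ht), H772R2.NSG.mem_cont ((fl.cu' hK).mono hsub),
    H772R2.NSG.mem_cont ((fl.cG' hK).mono hsub),
    fun a b ha hab hb => fl.pu hK ha hab (hb.trans_lt hT),
    fun a b ha hab hb => fl.pG hK ha hab (hb.trans_lt hT),
    ?_, continuousOn_const, cF.continuousOn, ?_, ?_, hZ⟩⟩
  · filter_upwards [ae_restrict_mem measurableSet_Ioc] with s hs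
    exact memW1 s ⟨hs.1, hs.2.trans_lt hT⟩
  · intro p hp t ht
    have hint : IntervalIntegrable (fun s => cls Ω (dt T U s)) volume 0 t :=
      (((fl.cu' hK).mono hsub).mono (by
        rw [uIcc_of_le ht.1]
        exact Icc_subset_Icc le_rfl ht.2)).intervalIntegrable
    have e := fl.pu (Ω := Ω) hK le_rfl ht.1 (ht.2.trans_lt hT)
    show ⟪cls Ω (U t) - cls Ω (U 0), p.1⟫_ℝ = _
    rw [e, real_inner_comm]
    refine ((innerSL ℝ p.1).intervalIntegral_comp_comm hint).symm.trans ?_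
    refine intervalIntegral.integral_congr fun s hs => ?_
    rw [uIcc_of_le ht.1] at hs
    show ⟪p.1, cls Ω (dt T U s)⟫_ℝ = _
    rw [real_inner_comm]
    exact key hΩ hK hKΩ hr hrc hF hout hfout hR (hsub ⟨hs.1, hs.2.trans ht.2⟩) hp
  · intro t ht
    have htT : t < T := ht.2.trans_lt hT
    have hst : Icc 0 t ⊆ Ico 0 T := fun x hx => ⟨hx.1, hx.2.trans_lt htT⟩
    have hd : ∀ s ∈ Ioo 0 t, HasDerivAt (fun s => ‖cls Ω (U s)‖ ^ 2 / 2)
        (⟪R (cls Ω (f s)), cls Ω (jac (U s))⟫_ℝ - ν * ‖cls Ω (jac (U s))‖ ^ 2) s := by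
      intro s hs
      have hs' : s ∈ Ioo 0 T := ⟨hs.1, hs.2.trans htT⟩
      have h1 := ((fl.du (Ω := Ω) hK hs').norm_sq).div_const 2
      have h2 := key hΩ hK hKΩ hr hrc hF hout hfout hR (Ioo_subset_Ico_self hs')
        (memW s (Ioo_subset_Ico_self hs'))
      have h3 := Fr.ortho _ (memW s (Ioo_subset_Ico_self hs'))
      simp only at h2 h3
      rw [inner_add_left, inner_sub_left, real_inner_smul_left, h3, real_inner_self_eq_norm_sq] at h2
      refine h1.congr_deriv ?_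
      rw [real_inner_comm (cls Ω (dt T U s)) (cls Ω (U s)), h2]
      ring
    have c1 : ContinuousOn (fun s => ‖cls Ω (U s)‖ ^ 2 / 2) (Icc 0 t) :=
      ((((fl.cu (Ω := Ω) hK).mono hst).norm).pow 2).div_const 2
    have c2 : ContinuousOn (fun s => ⟪R (cls Ω (f s)), cls Ω (jac (U s))⟫_ℝ) (Icc 0 t) :=
      cF.continuousOn.inner ((fl.cG hK).mono hst)
    have c3 : ContinuousOn (fun s => ν * ‖cls Ω (jac (U s))‖ ^ 2) (Icc 0 t) :=
      continuousOn_const.mul ((((fl.cG (Ω := Ω) hK).mono hst).norm).pow 2)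
    have i2 := (c2.mono (by rw [uIcc_of_le ht.1] : uIcc 0 t ⊆ Icc 0 t)).intervalIntegrable
      (μ := volume)
    have i3 := (c3.mono (by rw [uIcc_of_le ht.1] : uIcc 0 t ⊆ Icc 0 t)).intervalIntegrable
      (μ := volume)
    have h4 := intervalIntegral.integral_eq_sub_of_hasDeriv_right_of_le ht.1 c1
      (fun s hs => (hd s hs).hasDerivWithinAt) (i2.sub i3)
    rw [intervalIntegral.integral_sub i2 i3] at h4
    show ‖cls Ω (U t)‖ ^ 2 / 2 + (∫ s in (0 : ℝ)..t, ν * ‖cls Ω (jac (U s))‖ ^ 2) =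
      ‖cls Ω (U 0)‖ ^ 2 / 2 + ∫ s in (0 : ℝ)..t, ⟪R (cls Ω (f s)), cls Ω (jac (U s))⟫_ℝ
    linarith

/-- Leray-Hopf solutions in the abstract frame -/
lemma lh {T1 : ℝ} (hΩ : IsOpen Ω) (hK : IsCompact K) (hr : ∀ i, Continuous (r i))
    (hrc : ∀ i, HasCompactSupport (r i)) (hF : FlowF Ω ν T r f U)
    (hfout : ∀ t x, x ∉ K → f t x = 0) (hL : CLH Ω ν T r f u G)
    {R : L2V Ω →L[ℝ] L2M Ω} (hR : ∀ h, ∀ p ∈ WC Ω r, ⟪R h, p.2⟫_ℝ = ⟪h, p.1⟫_ℝ) (hT : T1 < T) :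
    LH (WC Ω r) (tensL (Ω := Ω)) T1 (fun _ => ν) (fun s => R (cls Ω (f s))) (u 0) u G := by
  have hle : (volume.restrict (Ioc 0 T1) : Measure ℝ) ≤ volume.restrict (Ioc 0 T) :=
    Measure.restrict_mono (Ioc_subset_Ioc_right hT.le) le_rfl
  have hsc := H772R2.NS.secondCountable_L2V Ω
  have hmeas : AEStronglyMeasurable u (volume.restrict (Ioc 0 T1)) := by
    refine aesm_of_weak fun v => ?_
    have h1 : ContinuousOn (fun t => ⟪u t, v⟫_ℝ) (Ioc 0 T1) :=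
      (hL.wcont v).mono (fun x hx => ⟨hx.1.le, hx.2.trans hT.le⟩)
    exact h1.aestronglyMeasurable measurableSet_Ioc
  have hmem : ∀ᵐ s ∂(volume.restrict (Ioc 0 T1)), (u s, G s) ∈ WC Ω r := by
    filter_upwards [ae_mono hle hL.grad, ae_restrict_mem measurableSet_Ioc] with s h1 h2
    exact ⟨mem_graphW.2 h1, (con_iff hr hrc _).1 (hL.con s ⟨h2.1.le, h2.2.trans hT.le⟩)⟩
  have hz2 : MemLp G 2 (volume.restrict (Ioc 0 T1)) := hL.gradL2.mono_measure hle
  have hforce : ∀ s (v : L2V Ω), ⟪cls Ω (f s), v⟫_ℝ = ∫ x in Ω, ⟪f s x, v x⟫_ℝ := by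
    intro s v
    rw [real_inner_comm, inner_cls ((f_ck hF hfout s).memLp hK Ω)]
    refine integral_congr_ae (Eventually.of_forall fun x => ?_)
    exact real_inner_comm _ _
  have hlet : ∀ t ∈ Icc 0 T1, (volume.restrict (Ioc 0 t) : Measure ℝ) ≤
      volume.restrict (Ioc 0 T1) := fun t ht =>
    Measure.restrict_mono (Ioc_subset_Ioc_right ht.2) le_rfl
  refine ⟨rfl, hmeas, ?_, hmem, hz2, ?_, ?_, ?_⟩
  · exact H772R2.NS.aestronglyMeasurable_tensL hΩ.measurableSet hmeas hz2.aestronglyMeasurable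
      (hmem.mono fun s h => h.1)
  · exact ((memLp_two_iff_integrable_sq_norm hz2.aestronglyMeasurable).1 hz2).const_mul ν
  · intro p hp t ht
    obtain ⟨v, z⟩ := p
    have h1 := hL.eqn v z (mem_graphW.1 hp.1) ((con_iff hr hrc v).2 hp.2) t
      ⟨ht.1, ht.2.trans hT.le⟩
    show ⟪u t - u 0, v⟫_ℝ = _
    rw [inner_sub_left, h1, intervalIntegral.integral_of_le ht.1,
      intervalIntegral.integral_of_le ht.1]
    refine integral_congr_ae ?_
    filter_upwards [ae_mono (hlet t ht) hmem] with s hs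
    have e1 := inner_tensL hΩ.measurableSet hs.1 z
    have e2 := hR (cls Ω (f s)) (v, z) hp
    simp only at e1 e2
    rw [inner_add_left, inner_sub_left, real_inner_smul_left, e1, e2, hforce]
    ring
  · intro t ht
    have h1 := hL.en t ⟨ht.1, ht.2.trans hT.le⟩
    have h2 : ∫ s in (0 : ℝ)..t, ν * ‖G s‖ ^ 2 = ν * ∫ s in (0 : ℝ)..t, ‖G s‖ ^ 2 :=
      intervalIntegral.integral_const_mul _ _
    have h3 : ∫ s in (0 : ℝ)..t, ⟪R (cls Ω (f s)), G s⟫_ℝ =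
        ∫ s in (0 : ℝ)..t, ∫ x in Ω, ⟪f s x, u s x⟫_ℝ := by
      rw [intervalIntegral.integral_of_le ht.1, intervalIntegral.integral_of_le ht.1]
      refine integral_congr_ae ?_
      filter_upwards [ae_mono (hlet t ht) hmem] with s hs
      rw [← hforce]
      exact hR (cls Ω (f s)) (u s, G s) hs
    rw [h3]
    show ‖u t‖ ^ 2 / 2 + (∫ s in (0 : ℝ)..t, ν * ‖G s‖ ^ 2) ≤ _
    rw [h2]
    exact h1

/-- uniqueness on `[0, T1]` -/
lemma uniq_on {T1 : ℝ} (hΩ : IsOpen Ω) (hb : Bornology.IsBounded Ω) (hν : 0 < ν)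
    (hK : IsCompact K) (hKΩ : K ⊆ Ω) (hr : ∀ i, Continuous (r i))
    (hrc : ∀ i, HasCompactSupport (r i)) (hF : FlowF Ω ν T r f U)
    (hout : ∀ t ∈ Ico 0 T, ∀ x, x ∉ K → U t x = 0) (hfout : ∀ t x, x ∉ K → f t x = 0)
    (hL : CLH Ω ν T r f u G) (hu0 : u 0 = cls Ω (U 0)) (hT1 : 0 < T1) (hT : T1 < T) :
    (∀ t ∈ Icc 0 T1, u t = cls Ω (U t)) ∧
      ∀ᵐ s ∂(volume.restrict (Ioc 0 T1)), G s = cls Ω (jac (U s)) := by
  obtain ⟨C, Fr0⟩ := H772R2.NSR.exists_frame hΩ hb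
  have Fr : Frame (WC Ω r) (tensL (Ω := Ω)) C := frame_sub Fr0 (WC_le Ω r) (WC_closed Ω r)
  obtain ⟨R, hR⟩ := riesz_W (WC_closed Ω r) Fr.C0.le Fr.poinc
  obtain ⟨Z, S⟩ := st Fr hΩ.measurableSet hK hKΩ hr hrc hF hout hfout hR hT
  have L := lh hΩ hK hr hrc hF hfout hL hR hT
  have Co : Coef ν T1 (fun _ => ν) (fun s => R (cls Ω (f s))) :=
    ⟨memLp_const ν, Eventually.of_forall fun _ => le_rfl, H772R2.NSG.mem_cont S.Fc⟩
  obtain ⟨h1, h2, -⟩ := stab Fr hν hT1 Co L S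
  have hgap : gap ν T1 Z (fun _ => ν) (fun _ => ν) (fun s => R (cls Ω (f s)))
      (fun s => R (cls Ω (f s))) (u 0) (cls Ω (U 0)) = 0 := by
    unfold gap
    rw [hu0]
    simp
  rw [hgap, mul_zero] at h2
  refine ⟨fun t ht => ?_, ?_⟩
  · have h3 := h1 t ht
    rw [hgap, mul_zero] at h3
    have h4 : ‖u t - cls Ω (U t)‖ = 0 := by
      have := norm_nonneg (u t - cls Ω (U t))
      nlinarith
    exact sub_eq_zero.1 (norm_eq_zero.1 h4)
  · have fl := fl_of hF hout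
    have hsub : Icc 0 T1 ⊆ Ico 0 T := fun x hx => ⟨hx.1, hx.2.trans_lt hT⟩
    have m1 : MemLp (fun s => cls Ω (jac (U s))) 2 (volume.restrict (Ioc 0 T1)) :=
      H772R2.NSG.mem_cont ((fl.cG hK).mono hsub)
    have m2 := L.z2.sub m1
    have m3 : Integrable (fun s => ‖G s - cls Ω (jac (U s))‖ ^ 2) (volume.restrict (Ioc 0 T1)) :=
      (memLp_two_iff_integrable_sq_norm m2.aestronglyMeasurable).1 m2
    have h5 : ∫ s in Ioc 0 T1, ‖G s - cls Ω (jac (U s))‖ ^ 2 = 0 :=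
      le_antisymm h2 (integral_nonneg fun s => sq_nonneg _)
    have h6 := (integral_eq_zero_iff_of_nonneg (fun s => sq_nonneg _) m3).1 h5
    filter_upwards [h6] with s hs
    have h7 : ‖G s - cls Ω (jac (U s))‖ ^ 2 = 0 := hs
    exact sub_eq_zero.1 (norm_eq_zero.1 (pow_eq_zero_iff (two_ne_zero) |>.1 h7))

end main

end L2

open L2 in
theorem t_L2 : S_L2 := by
  intro ι Ω ν T r f U u G hΩ hb hν hr hrc hrs hF hL hu0
  obtain ⟨K, hK, hKΩ, hout, hfout⟩ := hF.cpt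
  have hT0 := hF.T0
  have fl := fl_of hF hout
  have h0 : u 0 = cls Ω (U 0) := by
    refine Lp.ext ?_
    exact hu0.trans ((fl.fi ⟨le_rfl, hT0⟩).ck.ae hK Ω).symm
  have hu := fun (T1 : ℝ) (h1 : 0 < T1) (h2 : T1 < T) =>
    uniq_on hΩ hb hν hK hKΩ hr hrc hF hout hfout hL h0 h1 h2
  refine ⟨fun t ht => ?_, ?_⟩
  · have h1 := (hu ((t + T) / 2) (by linarith [ht.1]) (by linarith [ht.2])).1 t
      ⟨ht.1, by linarith [ht.2]⟩
    rw [h1]
    exact (fl.fi ht).ck.ae hK Ω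
  · have h1 : ∀ n : ℕ, ∀ᵐ s, s ∈ Ioc 0 (T - T / (n + 2)) → G s = cls Ω (jac (U s)) := by
      intro n
      have h2 : (0 : ℝ) < n + 2 := by positivity
      have h3 : T / (n + 2) < T := by
        rw [div_lt_iff₀ h2]
        nlinarith [(Nat.cast_nonneg n : (0 : ℝ) ≤ n)]
      have h4 : 0 < T / (n + 2) := by positivity
      exact (ae_restrict_iff' measurableSet_Ioc).1 (hu (T - T / (n + 2)) (by linarith) (by linarith)).2
    have h2 : ∀ᵐ s : ℝ, s ≠ T := by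
      rw [ae_iff]
      simp
    refine (ae_restrict_iff' measurableSet_Ioc).2 ?_
    filter_upwards [ae_all_iff.2 h1, h2] with s h3 h4 h5
    have h6 : s < T := lt_of_le_of_ne h5.2 h4
    obtain ⟨n, hn⟩ := exists_nat_gt (T / (T - s))
    have h7 : 0 < T - s := by linarith
    have h8 : T / (n + 2) ≤ T - s := by
      have h9 : (0 : ℝ) < n + 2 := by positivity
      rw [div_lt_iff₀ h7] at hn
      rw [div_le_iff₀ h9]
      nlinarith
    rw [h3 n ⟨h5.1, by linarith⟩]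
    exact ((fl.fi ⟨h5.1.le, h6⟩).ck_jac hK).ae hK Ω

end Pool.Agent.N976.EN
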