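import Pool.Agent.N976.EN.Def3
import Pool.Agent.N976.DI.D34

/-!
# (L3): dilation and translation of forced constrained flows
-/

open Set Filter Topology MeasureTheory
open scoped ContDiff InnerProductSpace

set_option autoImplicit false

namespace Pool.Agent.N976.EN

open Pool.Agent.N976.SC
open Pool.Agent.N976.DI (mv Con cf)
open Pool.Agent.N976.DI.D34 (sc hfd fderiv_sc divg_sc adv_sc lap_sc int_sc ip_sc dir_sc)
open H772R2.NS (jac IsTest L2V L2M L2sigma H1graph M3)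

namespace L3

/-- the inner product with a finite combination of constraint fields vanishes -/
lemma inner_finset {ι : Type} {Ω : Set E3} {R : ι → E3 → E3} (hc : ∀ i, Continuous (R i))
    (hs : ∀ i, HasCompactSupport (R i)) (v : L2V Ω) (hv : Con R v) (s : Finset ι) (a : ι → ℝ) :
    ∫ x in Ω, ⟪v x, ∑ i ∈ s, a i • R i x⟫_ℝ = 0 := by
  have hvm : MemLp v 2 (volume.restrict Ω) := Lp.memLp v
  have hi : ∀ i, Integrable (fun x => ⟪v x, R i x⟫_ℝ) (volume.restrict Ω) := by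
    intro i
    have h1 : MemLp (R i) 2 (volume.restrict Ω) :=
      (hc i).memLp_of_hasCompactSupport (hs i)
    have h2 : Integrable (fun x => ‖v x‖ * ‖R i x‖) (volume.restrict Ω) :=
      hvm.norm.integrable_mul h1.norm
    exact h2.mono' (hvm.1.inner h1.1) (Eventually.of_forall fun x => norm_inner_le_norm _ _)
  have h1 : ∀ x, ⟪v x, ∑ i ∈ s, a i • R i x⟫_ℝ = ∑ i ∈ s, a i * ⟪v x, R i x⟫_ℝ := by
    intro x
    rw [inner_sum]
    exact Finset.sum_congr rfl fun i _ => real_inner_smul_right _ _ _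
  simp only [h1]
  rw [integral_finsetSum s fun i _ => (hi i).const_mul (a i)]
  refine Finset.sum_eq_zero fun i _ => ?_
  rw [integral_const_mul, hv i, mul_zero]

lemma memLp_comp {ℓ : ℝ} (hℓ : 0 < ℓ) (x₀ : E3) {v : E3 → E3} (hv : MemLp v 2 volume) :
    MemLp (fun y => v (x₀ + ℓ • y)) 2 volume := by
  have hq : Measure.QuasiMeasurePreserving (fun y : E3 => x₀ + ℓ • y) volume volume :=
    (measurePreserving_add_left volume x₀).quasiMeasurePreserving.comp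
      (Measure.quasiMeasurePreserving_smul volume hℓ.ne')
  have hm : AEStronglyMeasurable (fun y => v (x₀ + ℓ • y)) volume :=
    hv.1.comp_quasiMeasurePreserving hq
  rw [memLp_two_iff_integrable_sq_norm hm]
  have h1 := (memLp_two_iff_integrable_sq_norm hv.1).1 hv
  have h2 : Integrable (fun y => ‖v (x₀ + y)‖ ^ 2) := h1.comp_add_left x₀
  exact h2.comp_smul hℓ.ne'

lemma ip_comp {ℓ : ℝ} (hℓ : 0 < ℓ) (x₀ : E3) (v : E3 → E3) :
    ip v v = ℓ ^ 3 * ip (fun y => v (x₀ + ℓ • y)) (fun y => v (x₀ + ℓ • y)) := by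
  have h := int_sc hℓ x₀ (fun y => inner ℝ (v (x₀ + ℓ • y)) (v (x₀ + ℓ • y)))
  unfold ip
  rw [← h]
  congr 1
  funext x
  rw [smul_smul, mul_inv_cancel₀ hℓ.ne', one_smul, add_sub_cancel]

lemma ip_comp' {ℓ : ℝ} (hℓ : 0 < ℓ) (x₀ : E3) (w v : E3 → E3) :
    ip (sc x₀ ℓ w) v = ℓ ^ 2 * ip w (fun y => v (x₀ + ℓ • y)) := by
  rw [← ip_sc hℓ x₀]
  congr 1
  funext x
  rw [smul_smul, mul_inv_cancel₀ hℓ.ne', one_smul, add_sub_cancel]

lemma ip_smul_right (w v : E3 → E3) (c : ℝ) : ip w (fun x => c • v x) = c * ip w v := by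
  unfold ip
  rw [← integral_const_mul]
  congr 1
  funext x
  exact real_inner_smul_right _ _ _

lemma ip_sc_sc {ℓ : ℝ} (hℓ : 0 < ℓ) (x₀ : E3) (v w : E3 → E3) :
    ip (sc x₀ ℓ v) (sc x₀ ℓ w) = ℓ * ip v w := by
  have h1 : sc x₀ ℓ w = fun x => ℓ⁻¹ • (fun x => w (ℓ⁻¹ • (x - x₀))) x := rfl
  rw [h1, ip_smul_right, ip_sc hℓ]
  field_simp

end L3

open L3

theorem t_L3 : S_L3 := by
  intro ι ε ν T r f U hν hrsm hrout hUout hfout hl hF hC Ω x₀ ℓ hℓ hΩ hball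
  have hT : 0 < T := hF.T0
  have hℓ2 : 0 < ℓ ^ 2 := by positivity
  have hmap : ∀ t ∈ Ico 0 (ℓ ^ 2 * T), t / ℓ ^ 2 ∈ Ico 0 T := by
    intro t ht
    refine ⟨div_nonneg ht.1 hℓ2.le, ?_⟩
    rw [div_lt_iff₀ hℓ2]
    linarith [ht.2, mul_comm (ℓ ^ 2) T]
  have hsmt : ∀ t ∈ Ico 0 T, ContDiff ℝ ∞ (U t) := by
    intro t ht
    rw [← contDiffOn_univ]
    have h1 : ContDiffOn ℝ ∞ (fun x : E3 => ((t, x) : ℝ × E3)) univ :=
      (contDiff_const.prodMk contDiff_id).contDiffOn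
    exact hF.sm.comp h1 (fun x _ => ⟨ht, mem_univ _⟩)
  have hdf : ∀ t ∈ Ico 0 T, Differentiable ℝ (U t) := fun t ht =>
    (hsmt t ht).differentiable (by simp)
  obtain ⟨V, hV⟩ : ∃ V : ℝ → E3 → E3, V = fun t x => ℓ⁻¹ • U (t / ℓ ^ 2) (ℓ⁻¹ • (x - x₀)) :=
    ⟨_, rfl⟩
  obtain ⟨g, hg⟩ : ∃ g : ℝ → E3 → E3,
    g = fun t x => (ℓ⁻¹) ^ 3 • f (t / ℓ ^ 2) (ℓ⁻¹ • (x - x₀)) := ⟨_, rfl⟩
  rw [← hV, ← hg]
  have hVsc : ∀ t, V t = sc x₀ ℓ (U (t / ℓ ^ 2)) := fun t => by rw [hV]; rfl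
  have hdt : ∀ t ∈ Ico 0 (ℓ ^ 2 * T), ∀ x, dt (ℓ ^ 2 * T) V t x =
      (ℓ⁻¹ * ℓ⁻¹ * ℓ⁻¹) • dt T U (t / ℓ ^ 2) (ℓ⁻¹ • (x - x₀)) := by
    intro t ht x
    obtain ⟨y, hy⟩ : ∃ y, y = ℓ⁻¹ • (x - x₀) := ⟨_, rfl⟩
    have h1 : ContDiffOn ℝ ∞ (fun τ : ℝ => U τ y) (Ico 0 T) := by
      have h2 : ContDiffOn ℝ ∞ (fun τ : ℝ => ((τ, y) : ℝ × E3)) (Ico 0 T) :=
        (contDiff_id.prodMk contDiff_const).contDiffOn
      exact hF.sm.comp h2 (fun τ hτ => ⟨hτ, mem_univ _⟩)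
    have h2 : HasDerivWithinAt (fun τ : ℝ => U τ y) (dt T U (t / ℓ ^ 2) y) (Ico 0 T) (t / ℓ ^ 2) :=
      ((h1.differentiableOn (by simp)) _ (hmap t ht)).hasDerivWithinAt
    have h3 : HasDerivWithinAt (fun t : ℝ => t / ℓ ^ 2) (1 / ℓ ^ 2) (Ico 0 (ℓ ^ 2 * T)) t :=
      ((hasDerivAt_id t).div_const (ℓ ^ 2)).hasDerivWithinAt
    have h4 := (h2.scomp t h3 hmap).const_smul ℓ⁻¹
    have h5 := h4.derivWithin (uniqueDiffOn_Ico 0 (ℓ ^ 2 * T) t ht)
    unfold dt at h5 ⊢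
    rw [hV, ← hy]
    simp only [← hy]
    rw [smul_smul] at h5
    have e : ℓ⁻¹ * (1 / ℓ ^ 2) = ℓ⁻¹ * ℓ⁻¹ * ℓ⁻¹ := by
      field_simp
    rw [e] at h5
    exact h5
  have hout : ∀ x : E3, x ∉ Metric.closedBall x₀ (ℓ / 2) → 1 / 2 ≤ ‖ℓ⁻¹ • (x - x₀)‖ := by
    intro x hx
    rw [Metric.mem_closedBall, not_le, dist_eq_norm] at hx
    rw [norm_smul, norm_inv, Real.norm_of_nonneg hℓ.le, inv_mul_eq_div, le_div_iff₀ hℓ]
    linarith
  have hV0 : ip (V 0) (V 0) = ℓ * ip (U 0) (U 0) := by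
    rw [hVsc, zero_div, ip_sc_sc hℓ]
  refine ⟨⟨by positivity, ?_, ?_, ?_, ?_, ?_, ?_⟩, ⟨?_, ?_, ?_⟩⟩
  · have h1 : ContDiffOn ℝ ∞ (fun z : ℝ × E3 => ((z.1 / ℓ ^ 2, ℓ⁻¹ • (z.2 - x₀)) : ℝ × E3))
        (Ico 0 (ℓ ^ 2 * T) ×ˢ univ) :=
      ((contDiff_fst.div_const _).prodMk ((contDiff_snd.sub contDiff_const).const_smul _)).contDiffOn
    have h2 := (hF.sm.comp h1 (fun z hz => ⟨hmap z.1 hz.1, mem_univ _⟩)).const_smul ℓ⁻¹
    rw [hV]
    exact h2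
  · have h1 : ContDiff ℝ ∞ (fun z : ℝ × E3 => ((z.1 / ℓ ^ 2, ℓ⁻¹ • (z.2 - x₀)) : ℝ × E3)) :=
      (contDiff_fst.div_const _).prodMk ((contDiff_snd.sub contDiff_const).const_smul _)
    have h2 := (hF.fsm.comp h1).const_smul ((ℓ⁻¹) ^ 3)
    rw [hg]
    exact h2
  · refine ⟨Metric.closedBall x₀ (ℓ / 2), isCompact_closedBall _ _,
      (Metric.closedBall_subset_closedBall (by linarith)).trans hball, fun t ht x hx => ?_,
      fun t x hx => ?_⟩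
    · rw [hV]
      simp only
      rw [hUout _ (hmap t ht) _ (hout x hx), smul_zero]
    · rw [hg]
      simp only
      rw [hfout _ _ (hout x hx), smul_zero]
  · intro t ht x
    rw [hVsc, divg_sc (hdf _ (hmap t ht)), hF.div _ (hmap t ht), mul_zero]
  · intro t ht i
    rw [hVsc]
    have h1 := ip_sc hℓ x₀ (U (t / ℓ ^ 2)) (r i)
    rw [hF.con _ (hmap t ht) i, mul_zero] at h1
    exact h1
  · intro t ht v hv
    obtain ⟨l, hl⟩ := hl
    obtain ⟨τ, hτ⟩ : ∃ τ, τ = t / ℓ ^ 2 := ⟨_, rfl⟩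
    have hτm : τ ∈ Ico 0 T := by rw [hτ]; exact hmap t ht
    obtain ⟨hfin, hsum⟩ := hl τ hτm
    have hres : ∀ x, dt (ℓ ^ 2 * T) V t x + adv (V t) (V t) x - ν • lap (V t) x - g t x =
        ∑ i ∈ hfin.toFinset, ((ℓ⁻¹ * ℓ⁻¹ * ℓ⁻¹) * l τ i) • cf x₀ ℓ r i x := by
      intro x
      have h1 := (hsum (ℓ⁻¹ • (x - x₀))).unique
        (hasSum_sum_of_ne_finset_zero (s := hfin.toFinset) fun i hi => by
          have : l τ i = 0 := by
            by_contra h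
            exact hi (hfin.mem_toFinset.mpr h)
          rw [this, zero_smul])
      rw [hdt t ht, hVsc, adv_sc (hdf _ (hmap t ht)), lap_sc (hsmt _ (hmap t ht)), ← hτ, hg]
      simp only
      rw [← hτ]
      have h2 : ∀ i, cf x₀ ℓ r i x = r i (ℓ⁻¹ • (x - x₀)) := fun i => rfl
      simp only [h2, mul_smul _ (l τ _)]
      rw [← Finset.smul_sum, ← h1]
      generalize ℓ⁻¹ • (x - x₀) = y
      rw [smul_sub, smul_sub, smul_add, smul_comm ν]
      congr 2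
      ring
    simp only [hres]
    have hsup : ∀ i, HasCompactSupport (cf x₀ ℓ r i) := by
      intro i
      refine HasCompactSupport.intro (isCompact_closedBall x₀ ℓ) fun x hx => ?_
      rw [Metric.mem_closedBall, not_le, dist_eq_norm] at hx
      unfold cf
      rw [hrout]
      rw [norm_smul, norm_inv, Real.norm_of_nonneg hℓ.le, inv_mul_eq_div, le_div_iff₀ hℓ]
      linarith
    have hcfc : ∀ p, Continuous (cf x₀ ℓ r p) := by
      intro p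
      unfold cf
      exact (hrsm p).continuous.comp (by fun_prop)
    exact inner_finset hcfc hsup v hv _ _
  · intro t ht
    have h1 : ∫ s in (0 : ℝ)..t, dir (V s) = ∫ s in (0 : ℝ)..t, ℓ⁻¹ * dir (U (s / ℓ ^ 2)) := by
      apply intervalIntegral.integral_congr
      intro s hs
      rw [uIcc_of_le ht.1] at hs
      simp only
      rw [hVsc, dir_sc hℓ x₀ (hdf _ (hmap s ⟨hs.1, hs.2.trans_lt ht.2⟩))]
    rw [h1, intervalIntegral.integral_const_mul,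
      intervalIntegral.integral_comp_div (fun s => dir (U s)) hℓ2.ne', zero_div, hV0, smul_eq_mul]
    have h2 := hC.dis _ (hmap t ht)
    have e : ν * (ℓ⁻¹ * (ℓ ^ 2 * ∫ s in (0 : ℝ)..t / ℓ ^ 2, dir (U s))) =
        ℓ * (ν * ∫ s in (0 : ℝ)..t / ℓ ^ 2, dir (U s)) := by
      field_simp
    rw [e]
    calc _ ≤ ℓ * (ε * ip (U 0) (U 0)) := mul_le_mul_of_nonneg_left h2 hℓ.le
      _ = _ := by ring
  · intro t ht
    have h1 : ∫ s in (0 : ℝ)..t, ip (V s) (g s) =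
        ∫ s in (0 : ℝ)..t, ℓ⁻¹ * ip (U (s / ℓ ^ 2)) (f (s / ℓ ^ 2)) := by
      apply intervalIntegral.integral_congr
      intro s hs
      simp only
      have h3 : g s = fun x => (ℓ⁻¹) ^ 3 • (fun x => f (s / ℓ ^ 2) (ℓ⁻¹ • (x - x₀))) x := by
        rw [hg]
      rw [hVsc, h3, ip_smul_right, ip_sc hℓ]
      field_simp
    rw [h1, intervalIntegral.integral_const_mul,
      intervalIntegral.integral_comp_div (fun s => ip (U s) (f s)) hℓ2.ne', zero_div, hV0,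
      smul_eq_mul]
    have h2 := hC.wrk _ (hmap t ht)
    have e : ℓ⁻¹ * (ℓ ^ 2 * ∫ s in (0 : ℝ)..t / ℓ ^ 2, ip (U s) (f s)) =
        ℓ * ∫ s in (0 : ℝ)..t / ℓ ^ 2, ip (U s) (f s) := by
      field_simp
    rw [e, abs_mul, abs_of_pos hℓ]
    calc _ ≤ ℓ * (ε * ip (U 0) (U 0)) := mul_le_mul_of_nonneg_left h2 hℓ.le
      _ = _ := by ring
  · intro v hv
    obtain ⟨c, hc, hc2⟩ := hC.wlim (fun y => v (x₀ + ℓ • y)) (memLp_comp hℓ x₀ hv)
    refine ⟨ℓ ^ 2 * c, ?_, ?_⟩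
    · have h1 : Tendsto (fun t : ℝ => t / ℓ ^ 2) (𝓝[<] (ℓ ^ 2 * T)) (𝓝[<] T) := by
        apply tendsto_nhdsWithin_of_tendsto_nhds_of_eventually_within
        · have h2 : Tendsto (fun t : ℝ => t / ℓ ^ 2) (𝓝 (ℓ ^ 2 * T)) (𝓝 (ℓ ^ 2 * T / ℓ ^ 2)) :=
            (continuous_id.div_const _).tendsto _
          rw [mul_div_cancel_left₀ _ hℓ2.ne'] at h2
          exact h2.mono_left nhdsWithin_le_nhds
        · filter_upwards [self_mem_nhdsWithin] with t ht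
          rw [mem_Iio] at ht ⊢
          rw [div_lt_iff₀ hℓ2]
          linarith [mul_comm (ℓ ^ 2) T]
      have h2 := (hc.comp h1).const_mul (ℓ ^ 2)
      refine h2.congr fun t => ?_
      rw [hVsc, ip_comp' hℓ]
      rfl
    · rw [hV0, ip_comp hℓ x₀ v]
      calc (ℓ ^ 2 * c) ^ 2 = ℓ ^ 4 * c ^ 2 := by ring
        _ ≤ ℓ ^ 4 * (ε * ip (U 0) (U 0) *
            ip (fun y => v (x₀ + ℓ • y)) (fun y => v (x₀ + ℓ • y))) :=
          mul_le_mul_of_nonneg_left hc2 (by positivity)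
        _ = _ := by ring

end Pool.Agent.N976.EN
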