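import Pool.Agent.N976.EN.Def3

/-!
# The weak limit of the sums of packets (step L4 of project EN)
-/

open Set Filter Topology MeasureTheory
open scoped ContDiff InnerProductSpace

set_option autoImplicit false

namespace Pool.Agent.N976.EN

open Pool.Agent.N976.SC

namespace L4

/-- Bessel's inequality. -/
lemma bessel {H : Type} [NormedAddCommGroup H] [InnerProductSpace ℝ H] (e : ℕ → H) {N : ℝ} (hN : 0 < N)
    (he : ∀ m n, ⟪e m, e n⟫_ℝ = if m = n then N else 0) (v : H) (M : ℕ) :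
    ∑ n ∈ Finset.range M, ⟪e n, v⟫_ℝ ^ 2 ≤ N * ⟪v, v⟫_ℝ := by
  set w : H := ∑ n ∈ Finset.range M, (⟪e n, v⟫_ℝ / N) • e n with hw
  set S : ℝ := ∑ n ∈ Finset.range M, ⟪e n, v⟫_ℝ ^ 2 with hS
  have h0 : 0 ≤ ⟪v - w, v - w⟫_ℝ := real_inner_self_nonneg
  have h1 : ⟪w, v⟫_ℝ = S / N := by
    rw [hw, sum_inner, hS, Finset.sum_div]
    refine Finset.sum_congr rfl fun n _ => ?_
    rw [real_inner_smul_left]
    ring
  have h2 : ⟪w, w⟫_ℝ = S / N := by
    rw [← h1]
    nth_rw 1 [hw]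
    nth_rw 2 [hw]
    rw [sum_inner, sum_inner]
    refine Finset.sum_congr rfl fun n hn => ?_
    rw [real_inner_smul_left, real_inner_smul_left, hw, inner_sum]
    congr 1
    rw [Finset.sum_eq_single n]
    · rw [real_inner_smul_right, he, if_pos rfl]
      field_simp
    · intro m _ hm
      rw [real_inner_smul_right, he, if_neg (Ne.symm hm), mul_zero]
    · intro h
      exact absurd hn h
  have h3 : ⟪v, w⟫_ℝ = S / N := by rw [real_inner_comm, h1]
  rw [inner_sub_left, inner_sub_right, inner_sub_right, h1, h2, h3] at h0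
  have h4 : S / N ≤ ⟪v, v⟫_ℝ := by linarith
  rw [div_le_iff₀ hN] at h4
  linarith

/-- The scalar part. -/
lemma scalar {T B K E : ℝ} {X : ℕ → ℝ → ℝ} {b : ℕ → ℝ} {S : ℝ → ℝ} (hT : 0 < T) (hE : 0 < E)
    (hb : ∀ M, ∑ n ∈ Finset.range M, b n ^ 2 ≤ K)
    (hfin : ∀ t ∈ Ico 0 T, ∃ M, ∀ n ≥ M, X n t = 0)
    (hS : ∀ t ∈ Ico 0 T, ∀ M, (∀ n ≥ M, X n t = 0) → S t = ∑ n ∈ Finset.range M, X n t * b n)
    (hlip : ∀ n, ∃ C : NNReal, LipschitzOnWith C (X n) (Ico 0 T))
    (hlim : ∀ n, ∃ t₀ < T, ∀ t ∈ Ico t₀ T, |X n t| ≤ E / 2 ^ n)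
    (hB : ∀ t ∈ Ico 0 T, ∀ M, ∑ n ∈ Finset.range M, X n t ^ 2 ≤ B) :
    ∃ c, Tendsto S (𝓝[<] T) (𝓝 c) ∧ c ^ 2 ≤ 2 * E ^ 2 * K := by
  have hmem : Ico 0 T ∈ 𝓝[<] T := Ico_mem_nhdsLT hT
  -- the limits
  have hx : ∀ n, ∃ x, Tendsto (X n) (𝓝[<] T) (𝓝 x) ∧ |x| ≤ E / 2 ^ n := by
    intro n
    obtain ⟨C, hC⟩ := hlip n
    obtain ⟨g, hg, hgX⟩ := hC.extend_real
    have h1 : Tendsto g (𝓝[<] T) (𝓝 (g T)) := hg.continuous.continuousAt.tendsto.mono_left nhdsWithin_le_nhds
    have h2 : X n =ᶠ[𝓝[<] T] g := by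
      filter_upwards [hmem] with t ht using hgX ht
    have h3 := h1.congr' h2.symm
    refine ⟨g T, h3, ?_⟩
    obtain ⟨t₀, ht₀, hle⟩ := hlim n
    refine le_of_tendsto h3.abs ?_
    filter_upwards [Ico_mem_nhdsLT ht₀] with t ht using hle t ht
  choose x hx1 hx2 using hx
  have hK0 : 0 ≤ K := by simpa using hb 0
  have hB0 : 0 ≤ B := by
    have := hB 0 ⟨le_rfl, hT⟩ 0
    simpa using this
  -- the squares of `b` are summable
  have hbs : Summable fun n => b n ^ 2 := summable_of_sum_range_le (fun n => sq_nonneg _) hb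
  -- the sum of the squares of the limits
  have hxs : ∀ M, ∑ n ∈ Finset.range M, x n ^ 2 ≤ 2 * E ^ 2 := by
    intro M
    have h1 : ∀ n, x n ^ 2 ≤ E ^ 2 * (1 / 2) ^ n := by
      intro n
      have h2 : x n ^ 2 ≤ (E / 2 ^ n) ^ 2 := by
        rw [← sq_abs]
        exact pow_le_pow_left₀ (abs_nonneg _) (hx2 n) 2
      refine h2.trans ?_
      rw [div_pow, ← pow_mul, mul_comm n 2, pow_mul, div_eq_mul_inv, one_div, inv_pow]
      refine mul_le_mul_of_nonneg_left ?_ (sq_nonneg _)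
      exact inv_anti₀ (by positivity) (pow_le_pow_left₀ (by norm_num) (by norm_num) n)
    calc ∑ n ∈ Finset.range M, x n ^ 2 ≤ ∑ n ∈ Finset.range M, E ^ 2 * (1 / 2) ^ n :=
          Finset.sum_le_sum fun n _ => h1 n
      _ = E ^ 2 * ∑ n ∈ Finset.range M, (1 / 2 : ℝ) ^ n := by rw [Finset.mul_sum]
      _ ≤ E ^ 2 * 2 := mul_le_mul_of_nonneg_left (sum_geometric_two_le M) (sq_nonneg _)
      _ = _ := by ring
  have hxsum : Summable fun n => x n ^ 2 := summable_of_sum_range_le (fun n => sq_nonneg _) hxs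
  have hxb : Summable fun n => x n * b n := by
    refine Summable.of_norm_bounded (g := fun n => x n ^ 2 + b n ^ 2) (hxsum.add hbs) fun n => ?_
    rw [Real.norm_eq_abs, abs_mul]
    have h1 := sq_abs (x n)
    have h2 := sq_abs (b n)
    nlinarith [sq_nonneg (|x n| - |b n|), sq_nonneg (|x n| + |b n|)]
  -- the remainder
  set rem : ℕ → ℝ := fun M => (∑' n, b n ^ 2) - ∑ n ∈ Finset.range M, b n ^ 2 with hrem
  have hrem0 : Tendsto rem atTop (𝓝 0) := by
    have := hbs.hasSum.tendsto_sum_nat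
    have h2 := (tendsto_const_nhds (x := ∑' n, b n ^ 2)).sub this
    rwa [sub_self] at h2
  have hremle : ∀ M M', M ≤ M' → ∑ n ∈ Finset.Ico M M', b n ^ 2 ≤ rem M := by
    intro M M' hMM
    rw [Finset.sum_Ico_eq_sub _ hMM, hrem]
    have := hbs.sum_le_tsum (Finset.range M') fun n _ => sq_nonneg (b n)
    simp only
    linarith
  have htail : ∀ M, ∀ t ∈ Ico 0 T, (S t - ∑ n ∈ Finset.range M, X n t * b n) ^ 2 ≤ B * rem M := by
    intro M t ht
    obtain ⟨M1, hM1⟩ := hfin t ht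
    have h1 := hS t ht (max M M1) fun n hn => hM1 n ((le_max_right _ _).trans hn)
    rw [h1, ← Finset.sum_Ico_eq_sub _ (le_max_left M M1)]
    refine (Finset.sum_mul_sq_le_sq_mul_sq _ _ _).trans ?_
    refine mul_le_mul ?_ (hremle _ _ (le_max_left _ _)) (Finset.sum_nonneg fun n _ => sq_nonneg _) hB0
    refine le_trans ?_ (hB t ht (max M M1))
    exact Finset.sum_le_sum_of_subset_of_nonneg (fun n hn => Finset.mem_range.2 (Finset.mem_Ico.1 hn).2)
      fun n _ _ => sq_nonneg _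
  refine ⟨∑' n, x n * b n, ?_, ?_⟩
  · have hu : TendstoUniformlyOnFilter (fun M t => ∑ n ∈ Finset.range M, X n t * b n) S atTop (𝓝[<] T) := by
      rw [Metric.tendstoUniformlyOnFilter_iff]
      intro δ hδ
      have h1 : ∀ᶠ M in atTop, B * rem M < δ ^ 2 := by
        have h2 := hrem0.const_mul B
        rw [mul_zero] at h2
        exact h2.eventually (gt_mem_nhds (by positivity))
      have h3 : ∀ᶠ t in 𝓝[<] T, t ∈ Ico 0 T := hmem
      filter_upwards [h1.prod_mk h3] with p hp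
      rw [Real.dist_eq]
      have h4 := (htail p.1 p.2 hp.2).trans_lt hp.1
      exact abs_lt_of_sq_lt_sq h4 hδ.le
    refine hu.tendsto_of_eventually_tendsto (L := fun M => ∑ n ∈ Finset.range M, x n * b n)
      (Eventually.of_forall fun M => ?_) hxb.hasSum.tendsto_sum_nat
    exact tendsto_finsetSum _ fun n _ => (hx1 n).mul_const _
  · refine le_of_tendsto (hxb.hasSum.tendsto_sum_nat.pow 2) (Eventually.of_forall fun M => ?_)
    refine (Finset.sum_mul_sq_le_sq_mul_sq _ _ _).trans ?_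
    exact mul_le_mul (hxs M) (hb M) (Finset.sum_nonneg fun n _ => sq_nonneg _) (by positivity)

lemma pq_cont {P : E3 → E3} (hP : ContDiff ℝ ∞ P) (q : ℝ) : Continuous (pq P q) := by
  unfold pq pk
  have := hP.continuous
  fun_prop

lemma pq_supp {P : E3 → E3} (hP : ∀ y, 1 / 2 ≤ ‖y‖ → P y = 0) {q : ℝ} (hq : 1 ≤ q) :
    HasCompactSupport (pq P q) := by
  refine HasCompactSupport.intro (isCompact_closedBall (0 : E3) 1) fun y hy => ?_
  rw [Metric.mem_closedBall, dist_zero_right, not_le] at hy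
  unfold pq pk
  rw [hP, smul_zero]
  rw [norm_smul, norm_pow, Real.norm_eq_abs, abs_of_nonneg (by linarith)]
  have h1 : 1 ≤ q ^ (2 * 1) := one_le_pow₀ hq
  nlinarith

end L4

open L4 in
theorem t_L4 : S_L4 := by
  intro q β lam N ε T A P r X hTX hq hT hN hA hε hort hact hder hlim hB v hv
  obtain ⟨B, hB⟩ := hB
  have hPm : ∀ n, MemLp (pq P (q n)) 2 (volume : Measure E3) := fun n =>
    (pq_cont hTX.sm (q n)).memLp_of_hasCompactSupport (pq_supp hTX.out (hq n))
  have hip : ∀ (f g : E3 → E3) (hf : MemLp f 2 (volume : Measure E3)) (hg : MemLp g 2 (volume : Measure E3)),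
      ⟪hf.toLp f, hg.toLp g⟫_ℝ = ip f g := by
    intro f g hf hg
    rw [L2.inner_def]
    unfold ip
    refine integral_congr_ae ?_
    filter_upwards [hf.coeFn_toLp, hg.coeFn_toLp] with y h1 h2
    rw [h1, h2]
  have hint : ∀ n, Integrable (fun y => inner ℝ (pq P (q n) y) (v y)) (volume : Measure E3) := by
    intro n
    refine (L2.integrable_inner ((hPm n).toLp _) (hv.toLp v)).congr ?_
    filter_upwards [(hPm n).coeFn_toLp, hv.coeFn_toLp] with y h1 h2
    rw [h1, h2]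
  suffices key : ∃ c, Tendsto (fun t => ip (su P q (fun n => X n t)) v) (𝓝[<] T) (𝓝 c) ∧
      c ^ 2 ≤ 2 * (A * ε) ^ 2 * (N * ip v v) by
    obtain ⟨c, hc1, hc2⟩ := key
    refine ⟨c, hc1, hc2.trans (le_of_eq ?_)⟩
    ring
  refine scalar (T := T) (B := B) (K := N * ip v v) (E := A * ε) (X := X)
    (b := fun n => ip (pq P (q n)) v) (S := fun t => ip (su P q (fun n => X n t)) v) hT (mul_pos hA hε)
    ?_ ?_ ?_ ?_ ?_ ?_
  · intro M
    have h1 := bessel (fun n => (hPm n).toLp (pq P (q n))) hN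
      (fun m n => by rw [hip, hort]) (hv.toLp v) M
    simp only [hip] at h1
    exact h1
  · intro t ht
    obtain ⟨M, hM⟩ := hact.fin t ht.2
    exact ⟨M, fun n hn => hM n hn t ⟨ht.1, le_rfl⟩⟩
  · intro t ht M hM
    have h1 : su P q (fun n => X n t) = fun y => ∑ n ∈ Finset.range M, X n t • pq P (q n) y := by
      funext y
      unfold su
      refine tsum_eq_sum fun n hn => ?_
      have h2 : X n t = 0 := hM n (by simpa using hn)
      simp only [h2, zero_smul]
    rw [h1]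
    unfold ip
    simp only [sum_inner, real_inner_smul_left]
    rw [integral_finsetSum _ fun n _ => (hint n).const_mul _]
    refine Finset.sum_congr rfl fun n _ => ?_
    rw [integral_const_mul]
  · intro n
    obtain ⟨C, hC⟩ := hder n
    refine ⟨C.toNNReal, ?_⟩
    refine (convex_Ico 0 T).lipschitzOnWith_of_nnnorm_derivWithin_le
      ((hact.sm n).differentiableOn (by simp)) fun t ht => ?_
    rw [← NNReal.coe_le_coe, coe_nnnorm, Real.norm_eq_abs]
    exact (hC t ht).trans (Real.le_coe_toNNReal C)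
  · intro n
    obtain ⟨t₀, h1, h2⟩ := hlim n
    refine ⟨t₀, h1, fun t ht => (h2 t ht).trans (le_of_eq ?_)⟩
    ring
  · intro t ht M
    obtain ⟨M1, hM1⟩ := hact.fin t ht.2
    have hs : Summable fun n => X n t ^ 2 := by
      refine summable_of_ne_finset_zero (s := Finset.range M1) fun n hn => ?_
      rw [hM1 n (by simpa using hn) t ⟨ht.1, le_rfl⟩]
      norm_num
    exact (hs.sum_le_tsum _ fun n _ => sq_nonneg _).trans (hB t ht)

end Pool.Agent.N976.EN
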