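import Pool.Agent.N976.EN.L1
import Pool.Agent.N976.EN.L2
import Pool.Agent.N976.EN.L3

/-! The Leray-Hopf solution which loses its energy. -/

open Set Filter Topology MeasureTheory
open scoped ContDiff InnerProductSpace

set_option autoImplicit false

namespace Pool.Agent.N976.EN

open Pool.Agent.N976.SC
open Pool.Agent.N976.DI (mv Con cf)
open H772R2.NS (jac IsTest L2V L2M L2sigma H1graph M3)

theorem lh {ι : Type} {Ω : Set E3} {ε ν T : ℝ} {r : ι → E3 → E3} {f U : ℝ → E3 → E3}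
    (hΩ : IsOpen Ω) (hν : 0 < ν) (hε : 0 < ε) (hr : ∀ i, Continuous (r i))
    (hrc : ∀ i, HasCompactSupport (r i)) (hrs : ∀ i, tsupport (r i) ⊆ Ω)
    (hF : FlowF Ω ν T r f U) (hC : Conc ε ν T f U) :
    ∃ (u : ℝ → L2V Ω) (G : ℝ → L2M Ω), CLH Ω ν T r f u G ∧
      (∀ t ∈ Ico 0 T, u t =ᵐ[volume.restrict Ω] U t ∧ G t =ᵐ[volume.restrict Ω] jac (U t) ∧
        ‖u t‖ ^ 2 / 2 + ν * (∫ s in (0 : ℝ)..t, ‖G s‖ ^ 2)
          = ‖u 0‖ ^ 2 / 2 + ∫ s in (0 : ℝ)..t, ∫ x in Ω, ⟪f s x, u s x⟫_ℝ) ∧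
      ‖u T‖ ^ 2 ≤ ε * ‖u 0‖ ^ 2 ∧ ν * (∫ s in (0 : ℝ)..T, ‖G s‖ ^ 2) ≤ ε * ‖u 0‖ ^ 2 ∧
      |∫ s in (0 : ℝ)..T, ∫ x in Ω, ⟪f s x, u s x⟫_ℝ| ≤ ε * ‖u 0‖ ^ 2 ∧
      (Bornology.IsBounded Ω → ∀ (u' : ℝ → L2V Ω) (G' : ℝ → L2M Ω), CLH Ω ν T r f u' G' →
        u' 0 =ᵐ[volume.restrict Ω] U 0 →
        (∀ t ∈ Icc 0 T, u' t = u t) ∧ ∀ᵐ t ∂(volume.restrict (Ioc 0 T)), G' t = G t) := by
  obtain ⟨u, G, h1, h2, h3, h4, h5⟩ := t_L1 ι Ω ε ν T r f U hΩ hν hε hr hrc hrs hF hC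
  refine ⟨u, G, h1, h2, h3, h4, h5, ?_⟩
  intro hb u' G' hL h0
  obtain ⟨k1, k2⟩ := t_L2 ι Ω ν T r f U u' G' hΩ hb hν hr hrc hrs hF hL h0
  have hT := hF.T0
  have e1 : ∀ t ∈ Ico 0 T, u' t = u t := by
    intro t ht
    apply Lp.ext
    exact (k1 t ht).trans (h2 t ht).1.symm
  refine ⟨?_, ?_⟩
  · intro t ht
    rcases lt_or_eq_of_le ht.2 with h | h
    · exact e1 t ⟨ht.1, h⟩
    · subst h
      refine ext_inner_right ℝ fun v => ?_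
      have a1 : Tendsto (fun s => ⟪u' s, v⟫_ℝ) (𝓝[Ico 0 t] t) (𝓝 ⟪u' t, v⟫_ℝ) :=
        (hL.wcont v t ⟨ht.1, le_rfl⟩).mono_left (nhdsWithin_mono _ Ico_subset_Icc_self)
      have a2 : Tendsto (fun s => ⟪u s, v⟫_ℝ) (𝓝[Ico 0 t] t) (𝓝 ⟪u t, v⟫_ℝ) :=
        (h1.wcont v t ⟨ht.1, le_rfl⟩).mono_left (nhdsWithin_mono _ Ico_subset_Icc_self)
      have a3 : Tendsto (fun s => ⟪u' s, v⟫_ℝ) (𝓝[Ico 0 t] t) (𝓝 ⟪u t, v⟫_ℝ) := by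
        refine a2.congr' ?_
        filter_upwards [self_mem_nhdsWithin] with s hs
        rw [e1 s hs]
      haveI : (𝓝[Ico 0 t] t).NeBot := by
        rw [← mem_closure_iff_nhdsWithin_neBot, closure_Ico hT.ne]
        exact ⟨hT.le, le_rfl⟩
      exact tendsto_nhds_unique a1 a3
  · have hne : ∀ᵐ t ∂(volume.restrict (Ioc 0 T)), t ≠ T :=
      ae_restrict_of_ae (Measure.ae_ne volume T)
    filter_upwards [k2, hne, ae_restrict_mem measurableSet_Ioc] with t ht hn hm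
    apply Lp.ext
    exact ht.trans (h2 t ⟨hm.1.le, lt_of_le_of_ne hm.2 hn⟩).2.1.symm

end Pool.Agent.N976.EN
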