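import Pool.Agent.N976.EN.Core
import Pool.Agent.N976.EN.M5
import Pool.Agent.N976.SC.T13

/-! The main theorem on `ℝ³`. -/

open Set Filter Topology MeasureTheory
open scoped ContDiff InnerProductSpace

set_option autoImplicit false

namespace Pool.Agent.N976.EN

open Pool.Agent.N976.SC

namespace Main

lemma su_smul (P : E3 → E3) (q : ℕ → ℝ) (a : ℕ → ℝ) (c : ℝ) (y : E3) :
    su P q (fun n => c * a n) y = c • su P q a y := by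
  unfold su
  rw [← tsum_const_smul'']
  congr 1
  ext1 n
  rw [mul_smul]

lemma su_one (P : E3 → E3) (q : ℕ → ℝ) (a : ℕ → ℝ) (h : ∀ n, a (n + 1) = 0) (y : E3) :
    su P q a y = a 0 • pq P (q 0) y := by
  unfold su
  refine tsum_eq_single 0 fun n hn => ?_
  obtain ⟨k, rfl⟩ := Nat.exists_eq_succ_of_ne_zero hn
  rw [Nat.succ_eq_add_one, h, zero_smul]



/-- The data for all viscosities. -/
theorem pack (hK0 : S_K0) (hK1 : S_K1) (ε R₀ : ℝ) (hε : 0 < ε) :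
    ∃ (R T₀ β lam ε₁ N : ℝ) (q : ℕ → ℝ) (P P' : E3 → E3) (F : ℝ → E3 → E3)
      (r : Fin 3 × ℕ → E3 → E3), 0 < ε₁ ∧ ε₁ ≤ 1 / 8 ∧ 8 * ε₁ ≤ ε ∧ R₀ ≤ R ∧ 1 < R ∧ 0 < T₀ ∧
      ContDiff ℝ ∞ P' ∧ (∀ y, 1 / 2 ≤ ‖y‖ → P' y = 0) ∧ (∀ y, divg P' y = 0) ∧ 0 < ip P' P' ∧
      ContDiff ℝ ∞ (fun z : ℝ × E3 => F z.1 z.2) ∧
      (∀ t y, (t ≤ 0 ∨ T₀ ≤ t ∨ 1 / 2 ≤ ‖y‖) → F t y = 0) ∧ (∀ t y, divg (F t) y = 0) ∧
      (∀ t y, ‖F t y‖ ≤ ε) ∧ (∀ p, ContDiff ℝ ∞ (r p)) ∧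
      (∀ i n y, 1 ≤ R ^ ((6 / 5 : ℝ) ^ n) * ‖y‖ → r (i, n) y = 0) ∧
      ∀ ν : ℝ, 0 < ν → ∃ (A : ℝ) (σ : ℕ → ℝ) (X G : ℕ → ℝ → ℝ),
        Fd ε₁ ν β lam N q P r (T₀ / ν) A σ X G ∧ (∀ y, fU P q X 0 y = ν • P' y) ∧
        fU P q G = fun t y => ν ^ 2 • F (ν * t) y := by
  obtain ⟨Q, β, lam, ε₁, N, T₁, P, r, σ, x, g, he1, he2, he3, hR, hR1, hT, hN, hnrm, hq2, hqq,
    hC, hF, hro⟩ := core ε R₀ hε
  have hβ := hT.β0
  have hlam := hT.lam0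
  obtain ⟨q, hq⟩ : ∃ q, q = qs Q := ⟨_, rfl⟩
  rw [← hq] at hT hnrm hq2 hqq hC hF
  obtain ⟨G, hG⟩ : ∃ G : ℕ → ℝ → ℝ, G = fun n t => 1 * lam / β * (1 * lam) * g n (1 * lam * t) :=
    ⟨_, rfl⟩
  rw [← hG] at hF
  have h1 := hK0 ε₁ 1 β lam N q P r T₁ σ x g he1 one_pos hN hT hnrm hq2 hqq hC
  rw [← hG] at h1
  obtain ⟨-, hfl1, hsup1, -, hdF⟩ := hK1 _ _ _ _ _ _ _ _ _ _ _ _ _ h1
  have hT1 : T₁ / (1 * lam) = T₁ / lam := by rw [one_mul]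
  rw [hT1] at h1 hfl1 hsup1
  have hout : ∀ y, 1 / 2 ≤ ‖y‖ → pq P (q 0) y = 0 := fun y hy =>
    M01.pq_out hT.out (by linarith [hq2 0]) y hy
  have hdpq : ∀ y, divg (pq P (q 0)) y = 0 := fun y =>
    T4.divg_pk (hT.sm.differentiable (by simp)) hT.div 1 y
  have hcd : ContDiff ℝ ∞ (pq P (q 0)) := M01.pq_cd hT.sm _
  have hT0 := hC.T0
  refine ⟨Q ^ (5 / 3 : ℝ), T₁ / lam, β, lam, ε₁, N, q, P, fun y => (lam / β) • pq P (q 0) y,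
    fU P q G, r, he1, he2, he3, hR, hR1, by positivity, T4.cd_sm hcd _, ?_,
    divg_smul' (hcd.differentiable (by simp)) hdpq _, ?_, hfl1.fsm, hsup1, hdF, hF, hT.rsm,
    hro, ?_⟩
  · intro y hy
    simp only [hout y hy, smul_zero]
  · rw [T4.ip_smul, T4.ip_smul_left, hnrm 0 0, if_pos rfl]
    positivity
  · intro ν hν
    refine ⟨ν * lam / β, fun n => σ n / (ν * lam), fun n t => ν * lam / β * x n (ν * lam * t),
      fun n t => ν * lam / β * (ν * lam) * g n (ν * lam * t), ?_, ?_, ?_⟩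
    · have h2 := hK0 ε₁ ν β lam N q P r T₁ σ x g he1 hν hN hT hnrm hq2 hqq hC
      have e : T₁ / lam / ν = T₁ / (ν * lam) := by rw [div_div, mul_comm lam ν]
      rw [e]
      exact h2
    · intro y
      unfold fU
      have h3 : ∀ n, ν * lam / β * x (n + 1) (ν * lam * 0) = 0 := by
        intro n
        rw [mul_zero, hC.act n 0 ⟨le_rfl, hC.σ0 ▸ hC.σm.monotone (Nat.zero_le n)⟩, mul_zero]
      rw [su_one P q (fun n => ν * lam / β * x n (ν * lam * 0)) h3]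
      simp only [mul_zero, hC.ini, mul_one, smul_smul]
      congr 1
      ring
    · ext1 t
      ext1 y
      unfold fU
      rw [← su_smul, hG]
      congr 1
      ext1 n
      have e : 1 * lam * (ν * t) = ν * lam * t := by ring
      simp only [e]
      ring

end Main

open Main

theorem main_of (hK0 : S_K0) (hK1 : S_K1) (hK2 : S_K2) (hK3 : S_K3) (hK4 : S_K4) (ε R₀ : ℝ)
    (hε : 0 < ε) :
    ∃ (R T₀ : ℝ) (P : E3 → E3) (F : ℝ → E3 → E3) (r : Fin 3 × ℕ → E3 → E3),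
      R₀ ≤ R ∧ 1 < R ∧ 0 < T₀ ∧
      ContDiff ℝ ∞ P ∧ (∀ y, 1 ≤ ‖y‖ → P y = 0) ∧ (∀ y, divg P y = 0) ∧ 0 < ip P P ∧
      ContDiff ℝ ∞ (fun z : ℝ × E3 => F z.1 z.2) ∧
      (∀ t y, (t ≤ 0 ∨ T₀ ≤ t ∨ 1 ≤ ‖y‖) → F t y = 0) ∧ (∀ t y, divg (F t) y = 0) ∧
      (∀ t y, ‖F t y‖ ≤ ε) ∧
      (∀ p, ContDiff ℝ ∞ (r p)) ∧
      (∀ i n y, 1 ≤ R ^ ((6 / 5 : ℝ) ^ n) * ‖y‖ → r (i, n) y = 0) ∧
      ∀ ν : ℝ, 0 < ν → ∃ (u : ℝ → E3 → E3) (l : Fin 3 × ℕ → ℝ → ℝ),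
        SolF ν r (fun t y => ν ^ 2 • F (ν * t) y) (T₀ / ν) u ∧
        (∀ y, u 0 y = ν • P y) ∧
        ContDiffOn ℝ ∞ (fun z : ℝ × E3 => u z.1 z.2) (Ico 0 (T₀ / ν) ×ˢ univ) ∧
        (∀ t ∈ Ico 0 (T₀ / ν), ∀ y, 1 ≤ ‖y‖ → u t y = 0) ∧
        (∀ p, ContDiffOn ℝ ∞ (l p) (Ico 0 (T₀ / ν))) ∧
        (∀ T' < T₀ / ν, ∃ M, ∀ i, ∀ n ≥ M, ∀ t ∈ Icc 0 T', l (i, n) t = 0) ∧
        (∀ t ∈ Ico 0 (T₀ / ν), ∀ y, HasSum (fun p => l p t • r p y)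
          (dt (T₀ / ν) u t y + adv (u t) (u t) y - ν • lap (u t) y - ν ^ 2 • F (ν * t) y)) ∧
        (∀ (T' : ℝ) (v : ℝ → E3 → E3), 0 < T' →
          SolF ν r (fun t y => ν ^ 2 • F (ν * t) y) T' v → v 0 = u 0 →
          T' ≤ T₀ / ν ∧ ∀ t ∈ Ico 0 T', v t = u t) ∧
        (ContinuousOn (fun t => ip (u t) (u t)) (Ico 0 (T₀ / ν)) ∧
          ∀ t ∈ Ioo 0 (T₀ / ν), HasDerivAt (fun τ => ip (u τ) (u τ))
            (-(2 * (ν * dir (u t))) + 2 * ip (u t) (fun y => ν ^ 2 • F (ν * t) y)) t) ∧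
        (∀ t ∈ Ico 0 (T₀ / ν), (1 - ε) * ip (u 0) (u 0) ≤ ip (u t) (u t) ∧
          ip (u t) (u t) ≤ (1 + ε) * ip (u 0) (u 0) ∧
          ν * (∫ s in (0 : ℝ)..t, dir (u s)) ≤ ε * ip (u 0) (u 0) ∧
          |∫ s in (0 : ℝ)..t, ip (u s) (fun y => ν ^ 2 • F (ν * s) y)| ≤ ε * ip (u 0) (u 0)) ∧
        ∀ δ > 0, ∃ t₀ < T₀ / ν, ∀ t ∈ Ico t₀ (T₀ / ν), 0 ≤ t →
          ∫ y in {y : E3 | δ ≤ ‖y‖}, ‖u t y‖ ^ 2 ≤ ε * ip (u 0) (u 0) := by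
  obtain ⟨R, T₀, β, lam, ε₁, N, q, P, P', F, r, he1, he2, he3, hR, hR1, hT0, hP, hPo, hPd, hPn,
    hFs, hFo, hFd, hFb, hr, hro, h⟩ := pack hK0 hK1 ε R₀ hε
  refine ⟨R, T₀, P', F, r, hR, hR1, hT0, hP, fun y hy => hPo y (by linarith), hPd, hPn, hFs, ?_,
    hFd, hFb, hr, hro, fun ν hν => ?_⟩
  · rintro t y (h | h | h)
    · exact hFo t y (Or.inl h)
    · exact hFo t y (Or.inr (Or.inl h))
    · exact hFo t y (Or.inr (Or.inr (by linarith)))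
  obtain ⟨A, σ, X, G, hD, hu0, hf⟩ := h ν hν
  obtain ⟨hsol, hfl, -, huo, -⟩ := hK1 _ _ _ _ _ _ _ _ _ _ _ _ _ hD
  obtain ⟨hl1, hl2, -, hl4⟩ := hK2 _ _ _ _ _ _ _ _ _ _ _ _ _ hD
  obtain ⟨e0, e1, e2, e3, e4⟩ := hK3 _ _ _ _ _ _ _ _ _ _ _ _ _ hD hsol
  have hN := hD.N0
  have hA := hD.A0
  have hE : 0 < N * A ^ 2 := by positivity
  -- the constraint fields and the force
  have hrc : ∀ p, Continuous (r p) := fun p => (hr p).continuous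
  have hr1 : ∀ p y, 1 ≤ ‖y‖ → r p y = 0 := by
    rintro ⟨i, n⟩ y hy
    apply hro
    have : (1 : ℝ) ≤ R ^ ((6 / 5 : ℝ) ^ n) := Real.one_le_rpow hR1.le (by positivity)
    nlinarith
  have hcs : ∀ v : E3 → E3, (∀ y, 1 ≤ ‖y‖ → v y = 0) → HasCompactSupport v := by
    intro v hv
    refine HasCompactSupport.of_support_subset_isCompact (isCompact_closedBall 0 1) ?_
    intro y hy
    rw [Metric.mem_closedBall, dist_zero_right]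
    by_contra h
    exact hy (hv y (not_le.1 h).le)
  have hfc : ∀ t, Continuous (fU P q G t) := fun t =>
    hfl.fsm.continuous.comp (Continuous.prodMk continuous_const continuous_id)
  have hfcs : ∀ t, HasCompactSupport (fU P q G t) := by
    intro t
    rw [hf]
    apply hcs
    intro y hy
    show ν ^ 2 • F (ν * t) y = 0
    rw [hFo _ y (Or.inr (Or.inr (by linarith))), smul_zero]
  obtain ⟨en1, en2⟩ := t_ENF (Fin 3 × ℕ) ν (T₀ / ν) r (fU P q G) (fU P q X) hν.le hfc hfcs hsol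
  have hmax := hK4 (Fin 3 × ℕ) ν (T₀ / ν) ((1 - ε₁) * (N * A ^ 2)) r (fU P q G) (fU P q X) hν.le
    hD.T0 (by nlinarith) hrc (fun p => hcs _ (hr1 p)) hfc hfcs hsol (fun t ht => (e1 t ht).1)
    (fun δ hδ => by
      obtain ⟨t₀, h1, h2⟩ := e4 δ hδ
      refine ⟨t₀, h1, fun t ht h0 => (h2 t ht h0).trans ?_⟩
      have : 2 * ε₁ ^ 2 ≤ (1 - ε₁) / 2 := by nlinarith
      nlinarith)
  rw [hf] at hsol hl4 e3 en2 hmax
  refine ⟨fU P q X, fun p t => lx ν q (fun n => X n t) p, hsol, hu0, hfl.sm,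
    fun t ht y hy => huo t ht y (by linarith), hl1, ?_, hl4, hmax, ⟨en1, en2⟩, ?_, ?_⟩
  · intro T' hT'
    exact hl2 T' hT'
  · intro t ht
    rw [e0]
    refine ⟨?_, ?_, ?_, ?_⟩
    · have := (e1 t ht).1; nlinarith
    · have := (e1 t ht).2; nlinarith
    · have := e2 t ht; nlinarith
    · have := e3 t ht; nlinarith
  · intro δ hδ
    obtain ⟨t₀, h1, h2⟩ := e4 δ hδ
    refine ⟨t₀, h1, fun t ht h0 => (h2 t ht h0).trans ?_⟩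
    rw [e0]
    have : 2 * ε₁ ^ 2 ≤ ε := by nlinarith
    nlinarith

end Pool.Agent.N976.EN
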